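import Pool.Agent.TH738.SV.Limit

/-!
The final statement from the parts.
-/

set_option autoImplicit false

open FirstOrder FirstOrder.Language Filter
open Pool.Agent.Helper227.EN Pool.Agent.TH748.MU
open Pool.Agent.TH752.AR (scons prN)

namespace Pool.Agent.TH738.SV

theorem exists_change (t : ℕ → ℕ) (s' s : ℕ) (h : s' < s) (ht : t s' ≠ t s) :
    ∃ x, s' ≤ x ∧ x < s ∧ t (x + 1) ≠ t x := by
  by_contra hn
  push Not at hn
  apply ht
  obtain ⟨d, rfl⟩ := Nat.exists_eq_add_of_le h.le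
  clear ht h
  induction d with
  | zero => rfl
  | succ d ih =>
    rw [ih fun x hx hx' => hn x hx (by omega)]
    exact (hn (s' + d) (by omega) (by omega)).symm

section
variable {H : Hyp} {h : ℕ → ℕ → ℕ} {B : ℕ} {p : ℕ → PM} (S : IsSeq H h B p)
include S

theorem hdj (k x : ℕ) : ∃ j, k ≤ B + j ∧ Dec k (jc H.us k x) (p j) := by
  obtain ⟨j, hj⟩ := S.task (.jc k x)
  exact ⟨max j k, by omega, hj _ (le_max_left _ _)⟩

theorem hdp (i x v : ℕ) : ∃ j, 1 ≤ B + j ∧ Dec 1 (pc H.us 0 i x v) (p j) := by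
  obtain ⟨j, hj⟩ := S.task (.pc i x v)
  exact ⟨max j 1, by omega, hj _ (le_max_left _ _)⟩

theorem chg_val {r e i : ℕ} (hi : r ≤ B + i) {t : ℕ → ℕ}
    (ht : ∀ s, Phi (jump^[r] (DD p)) e (Nat.pair r s) = Part.some (t s)) : ∀ (c s v : ℕ),
    Chg H r e c s v (p i) → t s = v ∧ ∃ F : Finset ℕ, F.card = c ∧
      ∀ x ∈ F, x < s ∧ t (x + 1) ≠ t x := by
  have hv : ∀ s v, Frc (r + 1) (pc H.us r e (Nat.pair r s) v) (p i) → t s = v := by
    intro s v h
    have h1 := (sound_pc H.cl S.ext H.us (hdj S) r e (Nat.pair r s) v).a i (by omega) h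
    rw [ev_pc, ht] at h1
    exact Part.some_inj.1 h1
  intro c
  induction c with
  | zero =>
    intro s v h
    exact ⟨hv s v h, ∅, rfl, fun x hx => absurd hx (Finset.notMem_empty x)⟩
  | succ c ih =>
    rintro s v ⟨h, s', hs', v', hv', h'⟩
    obtain ⟨h1, F, h2, h3⟩ := ih s' v' h'
    have h4 := hv s v h
    obtain ⟨x, hx1, hx2, hx3⟩ := exists_change t s' s hs' (by rw [h1, h4]; exact hv')
    refine ⟨h4, insert x F, ?_, fun y hy => ?_⟩
    · rw [Finset.card_insert_of_notMem, h2]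
      intro hx
      have := (h3 x hx).1
      omega
    · rcases Finset.mem_insert.1 hy with rfl | hy
      · exact ⟨hx2, hx3⟩
      · exact ⟨(h3 y hy).1.trans hs', (h3 y hy).2⟩

end

theorem chi_inj {X Y : Set ℕ} (h : ∀ n, chi X n = chi Y n) : X = Y := by
  ext n
  have := h n
  unfold chi at this
  by_cases h1 : n ∈ X <;> by_cases h2 : n ∈ Y <;> simp_all

theorem final_of (H : Hyp) (hc : ChainStmt) (h : ℕ → ℕ → ℕ) :
    ∃ A : LA.Structure ℕ, @FirstOrder.Language.Theory.Model LA ℕ A PA ∧ Nonstandard A ∧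
      ∀ t : ℕ → ℕ → ℕ, IsSolovay (diagram A) (thSig A) t →
        ∀ i N : ℕ, ∃ n, N ≤ n ∧ 1 ≤ n ∧ ¬ ChangesAtMost (h i n) (t n) := by
  obtain ⟨B, p, S⟩ := exists_seq H hc h
  refine ⟨AA S, pa_lim S, nonstd_lim S, fun t ht l N => ?_⟩
  obtain ⟨e, he⟩ := ht.uniform
  have hlim := ht.limit
  rw [diagram_lim S] at he hlim
  have hout := S.out (Nat.pair (Nat.pair e l) N)
  rw [Nat.unpair_pair] at hout
  dsimp only at hout
  rw [Nat.unpair_pair] at hout
  dsimp only at hout
  have hN : N ≤ Nat.pair (Nat.pair e l) N := Nat.right_le_pair _ _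
  generalize Nat.pair (Nat.pair e l) N = j at hout hN
  refine ⟨B + j + 1, by omega, by omega, fun hK => ?_⟩
  have hts : thSig (AA S) (B + j + 1) = TS (B + j + 1) (p (j + 1)).M :=
    thSig_lim S (by omega)
  rcases hout with ⟨s, v, hbad, hno⟩ | ⟨s, v, hchg⟩ | hnone
  · -- the limit is wrong
    have h1 : ∀ s', s < s' → t (B + j + 1) s' = v := by
      intro s' hs'
      by_contra h2
      have h3 : NFrc (B + j + 1) (pc H.us (B + j) e (Nat.pair (B + j) s') (t (B + j + 1) s'))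
          (p (j + 1)) := fun q hq => hno q hq s' hs' _ h2
      refine (sound_pc H.cl S.ext H.us (hdj S) (B + j) e _ _).n H.cl S.ext (by omega) h3 ?_
      rw [ev_pc]
      exact he (B + j) s'
    obtain ⟨s₀, h2, h3⟩ := hlim (B + j + 1) (by omega)
    have h4 : t (B + j + 1) s₀ = v := by
      rw [← h2 (max s₀ (s + 1)) (le_max_left _ _)]
      exact h1 _ (by omega)
    rw [h4, hts] at h3
    obtain ⟨Y, ⟨h5, h6⟩ | ⟨h5, h6⟩⟩ := hbad
    · have h7 := (sound_nq H.cl S.ext H.us (hdj S) (hdp S) v Y).a (j + 1) (by omega) h5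
      rw [ev_nq] at h7
      rw [h6] at h7
      exact h7 h3
    · have h8 := S.hB
      have h7 := (sound_nq H.cl S.ext H.us (hdj S) (hdp S) v Y).n H.cl S.ext (by omega) h5
      rw [ev_nq, not_not] at h7
      apply h6
      apply chi_inj
      intro n
      exact Part.some_inj.1 ((h7 n).symm.trans (h3 n))
  · -- too many changes
    obtain ⟨_, F, h1, h2⟩ := chg_val S (i := j + 1) (by omega) (he (B + j)) _ _ _ hchg
    have := hK F fun x hx => (h2 x hx).2
    omega
  · -- no value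
    refine (sound_pc H.cl S.ext H.us (hdj S) (B + j) e _ _).n H.cl S.ext (by omega)
      (hnone (t (B + j + 1) 0)) ?_
    rw [ev_pc]
    exact he (B + j) 0

end Pool.Agent.TH738.SV
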