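import Pool.Agent.TH738.SV.Stmts
import Pool.Agent.Helper227.EN.Alg

/-!
Increasing chains of `Σ_n` theories: the universal finite sequence argument.
-/

set_option autoImplicit false

open FirstOrder FirstOrder.Language
open Pool.Agent.Helper227.EN
open Pool.Agent.TH752.AR (scons prN)

namespace Pool.Agent.TH738.SV

namespace CHAIN

/-! ### Facts about models of `PA` -/

theorem real_num {M : Type} [LA.Structure M] (k : ℕ) (w : ℕ → M) :
    (num k : LA.Term ℕ).realize w = nu M k := by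
  induction k with
  | zero =>
    show (t0 : LA.Term ℕ).realize w = (t0 : LA.Term Empty).realize _
    rw [ea_t0, ea_t0]
  | succ k ih =>
    show (tadd (num k) t1 : LA.Term ℕ).realize w = (tadd (num k) t1 : LA.Term Empty).realize _
    rw [ea_tadd, ea_tadd, ea_t1, ea_t1, ih]
    rfl

/-- the pairing term -/
def prT (s t : LA.Term ℕ) : LA.Term ℕ := tadd (tmul (tadd s t) (tadd s t)) s

theorem real_prT {M : Type} [LA.Structure M] (s t : LA.Term ℕ) (w : ℕ → M) :
    (prT s t).realize w = prM M (s.realize w) (t.realize w) := by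
  unfold prT prM
  rw [ea_tadd, ea_tmul, ea_tadd]

/-- the pairing function on `ℕ` -/
def pr (a b : ℕ) : ℕ := (a + b) * (a + b) + a

theorem pr_inj {a b a' b' : ℕ} (h : pr a b = pr a' b') : a = a' ∧ b = b' := by
  unfold pr at h
  have key : ∀ x y x' y' : ℕ, (x + y) * (x + y) + x = (x' + y') * (x' + y') + x' →
      ¬ x + y < x' + y' := by
    intro x y x' y' h2 h3
    have h4 : x + y + 1 ≤ x' + y' := h3
    have h5 : (x + y + 1) * (x + y + 1) ≤ (x' + y') * (x' + y') := Nat.mul_le_mul h4 h4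
    nlinarith
  have h1 : a + b = a' + b' := by
    have k1 := key _ _ _ _ h
    have k2 := key _ _ _ _ h.symm
    omega
  rw [h1] at h
  omega

theorem pr_ge1 (a b : ℕ) : a ≤ pr a b := Nat.le_add_left _ _

theorem pr_ge2 (a b : ℕ) : b ≤ pr a b := by
  unfold pr
  nlinarith [Nat.zero_le a, Nat.zero_le b, Nat.le_mul_self (a + b)]

/-- the facts about a model of `PA` which are used -/
structure MF (M : Type) [LA.Structure M] : Prop where
  prn : ∀ a b, nu M (pr a b) = prM M (nu M a) (nu M b)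
  mono : ∀ a b, a < b → ltM M (nu M a) (nu M b)
  tot : ∀ x y, ltM M x y ∨ (ltM M y x ∨ x = y)
  irr : ∀ x, ¬ ltM M x x
  below : ∀ (k : ℕ) (x : M), (ltM M x (nu M k) ∨ x = nu M k) → ∃ j, j ≤ k ∧ x = nu M j
  pr1 : ∀ x y, (ltM M x (prM M x y) ∨ x = prM M x y)
  pr2 : ∀ x y, (ltM M y (prM M x y) ∨ y = prM M x y)

theorem mf (M : Type) [LA.Structure M] (h : M ⊨ PA) : MF M := by
  have : Nonempty M := ⟨nu M 0⟩
  have hminus : M ⊨ PAminus := Theory.Model.mono h Set.subset_union_left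
  obtain ⟨i1, i2, i3, i4, hc⟩ := exists_alg M hminus
  have : Pool.Agent.TH754.PK.PAm M := ⟨Pool.Agent.TH748.MU.ari_of_pa hc h⟩
  have hnu : ∀ k : ℕ, nu M k = (k : M) := by
    intro k
    induction k with
    | zero =>
      show (t0 : LA.Term Empty).realize _ = _
      rw [ea_t0, hc.zero]
      simp
    | succ k ih =>
      show (tadd (num k) t1 : LA.Term Empty).realize _ = _
      rw [ea_tadd, ea_t1, hc.one, hc.add]
      change nu M k + 1 = _
      rw [ih]
      simp
  have hpr : ∀ x y : M, prM M x y = prN x y := by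
    intro x y
    unfold prM prN
    rw [hc.add, hc.mul, hc.add]
  have hlt : ∀ x y : M, ltM M x y ↔ x < y := hc.lt
  have hle : ∀ x y : M, x ≤ y → (ltM M x y ∨ x = y) := by
    intro x y h
    rw [hlt]
    exact h.lt_or_eq
  refine ⟨?_, ?_, ?_, ?_, ?_, ?_, ?_⟩
  · intro a b
    rw [hnu, hnu, hnu, hpr]
    unfold pr prN
    push_cast
    rfl
  · intro a b hab
    rw [hlt, hnu, hnu]
    exact_mod_cast hab
  · intro x y
    rw [hlt, hlt]
    rcases lt_trichotomy x y with h | h | h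
    · exact Or.inl h
    · exact Or.inr (Or.inr h)
    · exact Or.inr (Or.inl h)
  · intro x
    rw [hlt]
    exact lt_irrefl x
  · intro k
    induction k with
    | zero =>
      intro x hx
      rw [hlt, hnu] at hx
      refine ⟨0, le_rfl, ?_⟩
      rw [hnu]
      simp only [Nat.cast_zero] at hx ⊢
      rcases hx with hx | hx
      · exact absurd hx (not_lt_of_ge (Pool.Agent.TH754.PK.z_le x))
      · exact hx
    | succ k ih =>
      intro x hx
      rcases hx with hx | hx
      · rw [hlt, hnu] at hx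
        push_cast at hx
        have h1 := Pool.Agent.TH754.PK.lt_succ.1 hx
        obtain ⟨j, hj, hj'⟩ := ih x (by rw [hnu]; exact hle _ _ h1)
        exact ⟨j, by omega, hj'⟩
      · exact ⟨k + 1, le_rfl, hx⟩
  · intro x y
    rw [hpr]
    exact hle _ _ (Pool.Agent.TH754.PK.pr_ge1 x y)
  · intro x y
    rw [hpr]
    exact hle _ _ (Pool.Agent.TH754.PK.pr_ge2 x y)

section
variable {M : Type} [LA.Structure M] (H : MF M)
include H

theorem MF.inj {a b : ℕ} (h : nu M a = nu M b) : a = b := by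
  rcases lt_trichotomy a b with h1 | h1 | h1
  · have := H.mono a b h1
    rw [h] at this
    exact absurd this (H.irr _)
  · exact h1
  · have := H.mono b a h1
    rw [h] at this
    exact absurd this (H.irr _)

/-- the components of a numeral are numerals -/
theorem MF.split {x y : M} {u : ℕ} (h : prM M x y = nu M u) :
    ∃ a b, x = nu M a ∧ y = nu M b ∧ u = pr a b := by
  obtain ⟨a, _, ha⟩ := H.below u x (by rw [← h]; exact H.pr1 x y)
  obtain ⟨b, _, hb⟩ := H.below u y (by rw [← h]; exact H.pr2 x y)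
  refine ⟨a, b, ha, hb, H.inj ?_⟩
  rw [H.prn, ← ha, ← hb, h]

end

/-! ### Bounded formulas -/

theorem term_dep (t : LA.Term ℕ) : ∃ r : ℕ, ∀ (M : Type) [LA.Structure M] (w w' : ℕ → M),
    (∀ i < r, w i = w' i) → t.realize w = t.realize w' := by
  induction t with
  | var i =>
    refine ⟨i + 1, fun M _ w w' h => ?_⟩
    exact h i (Nat.lt_succ_self i)
  | func f ts ih =>
    choose r hr using ih
    refine ⟨Finset.univ.sup r, fun M _ w w' h => ?_⟩
    rw [Term.realize_func, Term.realize_func]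
    congr 1
    funext i
    exact hr i M w w' fun j hj => h j (lt_of_lt_of_le hj (Finset.le_sup (Finset.mem_univ i)))

theorem bf_dep (f : BF) : ∃ r : ℕ, ∀ (M : Type) [LA.Structure M] (w w' : ℕ → M),
    (∀ i < r, w i = w' i) → (f.sat M w ↔ f.sat M w') := by
  induction f with
  | eq s t =>
    obtain ⟨r, hr⟩ := term_dep s
    obtain ⟨r', hr'⟩ := term_dep t
    refine ⟨max r r', fun M _ w w' h => ?_⟩
    show s.realize w = t.realize w ↔ s.realize w' = t.realize w'
    rw [hr M w w' fun i hi => h i (lt_of_lt_of_le hi (le_max_left _ _)),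
      hr' M w w' fun i hi => h i (lt_of_lt_of_le hi (le_max_right _ _))]
  | lt s t =>
    obtain ⟨r, hr⟩ := term_dep s
    obtain ⟨r', hr'⟩ := term_dep t
    refine ⟨max r r', fun M _ w w' h => ?_⟩
    show ltM M (s.realize w) (t.realize w) ↔ ltM M (s.realize w') (t.realize w')
    rw [hr M w w' fun i hi => h i (lt_of_lt_of_le hi (le_max_left _ _)),
      hr' M w w' fun i hi => h i (lt_of_lt_of_le hi (le_max_right _ _))]
  | bot => exact ⟨0, fun M _ w w' _ => Iff.rfl⟩
  | imp f g hf hg =>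
    obtain ⟨r, hr⟩ := hf
    obtain ⟨r', hr'⟩ := hg
    refine ⟨max r r', fun M _ w w' h => ?_⟩
    show (f.sat M w → g.sat M w) ↔ (f.sat M w' → g.sat M w')
    rw [hr M w w' fun i hi => h i (lt_of_lt_of_le hi (le_max_left _ _)),
      hr' M w w' fun i hi => h i (lt_of_lt_of_le hi (le_max_right _ _))]
  | ball t f hf =>
    obtain ⟨r, hr⟩ := hf
    obtain ⟨r', hr'⟩ := term_dep t
    refine ⟨max r r', fun M _ w w' h => ?_⟩
    show (∀ x : M, ltM M x (t.realize w) → f.sat M (scons x w)) ↔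
      (∀ x : M, ltM M x (t.realize w') → f.sat M (scons x w'))
    rw [hr' M w w' fun i hi => h i (lt_of_lt_of_le hi (le_max_right _ _))]
    refine forall_congr' fun x => imp_congr_right fun _ => ?_
    refine hr M _ _ fun i hi => ?_
    cases i with
    | zero => rfl
    | succ i => exact h i (lt_of_lt_of_le (by omega) (le_max_left _ _))

theorem ps_dep (f : BF) : ∃ r : ℕ, ∀ (b : Bool) (n : ℕ) (M : Type) [LA.Structure M]
    (w w' : ℕ → M), (∀ i < r, w i = w' i) → (PS M b n f w ↔ PS M b n f w') := by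
  obtain ⟨r, hr⟩ := bf_dep f
  refine ⟨r, fun b n M _ => ?_⟩
  induction n generalizing b with
  | zero =>
    intro w w' h
    have h1 : ∀ v, PS M b 0 f v ↔ f.sat M v := by
      intro v
      cases b <;> exact Iff.rfl
    rw [h1, h1]
    exact hr M w w' h
  | succ n ih =>
    intro w w' h
    have h1 : ∀ x : M, ∀ i < r, scons x w i = scons x w' i := by
      intro x i hi
      cases i with
      | zero => rfl
      | succ i => exact h i (by omega)
    cases b with
    | true => exact exists_congr fun x => ih false _ _ (h1 x)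
    | false => exact forall_congr' fun x => ih true _ _ (h1 x)

/-- code of a bounded formula -/
noncomputable def enc (te : LA.Term ℕ → ℕ) : BF → ℕ
  | .eq s t => 5 * Nat.pair (te s) (te t)
  | .lt s t => 5 * Nat.pair (te s) (te t) + 1
  | .bot => 2
  | .imp f g => 5 * Nat.pair (enc te f) (enc te g) + 3
  | .ball t f => 5 * Nat.pair (te t) (enc te f) + 4

theorem enc_inj (te : LA.Term ℕ → ℕ) (h : Function.Injective te) :
    Function.Injective (enc te) := by
  have h5 : 0 < 5 := by norm_num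
  intro f
  induction f with
  | eq s t =>
    intro g hg
    cases g <;> simp only [enc] at hg <;> try omega
    have h1 := Nat.pair_eq_pair.1 (Nat.eq_of_mul_eq_mul_left h5 hg)
    rw [h h1.1, h h1.2]
  | lt s t =>
    intro g hg
    cases g <;> simp only [enc] at hg <;> try omega
    have h1 := Nat.pair_eq_pair.1 (Nat.eq_of_mul_eq_mul_left h5 (Nat.add_right_cancel hg))
    rw [h h1.1, h h1.2]
  | bot =>
    intro g hg
    cases g <;> simp only [enc] at hg <;> try omega
    rfl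
  | imp f1 f2 h1 h2 =>
    intro g hg
    cases g <;> simp only [enc] at hg <;> try omega
    have h3 := Nat.pair_eq_pair.1 (Nat.eq_of_mul_eq_mul_left h5 (Nat.add_right_cancel hg))
    rw [h1 h3.1, h2 h3.2]
  | ball t f h1 =>
    intro g hg
    cases g <;> simp only [enc] at hg <;> try omega
    have h3 := Nat.pair_eq_pair.1 (Nat.eq_of_mul_eq_mul_left h5 (Nat.add_right_cancel hg))
    rw [h h3.1, h1 h3.2]

theorem fun_countable : Countable (Σ l, LA.Functions l) := by
  let c : (Σ l, LA.Functions l) → ℕ := fun x => match x with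
    | ⟨_, AF.zero⟩ => 0
    | ⟨_, AF.one⟩ => 1
    | ⟨_, AF.add⟩ => 2
    | ⟨_, AF.mul⟩ => 3
  refine Function.Injective.countable (f := c) ?_
  rintro ⟨l, g⟩ ⟨l', g'⟩ h
  cases g <;> cases g' <;> first | rfl | (simp [c] at h)

theorem bf_enum : ∃ e : ℕ → BF, Function.Surjective e := by
  have := fun_countable
  obtain ⟨te, hte⟩ := exists_injective_nat (LA.Term ℕ)
  have : Countable BF := (enc_inj te hte).countable
  have : Nonempty BF := ⟨BF.bot⟩
  exact exists_surjective_nat BF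

/-! ### The classes `Cl` -/

theorem cl_congr {b : Bool} {n : ℕ} {R S : URel} (h : Cl b n R)
    (e : ∀ (M : Type) [LA.Structure M] (w : ℕ → M), R M w ↔ S M w) : Cl b n S := by
  obtain ⟨f, hf⟩ := h
  exact ⟨f, fun M _ hM w => (hf M hM w).trans (e M w)⟩

theorem ps_zero {M : Type} [LA.Structure M] (b : Bool) (f : BF) (w : ℕ → M) :
    PS M b 0 f w ↔ f.sat M w := by
  cases b <;> exact Iff.rfl

section
variable (hnot : ClNot) (hand : ClAnd) (hor : ClOr) (hup : ClUp) (hex : ClEx) (hsub : ClSub)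

include hup in
theorem up_le {b : Bool} {n n' : ℕ} {R : URel} (h : n ≤ n') (hR : Cl b n R) : Cl b n' R := by
  rcases h.lt_or_eq with h | rfl
  · exact hup b b n n' R h hR
  · exact hR

include hup in
theorem cl_atom (f : BF) (b : Bool) (n : ℕ) : Cl b n (fun M _ w => f.sat M w) :=
  up_le hup (Nat.zero_le n) (⟨f, fun M _ _ w => ps_zero b f w⟩ : Cl b 0 _)

include hup in
theorem cl_const (p : Prop) (b : Bool) (n : ℕ) : Cl b n (fun _ _ _ => p) := by
  by_cases h : p
  · refine cl_congr (cl_atom hup (.imp .bot .bot) b n) fun M _ w => ?_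
    exact ⟨fun _ => h, fun _ h' => h'⟩
  · refine cl_congr (cl_atom hup .bot b n) fun M _ w => ?_
    exact ⟨fun h' => h'.elim, fun h' => h h'⟩

include hand hup in
/-- finite conjunctions -/
theorem cl_fin {b : Bool} {n : ℕ} {R : ℕ → URel} (hR : ∀ i, Cl b n (R i)) (K : ℕ) :
    Cl b n (fun M _ w => ∀ i < K, R i M w) := by
  induction K with
  | zero =>
    refine cl_congr (cl_const hup True b n) fun M _ w => ?_
    exact ⟨fun _ i hi => absurd hi (Nat.not_lt_zero i), fun _ => trivial⟩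
  | succ K ih =>
    refine cl_congr (hand b n _ _ ih (hR K)) fun M _ w => ?_
    constructor
    · rintro ⟨h1, h2⟩ i hi
      rcases Nat.lt_succ_iff_lt_or_eq.1 hi with h | rfl
      · exact h1 i h
      · exact h2
    · intro h
      exact ⟨fun i hi => h i (by omega), h K (Nat.lt_succ_self K)⟩

/-- `r` existential quantifiers -/
def exs : ℕ → URel → URel
  | 0, R => R
  | r + 1, R => fun M _ w => ∃ x : M, exs r R M (scons x w)

include hex in
theorem cl_exs {n : ℕ} {R : URel} (hR : Cl true (n + 1) R) (r : ℕ) : Cl true (n + 1) (exs r R) := by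
  induction r with
  | zero => exact hR
  | succ r ih => exact hex n _ ih

theorem exs_elim {M : Type} [LA.Structure M] {R : URel} (r : ℕ) :
    ∀ w : ℕ → M, exs r R M w → ∃ w' : ℕ → M, R M w' := by
  induction r with
  | zero => exact fun w h => ⟨w, h⟩
  | succ r ih =>
    rintro w ⟨x, hx⟩
    exact ih _ hx

theorem exs_intro {M : Type} [LA.Structure M] {R : URel} (r : ℕ) (w' : ℕ → M) :
    ∀ w : ℕ → M, R M (fun i => if i < r then w' i else w (i - r)) → exs r R M w := by
  induction r with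
  | zero =>
    intro w h
    have : (fun i => if i < 0 then w' i else w (i - 0)) = w := by
      funext i
      simp
    rw [this] at h
    exact h
  | succ r ih =>
    intro w h
    refine ⟨w' r, ih _ ?_⟩
    have : (fun i => if i < r then w' i else scons (w' r) w (i - r)) =
        fun i => if i < r + 1 then w' i else w (i - (r + 1)) := by
      funext i
      by_cases h1 : i < r
      · rw [if_pos h1, if_pos (by omega)]
      · rw [if_neg h1]
        by_cases h2 : i = r
        · subst h2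
          rw [if_pos (by omega), Nat.sub_self]
          rfl
        · rw [if_neg (by omega)]
          obtain ⟨k, rfl⟩ : ∃ k, i = r + 1 + k := ⟨i - (r + 1), by omega⟩
          have e1 : r + 1 + k - r = k + 1 := by omega
          have e2 : r + 1 + k - (r + 1) = k := by omega
          rw [e1, e2]
          rfl
    rw [this]
    exact h

include hex in
/-- the sentence `∃ w, R w` -/
theorem cl_sent {n : ℕ} {R : URel} (hR : Cl true (n + 1) R) : ∃ f : BF,
    ∀ (M : Type) [LA.Structure M], M ⊨ PA → ∀ w : ℕ → M,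
      (PS M true (n + 1) f w ↔ ∃ w' : ℕ → M, R M w') := by
  obtain ⟨f, hf⟩ := hR
  obtain ⟨r, hr⟩ := ps_dep f
  obtain ⟨g, hg⟩ := cl_exs hex (⟨f, hf⟩ : Cl true (n + 1) R) r
  refine ⟨g, fun M _ hM w => (hg M hM w).trans ⟨exs_elim r w, ?_⟩⟩
  rintro ⟨w', hw'⟩
  apply exs_intro r w' w
  rw [← hf M hM] at hw' ⊢
  rw [← hr true (n + 1) M w' _ fun i hi => ?_]
  · exact hw'
  · show w' i = if i < r then w' i else w (i - r)
    rw [if_pos hi]

/-! ### Compactness -/

theorem compact_rel (hcomp : CompactStmt) (Rf : ℕ → URel) (h : ∀ i, ∃ b n, Cl b n (Rf i))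
    (hfin : ∀ K : ℕ, ∃ (M : Type) (_ : LA.Structure M) (w : ℕ → M), M ⊨ PA ∧
      ∀ i < K, Rf i M w) :
    ∃ (M : Type) (_ : LA.Structure M) (w : ℕ → M), M ⊨ PA ∧ ∀ i, Rf i M w := by
  choose b n f hf using h
  obtain ⟨M, iM, w, hM, hw⟩ := hcomp (fun i => (b i, n i, f i)) (by
    intro K
    obtain ⟨M, iM, w, hM, hw⟩ := hfin K
    exact ⟨M, iM, w, hM, fun i hi => (hf i M hM w).2 (hw i hi)⟩)
  exact ⟨M, iM, w, hM, fun i => (hf i M hM w).1 (hw i)⟩

end

theorem exists_max {P : ℕ → Prop} {m k0 : ℕ} (hb : ∀ k, P k → k < m) (h : P k0) :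
    ∃ k, P k ∧ ∀ l, k < l → ¬ P l := by
  classical
  obtain ⟨k, hk, hmax⟩ := Finset.exists_max_image ((Finset.range m).filter P) id
    ⟨k0, Finset.mem_filter.2 ⟨Finset.mem_range.2 (hb k0 h), h⟩⟩
  exact ⟨k, (Finset.mem_filter.1 hk).2, fun l hl hPl => absurd (hmax l (Finset.mem_filter.2
    ⟨Finset.mem_range.2 (hb l hPl), hPl⟩)) (not_le.2 hl)⟩

/-! ### The definable finite sequences -/

section
variable (N : ℕ) (F : ∀ (M : Type) [LA.Structure M], M → Prop)
  (Tr : ℕ → ∀ (M : Type) [LA.Structure M], M → Prop)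

/-- `z` is a possible `j`-th entry of the sequence number `n` -/
def GG (n : ℕ) : ℕ → ∀ (M : Type) [LA.Structure M], M → Prop
  | 0, _, _, _ => True
  | j + 1, M, _, z => (∃ z' : M, (j = 0 ∨ ltM M z z') ∧ GG n j M z') ∧
      ∃ K y : M, z = prM M K y ∧ F M (prM M (nu M (j + 1)) (prM M (nu M n) z)) ∧ Tr n M y

/-- the sequence number `n` has length at least `j` -/
def LL (n j : ℕ) (M : Type) [LA.Structure M] : Prop := ∃ z : M, GG F Tr n j M z

/-- the set of the flexible values -/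
def RR (u : ℕ) : Prop := ∃ j n K y : ℕ, u = pr (j + 1) (pr n (pr K y)) ∧ N + 1 ≤ n ∧
  ∀ (M : Type) [LA.Structure M], M ⊨ PA → Tr n M (nu M y) →
    ¬ (LL F Tr n (j + 1) M ∧ ¬ LL F Tr n (j + 2) M) ∨ ∃ k, n < k ∧ k ≤ K ∧ LL F Tr k 1 M

/-- the invariant -/
def JJ (n j : ℕ) (M : Type) [LA.Structure M] : Prop := N + 1 ≤ n ∧
  (∀ u : ℕ, F M (nu M u) ↔ RR N F Tr u) ∧ (LL F Tr n j M ∧ ¬ LL F Tr n (j + 1) M) ∧
  ∀ k, n < k → ¬ LL F Tr k 1 M

variable {N} {F} {Tr}
variable (hnot : ClNot) (hand : ClAnd) (hor : ClOr) (hup : ClUp) (hex : ClEx) (hsub : ClSub)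
  (hF : Cl true N (fun M _ w => F M (w 0)))
  (hT : ∀ n, 1 ≤ n → Cl true n (fun M _ w => Tr n M (w 0)))

include hand hup hex hsub hF hT in
theorem cl_GG {n : ℕ} (hn : N + 1 ≤ n) (j : ℕ) : Cl true n (fun M _ w => GG F Tr n j M (w 0)) := by
  obtain ⟨n', rfl⟩ : ∃ n', n = n' + 1 := ⟨n - 1, by omega⟩
  induction j with
  | zero => exact cl_const hup True true (n' + 1)
  | succ j ih =>
    have hA : Cl true (n' + 1) (fun M _ w => ∃ z' : M, (j = 0 ∨ ltM M (w 0) z') ∧
        GG F Tr (n' + 1) j M z') := by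
      have h1 : Cl true (n' + 1) (fun M _ w => (j = 0 ∨ ltM M (w 1) (w 0)) ∧
          GG F Tr (n' + 1) j M (w 0)) := by
        refine hand _ _ _ _ ?_ ih
        by_cases hj : j = 0
        · refine cl_congr (cl_const hup True true (n' + 1)) fun M _ w => ?_
          exact ⟨fun _ => Or.inl hj, fun _ => trivial⟩
        · refine cl_congr (cl_atom hup (.lt (Term.var 1) (Term.var 0)) true (n' + 1))
            fun M _ w => ?_
          exact ⟨fun h => Or.inr h, fun h => h.resolve_left hj⟩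
      exact cl_congr (hex n' _ h1) fun M _ w => Iff.rfl
    have hB : Cl true (n' + 1) (fun M _ w => ∃ K y : M, w 0 = prM M K y ∧
        F M (prM M (nu M (j + 1)) (prM M (nu M (n' + 1)) (w 0))) ∧ Tr (n' + 1) M y) := by
      have h1 : Cl true (n' + 1) (fun M _ w => w 2 = prM M (w 1) (w 0) ∧
        (F M (prM M (nu M (j + 1)) (prM M (nu M (n' + 1)) (w 2))) ∧ Tr (n' + 1) M (w 0))) := by
        refine hand _ _ _ _ ?_ (hand _ _ _ _ ?_ (hT _ (by omega)))
        · refine cl_congr (cl_atom hup (.eq (Term.var 2) (prT (Term.var 1) (Term.var 0)))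
            true (n' + 1)) fun M _ w => ?_
          show (Term.var 2 : LA.Term ℕ).realize w = (prT (Term.var 1) (Term.var 0)).realize w ↔ _
          rw [real_prT]
          exact Iff.rfl
        · have h2 := hsub true (n' + 1) _ (fun _ => prT (num (j + 1))
            (prT (num (n' + 1)) (Term.var 2))) (up_le hup (by omega) hF)
          refine cl_congr h2 fun M _ w => ?_
          show F M ((prT (num (j + 1)) (prT (num (n' + 1)) (Term.var 2))).realize w) ↔ _
          rw [real_prT, real_prT, real_num, real_num]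
          exact Iff.rfl
      exact cl_congr (hex n' _ (hex n' _ h1)) fun M _ w => Iff.rfl
    exact cl_congr (hand _ _ _ _ hA hB) fun M _ w => Iff.rfl

include hand hup hex hsub hF hT in
theorem cl_LL {n : ℕ} (hn : N + 1 ≤ n) (j : ℕ) : Cl true n (fun M _ _ => LL F Tr n j M) := by
  obtain ⟨n', rfl⟩ : ∃ n', n = n' + 1 := ⟨n - 1, by omega⟩
  exact cl_congr (hex n' _ (cl_GG hand hup hex hsub hF hT hn j)) fun M _ w => Iff.rfl

include hsub hF in
theorem cl_F (u : ℕ) : Cl true N (fun M _ _ => F M (nu M u)) := by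
  refine cl_congr (hsub true N _ (fun _ => num u) hF) fun M _ w => ?_
  show F M ((num u : LA.Term ℕ).realize w) ↔ _
  rw [real_num]

include hnot hand hup hex hsub hF hT in
/-- the base case -/
theorem base (hcomp : CompactStmt)
    (hflex : ∀ τ : Finset ℕ, ∃ (M : Type) (_ : LA.Structure M), M ⊨ PA ∧
      ∀ x : M, F M x ↔ ∃ k ∈ τ, x = nu M k) :
    ∃ (M : Type) (_ : LA.Structure M), M ⊨ PA ∧ (∃ a : M, ∀ k : ℕ, ltM M (nu M k) a) ∧
      JJ N F Tr (N + 1) 0 M := by
  classical
  -- the finite stages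
  have hstage : ∀ m : ℕ, ∃ (M : Type) (_ : LA.Structure M), M ⊨ PA ∧
      (∀ x : M, F M x ↔ ∃ k, k < m ∧ RR N F Tr k ∧ x = nu M k) ∧
      ∀ n, N + 1 ≤ n → ¬ LL F Tr n 1 M := by
    intro m
    obtain ⟨M, iM, hM, hτ⟩ := hflex ((Finset.range m).filter fun k => RR N F Tr k)
    have H := mf M hM
    have hFx : ∀ x : M, F M x ↔ ∃ k, k < m ∧ RR N F Tr k ∧ x = nu M k := by
      intro x
      rw [hτ]
      constructor
      · rintro ⟨k, hk, hx⟩
        rw [Finset.mem_filter, Finset.mem_range] at hk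
        exact ⟨k, hk.1, hk.2, hx⟩
      · rintro ⟨k, hk1, hk2, hx⟩
        exact ⟨k, by rw [Finset.mem_filter, Finset.mem_range]; exact ⟨hk1, hk2⟩, hx⟩
    refine ⟨M, iM, hM, hFx, ?_⟩
    -- the values of the entries
    have hval : ∀ n j z, GG F Tr n (j + 1) M z → ∃ K y : ℕ, Tr n M (nu M y) ∧
        pr (j + 1) (pr n (pr K y)) < m ∧ RR N F Tr (pr (j + 1) (pr n (pr K y))) := by
      rintro n j z ⟨_, K, y, hz, hFz, hTy⟩
      obtain ⟨u, hu, hRu, hu'⟩ := (hFx _).1 hFz
      obtain ⟨a, b, ha, hb, hab⟩ := H.split hu'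
      obtain ⟨c, d, hc, hd, hcd⟩ := H.split hb
      rw [hz] at hd
      obtain ⟨K', y', _, hy', hK⟩ := H.split hd
      have h1 : a = j + 1 := (H.inj ha).symm
      have h2 : c = n := (H.inj hc).symm
      subst h1 h2 hK hcd hab
      exact ⟨K', y', by rw [← hy']; exact hTy, hu, hRu⟩
    intro n0 hn0 hL0
    -- the largest `n`
    have hbn : ∀ n j, LL F Tr n (j + 1) M → n < m ∧ j + 1 < m := by
      rintro n j ⟨z, hz⟩
      obtain ⟨K, y, _, h1, _⟩ := hval n j z hz
      have h2 := pr_ge1 (j + 1) (pr n (pr K y))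
      have h3 := (pr_ge1 n (pr K y)).trans (pr_ge2 (j + 1) (pr n (pr K y)))
      omega
    obtain ⟨n, ⟨hn1, hn2⟩, hn3⟩ : ∃ n, (N + 1 ≤ n ∧ LL F Tr n 1 M) ∧
        ∀ k, n < k → ¬ LL F Tr k 1 M := by
      obtain ⟨n, hn, hn'⟩ := exists_max (P := fun n => N + 1 ≤ n ∧ LL F Tr n 1 M)
        (fun k hk => (hbn k 0 hk.2).1) ⟨hn0, hL0⟩
      exact ⟨n, hn, fun k hk hLk => hn' k hk ⟨by omega, hLk⟩⟩
    obtain ⟨j, hj1, hj2⟩ : ∃ j, LL F Tr n (j + 1) M ∧ ¬ LL F Tr n (j + 2) M := by
      obtain ⟨j, hj, hj'⟩ := exists_max (P := fun j => LL F Tr n (j + 1) M) (m := m)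
        (fun k hk => by have := (hbn n k hk).2; omega) hn2
      exact ⟨j, hj, hj' (j + 1) (Nat.lt_succ_self j)⟩
    obtain ⟨z, hz⟩ := hj1
    obtain ⟨K, y, hTy, _, j', n', K', y', he, _, hR⟩ := hval n j z hz
    obtain ⟨e1, e2⟩ := pr_inj he
    obtain ⟨e2, e3⟩ := pr_inj e2
    obtain ⟨e3, e4⟩ := pr_inj e3
    have e5 : j = j' := by omega
    subst e5 e2 e3 e4
    rcases hR M hM hTy with h | ⟨k, hk, _, hLk⟩
    · exact h ⟨⟨z, hz⟩, hj2⟩
    · exact hn3 k hk hLk
  -- compactness
  obtain ⟨M, iM, w, hM, hw⟩ := compact_rel hcomp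
    (fun i M _ w => ((F M (nu M i) ↔ RR N F Tr i) ∧ (N + 1 ≤ i → ¬ LL F Tr i 1 M)) ∧
      ltM M (nu M i) (w 0))
    (fun i => by
      refine ⟨true, N + i + 5, hand _ _ _ _ (hand _ _ _ _ ?_ ?_) ?_⟩
      · by_cases hi : RR N F Tr i
        · refine cl_congr (up_le hup (by omega) (cl_F hsub hF i)) fun M _ w => ?_
          exact ⟨fun h => ⟨fun _ => hi, fun _ => h⟩, fun h => h.2 hi⟩
        · refine cl_congr (hup false true N (N + i + 5) _ (by omega)
            (hnot true N _ (cl_F hsub hF i))) fun M _ w => ?_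
          exact ⟨fun h => ⟨fun h' => absurd h' h, fun h' => absurd h' hi⟩,
            fun h h' => hi (h.1 h')⟩
      · by_cases hi : N + 1 ≤ i
        · refine cl_congr (hup false true i (N + i + 5) _ (by omega)
            (hnot true i _ (cl_LL hand hup hex hsub hF hT hi 1))) fun M _ w => ?_
          exact ⟨fun h _ => h, fun h => h hi⟩
        · refine cl_congr (cl_const hup True true (N + i + 5)) fun M _ w => ?_
          exact ⟨fun _ h => absurd h hi, fun _ => trivial⟩
      · refine cl_congr (cl_atom hup (.lt (num i) (Term.var 0)) true (N + i + 5)) fun M _ w => ?_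
        show ltM M ((num i : LA.Term ℕ).realize w) _ ↔ _
        rw [real_num]
        exact Iff.rfl)
    (fun m => by
      obtain ⟨M, iM, hM, hFx, hL⟩ := hstage m
      have H := mf M hM
      refine ⟨M, iM, fun _ => nu M m, hM, fun i hi => ⟨⟨?_, fun h => hL i h⟩, H.mono i m hi⟩⟩
      rw [hFx]
      constructor
      · rintro ⟨k, _, hk, hk'⟩
        rw [H.inj hk']
        exact hk
      · intro h
        exact ⟨i, hi, h, rfl⟩)
  refine ⟨M, iM, hM, ⟨w 0, fun k => (hw k).2⟩, le_rfl, fun u => (hw u).1.1, ⟨⟨nu M 0, trivial⟩,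
    (hw (N + 1)).1.2 le_rfl⟩, fun k hk => (hw k).1.2 (by omega)⟩

include hand hup hex hsub hF hT in
/-- invariance under elementary equivalence -/
theorem inv (n j : ℕ) (M : Type) [LA.Structure M] (M' : Type) [LA.Structure M'] (hM : M ⊨ PA)
    (hM' : M' ⊨ PA) (he : Eqv M M') (hJ : JJ N F Tr n j M) : JJ N F Tr n j M' := by
  have key : ∀ (b : Bool) (k : ℕ) (Q : ∀ (M : Type) [LA.Structure M], Prop),
      Cl b k (fun M _ _ => Q M) → (Q M ↔ Q M') := by
    rintro b k Q ⟨f, hf⟩
    exact ((hf M hM (fun _ => nu M 0)).symm.trans (he b k f)).trans (hf M' hM' (fun _ => nu M' 0))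
  obtain ⟨hn, hFR, ⟨h1, h2⟩, h3⟩ := hJ
  have hL : ∀ n, N + 1 ≤ n → ∀ j, LL F Tr n j M ↔ LL F Tr n j M' := fun n hn j =>
    key true n (fun M _ => LL F Tr n j M) (cl_LL hand hup hex hsub hF hT hn j)
  refine ⟨hn, fun u => ?_, ⟨(hL n hn j).1 h1, fun h => h2 ((hL n hn _).2 h)⟩,
    fun k hk h => h3 k hk ((hL k (by omega) 1).2 h)⟩
  rw [← key true N (fun M _ => F M (nu M u)) (cl_F hsub hF u)]
  exact hFR u

theorem nxt (n j : ℕ) (M : Type) [LA.Structure M] (hJ : JJ N F Tr n j M) :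
    JJ N F Tr (n + 1) 0 M := by
  obtain ⟨hn, hFR, _, h3⟩ := hJ
  exact ⟨by omega, hFR, ⟨⟨nu M 0, trivial⟩, h3 (n + 1) (Nat.lt_succ_self n)⟩,
    fun k hk => h3 k (by omega)⟩

include hnot hand hup hex hsub hF hT in
/-- the increment -/
theorem step (hcomp : CompactStmt)
    (htr : ∀ n, 1 ≤ n → ∀ f : BF, ∃ y : ℕ, ∀ (M : Type) [LA.Structure M], M ⊨ PA →
      (Tr n M (nu M y) ↔ PS M true n f (fun _ => nu M 0)))
    (n j : ℕ) (M : Type) [LA.Structure M] (hM : M ⊨ PA) (hJ : JJ N F Tr n j M) (a : ℕ → M) :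
    ∃ (M' : Type) (_ : LA.Structure M') (a' : ℕ → M'), M' ⊨ PA ∧ JJ N F Tr n (j + 1) M' ∧
      (∀ f : BF, PS M true n f a → PS M' true n f a') ∧
      ∃ f : BF, PS M' true n f (fun _ => nu M' 0) ∧ ¬ PS M true n f (fun _ => nu M 0) := by
  classical
  have H := mf M hM
  obtain ⟨hn, hFR, ⟨h1, h2⟩, h3⟩ := hJ
  obtain ⟨e, he⟩ := bf_enum
  let θ : ℕ → URel := fun i M' _ w => PS M true n (e i) a → PS M' true n (e i) w
  have hθ : ∀ i, Cl true n (θ i) := by
    intro i
    by_cases hi : PS M true n (e i) a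
    · exact ⟨e i, fun M' _ _ w => ⟨fun h _ => h, fun h => h hi⟩⟩
    · refine cl_congr (cl_const hup True true n) fun M' _ w => ?_
      exact ⟨fun _ h => absurd h hi, fun _ => trivial⟩
  have hL : ∀ k, n ≤ k → ∀ i, Cl true k (fun M _ _ => LL F Tr k i M) := fun k hk i =>
    cl_LL hand hup hex hsub hF hT (by omega) i
  have hnL : ∀ k, n ≤ k → ∀ i m, k < m → Cl true m (fun M _ _ => ¬ LL F Tr k i M) :=
    fun k hk i m hm => hup false true k m _ hm (hnot true k _ (hL k hk i))
  -- the finite stages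
  have hstage : ∀ K : ℕ, ∃ (M' : Type) (_ : LA.Structure M') (w : ℕ → M'), M' ⊨ PA ∧
      (∀ i < K, θ i M' w) ∧ (LL F Tr n (j + 1) M' ∧ ¬ LL F Tr n (j + 2) M') ∧
      ∀ k, n < k → k ≤ K → ¬ LL F Tr k 1 M' := by
    intro K
    by_contra hcon
    obtain ⟨f, hf⟩ : ∃ f : BF, ∀ (M' : Type) [LA.Structure M'], M' ⊨ PA → ∀ w : ℕ → M',
        (PS M' true n f w ↔ ∃ w' : ℕ → M', ∀ i < K, θ i M' w') := by
      obtain ⟨n', rfl⟩ : ∃ n', n = n' + 1 := ⟨n - 1, by omega⟩
      exact cl_sent hex (cl_fin hand hup hθ K)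
    obtain ⟨y, hy⟩ := htr n (by omega) f
    have hu : RR N F Tr (pr (j + 1) (pr n (pr K y))) := by
      refine ⟨j, n, K, y, rfl, hn, fun M' iM' hM' hTr => ?_⟩
      by_contra hc
      rw [not_or, not_not] at hc
      obtain ⟨hc1, hc2⟩ := hc
      obtain ⟨w, hw⟩ := (hf M' hM' _).1 ((hy M' hM').1 hTr)
      exact hcon ⟨M', iM', w, hM', hw, hc1, fun k hk hk' hLk => hc2 ⟨k, hk, hk', hLk⟩⟩
    have hTM : Tr n M (nu M y) := (hy M hM).2 ((hf M hM _).2 ⟨a, fun i _ h => h⟩)
    have hFu : F M (prM M (nu M (j + 1)) (prM M (nu M n) (nu M (pr K y)))) := by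
      rw [← H.prn, ← H.prn]
      exact (hFR _).2 hu
    have hG : (∃ z' : M, (j = 0 ∨ ltM M (nu M (pr K y)) z') ∧ GG F Tr n j M z') → False :=
      fun h => h2 ⟨nu M (pr K y), h, nu M K, nu M y, H.prn K y, hFu, hTM⟩
    rcases j with _ | j
    · exact hG ⟨nu M 0, Or.inl rfl, trivial⟩
    · have h1' := h1
      obtain ⟨z', hz'⟩ := h1
      have hle : ltM M z' (nu M (pr K y)) ∨ z' = nu M (pr K y) := by
        rcases H.tot (nu M (pr K y)) z' with h | h
        · exact (hG ⟨z', Or.inr h, hz'⟩).elim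
        · exact h.imp id Eq.symm
      obtain ⟨v, _, hv⟩ := H.below _ _ hle
      obtain ⟨_, K', y', hzp, hFz, hTy⟩ := hz'
      rw [hv] at hzp hFz
      obtain ⟨K1, y1, _, hy1, hv1⟩ := H.split hzp.symm
      obtain ⟨j2, n2, K2, y2, he2, _, hR⟩ : RR N F Tr (pr (j + 1) (pr n v)) :=
        (hFR _).1 (by rw [H.prn, H.prn]; exact hFz)
      rw [hv1] at he2
      obtain ⟨e1, e2⟩ := pr_inj he2
      obtain ⟨e2, e3⟩ := pr_inj e2
      obtain ⟨e3, e4⟩ := pr_inj e3
      have e5 : j = j2 := by omega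
      subst e5 e2 e3 e4
      rcases hR M hM (by rw [← hy1]; exact hTy) with h | ⟨k, hk, _, hLk⟩
      · exact h ⟨h1', h2⟩
      · exact h3 k hk hLk
  -- compactness
  obtain ⟨M', iM', w, hM', hw⟩ := compact_rel hcomp
    (fun i M' _ w => (θ i M' w ∧ (LL F Tr n (j + 1) M' ∧ ¬ LL F Tr n (j + 2) M')) ∧
      (n < i → ¬ LL F Tr i 1 M'))
    (fun i => by
      refine ⟨true, n + i + 2, hand _ _ _ _ (hand _ _ _ _ (up_le hup (by omega) (hθ i))
        (hand _ _ _ _ (up_le hup (by omega) (hL n le_rfl (j + 1)))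
        (hnL n le_rfl (j + 2) _ (by omega)))) ?_⟩
      by_cases hi : n < i
      · refine cl_congr (hnL i hi.le 1 (n + i + 2) (by omega)) fun M _ w => ?_
        exact ⟨fun h _ => h, fun h => h hi⟩
      · refine cl_congr (cl_const hup True true (n + i + 2)) fun M _ w => ?_
        exact ⟨fun _ h => absurd h hi, fun _ => trivial⟩)
    (fun K => by
      obtain ⟨M', iM', w, hM', hw1, hw2, hw3⟩ := hstage K
      exact ⟨M', iM', w, hM', fun i hi => ⟨⟨hw1 i hi, hw2⟩, fun h => hw3 i h hi.le⟩⟩)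
  have hall : ∀ f : BF, PS M true n f a → PS M' true n f w := by
    intro f hf
    obtain ⟨i, rfl⟩ := he f
    exact (hw i).1.1 hf
  have hgo : ∀ Q : ∀ (M : Type) [LA.Structure M], Prop, Cl true n (fun M _ _ => Q M) →
      Q M → Q M' := by
    rintro Q ⟨f, hf⟩ hQ
    exact (hf M' hM' w).1 (hall f ((hf M hM a).2 hQ))
  refine ⟨M', iM', w, hM', ⟨hn, fun u => ?_, (hw 0).1.2, fun k hk => (hw k).2 hk⟩, hall, ?_⟩
  · by_cases hu : RR N F Tr u
    · exact ⟨fun _ => hu, fun _ => hgo (fun M _ => F M (nu M u))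
        (up_le hup (by omega) (cl_F hsub hF u)) ((hFR u).2 hu)⟩
    · refine ⟨fun h => absurd h ?_, fun h => absurd h hu⟩
      exact hgo (fun M _ => ¬ F M (nu M u))
        (hup false true N n _ (by omega) (hnot true N _ (cl_F hsub hF u)))
        (fun h => hu ((hFR u).1 h))
  · obtain ⟨f, hf⟩ := hL n le_rfl (j + 1)
    exact ⟨f, (hf M' hM' _).2 (hw 0).1.2.1, fun h => h2 ((hf M hM _).1 h)⟩

end

end CHAIN

theorem prf_chain (hflex : FlexStmt) (htr : TrStmt) (hcomp : CompactStmt) (hnot : ClNot)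
    (hand : ClAnd) (hor : ClOr) (hup : ClUp) (hex : ClEx) (hall : ClAll) (hsub : ClSub) :
    ChainStmt := by
  obtain ⟨N, F, hF, hfl⟩ := hflex
  have htr' := fun n => htr (n + 1) (Nat.succ_pos n)
  choose T hT1 hT2 using htr'
  have hT : ∀ n, 1 ≤ n → Cl true n (fun M _ w => T (n - 1) M (w 0)) := by
    intro n hn
    obtain ⟨n', rfl⟩ : ∃ n', n = n' + 1 := ⟨n - 1, by omega⟩
    exact hT1 n'
  have hT' : ∀ n, 1 ≤ n → ∀ f : BF, ∃ y : ℕ, ∀ (M : Type) [LA.Structure M], M ⊨ PA →
      (T (n - 1) M (nu M y) ↔ PS M true n f (fun _ => nu M 0)) := by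
    intro n hn
    obtain ⟨n', rfl⟩ : ∃ n', n = n' + 1 := ⟨n - 1, by omega⟩
    exact hT2 n'
  refine ⟨N + 1, fun n j M _ => CHAIN.JJ N F (fun n => T (n - 1)) n j M, ?_, ?_, ?_, ?_⟩
  · exact CHAIN.base hnot hand hup hex hsub hF hT hcomp hfl
  · intro n j M _ M' _ hM hM' he hJ
    exact CHAIN.inv hand hup hex hsub hF hT n j M M' hM hM' he hJ
  · intro n j M _ _ hJ
    exact CHAIN.nxt n j M hJ
  · intro n j M _ _ hM hJ a
    exact CHAIN.step hnot hand hup hex hsub hF hT hcomp hT' n j M hM hJ a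

end Pool.Agent.TH738.SV
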