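import Pool.Agent.TH738.SV.Stmts

/-!
Closure of the classes `Cl b n` under conjunctions, disjunctions and quantifiers.
-/

set_option autoImplicit false

open FirstOrder FirstOrder.Language
open Pool.Agent.Helper227.EN
open Pool.Agent.TH752.AR (scons prN)

namespace Pool.Agent.TH738.SV

namespace CLb

/-! ### Facts on models of `PA` -/

/-- the successor function of a structure -/
def sc (M : Type) [LA.Structure M] (u : M) : M :=
  Structure.funMap (L := LA) AF.add ![u, Structure.funMap (L := LA) AF.one ![] ]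

/-- the facts which are used -/
structure MF (M : Type) [LA.Structure M] : Prop where
  inj : ∀ x y x' y' : M, prM M x y = prM M x' y' → x = x' ∧ y = y'
  lt1 : ∀ x y : M, ltM M x (sc M (prM M x y))
  lt2 : ∀ x y : M, ltM M y (sc M (prM M x y))
  lt0 : ∀ u : M, ltM M (nu M 0) (sc M u)

theorem mf_of_pa (M : Type) [LA.Structure M] (h : M ⊨ PA) : MF M := by
  have : Nonempty M := ⟨nu M 0⟩
  have hm : M ⊨ PAminus := Theory.Model.mono h Set.subset_union_left
  obtain ⟨i1, i2, i3, i4, hc⟩ := exists_alg M hm
  have ha := Pool.Agent.TH748.MU.ari_of_pa hc h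
  have e1 : ∀ x y : M, prM M x y = prN x y := by
    intro x y
    unfold prM prN
    simp only [hc.add, hc.mul]
  have e2 : ∀ x : M, sc M x = x + 1 := by
    intro x
    unfold sc
    rw [hc.add, hc.one]
  have e3 : ∀ x y : M, ltM M x y ↔ x < y := fun x y => hc.lt x y
  have e4 : nu M 0 = 0 := by
    unfold nu
    show (t0 : LA.Term Empty).realize default = 0
    rw [ea_t0, hc.zero]
  have h1 : ∀ x y : M, x ≤ prN x y := fun x y => le_add_self
  have h2 : ∀ x y : M, y ≤ prN x y := by
    intro x y
    unfold prN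
    rcases eq_or_ne (x + y) 0 with h | h
    · have : y = 0 := by
        have := le_add_self (a := y) (b := x)
        rw [h] at this
        exact le_antisymm this zero_le
      rw [this]
      exact zero_le
    · have h3 : 1 ≤ x + y := by
        have h4 : 0 < x + y := pos_iff_ne_zero.2 h
        by_contra hcon
        push Not at hcon
        exact h (hc.disc _ hcon)
      calc y ≤ x + y := le_add_self
        _ = (x + y) * 1 := (mul_one _).symm
        _ ≤ (x + y) * (x + y) := mul_le_mul_of_nonneg_left h3 zero_le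
        _ ≤ _ := le_self_add
  refine ⟨fun x y x' y' h => ?_, fun x y => ?_, fun x y => ?_, fun u => ?_⟩
  · rw [e1, e1] at h
    exact ha.prN_inj h
  · rw [e3, e2, e1]
    exact lt_of_le_of_lt (h1 x y) (lt_add_one _)
  · rw [e3, e2, e1]
    exact lt_of_le_of_lt (h2 x y) (lt_add_one _)
  · rw [e3, e2, e4]
    exact lt_of_le_of_lt zero_le (lt_add_one _)

/-! ### The projections -/

open Classical in
/-- the first projection -/
noncomputable def p1 (M : Type) [LA.Structure M] (u : M) : M :=
  if h : ∃ x y : M, u = prM M x y then h.choose else nu M 0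

open Classical in
/-- the second projection -/
noncomputable def p2 (M : Type) [LA.Structure M] (u : M) : M :=
  if h : ∃ x y : M, u = prM M x y then h.choose_spec.choose else nu M 0

theorem p_pair {M : Type} [LA.Structure M] (hM : MF M) (x y : M) :
    p1 M (prM M x y) = x ∧ p2 M (prM M x y) = y := by
  have h : ∃ x' y' : M, prM M x y = prM M x' y' := ⟨x, y, rfl⟩
  have e := h.choose_spec.choose_spec
  have h1 := hM.inj _ _ _ _ e
  unfold p1 p2
  rw [dif_pos h, dif_pos h]
  exact ⟨h1.1.symm, h1.2.symm⟩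

theorem p_not {M : Type} [LA.Structure M] {u : M} (h : ¬ ∃ x y : M, u = prM M x y) :
    p1 M u = nu M 0 ∧ p2 M u = nu M 0 := by
  unfold p1 p2
  rw [dif_neg h, dif_neg h]
  exact ⟨rfl, rfl⟩

/-! ### Bounded formulas -/

def bnot (f : BF) : BF := .imp f .bot
def band (f g : BF) : BF := bnot (.imp f (bnot g))
def bor (f g : BF) : BF := .imp (bnot f) g
def bex (t : LA.Term ℕ) (f : BF) : BF := bnot (.ball t (bnot f))

theorem sat_bnot {M : Type} [LA.Structure M] (f : BF) (v : ℕ → M) :
    (bnot f).sat M v ↔ ¬ f.sat M v := Iff.rfl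

theorem sat_band {M : Type} [LA.Structure M] (f g : BF) (v : ℕ → M) :
    (band f g).sat M v ↔ (f.sat M v ∧ g.sat M v) := by
  show ((f.sat M v → (g.sat M v → False)) → False) ↔ _
  tauto

theorem sat_bor {M : Type} [LA.Structure M] (f g : BF) (v : ℕ → M) :
    (bor f g).sat M v ↔ (f.sat M v ∨ g.sat M v) := by
  show ((f.sat M v → False) → g.sat M v) ↔ _
  tauto

theorem sat_bex {M : Type} [LA.Structure M] (t : LA.Term ℕ) (f : BF) (v : ℕ → M) :
    (bex t f).sat M v ↔ ∃ x : M, ltM M x (t.realize v) ∧ f.sat M (scons x v) := by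
  show ((∀ x : M, ltM M x (t.realize v) → (f.sat M (scons x v) → False)) → False) ↔ _
  constructor
  · intro h
    by_contra hcon
    push Not at hcon
    exact h fun x hx h' => hcon x hx h'
  · rintro ⟨x, hx, h⟩ h'
    exact h' x hx h

/-- lifting of a renaming -/
def lf (ρ : ℕ → ℕ) : ℕ → ℕ
  | 0 => 0
  | i + 1 => ρ i + 1

/-- renaming of the variables -/
def rn : (ℕ → ℕ) → BF → BF
  | ρ, .eq s t => .eq (s.relabel ρ) (t.relabel ρ)
  | ρ, .lt s t => .lt (s.relabel ρ) (t.relabel ρ)
  | _, .bot => .bot
  | ρ, .imp f g => .imp (rn ρ f) (rn ρ g)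
  | ρ, .ball t f => .ball (t.relabel ρ) (rn (lf ρ) f)

theorem scons_lf {M : Type} (ρ : ℕ → ℕ) (x : M) (v : ℕ → M) :
    (scons x v) ∘ lf ρ = scons x (v ∘ ρ) := by
  funext i
  cases i with
  | zero => rfl
  | succ i => rfl

theorem sat_rn {M : Type} [LA.Structure M] (f : BF) : ∀ (ρ : ℕ → ℕ) (v : ℕ → M),
    (rn ρ f).sat M v ↔ f.sat M (v ∘ ρ) := by
  induction f with
  | eq s t =>
    intro ρ v
    show (s.relabel ρ).realize v = (t.relabel ρ).realize v ↔ _
    rw [Term.realize_relabel, Term.realize_relabel]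
    exact Iff.rfl
  | lt s t =>
    intro ρ v
    show ltM M ((s.relabel ρ).realize v) ((t.relabel ρ).realize v) ↔ _
    rw [Term.realize_relabel, Term.realize_relabel]
    exact Iff.rfl
  | bot =>
    intro ρ v
    exact Iff.rfl
  | imp f g hf hg =>
    intro ρ v
    show ((rn ρ f).sat M v → (rn ρ g).sat M v) ↔ _
    rw [hf, hg]
    exact Iff.rfl
  | ball t f hf =>
    intro ρ v
    show (∀ x : M, ltM M x ((t.relabel ρ).realize v) → (rn (lf ρ) f).sat M (scons x v)) ↔
      ∀ x : M, ltM M x (t.realize (v ∘ ρ)) → f.sat M (scons x (v ∘ ρ))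
    rw [Term.realize_relabel]
    refine forall_congr' fun x => ?_
    rw [hf, scons_lf]

/-! ### Splitting of an entry -/

/-- the entry `k` is replaced by its two projections -/
noncomputable def ins (M : Type) [LA.Structure M] (k : ℕ) (v : ℕ → M) : ℕ → M := fun i =>
  if i < k then v i else if i = k then p2 M (v k) else if i = k + 1 then p1 M (v k) else v (i - 1)

def rk (k : ℕ) (i : ℕ) : ℕ := if i < k then i + 2 else if i = k then 0 else if i = k + 1 then 1
  else i + 1

/-- the term for pairs -/
def pt (s t : LA.Term ℕ) : LA.Term ℕ := tadd (tmul (tadd s t) (tadd s t)) s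

def T (k : ℕ) (f : BF) : BF :=
  bex (tadd (Term.var k) t1) (bex (tadd (Term.var (k + 1)) t1)
    (band (bor (.eq (Term.var (k + 2)) (pt (Term.var 1) (Term.var 0)))
      (band (bnot (bex (tadd (Term.var (k + 2)) t1) (bex (tadd (Term.var (k + 3)) t1)
        (.eq (Term.var (k + 4)) (pt (Term.var 1) (Term.var 0))))))
        (band (.eq (Term.var 1) t0) (.eq (Term.var 0) t0))))
      (rn (rk k) f)))

theorem real_pt {M : Type} [LA.Structure M] (s t : LA.Term ℕ) (v : ℕ → M) :
    (pt s t).realize v = prM M (s.realize v) (t.realize v) := by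
  unfold pt prM
  rw [ea_tadd, ea_tmul, ea_tadd]

theorem real_sc {M : Type} [LA.Structure M] (s : LA.Term ℕ) (v : ℕ → M) :
    (tadd s t1).realize v = sc M (s.realize v) := by
  unfold sc
  rw [ea_tadd, ea_t1]

theorem real_t0 {M : Type} [LA.Structure M] (v : ℕ → M) :
    (t0 : LA.Term ℕ).realize v = nu M 0 := by
  unfold nu
  show _ = (t0 : LA.Term Empty).realize default
  rw [ea_t0, ea_t0]

theorem ins_eq {M : Type} [LA.Structure M] (k : ℕ) (v : ℕ → M) :
    (scons (p2 M (v k)) (scons (p1 M (v k)) v)) ∘ rk k = ins M k v := by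
  funext i
  unfold ins rk
  simp only [Function.comp]
  by_cases h1 : i < k
  · simp only [h1, if_true]
    rfl
  · simp only [h1, if_false]
    by_cases h2 : i = k
    · simp only [h2, if_true]
      rfl
    · simp only [h2, if_false]
      by_cases h3 : i = k + 1
      · simp only [h3, if_true]
        rfl
      · simp only [h3, if_false]
        obtain ⟨j, rfl⟩ : ∃ j, i = j + 1 := ⟨i - 1, by omega⟩
        rfl

theorem sat_T {M : Type} [LA.Structure M] (hM : MF M) (k : ℕ) (f : BF) (v : ℕ → M) :
    (T k f).sat M v ↔ f.sat M (ins M k v) := by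
  unfold T
  simp only [sat_bex, sat_band, sat_bor, sat_bnot, sat_rn, real_sc]
  have hE : ∀ (s t : LA.Term ℕ) (u : ℕ → M), (BF.eq s t).sat M u ↔ s.realize u = t.realize u :=
    fun _ _ _ => Iff.rfl
  simp only [hE, real_pt, real_t0, Term.realize_var]
  have hs : ∀ (a b : M) (i : ℕ), scons a (scons b v) (i + 2) = v i := fun _ _ _ => rfl
  have hs1 : ∀ (b : M) (i : ℕ), scons b v (i + 1) = v i := fun _ _ => rfl
  have hs0 : ∀ (a b : M), scons a (scons b v) 0 = a := fun _ _ => rfl
  have hs01 : ∀ (a b : M), scons a (scons b v) 1 = b := fun _ _ => rfl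
  have hs3 : ∀ (c a b : M) (i : ℕ), scons c (scons a (scons b v)) (i + 3) = v i :=
    fun _ _ _ _ => rfl
  have hs4 : ∀ (d c a b : M) (i : ℕ), scons d (scons c (scons a (scons b v))) (i + 4) = v i :=
    fun _ _ _ _ _ => rfl
  have hs40 : ∀ (d c a b : M), scons d (scons c (scons a (scons b v))) 0 = d :=
    fun _ _ _ _ => rfl
  have hs41 : ∀ (d c a b : M), scons d (scons c (scons a (scons b v))) 1 = c :=
    fun _ _ _ _ => rfl
  simp only [hs, hs1, hs0, hs01, hs3, hs4, hs40, hs41]
  rw [← ins_eq]
  set u := v k with hu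
  by_cases hp : ∃ x y : M, u = prM M x y
  · obtain ⟨a, b, e⟩ := hp
    have e1 := (p_pair hM a b).1
    have e2 := (p_pair hM a b).2
    rw [← e] at e1 e2
    have l1 := hM.lt1 a b
    have l2 := hM.lt2 a b
    rw [← e] at l1 l2
    rw [e1, e2]
    constructor
    · rintro ⟨x, hx, y, hy, h1 | h1, h2⟩
      · rw [e] at h1
        obtain ⟨rfl, rfl⟩ := hM.inj _ _ _ _ h1
        exact h2
      · exact absurd ⟨a, l1, b, l2, e⟩ h1.1
    · intro h
      exact ⟨a, l1, b, l2, Or.inl e, h⟩
  · obtain ⟨e1, e2⟩ := p_not hp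
    rw [e1, e2]
    constructor
    · rintro ⟨x, hx, y, hy, h1 | h1, h2⟩
      · exact absurd ⟨x, y, h1⟩ hp
      · obtain ⟨-, rfl, rfl⟩ := h1
        exact h2
    · intro h
      refine ⟨nu M 0, hM.lt0 u, nu M 0, hM.lt0 u, Or.inr ⟨?_, rfl, rfl⟩, h⟩
      rintro ⟨x, -, y, -, h'⟩
      exact hp ⟨x, y, h'⟩

/-! ### Blocks of quantifiers -/

/-- blocks of quantifiers in front of a predicate -/
def QS {M : Type} : Bool → ℕ → ((ℕ → M) → Prop) → (ℕ → M) → Prop
  | _, 0, P, w => P w
  | true, n + 1, P, w => ∃ x : M, QS false n P (scons x w)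
  | false, n + 1, P, w => ∀ x : M, QS true n P (scons x w)

theorem PS_QS (M : Type) [LA.Structure M] (f : BF) : ∀ (n : ℕ) (b : Bool) (w : ℕ → M),
    PS M b n f w ↔ QS b n (f.sat M) w := by
  intro n
  induction n with
  | zero =>
    intro b w
    cases b <;> exact Iff.rfl
  | succ n ih =>
    intro b w
    cases b with
    | true => exact exists_congr fun x => ih false _
    | false => exact forall_congr' fun x => ih true _

theorem QS_congr {M : Type} {P Q : (ℕ → M) → Prop} (h : ∀ v, P v ↔ Q v) :
    ∀ (n : ℕ) (b : Bool) (w : ℕ → M), QS b n P w ↔ QS b n Q w := by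
  have : P = Q := funext fun v => propext (h v)
  intro n b w
  rw [this]

theorem ins_scons {M : Type} [LA.Structure M] (m : ℕ) (x : M) (w : ℕ → M) :
    ins M (m + 1) (scons x w) = scons x (ins M m w) := by
  funext i
  cases i with
  | zero => rfl
  | succ i =>
    show ins M (m + 1) (scons x w) (i + 1) = ins M m w i
    unfold ins
    by_cases h1 : i < m
    · rw [if_pos h1, if_pos (by omega)]
      rfl
    · rw [if_neg h1, if_neg (by omega)]
      by_cases h2 : i = m
      · rw [if_pos h2, if_pos (by omega)]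
        rfl
      · rw [if_neg h2, if_neg (by omega)]
        by_cases h3 : i = m + 1
        · rw [if_pos h3, if_pos (by omega)]
          rfl
        · rw [if_neg h3, if_neg (by omega)]
          obtain ⟨j, rfl⟩ : ∃ j, i = j + 1 := ⟨i - 1, by omega⟩
          rfl

theorem QS_ins {M : Type} [LA.Structure M] (P : (ℕ → M) → Prop) : ∀ (n m : ℕ) (b : Bool)
    (w : ℕ → M), QS b n (fun v => P (ins M (n + m) v)) w ↔ QS b n P (ins M m w) := by
  intro n
  induction n with
  | zero =>
    intro m b w
    rw [Nat.zero_add]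
    cases b <;> exact Iff.rfl
  | succ n ih =>
    intro m b w
    have e : n + 1 + m = n + (m + 1) := by omega
    rw [e]
    cases b with
    | true =>
      refine exists_congr fun x => ?_
      rw [ih, ins_scons]
    | false =>
      refine forall_congr' fun x => ?_
      rw [ih, ins_scons]

theorem PS_T {M : Type} [LA.Structure M] (hM : MF M) (n : ℕ) (f : BF) (b : Bool) (u : M)
    (w : ℕ → M) :
    PS M b n (T n f) (scons u w) ↔ PS M b n f (scons (p2 M u) (scons (p1 M u) w)) := by
  rw [PS_QS, PS_QS, QS_congr (fun v => sat_T hM n f v)]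
  have h := QS_ins (f.sat M) n 0 b (scons u w)
  rw [Nat.add_zero] at h
  rw [h]
  have e : ins M 0 (scons u w) = scons (p2 M u) (scons (p1 M u) w) := by
    funext i
    cases i with
    | zero => rfl
    | succ i =>
      cases i with
      | zero => rfl
      | succ i => rfl
  rw [e]

theorem p_surj {M : Type} [LA.Structure M] (hM : MF M) (x y : M) :
    ∃ u : M, p1 M u = x ∧ p2 M u = y := ⟨prM M x y, p_pair hM x y⟩

end CLb

open CLb in
theorem prf_clEx : ClEx := by
  rintro n R ⟨f, hf⟩
  refine ⟨T n f, fun M _ hPA w => ?_⟩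
  have hM := mf_of_pa M hPA
  show (∃ u : M, PS M false n (T n f) (scons u w)) ↔ ∃ x : M, R M (scons x w)
  have h1 : ∀ x : M, R M (scons x w) ↔ ∃ s : M, PS M false n f (scons s (scons x w)) :=
    fun x => (hf M hPA (scons x w)).symm
  constructor
  · rintro ⟨u, hu⟩
    rw [PS_T hM] at hu
    exact ⟨p1 M u, (h1 _).2 ⟨_, hu⟩⟩
  · rintro ⟨x, hx⟩
    obtain ⟨s, hs⟩ := (h1 x).1 hx
    obtain ⟨u, e1, e2⟩ := p_surj hM x s
    refine ⟨u, ?_⟩
    rw [PS_T hM, e1, e2]
    exact hs

open CLb in
theorem prf_clAll : ClAll := by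
  rintro n R ⟨f, hf⟩
  refine ⟨T n f, fun M _ hPA w => ?_⟩
  have hM := mf_of_pa M hPA
  show (∀ u : M, PS M true n (T n f) (scons u w)) ↔ ∀ x : M, R M (scons x w)
  have h1 : ∀ x : M, R M (scons x w) ↔ ∀ s : M, PS M true n f (scons s (scons x w)) :=
    fun x => (hf M hPA (scons x w)).symm
  constructor
  · intro h x
    refine (h1 x).2 fun s => ?_
    obtain ⟨u, e1, e2⟩ := p_surj hM x s
    have h2 := h u
    rw [PS_T hM, e1, e2] at h2
    exact h2
  · intro h u
    rw [PS_T hM]
    exact (h1 _).1 (h _) _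

namespace CLb

/-! ### Conjunctions -/

/-- the first `n` entries are replaced by their first projections -/
noncomputable def mp1 (M : Type) [LA.Structure M] (n : ℕ) (v : ℕ → M) : ℕ → M := fun i =>
  if i < n then p1 M (v i) else v i

/-- the first `n` entries are replaced by their second projections -/
noncomputable def mp2 (M : Type) [LA.Structure M] (n : ℕ) (v : ℕ → M) : ℕ → M := fun i =>
  if i < n then p2 M (v i) else v i

/-- the entry `k` is replaced by its first projection -/
def A1 (k : ℕ) (f : BF) : BF := T k (rn (fun i => if i < k then i else i + 1) f)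

/-- the entry `k` is replaced by its second projection -/
def A2 (k : ℕ) (f : BF) : BF := T k (rn (fun i => if i < k + 1 then i else i + 1) f)

theorem sat_A1 {M : Type} [LA.Structure M] (hM : MF M) (k : ℕ) (f : BF) (v : ℕ → M) :
    (A1 k f).sat M v ↔ f.sat M (fun i => if i = k then p1 M (v k) else v i) := by
  unfold A1
  rw [sat_T hM, sat_rn]
  have e : ins M k v ∘ (fun i => if i < k then i else i + 1) =
      fun i => if i = k then p1 M (v k) else v i := by
    funext i
    simp only [Function.comp]
    by_cases h1 : i < k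
    · rw [if_pos h1, if_neg (by omega)]
      unfold ins
      rw [if_pos h1]
    · rw [if_neg h1]
      by_cases h2 : i = k
      · rw [if_pos h2]
        unfold ins
        rw [if_neg (by omega), if_neg (by omega), if_pos (by omega)]
      · rw [if_neg h2]
        unfold ins
        rw [if_neg (by omega), if_neg (by omega), if_neg (by omega)]
        rfl
  rw [e]

theorem sat_A2 {M : Type} [LA.Structure M] (hM : MF M) (k : ℕ) (f : BF) (v : ℕ → M) :
    (A2 k f).sat M v ↔ f.sat M (fun i => if i = k then p2 M (v k) else v i) := by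
  unfold A2
  rw [sat_T hM, sat_rn]
  have e : ins M k v ∘ (fun i => if i < k + 1 then i else i + 1) =
      fun i => if i = k then p2 M (v k) else v i := by
    funext i
    simp only [Function.comp]
    by_cases h1 : i < k + 1
    · rw [if_pos h1]
      unfold ins
      by_cases h2 : i = k
      · rw [if_pos h2, if_neg (by omega), if_pos h2]
      · rw [if_pos (show i < k by omega), if_neg h2]
    · rw [if_neg h1, if_neg (by omega)]
      unfold ins
      rw [if_neg (by omega), if_neg (by omega), if_neg (by omega)]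
      rfl
  rw [e]

/-- the first `n` entries are replaced by their first projections -/
def B1 : ℕ → BF → BF
  | 0, f => f
  | n + 1, f => A1 n (B1 n f)

def B2 : ℕ → BF → BF
  | 0, f => f
  | n + 1, f => A2 n (B2 n f)

theorem sat_B1 {M : Type} [LA.Structure M] (hM : MF M) : ∀ (n : ℕ) (f : BF) (v : ℕ → M),
    (B1 n f).sat M v ↔ f.sat M (mp1 M n v) := by
  intro n
  induction n with
  | zero =>
    intro f v
    have e : mp1 M 0 v = v := by
      funext i
      unfold mp1
      rw [if_neg (by omega)]
    rw [e]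
    exact Iff.rfl
  | succ n ih =>
    intro f v
    show (A1 n (B1 n f)).sat M v ↔ _
    rw [sat_A1 hM, ih]
    have e : mp1 M n (fun i => if i = n then p1 M (v n) else v i) = mp1 M (n + 1) v := by
      funext i
      unfold mp1
      dsimp only
      by_cases h1 : i < n
      · rw [if_pos h1, if_neg (by omega), if_pos (by omega)]
      · rw [if_neg h1]
        by_cases h2 : i = n
        · rw [if_pos h2, if_pos (by omega), h2]
        · rw [if_neg h2, if_neg (by omega)]
    rw [e]

theorem sat_B2 {M : Type} [LA.Structure M] (hM : MF M) : ∀ (n : ℕ) (f : BF) (v : ℕ → M),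
    (B2 n f).sat M v ↔ f.sat M (mp2 M n v) := by
  intro n
  induction n with
  | zero =>
    intro f v
    have e : mp2 M 0 v = v := by
      funext i
      unfold mp2
      rw [if_neg (by omega)]
    rw [e]
    exact Iff.rfl
  | succ n ih =>
    intro f v
    show (A2 n (B2 n f)).sat M v ↔ _
    rw [sat_A2 hM, ih]
    have e : mp2 M n (fun i => if i = n then p2 M (v n) else v i) = mp2 M (n + 1) v := by
      funext i
      unfold mp2
      dsimp only
      by_cases h1 : i < n
      · rw [if_pos h1, if_neg (by omega), if_pos (by omega)]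
      · rw [if_neg h1]
        by_cases h2 : i = n
        · rw [if_pos h2, if_pos (by omega), h2]
        · rw [if_neg h2, if_neg (by omega)]
    rw [e]

theorem mp1_scons {M : Type} [LA.Structure M] (m : ℕ) (x : M) (w : ℕ → M) :
    mp1 M (m + 1) (scons x w) = scons (p1 M x) (mp1 M m w) := by
  funext i
  cases i with
  | zero =>
    unfold mp1
    rw [if_pos (by omega)]
    rfl
  | succ i =>
    show mp1 M (m + 1) (scons x w) (i + 1) = mp1 M m w i
    unfold mp1
    by_cases h1 : i < m
    · rw [if_pos h1, if_pos (by omega)]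
      rfl
    · rw [if_neg h1, if_neg (by omega)]
      rfl

theorem mp2_scons {M : Type} [LA.Structure M] (m : ℕ) (x : M) (w : ℕ → M) :
    mp2 M (m + 1) (scons x w) = scons (p2 M x) (mp2 M m w) := by
  funext i
  cases i with
  | zero =>
    unfold mp2
    rw [if_pos (by omega)]
    rfl
  | succ i =>
    show mp2 M (m + 1) (scons x w) (i + 1) = mp2 M m w i
    unfold mp2
    by_cases h1 : i < m
    · rw [if_pos h1, if_pos (by omega)]
      rfl
    · rw [if_neg h1, if_neg (by omega)]
      rfl

theorem mp_zero {M : Type} [LA.Structure M] (w : ℕ → M) : mp1 M 0 w = w ∧ mp2 M 0 w = w := by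
  constructor
  · funext i
    unfold mp1
    rw [if_neg (by omega)]
  · funext i
    unfold mp2
    rw [if_neg (by omega)]

theorem QS_and {M : Type} [LA.Structure M] (hM : MF M) (P Q : (ℕ → M) → Prop) :
    ∀ (n m : ℕ) (b : Bool) (w : ℕ → M),
    QS b n (fun v => P (mp1 M (n + m) v) ∧ Q (mp2 M (n + m) v)) w ↔
      (QS b n P (mp1 M m w) ∧ QS b n Q (mp2 M m w)) := by
  intro n
  induction n with
  | zero =>
    intro m b w
    rw [Nat.zero_add]
    cases b <;> exact Iff.rfl
  | succ n ih =>
    intro m b w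
    have e : n + 1 + m = n + (m + 1) := by omega
    rw [e]
    cases b with
    | true =>
      show (∃ x : M, QS false n _ (scons x w)) ↔ ((∃ x : M, QS false n P (scons x (mp1 M m w))) ∧
        ∃ x : M, QS false n Q (scons x (mp2 M m w)))
      constructor
      · rintro ⟨x, hx⟩
        rw [ih, mp1_scons, mp2_scons] at hx
        exact ⟨⟨_, hx.1⟩, ⟨_, hx.2⟩⟩
      · rintro ⟨⟨x, hx⟩, ⟨y, hy⟩⟩
        obtain ⟨u, rfl, rfl⟩ := p_surj hM x y
        refine ⟨u, ?_⟩
        rw [ih, mp1_scons, mp2_scons]
        exact ⟨hx, hy⟩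
    | false =>
      show (∀ x : M, QS true n _ (scons x w)) ↔ ((∀ x : M, QS true n P (scons x (mp1 M m w))) ∧
        ∀ x : M, QS true n Q (scons x (mp2 M m w)))
      constructor
      · intro h
        refine ⟨fun x => ?_, fun y => ?_⟩
        · obtain ⟨u, e1, -⟩ := p_surj hM x (nu M 0)
          have h1 := h u
          rw [ih, mp1_scons, mp2_scons, e1] at h1
          exact h1.1
        · obtain ⟨u, -, e2⟩ := p_surj hM (nu M 0) y
          have h1 := h u
          rw [ih, mp1_scons, mp2_scons, e2] at h1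
          exact h1.2
      · rintro ⟨h1, h2⟩ u
        rw [ih, mp1_scons, mp2_scons]
        exact ⟨h1 _, h2 _⟩

theorem QS_or {M : Type} [LA.Structure M] (hM : MF M) (P Q : (ℕ → M) → Prop) :
    ∀ (n m : ℕ) (b : Bool) (w : ℕ → M),
    QS b n (fun v => P (mp1 M (n + m) v) ∨ Q (mp2 M (n + m) v)) w ↔
      (QS b n P (mp1 M m w) ∨ QS b n Q (mp2 M m w)) := by
  intro n
  induction n with
  | zero =>
    intro m b w
    rw [Nat.zero_add]
    cases b <;> exact Iff.rfl
  | succ n ih =>
    intro m b w
    have e : n + 1 + m = n + (m + 1) := by omega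
    rw [e]
    cases b with
    | true =>
      show (∃ x : M, QS false n _ (scons x w)) ↔ ((∃ x : M, QS false n P (scons x (mp1 M m w))) ∨
        ∃ x : M, QS false n Q (scons x (mp2 M m w)))
      constructor
      · rintro ⟨x, hx⟩
        rw [ih, mp1_scons, mp2_scons] at hx
        rcases hx with hx | hx
        · exact Or.inl ⟨_, hx⟩
        · exact Or.inr ⟨_, hx⟩
      · rintro (⟨x, hx⟩ | ⟨y, hy⟩)
        · obtain ⟨u, rfl, -⟩ := p_surj hM x (nu M 0)
          refine ⟨u, ?_⟩
          rw [ih, mp1_scons, mp2_scons]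
          exact Or.inl hx
        · obtain ⟨u, -, rfl⟩ := p_surj hM (nu M 0) y
          refine ⟨u, ?_⟩
          rw [ih, mp1_scons, mp2_scons]
          exact Or.inr hy
    | false =>
      show (∀ x : M, QS true n _ (scons x w)) ↔ ((∀ x : M, QS true n P (scons x (mp1 M m w))) ∨
        ∀ x : M, QS true n Q (scons x (mp2 M m w)))
      constructor
      · intro h
        by_contra hcon
        push Not at hcon
        obtain ⟨⟨x, hx⟩, ⟨y, hy⟩⟩ := hcon
        obtain ⟨u, e1, e2⟩ := p_surj hM x y
        have h1 := h u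
        rw [ih, mp1_scons, mp2_scons, e1, e2] at h1
        rcases h1 with h1 | h1
        · exact hx h1
        · exact hy h1
      · rintro (h1 | h1) u
        · rw [ih, mp1_scons, mp2_scons]
          exact Or.inl (h1 _)
        · rw [ih, mp1_scons, mp2_scons]
          exact Or.inr (h1 _)

end CLb

open CLb in
theorem prf_clAnd : ClAnd := by
  rintro b n R S ⟨f, hf⟩ ⟨g, hg⟩
  refine ⟨band (B1 n f) (B2 n g), fun M _ hPA w => ?_⟩
  have hM := mf_of_pa M hPA
  have h1 := hf M hPA w
  have h2 := hg M hPA w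
  show _ ↔ (R M w ∧ S M w)
  rw [← h1, ← h2, PS_QS, PS_QS, PS_QS, QS_congr (Q := fun v => f.sat M (mp1 M n v) ∧
    g.sat M (mp2 M n v)) (fun v => by rw [sat_band, sat_B1 hM, sat_B2 hM])]
  have h3 := QS_and hM (f.sat M) (g.sat M) n 0 b w
  rw [Nat.add_zero, (mp_zero w).1, (mp_zero w).2] at h3
  exact h3

open CLb in
theorem prf_clOr : ClOr := by
  rintro b n R S ⟨f, hf⟩ ⟨g, hg⟩
  refine ⟨bor (B1 n f) (B2 n g), fun M _ hPA w => ?_⟩
  have hM := mf_of_pa M hPA
  have h1 := hf M hPA w
  have h2 := hg M hPA w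
  show _ ↔ (R M w ∨ S M w)
  rw [← h1, ← h2, PS_QS, PS_QS, PS_QS, QS_congr (Q := fun v => f.sat M (mp1 M n v) ∨
    g.sat M (mp2 M n v)) (fun v => by rw [sat_bor, sat_B1 hM, sat_B2 hM])]
  have h3 := QS_or hM (f.sat M) (g.sat M) n 0 b w
  rw [Nat.add_zero, (mp_zero w).1, (mp_zero w).2] at h3
  exact h3

end Pool.Agent.TH738.SV
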