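import Pool.Agent.TH738.SV.FDefs
import Pool.Agent.Helper180.ArithDef

/-!
The consistency property is arithmetical.
-/

set_option autoImplicit false

open FirstOrder FirstOrder.Language
open Pool.Agent.Helper227.EN
open Pool.Agent.TH752.AR (scons prN)

namespace Pool.Agent.TH738.SV

namespace FA

open Pool.Agent.Helper180.ArithDef (DC DT)

/-- lift a renaming under a binder -/
def lift (ρ : ℕ → ℕ) : ℕ → ℕ
  | 0 => 0
  | n + 1 => ρ n + 1

/-- renaming -/
def ren : RF → (ℕ → ℕ) → RF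
  | .add i j k, ρ => .add (ρ i) (ρ j) (ρ k)
  | .mul i j k, ρ => .mul (ρ i) (ρ j) (ρ k)
  | .bot, _ => .bot
  | .imp φ ψ, ρ => .imp (ren φ ρ) (ren ψ ρ)
  | .all φ, ρ => .all (ren φ (lift ρ))

theorem sat_ren (φ : RF) : ∀ (ρ : ℕ → ℕ) (w : ℕ → ℕ),
    (ren φ ρ).satN w ↔ φ.satN (fun i => w (ρ i)) := by
  induction φ with
  | add i j k => intro ρ w; rfl
  | mul i j k => intro ρ w; rfl
  | bot => intro ρ w; rfl
  | imp φ ψ ih1 ih2 => intro ρ w; simp only [ren, RF.satN, ih1, ih2]
  | all φ ih =>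
    intro ρ w
    simp only [ren, RF.satN, ih]
    refine forall_congr' fun a => ?_
    have : (fun i => scons a w (lift ρ i)) = scons a (fun i => w (ρ i)) := by
      funext i; cases i <;> rfl
    rw [this]

section
variable {D : ((ℕ → ℕ) → Prop) → Prop} (h : DC D)
include h

theorem tconst (n : ℕ) : DT D (fun _ => n) := by
  induction n with
  | zero => exact h.tzero
  | succ n ih => exact h.tadd ih h.tone

theorem diff {R S : (ℕ → ℕ) → Prop} (hR : D R) (hS : D S) : D (fun w => R w ↔ S w) :=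
  h.iff (fun w => by tauto) (h.and (h.imp hR hS) (h.imp hS hR))

theorem tsub {F G : (ℕ → ℕ) → ℕ} (hF : DT D F) (hG : DT D G) : DT D (fun w => F w - G w) := by
  refine h.app3 (R := fun a b c => c = a - b) ?_
    (h.tren (fun n => n + 1) hF) (h.tren (fun n => n + 1) hG) (h.tvar 0)
  refine h.iff (fun w => ?_)
    (h.or (h.and (h.le (h.tvar 1) (h.tvar 0)) (h.eq (h.tadd (h.tvar 2) (h.tvar 1)) (h.tvar 0)))
      (h.and (h.lt (h.tvar 0) (h.tvar 1)) (h.eq (h.tvar 2) h.tzero)))
  omega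

theorem tlk {F G : (ℕ → ℕ) → ℕ} (hF : DT D F) (hG : DT D G) :
    DT D (fun w => lk (F w) (G w)) := by
  have hp : Nat.Partrec (fun n : ℕ => (Part.some (lk n.unpair.1 n.unpair.2) : Part ℕ)) := by
    have h1 : Primrec (fun n : ℕ => lk n.unpair.1 n.unpair.2) := by
      unfold lk
      exact (Primrec.list_getD 0).comp ((Primrec.ofNat (List ℕ)).comp
        (Primrec.fst.comp Primrec.unpair)) (Primrec.snd.comp Primrec.unpair)
    exact Partrec.nat_iff.1 (h1.to_comp.partrec)
  refine h.app3 (R := fun a b c => c = lk a b) ?_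
    (h.tren (fun n => n + 1) hF) (h.tren (fun n => n + 1) hG) (h.tvar 0)
  refine h.iff (fun w => ?_) (h.app2 (R := fun x y => y ∈ (Part.some (lk x.unpair.1 x.unpair.2)
    : Part ℕ)) (h.partrec hp) (h.tpair (h.tvar 0) (h.tvar 1)) (h.tvar 2))
  simp

theorem kp : D (fun w => Kp (w 0) (w 1)) := by
  have key : ∀ x e : ℕ, Kp x e ↔ ∀ N : ℕ, ∃ b b' : ℕ,
      ((∀ k, k < N → Nat.beta b (5 * k) = k) ∧
      (∀ a c, Nat.pair a c < N → Nat.beta b (5 * Nat.pair a c + 1) = Nat.beta b a + Nat.beta b c) ∧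
      (∀ a c, Nat.pair a c < N → Nat.beta b (5 * Nat.pair a c + 2) = Nat.beta b a * Nat.beta b c) ∧
      (∀ a c, Nat.pair a c < N → Nat.beta b (5 * Nat.pair a c + 3) = Nat.beta b a - Nat.beta b c) ∧
      (∀ i j k e, Nat.pair (5 * Nat.pair i (Nat.pair j k) + 1) e < N →
        (Nat.beta b' (Nat.pair (5 * Nat.pair i (Nat.pair j k) + 1) e) = 1 ↔
          Nat.beta b (lk e i) + Nat.beta b (lk e j) = Nat.beta b (lk e k))) ∧
      (∀ i j k e, Nat.pair (5 * Nat.pair i (Nat.pair j k) + 2) e < N →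
        (Nat.beta b' (Nat.pair (5 * Nat.pair i (Nat.pair j k) + 2) e) = 1 ↔
          Nat.beta b (lk e i) * Nat.beta b (lk e j) = Nat.beta b (lk e k))) ∧
      (∀ x e, Nat.pair (5 * x) e < N → ¬ Nat.beta b' (Nat.pair (5 * x) e) = 1) ∧
      (∀ x y e, Nat.pair (5 * Nat.pair x y + 3) e < N → Nat.pair x e < N → Nat.pair y e < N →
        (Nat.beta b' (Nat.pair (5 * Nat.pair x y + 3) e) = 1 ↔
          (Nat.beta b' (Nat.pair x e) = 1 → Nat.beta b' (Nat.pair y e) = 1))) ∧
      (∀ x e c, Nat.pair (5 * x + 4) e < N → Nat.pair x (Nat.pair c e + 1) < N →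
        Nat.beta b' (Nat.pair (5 * x + 4) e) = 1 →
        Nat.beta b' (Nat.pair x (Nat.pair c e + 1)) = 1) ∧
      (∀ x e, Nat.pair (5 * x + 4) e < N →
        Nat.pair x (Nat.pair (5 * Nat.pair x e + 4) e + 1) < N →
        ¬ Nat.beta b' (Nat.pair (5 * x + 4) e) = 1 →
        ¬ Nat.beta b' (Nat.pair x (Nat.pair (5 * Nat.pair x e + 4) e + 1)) = 1) ∧
      (∀ x e c, Nat.pair (5 * x + 4) e < N → Nat.pair x (Nat.pair c e + 1) < N →
        ¬ Nat.beta b' (Nat.pair (5 * x + 4) e) = 1 →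
        Nat.beta b c < Nat.beta b (5 * Nat.pair x e + 4) →
        Nat.beta b' (Nat.pair x (Nat.pair c e + 1)) = 1)) ∧
      (Nat.pair x e < N → Nat.beta b' (Nat.pair x e) = 1) := by
    intro x e
    unfold Kp
    refine forall_congr' fun N => exists_congr fun b => exists_congr fun b' => ?_
    refine and_congr ?_ Iff.rfl
    constructor
    · rintro ⟨h1, h2, h3, h4, h5, h6, h7, h8, h9, h10, h11⟩
      exact ⟨h1, h2, h3, h4, h5, h6, h7, h8, h9, h10, h11⟩
    · rintro ⟨h1, h2, h3, h4, h5, h6, h7, h8, h9, h10, h11⟩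
      exact ⟨h1, h2, h3, h4, h5, h6, h7, h8, h9, h10, h11⟩
  refine h.iff (fun w => (key (w 0) (w 1)).symm) ?_
  repeat' first
    | with_reducible exact h.tvar _
    | with_reducible exact tconst h _
    | with_reducible apply h.all'
    | with_reducible apply h.ex'
    | with_reducible apply h.and
    | with_reducible apply h.not
    | with_reducible apply diff h
    | with_reducible apply h.eq
    | with_reducible apply h.lt
    | with_reducible apply h.imp
    | with_reducible apply h.tadd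
    | with_reducible apply h.tmul
    | with_reducible apply tsub h
    | with_reducible apply h.tpair
    | with_reducible apply h.tbeta
    | with_reducible apply tlk h

end

end FA

open Pool.Agent.Helper180.ArithDef in
theorem rf_dc : DC (fun R : (ℕ → ℕ) → Prop => ∃ κ : RF, ∀ w, κ.satN w ↔ R w) where
  add := ⟨.add 0 1 2, fun _ => Iff.rfl⟩
  mul := ⟨.mul 0 1 2, fun _ => Iff.rfl⟩
  bot := ⟨.bot, fun _ => Iff.rfl⟩
  imp := by
    rintro R S ⟨φ, hφ⟩ ⟨ψ, hψ⟩
    exact ⟨.imp φ ψ, fun w => by simp only [RF.satN, hφ, hψ]⟩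
  all := by
    rintro R ⟨φ, hφ⟩
    refine ⟨.all φ, fun w => ?_⟩
    simp only [RF.satN, hφ]
    refine forall_congr' fun a => ?_
    have : scons a w = Helper180.ArithDef.cns a w := by funext i; cases i <;> rfl
    rw [this]
  ren := by
    rintro R ρ ⟨φ, hφ⟩
    exact ⟨FA.ren φ ρ, fun w => by rw [FA.sat_ren, hφ]⟩

theorem prf_fa : FAStmt := FA.kp rf_dc

end Pool.Agent.TH738.SV
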