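import Pool.Agent.TH738.SV.FDefs
import Pool.Agent.TH752.AR.PA

/-!
FB: a model of `PA` from approximations: the constants, with their values in an ultrapower of `ℕ`.
-/

set_option autoImplicit false

open FirstOrder FirstOrder.Language
open Pool.Agent.Helper227.EN
open Pool.Agent.TH752.AR (scons prN PaAx pa_ax pa_ind pa_t0 pa_t1 pa_tadd pa_tmul pa_flt)

namespace Pool.Agent.TH738.SV

namespace FB

/-! ### Relational formulas: renaming, closure properties -/

/-- lift of a renaming -/
def lft (ρ : ℕ → ℕ) : ℕ → ℕ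
  | 0 => 0
  | i + 1 => ρ i + 1

/-- renaming -/
def ren : (ℕ → ℕ) → RF → RF
  | ρ, .add i j k => .add (ρ i) (ρ j) (ρ k)
  | ρ, .mul i j k => .mul (ρ i) (ρ j) (ρ k)
  | _, .bot => .bot
  | ρ, .imp f g => .imp (ren ρ f) (ren ρ g)
  | ρ, .all f => .all (ren (lft ρ) f)

theorem sat_ren (M : Type) [LA.Structure M] (f : RF) : ∀ (ρ : ℕ → ℕ) (w : ℕ → M),
    (ren ρ f).sat M w ↔ f.sat M (fun i => w (ρ i)) := by
  induction f with
  | add i j k => intro ρ w; exact Iff.rfl
  | mul i j k => intro ρ w; exact Iff.rfl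
  | bot => intro ρ w; exact Iff.rfl
  | imp f g hf hg =>
    intro ρ w
    show ((ren ρ f).sat M w → (ren ρ g).sat M w) ↔ (f.sat M _ → g.sat M _)
    rw [hf, hg]
  | all f hf =>
    intro ρ w
    show (∀ x : M, (ren (lft ρ) f).sat M (scons x w)) ↔ ∀ x : M, f.sat M (scons x _)
    refine forall_congr' fun x => ?_
    rw [hf]
    refine iff_of_eq (congrArg _ ?_)
    funext i
    cases i with
    | zero => rfl
    | succ i => rfl

/-- the relations defined by relational formulas in a structure -/
def RD (M : Type) [LA.Structure M] (R : (ℕ → M) → Prop) : Prop :=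
  ∃ f : RF, ∀ w, f.sat M w ↔ R w

section rd
variable {M : Type} [LA.Structure M]

theorem RD.congr {R S : (ℕ → M) → Prop} (h : RD M R) (hRS : ∀ w, R w ↔ S w) : RD M S := by
  obtain ⟨f, hf⟩ := h
  exact ⟨f, fun w => (hf w).trans (hRS w)⟩

theorem RD.bot : RD M fun _ => False := ⟨.bot, fun _ => Iff.rfl⟩

theorem RD.imp {R S : (ℕ → M) → Prop} (hR : RD M R) (hS : RD M S) :
    RD M fun w => R w → S w := by
  obtain ⟨f, hf⟩ := hR
  obtain ⟨g, hg⟩ := hS
  refine ⟨.imp f g, fun w => ?_⟩
  show (f.sat M w → g.sat M w) ↔ _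
  rw [hf, hg]

theorem RD.not {R : (ℕ → M) → Prop} (hR : RD M R) : RD M fun w => ¬ R w :=
  hR.imp RD.bot

theorem RD.and {R S : (ℕ → M) → Prop} (hR : RD M R) (hS : RD M S) :
    RD M fun w => R w ∧ S w :=
  (hR.imp hS.not).not.congr fun w => by tauto

theorem RD.all {R : (ℕ → M) → Prop} (hR : RD M R) : RD M fun w => ∀ x : M, R (scons x w) := by
  obtain ⟨f, hf⟩ := hR
  refine ⟨.all f, fun w => ?_⟩
  show (∀ x : M, f.sat M (scons x w)) ↔ _
  exact forall_congr' fun x => hf _

theorem RD.ex {R : (ℕ → M) → Prop} (hR : RD M R) : RD M fun w => ∃ x : M, R (scons x w) :=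
  hR.not.all.not.congr fun w => by push Not; exact Iff.rfl

theorem RD.ren {R : (ℕ → M) → Prop} (hR : RD M R) (ρ : ℕ → ℕ) :
    RD M fun w => R (fun i => w (ρ i)) := by
  obtain ⟨f, hf⟩ := hR
  exact ⟨FB.ren ρ f, fun w => (sat_ren M f ρ w).trans (hf _)⟩

theorem RD.add (i j k : ℕ) :
    RD M fun w => Structure.funMap (L := LA) AF.add ![w i, w j] = w k := ⟨.add i j k, fun _ => Iff.rfl⟩

theorem RD.mul (i j k : ℕ) :
    RD M fun w => Structure.funMap (L := LA) AF.mul ![w i, w j] = w k := ⟨.mul i j k, fun _ => Iff.rfl⟩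

end rd

section
variable {M : Type} [LA.Structure M]

/-- consequences of the axioms -/
structure Cq (M : Type) [LA.Structure M] : Prop where
  zero : ∀ x : M, Structure.funMap (L := LA) AF.add ![x, x] = x ↔
    x = Structure.funMap (L := LA) AF.zero ![]
  add0 : ∀ x : M, Structure.funMap (L := LA) AF.add
    ![x, Structure.funMap (L := LA) AF.zero ![] ] = x
  one : ∀ x : M, (Structure.funMap (L := LA) AF.mul ![x, x] = x ∧
    ¬ x = Structure.funMap (L := LA) AF.zero ![]) ↔ x = Structure.funMap (L := LA) AF.one ![]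
  lt : ∀ x y : M, Structure.RelMap (L := LA) AR.lt ![x, y] ↔
    ∃ z : M, ¬ z = Structure.funMap (L := LA) AF.zero ![] ∧
      Structure.funMap (L := LA) AF.add ![x, z] = y

variable (C : Cq M)
include C

theorem rd_zero (i : ℕ) : RD M fun w => w i = Structure.funMap (L := LA) AF.zero ![] :=
  (RD.add i i i).congr fun _ => C.zero _

theorem rd_one (i : ℕ) : RD M fun w => w i = Structure.funMap (L := LA) AF.one ![] :=
  ((RD.mul i i i).and (rd_zero C i).not).congr fun _ => C.one _

theorem rd_eq (i j : ℕ) : RD M fun w => w i = w j := by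
  have h : RD M fun w => w 0 = Structure.funMap (L := LA) AF.zero ![] ∧
      Structure.funMap (L := LA) AF.add ![w (i + 1), w 0] = w (j + 1) :=
    (rd_zero C 0).and (RD.add (i + 1) 0 (j + 1))
  refine h.ex.congr fun w => ?_
  constructor
  · rintro ⟨x, h1, h2⟩
    have h1' : x = Structure.funMap (L := LA) AF.zero ![] := h1
    have h2' : Structure.funMap (L := LA) AF.add ![w i, x] = w j := h2
    rw [h1', C.add0] at h2'
    exact h2'
  · intro h
    refine ⟨Structure.funMap (L := LA) AF.zero ![], rfl, ?_⟩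
    exact (C.add0 (w i)).trans h

theorem rd_lt (i j : ℕ) : RD M fun w => Structure.RelMap (L := LA) AR.lt ![w i, w j] := by
  have h : RD M fun w => ¬ w 0 = Structure.funMap (L := LA) AF.zero ![] ∧
      Structure.funMap (L := LA) AF.add ![w (i + 1), w 0] = w (j + 1) :=
    (rd_zero C 0).not.and (RD.add (i + 1) 0 (j + 1))
  refine h.ex.congr fun w => ?_
  rw [C.lt]
  exact Iff.rfl

/-- values of the variables of a term in a context -/
def asg {α : Type} {k : ℕ} (ρ : α → ℕ) (w : ℕ → M) : α ⊕ Fin k → M :=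
  Sum.elim (fun a => w (ρ a + k)) (fun i => w (k - 1 - i))

theorem rd_term {α : Type} {k : ℕ} (ρ : α → ℕ) (t : LA.Term (α ⊕ Fin k)) :
    RD M fun w => w 0 = t.realize (asg (k := k) ρ fun i => w (i + 1)) := by
  induction t with
  | var x =>
    rcases x with a | i
    · exact rd_eq C 0 (ρ a + k + 1)
    · exact rd_eq C 0 (k - 1 - i + 1)
  | @func l f ts ih =>
    cases f with
    | zero =>
      refine (rd_zero C 0).congr fun w => ?_
      have : (Term.func (L := LA) AF.zero ts).realize (asg (k := k) ρ fun i => w (i + 1)) =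
          Structure.funMap (L := LA) AF.zero ![] := by
        show Structure.funMap (L := LA) AF.zero _ = _
        exact congrArg _ (Subsingleton.elim _ _)
      rw [this]
    | one =>
      refine (rd_one C 0).congr fun w => ?_
      have : (Term.func (L := LA) AF.one ts).realize (asg (k := k) ρ fun i => w (i + 1)) =
          Structure.funMap (L := LA) AF.one ![] := by
        show Structure.funMap (L := LA) AF.one _ = _
        exact congrArg _ (Subsingleton.elim _ _)
      rw [this]
    | add =>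
      have h0 := (ih 0).ren (fun n => match n with | 0 => 1 | n + 1 => n + 3)
      have h1 := (ih 1).ren (fun n => match n with | 0 => 0 | n + 1 => n + 3)
      refine ((h0.and (h1.and (RD.add 1 0 2))).ex.ex).congr fun w => ?_
      have e : (Term.func (L := LA) AF.add ts).realize (asg (k := k) ρ fun i => w (i + 1)) =
          Structure.funMap (L := LA) AF.add
            ![(ts 0).realize (asg (k := k) ρ fun i => w (i + 1)),
              (ts 1).realize (asg (k := k) ρ fun i => w (i + 1))] := by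
        show Structure.funMap (L := LA) AF.add _ = _
        refine congrArg _ ?_
        funext i
        fin_cases i <;> rfl
      rw [e]
      constructor
      · rintro ⟨y, z, e1, e2, e3⟩
        have e1' : y = (ts 0).realize (asg (k := k) ρ fun i => w (i + 1)) := e1
        have e2' : z = (ts 1).realize (asg (k := k) ρ fun i => w (i + 1)) := e2
        have e3' : Structure.funMap (L := LA) AF.add ![y, z] = w 0 := e3
        rw [← e3', e1', e2']
      · intro h
        exact ⟨_, _, rfl, rfl, h.symm⟩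
    | mul =>
      have h0 := (ih 0).ren (fun n => match n with | 0 => 1 | n + 1 => n + 3)
      have h1 := (ih 1).ren (fun n => match n with | 0 => 0 | n + 1 => n + 3)
      refine ((h0.and (h1.and (RD.mul 1 0 2))).ex.ex).congr fun w => ?_
      have e : (Term.func (L := LA) AF.mul ts).realize (asg (k := k) ρ fun i => w (i + 1)) =
          Structure.funMap (L := LA) AF.mul
            ![(ts 0).realize (asg (k := k) ρ fun i => w (i + 1)),
              (ts 1).realize (asg (k := k) ρ fun i => w (i + 1))] := by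
        show Structure.funMap (L := LA) AF.mul _ = _
        refine congrArg _ ?_
        funext i
        fin_cases i <;> rfl
      rw [e]
      constructor
      · rintro ⟨y, z, e1, e2, e3⟩
        have e1' : y = (ts 0).realize (asg (k := k) ρ fun i => w (i + 1)) := e1
        have e2' : z = (ts 1).realize (asg (k := k) ρ fun i => w (i + 1)) := e2
        have e3' : Structure.funMap (L := LA) AF.mul ![y, z] = w 0 := e3
        rw [← e3', e1', e2']
      · intro h
        exact ⟨_, _, rfl, rfl, h.symm⟩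

theorem rd_form {α : Type} {k : ℕ} (φ : LA.BoundedFormula α k) : ∀ ρ : α → ℕ,
    RD M fun w => φ.Realize (fun a => w (ρ a + k)) (fun i => w (k - 1 - i)) := by
  induction φ with
  | falsum => intro ρ; exact RD.bot
  | @equal k t₁ t₂ =>
    intro ρ
    have h0 := (rd_term C ρ t₁)
    have h1 := (rd_term C ρ t₂)
    refine (h0.and h1).ex.congr fun w => ?_
    constructor
    · rintro ⟨x, e1, e2⟩
      exact e1.symm.trans e2
    · intro h
      exact ⟨_, rfl, h⟩
  | @rel k l R ts =>
    intro ρ
    cases R with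
    | lt =>
      have h0 := (rd_term C ρ (ts 0)).ren (fun n => match n with | 0 => 1 | n + 1 => n + 2)
      have h1 := (rd_term C ρ (ts 1)).ren (fun n => match n with | 0 => 0 | n + 1 => n + 2)
      refine ((h0.and (h1.and (rd_lt C 1 0))).ex.ex).congr fun w => ?_
      have e : (BoundedFormula.rel (L := LA) AR.lt ts).Realize (fun a => w (ρ a + k))
          (fun i => w (k - 1 - i)) ↔ Structure.RelMap (L := LA) AR.lt
            ![(ts 0).realize (asg (k := k) ρ w), (ts 1).realize (asg (k := k) ρ w)] := by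
        show Structure.RelMap (L := LA) AR.lt _ ↔ _
        refine iff_of_eq (congrArg _ ?_)
        funext i
        fin_cases i <;> rfl
      rw [e]
      constructor
      · rintro ⟨y, z, e1, e2, e3⟩
        have e1' : y = (ts 0).realize (asg (k := k) ρ w) := e1
        have e2' : z = (ts 1).realize (asg (k := k) ρ w) := e2
        have e3' : Structure.RelMap (L := LA) AR.lt ![y, z] := e3
        rwa [e1', e2'] at e3'
      · intro h
        exact ⟨_, _, rfl, rfl, h⟩
  | imp f g hf hg =>
    intro ρ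
    exact (hf ρ).imp (hg ρ)
  | @all k f hf =>
    intro ρ
    refine (hf ρ).all.congr fun w => ?_
    refine forall_congr' fun x => ?_
    have h2 : (fun i : Fin (k + 1) => (scons x w : ℕ → M) (k + 1 - 1 - i)) =
        Fin.snoc (fun i : Fin k => w (k - 1 - i)) x := by
      funext i
      refine Fin.lastCases ?_ (fun i => ?_) i
      · rw [Fin.snoc_last]
        simp
      · rw [Fin.snoc_castSucc]
        have hi := i.isLt
        have : k + 1 - 1 - (i.castSucc : ℕ) = (k - 1 - i) + 1 := by
          simp only [Fin.val_castSucc]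
          omega
        rw [this]
        rfl
    rw [h2]
    exact Iff.rfl

end

/-! ### Codes -/

theorem dec_add (i j k : ℕ) : dec (cAdd i j k) = .add i j k := by
  unfold dec cAdd
  have h1 : (5 * Nat.pair i (Nat.pair j k) + 1) % 5 = 1 := by omega
  have h2 : (5 * Nat.pair i (Nat.pair j k) + 1) / 5 = Nat.pair i (Nat.pair j k) := by omega
  rw [if_pos h1, h2]
  simp

theorem dec_mul (i j k : ℕ) : dec (cMul i j k) = .mul i j k := by
  unfold dec cMul
  have h1 : (5 * Nat.pair i (Nat.pair j k) + 2) % 5 = 2 := by omega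
  have h2 : (5 * Nat.pair i (Nat.pair j k) + 2) / 5 = Nat.pair i (Nat.pair j k) := by omega
  rw [if_neg (by omega), if_pos h1, h2]
  simp

theorem dec_imp (x y : ℕ) : dec (cImp x y) = .imp (dec x) (dec y) := by
  rw [dec]
  unfold cImp
  have h1 : (5 * Nat.pair x y + 3) % 5 = 3 := by omega
  have h2 : (5 * Nat.pair x y + 3) / 5 = Nat.pair x y := by omega
  rw [if_neg (by omega), if_neg (by omega), dif_pos h1, h2]
  simp

theorem dec_all (x : ℕ) : dec (cAll x) = .all (dec x) := by
  rw [dec]
  unfold cAll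
  have h1 : (5 * x + 4) % 5 = 4 := by omega
  have h2 : (5 * x + 4) / 5 = x := by omega
  rw [if_neg (by omega), if_neg (by omega), dif_neg (by omega), dif_pos h1, h2]

theorem dec_bot (x : ℕ) : dec (5 * x) = .bot := by
  rw [dec]
  rw [if_neg (by omega), if_neg (by omega), dif_neg (by omega), dif_neg (by omega)]

theorem dec_surj (f : RF) : ∃ x, dec x = f := by
  induction f with
  | add i j k => exact ⟨_, dec_add i j k⟩
  | mul i j k => exact ⟨_, dec_mul i j k⟩
  | bot => exact ⟨_, dec_bot 0⟩
  | imp f g hf hg =>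
    obtain ⟨x, hx⟩ := hf
    obtain ⟨y, hy⟩ := hg
    exact ⟨_, by rw [dec_imp x y, hx, hy]⟩
  | all f hf =>
    obtain ⟨x, hx⟩ := hf
    exact ⟨_, by rw [dec_all x, hx]⟩

/-- the forms of a code -/
theorem code_cases (x : ℕ) : (∃ i j k, x = cAdd i j k) ∨ (∃ i j k, x = cMul i j k) ∨
    (∃ y z, x = cImp y z ∧ y < x ∧ z < x) ∨ (∃ y, x = cAll y ∧ y < x) ∨ ∃ y, x = 5 * y := by
  have h := Nat.mod_lt x (show 0 < 5 by norm_num)
  have hd := Nat.div_add_mod x 5
  interval_cases hm : x % 5
  · exact Or.inr (Or.inr (Or.inr (Or.inr ⟨x / 5, by omega⟩)))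
  · refine Or.inl ⟨(x / 5).unpair.1, (x / 5).unpair.2.unpair.1, (x / 5).unpair.2.unpair.2, ?_⟩
    unfold cAdd
    rw [Nat.pair_unpair, Nat.pair_unpair]
    omega
  · refine Or.inr (Or.inl ⟨(x / 5).unpair.1, (x / 5).unpair.2.unpair.1,
      (x / 5).unpair.2.unpair.2, ?_⟩)
    unfold cMul
    rw [Nat.pair_unpair, Nat.pair_unpair]
    omega
  · refine Or.inr (Or.inr (Or.inl ⟨(x / 5).unpair.1, (x / 5).unpair.2, ?_, ?_, ?_⟩))
    · unfold cImp
      rw [Nat.pair_unpair]
      omega
    · have := Nat.unpair_left_le (x / 5)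
      omega
    · have := Nat.unpair_right_le (x / 5)
      omega
  · refine Or.inr (Or.inr (Or.inr (Or.inl ⟨x / 5, ?_, ?_⟩)))
    · unfold cAll
      omega
    · omega

theorem lk_cns_zero (c e : ℕ) : lk (cns c e) 0 = c := by
  unfold lk cns
  have : Nat.pair c e + 1 = Nat.succ (Nat.pair c e) := rfl
  rw [this, Denumerable.list_ofNat_succ]
  simp

theorem lk_cns_succ (c e i : ℕ) : lk (cns c e) (i + 1) = lk e i := by
  unfold lk cns
  have : Nat.pair c e + 1 = Nat.succ (Nat.pair c e) := rfl
  rw [this, Denumerable.list_ofNat_succ]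
  simp

theorem lk_encode (l : List ℕ) (i : ℕ) : lk (Encodable.encode l) i = l.getD i 0 := by
  unfold lk
  rw [Denumerable.ofNat_encode]

/-! ### The model -/

open Filter in
/-- the ultrafilter -/
noncomputable def U : Ultrafilter ℕ := hyperfilter ℕ

theorem ev_lt (p : ℕ) : ∀ᶠ N in (U : Filter ℕ), p < N :=
  (Filter.eventually_gt_atTop p).filter_mono Nat.hyperfilter_le_atTop

/-- approximations -/
structure Ap where
  s : ℕ → ℕ → ℕ
  v : ℕ → ℕ → Prop
  h : ∀ N, Loc N (s N) (v N)

namespace Ap
variable (A : Ap)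

/-- the value of a constant in the ultrapower -/
noncomputable def gm (c : ℕ) : (U : Filter ℕ).Germ ℕ := ((fun N => A.s N c : ℕ → ℕ) : (U : Filter ℕ).Germ ℕ)

theorem gm_num (k : ℕ) : A.gm (5 * k) = ((fun _ => k : ℕ → ℕ) : (U : Filter ℕ).Germ ℕ) := by
  apply Filter.Germ.coe_eq.2
  filter_upwards [ev_lt k] with N hN
  exact (A.h N).num k hN

theorem gm_zero : A.gm 0 = 0 := A.gm_num 0

theorem gm_one : A.gm 5 = 1 := A.gm_num 1

theorem gm_add (a b : ℕ) : A.gm (5 * Nat.pair a b + 1) = A.gm a + A.gm b := by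
  show _ = (((fun N => A.s N a) + (fun N => A.s N b) : ℕ → ℕ) : (U : Filter ℕ).Germ ℕ)
  apply Filter.Germ.coe_eq.2
  filter_upwards [ev_lt (Nat.pair a b)] with N hN
  exact (A.h N).sum a b hN

theorem gm_mul (a b : ℕ) : A.gm (5 * Nat.pair a b + 2) = A.gm a * A.gm b := by
  show _ = (((fun N => A.s N a) * (fun N => A.s N b) : ℕ → ℕ) : (U : Filter ℕ).Germ ℕ)
  apply Filter.Germ.coe_eq.2
  filter_upwards [ev_lt (Nat.pair a b)] with N hN
  exact (A.h N).prod a b hN

theorem gm_diff {a b : ℕ} (h : A.gm b ≤ A.gm a) :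
    A.gm b + A.gm (5 * Nat.pair a b + 3) = A.gm a := by
  have h' : ∀ᶠ N in (U : Filter ℕ), A.s N b ≤ A.s N a := h
  show (((fun N => A.s N b) + (fun N => A.s N (5 * Nat.pair a b + 3)) : ℕ → ℕ) :
    (U : Filter ℕ).Germ ℕ) = _
  apply Filter.Germ.coe_eq.2
  filter_upwards [ev_lt (Nat.pair a b), h'] with N hN hle
  have := (A.h N).diff a b hN
  show A.s N b + A.s N (5 * Nat.pair a b + 3) = A.s N a
  rw [this]
  omega

/-- the universe of the model -/
def Q : Type := {g : (U : Filter ℕ).Germ ℕ // ∃ c, A.gm c = g}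

/-- the value of a constant -/
noncomputable def val (c : ℕ) : A.Q := ⟨A.gm c, c, rfl⟩

theorem val_surj (q : A.Q) : ∃ c, A.val c = q := by
  obtain ⟨g, c, hc⟩ := q
  exact ⟨c, Subtype.ext hc⟩

theorem gm_eq {a b : ℕ} : A.gm a = A.gm b ↔ ∀ᶠ N in (U : Filter ℕ), A.s N a = A.s N b :=
  Filter.Germ.coe_eq

theorem gm_lt {a b : ℕ} : A.gm a < A.gm b ↔ ∀ᶠ N in (U : Filter ℕ), A.s N a < A.s N b :=
  Filter.Germ.coe_lt

noncomputable instance : LA.Structure A.Q where
  funMap := fun {n} f => match n, f with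
    | _, AF.zero => fun _ => ⟨0, 0, A.gm_zero⟩
    | _, AF.one => fun _ => ⟨1, 5, A.gm_one⟩
    | _, AF.add => fun v => ⟨(v 0).1 + (v 1).1, by
        obtain ⟨a, ha⟩ := (v 0).2
        obtain ⟨b, hb⟩ := (v 1).2
        exact ⟨_, by rw [A.gm_add a b, ha, hb]⟩⟩
    | _, AF.mul => fun v => ⟨(v 0).1 * (v 1).1, by
        obtain ⟨a, ha⟩ := (v 0).2
        obtain ⟨b, hb⟩ := (v 1).2
        exact ⟨_, by rw [A.gm_mul a b, ha, hb]⟩⟩
  RelMap := fun {n} r => match n, r with
    | _, AR.lt => fun v => (v 0).1 < (v 1).1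

theorem q0 : (Structure.funMap (L := LA) AF.zero ![] : A.Q).1 = 0 := rfl
theorem q1 : (Structure.funMap (L := LA) AF.one ![] : A.Q).1 = 1 := rfl
theorem qa (x y : A.Q) : (Structure.funMap (L := LA) AF.add ![x, y] : A.Q).1 = x.1 + y.1 := rfl
theorem qm (x y : A.Q) : (Structure.funMap (L := LA) AF.mul ![x, y] : A.Q).1 = x.1 * y.1 := rfl
theorem ql (x y : A.Q) : Structure.RelMap (L := LA) AR.lt ![x, y] ↔ x.1 < y.1 := Iff.rfl

/-! ### Truth -/

theorem scons_val (c e : ℕ) :
    (scons (A.val c) (fun i => A.val (lk e i)) : ℕ → A.Q) = fun i => A.val (lk (cns c e) i) := by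
  funext i
  cases i with
  | zero =>
    show A.val c = A.val (lk (cns c e) 0)
    rw [lk_cns_zero]
  | succ i =>
    show A.val (lk e i) = A.val (lk (cns c e) (i + 1))
    rw [lk_cns_succ]

theorem truth (x : ℕ) : ∀ e : ℕ, (dec x).sat A.Q (fun i => A.val (lk e i)) ↔
    ∀ᶠ N in (U : Filter ℕ), A.v N (Nat.pair x e) := by
  induction x using Nat.strong_induction_on with
  | _ x ih =>
  intro e
  rcases code_cases x with ⟨i, j, k, hx⟩ | ⟨i, j, k, hx⟩ | ⟨y, z, hx, hy, hz⟩ | ⟨y, hx, hy⟩ | ⟨y, hx⟩
  · rw [hx, dec_add]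
    have h1 : RF.sat A.Q (.add i j k) (fun i => A.val (lk e i)) ↔
        A.gm (lk e i) + A.gm (lk e j) = A.gm (lk e k) := by
      constructor
      · intro h
        exact congrArg Subtype.val h
      · intro h
        exact Subtype.ext h
    rw [h1]
    have h2 : A.gm (lk e i) + A.gm (lk e j) = A.gm (lk e k) ↔
        ∀ᶠ N in (U : Filter ℕ), A.s N (lk e i) + A.s N (lk e j) = A.s N (lk e k) :=
      Filter.Germ.coe_eq
    rw [h2]
    refine Filter.eventually_congr ?_
    filter_upwards [ev_lt (Nat.pair (cAdd i j k) e)] with N hN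
    exact ((A.h N).add i j k e hN).symm
  · rw [hx, dec_mul]
    have h1 : RF.sat A.Q (.mul i j k) (fun i => A.val (lk e i)) ↔
        A.gm (lk e i) * A.gm (lk e j) = A.gm (lk e k) := by
      constructor
      · intro h
        exact congrArg Subtype.val h
      · intro h
        exact Subtype.ext h
    rw [h1]
    have h2 : A.gm (lk e i) * A.gm (lk e j) = A.gm (lk e k) ↔
        ∀ᶠ N in (U : Filter ℕ), A.s N (lk e i) * A.s N (lk e j) = A.s N (lk e k) :=
      Filter.Germ.coe_eq
    rw [h2]
    refine Filter.eventually_congr ?_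
    filter_upwards [ev_lt (Nat.pair (cMul i j k) e)] with N hN
    exact ((A.h N).mul i j k e hN).symm
  · rw [hx, dec_imp]
    have h1 : RF.sat A.Q (.imp (dec y) (dec z)) (fun i => A.val (lk e i)) ↔
        ((dec y).sat A.Q (fun i => A.val (lk e i)) → (dec z).sat A.Q (fun i => A.val (lk e i))) :=
      Iff.rfl
    rw [h1, ih y hy e, ih z hz e, ← Ultrafilter.eventually_imp]
    refine Filter.eventually_congr ?_
    filter_upwards [ev_lt (Nat.pair (cImp y z) e), ev_lt (Nat.pair y e), ev_lt (Nat.pair z e)]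
      with N h1 h2 h3
    exact ((A.h N).imp y z e h1 h2 h3).symm
  · rw [hx, dec_all]
    have h1 : RF.sat A.Q (.all (dec y)) (fun i => A.val (lk e i)) ↔
        ∀ c : ℕ, ∀ᶠ N in (U : Filter ℕ), A.v N (Nat.pair y (cns c e)) := by
      show (∀ q : A.Q, (dec y).sat A.Q (scons q _)) ↔ _
      constructor
      · intro h c
        rw [← ih y hy, ← scons_val]
        exact h _
      · intro h q
        obtain ⟨c, rfl⟩ := A.val_surj q
        rw [scons_val, ih y hy]
        exact h c
    rw [h1]
    constructor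
    · intro h
      by_contra hcon
      rw [← Ultrafilter.eventually_not] at hcon
      have h2 : ∀ᶠ N in (U : Filter ℕ), ¬ A.v N (Nat.pair y (cns (hn y e) e)) := by
        filter_upwards [hcon, ev_lt (Nat.pair (cAll y) e), ev_lt (Nat.pair y (cns (hn y e) e))]
          with N h3 h4 h5
        exact (A.h N).all2 y e h4 h5 h3
      exact Ultrafilter.eventually_not.1 h2 (h _)
    · intro h c
      filter_upwards [h, ev_lt (Nat.pair (cAll y) e), ev_lt (Nat.pair y (cns c e))] with N h3 h4 h5
      exact (A.h N).all1 y e c h4 h5 h3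
  · rw [hx, dec_bot]
    constructor
    · intro h
      exact h.elim
    · intro h
      obtain ⟨N, h1, h2⟩ := (h.and (ev_lt (Nat.pair (5 * y) e))).exists
      exact ((A.h N).bot y e h2 h1).elim

/-- the least number principle -/
theorem least (y e : ℕ) {q : A.Q} (hq : ¬ (dec y).sat A.Q (scons q fun i => A.val (lk e i))) :
    (¬ (dec y).sat A.Q (scons (A.val (hn y e)) fun i => A.val (lk e i))) ∧
    ∀ p : A.Q, p.1 < (A.val (hn y e)).1 → (dec y).sat A.Q (scons p fun i => A.val (lk e i)) := by
  obtain ⟨c, rfl⟩ := A.val_surj q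
  have h0 : ∀ᶠ N in (U : Filter ℕ), ¬ A.v N (Nat.pair (cAll y) e) := by
    rw [Ultrafilter.eventually_not, ← truth, dec_all]
    intro h
    exact hq (h _)
  constructor
  · rw [scons_val, truth, ← Ultrafilter.eventually_not]
    filter_upwards [h0, ev_lt (Nat.pair (cAll y) e), ev_lt (Nat.pair y (cns (hn y e) e))]
      with N h3 h4 h5
    exact (A.h N).all2 y e h4 h5 h3
  · intro p hp
    obtain ⟨d, rfl⟩ := A.val_surj p
    have hp' : ∀ᶠ N in (U : Filter ℕ), A.s N d < A.s N (hn y e) := A.gm_lt.1 hp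
    rw [scons_val, truth]
    filter_upwards [h0, hp', ev_lt (Nat.pair (cAll y) e), ev_lt (Nat.pair y (cns d e))]
      with N h3 h4 h5 h6
    exact (A.h N).all3 y e d h5 h6 h3 h4

/-! ### The axioms -/

theorem nonneg (g : (U : Filter ℕ).Germ ℕ) : 0 ≤ g := by
  induction g using Filter.Germ.inductionOn with
  | _ f =>
  show ∀ᶠ N in (U : Filter ℕ), (0 : ℕ) ≤ f N
  exact Filter.Eventually.of_forall fun _ => Nat.zero_le _

theorem one_le (g : (U : Filter ℕ).Germ ℕ) (h : 0 < g) : 1 ≤ g := by
  induction g using Filter.Germ.inductionOn with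
  | _ f =>
  have h' : ∀ᶠ N in (U : Filter ℕ), (0 : ℕ) < f N := Filter.Germ.coe_lt.1 h
  show ∀ᶠ N in (U : Filter ℕ), (1 : ℕ) ≤ f N
  filter_upwards [h'] with N hN
  exact hN

theorem exists_sub {x y : A.Q} (h : x.1 ≤ y.1) : ∃ z : A.Q, x.1 + z.1 = y.1 := by
  obtain ⟨a, rfl⟩ := A.val_surj x
  obtain ⟨b, rfl⟩ := A.val_surj y
  exact ⟨A.val _, A.gm_diff h⟩

theorem paAx : PaAx A.Q (Structure.funMap (L := LA) AF.zero ![])
    (Structure.funMap (L := LA) AF.one ![])
    (fun x y => Structure.funMap (L := LA) AF.add ![x, y])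
    (fun x y => Structure.funMap (L := LA) AF.mul ![x, y])
    (fun x y => Structure.RelMap (L := LA) AR.lt ![x, y]) where
  aa x y w := Subtype.ext (add_assoc x.1 y.1 w.1)
  ac x y := Subtype.ext (add_comm x.1 y.1)
  ma x y w := Subtype.ext (mul_assoc x.1 y.1 w.1)
  mc x y := Subtype.ext (mul_comm x.1 y.1)
  di x y w := Subtype.ext (mul_add x.1 y.1 w.1)
  az x := Subtype.ext (add_zero x.1)
  mz x := Subtype.ext (mul_zero x.1)
  mo x := Subtype.ext (mul_one x.1)
  tr x y w h1 h2 := lt_trans (a := x.1) (b := y.1) (c := w.1) h1 h2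
  ir x := lt_irrefl x.1
  tot x y := by
    rcases lt_trichotomy x.1 y.1 with h | h | h
    · exact Or.inl h
    · exact Or.inr (Or.inl (Subtype.ext h))
    · exact Or.inr (Or.inr h)
  la x y w h := add_lt_add_left (show x.1 < y.1 from h) w.1
  lm x y w h0 h := mul_lt_mul_of_pos_right (show x.1 < y.1 from h) (show 0 < w.1 from h0)
  df x y h := by
    obtain ⟨z, hz⟩ := A.exists_sub (show x.1 ≤ y.1 from le_of_lt h)
    exact ⟨z, Subtype.ext hz⟩
  zo := show (0 : (U : Filter ℕ).Germ ℕ) < 1 from zero_lt_one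
  ds x h := by
    rcases (one_le x.1 h).lt_or_eq with h | h
    · exact Or.inl h
    · exact Or.inr (Subtype.ext h)
  nn x := by
    rcases (nonneg x.1).lt_or_eq with h | h
    · exact Or.inl h
    · exact Or.inr (Subtype.ext h)

theorem cq : Cq A.Q where
  zero x := by
    constructor
    · intro h
      have h' : x.1 + x.1 = x.1 := congrArg Subtype.val h
      have : x.1 = 0 := by
        have h2 : x.1 + x.1 = x.1 + 0 := by rw [add_zero]; exact h'
        exact add_left_cancel h2
      exact Subtype.ext this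
    · intro h
      rw [h]
      exact Subtype.ext (add_zero _)
  add0 x := Subtype.ext (add_zero x.1)
  one x := by
    constructor
    · rintro ⟨h1, h2⟩
      have h1' : x.1 * x.1 = x.1 := congrArg Subtype.val h1
      have h2' : x.1 ≠ 0 := fun h => h2 (Subtype.ext h)
      have h3 : x.1 * x.1 = x.1 * 1 := by rw [mul_one]; exact h1'
      exact Subtype.ext (mul_left_cancel₀ h2' h3)
    · rintro h
      rw [h]
      refine ⟨Subtype.ext (mul_one _), fun h => ?_⟩
      have h' : (1 : (U : Filter ℕ).Germ ℕ) = 0 := congrArg Subtype.val h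
      exact one_ne_zero h'
  lt x y := by
    constructor
    · intro h
      obtain ⟨z, hz⟩ := A.exists_sub (show x.1 ≤ y.1 from le_of_lt h)
      refine ⟨z, fun h0 => ?_, Subtype.ext hz⟩
      have h0' : z.1 = 0 := congrArg Subtype.val h0
      rw [h0', add_zero] at hz
      exact (ne_of_lt (show x.1 < y.1 from h)) hz
    · rintro ⟨z, h1, h2⟩
      have h2' : x.1 + z.1 = y.1 := congrArg Subtype.val h2
      have h3 : 0 < z.1 := lt_of_le_of_ne (nonneg z.1) (fun h => h1 (Subtype.ext h.symm))
      show x.1 < y.1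
      rw [← h2']
      exact lt_add_of_pos_right _ h3

theorem paminus : A.Q ⊨ PAminus := by
  have H := A.paAx
  obtain ⟨h1, h2, h3, h4, h5, h6, h7, h8, h9, h10, h11, h12, h13, h14, h15, h16, h17⟩ := H
  simp only [PAminus, axAddAssoc, axAddComm, axMulAssoc, axMulComm, axDistrib, axAddZero, axMulZero,
    axMulOne, axLtTrans, axLtIrrefl, axLtTotal, axAddLt, axMulLt, axDiff, axZeroLtOne, axDiscrete,
    axNonneg, Theory.model_iff, Set.mem_insert_iff, Set.mem_singleton_iff,
    forall_eq_or_imp, forall_eq, Sentence.Realize, Formula.Realize, BoundedFormula.realize_all,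
    BoundedFormula.realize_bdEqual, BoundedFormula.realize_imp, BoundedFormula.realize_not,
    BoundedFormula.realize_sup, BoundedFormula.realize_ex, pa_t0, pa_t1, pa_tadd, pa_tmul, pa_flt,
    Term.realize_var, Sum.elim_inr]
  exact ⟨h1, h2, h3, h4, h5, h6, h7, h8, h9, h10, h11, h12, h13, h14, h15, h16, h17⟩

theorem ind {n : ℕ} (φ : LA.BoundedFormula (Empty ⊕ Fin n) 1) : A.Q ⊨ indAx φ := by
  classical
  rw [pa_ind]
  intro y h0 hs
  -- the relation is definable by a relational formula
  obtain ⟨f, hf⟩ := rd_form A.cq φ (Sum.elim (fun a => a.elim) (fun i => (i : ℕ)))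
  obtain ⟨x, rfl⟩ := dec_surj f
  choose c hc using fun i => A.val_surj (y i)
  let l : List ℕ := List.ofFn c
  let e : ℕ := Encodable.encode l
  have key : ∀ q : A.Q, (dec x).sat A.Q (scons q fun i => A.val (lk e i)) ↔
      φ.Realize (Sum.elim default y) (fun _ => q) := by
    intro q
    refine (hf _).trans ?_
    show (φ.Realize (fun a : Empty ⊕ Fin n => (scons q fun i => A.val (lk e i) : ℕ → A.Q)
        (Sum.elim (fun a : Empty => a.elim) (fun i : Fin n => (i : ℕ)) a + 1))
        (fun i : Fin 1 => (scons q fun i => A.val (lk e i) : ℕ → A.Q) (1 - 1 - (i : ℕ)))) ↔ _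
    have e1 : (fun a : Empty ⊕ Fin n => (scons q fun i => A.val (lk e i) : ℕ → A.Q)
        (Sum.elim (fun a : Empty => a.elim) (fun i : Fin n => (i : ℕ)) a + 1)) =
        (Sum.elim default y : Empty ⊕ Fin n → A.Q) := by
      funext a
      rcases a with a | i
      · exact a.elim
      · show A.val (lk e i) = y i
        rw [lk_encode, ← hc i]
        congr 1
        show (List.ofFn c).getD (i : ℕ) 0 = c i
        rw [List.getD_eq_getElem _ _ (by rw [List.length_ofFn]; exact i.isLt)]
        simp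
    have e2 : (fun i : Fin 1 => (scons q fun i => A.val (lk e i) : ℕ → A.Q) (1 - 1 - (i : ℕ))) =
        fun _ => q := by
      funext i
      fin_cases i
      rfl
    rw [e1, e2]
  intro q
  by_contra hq
  rw [← key] at hq
  obtain ⟨h1, h2⟩ := A.least x e hq
  set h := A.val (hn x e) with hh
  -- the least counterexample is not zero
  have h3 : h.1 ≠ 0 := by
    intro h3
    apply h1
    rw [key]
    have : h = Structure.funMap (L := LA) AF.zero ![] := Subtype.ext h3
    rw [this]
    exact h0
  have h4 : (1 : (U : Filter ℕ).Germ ℕ) ≤ h.1 :=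
    one_le _ (lt_of_le_of_ne (nonneg _) (Ne.symm h3))
  obtain ⟨p, hp⟩ := A.exists_sub (x := Structure.funMap (L := LA) AF.one ![]) (y := h) h4
  have hp' : 1 + p.1 = h.1 := hp
  have h5 : p.1 < h.1 := by
    rw [← hp', add_comm]
    exact lt_add_of_pos_right _ zero_lt_one
  have h6 := (key p).1 (h2 p h5)
  have h7 := hs p h6
  apply h1
  rw [key]
  have : h = Structure.funMap (L := LA) AF.add ![p, Structure.funMap (L := LA) AF.one ![] ] := by
    apply Subtype.ext
    show h.1 = p.1 + 1
    rw [← hp', add_comm]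
  rw [this]
  exact h7

theorem pa : A.Q ⊨ PA := by
  rw [PA, Theory.model_iff]
  intro σ hσ
  rcases hσ with hσ | ⟨n, φ, rfl⟩
  · have := A.paminus
    exact (Theory.model_iff _).1 this σ hσ
  · exact A.ind φ

theorem nu_eq (k : ℕ) : nu A.Q k = A.val (5 * k) := by
  induction k with
  | zero =>
    show (t0 : LA.Term Empty).realize _ = _
    rw [pa_t0]
    exact Subtype.ext A.gm_zero.symm
  | succ k ih =>
    have : nu A.Q (k + 1) = Structure.funMap (L := LA) AF.add
        ![nu A.Q k, Structure.funMap (L := LA) AF.one ![] ] := by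
      show (tadd (num k) t1 : LA.Term Empty).realize _ = _
      rw [pa_tadd, pa_t1]
      rfl
    rw [this, ih]
    apply Subtype.ext
    show A.gm (5 * k) + 1 = A.gm (5 * (k + 1))
    rw [gm_num, gm_num]
    rfl

end Ap

end FB

theorem prf_fb : FBStmt := by
  intro x l hK
  choose b b' h1 h2 using hK
  let A : FB.Ap := ⟨fun N => Nat.beta (b N), fun N p => Nat.beta (b' N) p = 1, h1⟩
  refine ⟨A.Q, inferInstance, A.pa, ?_⟩
  have h3 : (fun i => nu A.Q (l.getD i 0)) = fun i => A.val (lk (lc l) i) := by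
    funext i
    rw [A.nu_eq, lc, FB.lk_encode]
    congr 1
    have h4 := List.getD_map (l := l) (n := i) (d := 0) (f := fun k => 5 * k)
    exact h4.symm
  rw [h3, A.truth]
  filter_upwards [FB.ev_lt (Nat.pair x (lc l))] with N hN
  exact h2 N hN

end Pool.Agent.TH738.SV
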