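import Pool.Agent.TH738.SV.FDefs

/-!
FC: truth in the natural numbers gives approximations.
-/

set_option autoImplicit false

open FirstOrder FirstOrder.Language
open Pool.Agent.Helper227.EN
open Pool.Agent.TH752.AR (scons prN)

namespace Pool.Agent.TH738.SV

namespace FC

lemma dec_add (i j k : ℕ) : dec (cAdd i j k) = .add i j k := by
  unfold dec cAdd
  have h1 : (5 * Nat.pair i (Nat.pair j k) + 1) % 5 = 1 := by omega
  have h2 : (5 * Nat.pair i (Nat.pair j k) + 1) / 5 = Nat.pair i (Nat.pair j k) := by omega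
  rw [if_pos h1, h2]
  simp

lemma dec_mul (i j k : ℕ) : dec (cMul i j k) = .mul i j k := by
  unfold dec cMul
  have h0 : ¬ (5 * Nat.pair i (Nat.pair j k) + 2) % 5 = 1 := by omega
  have h1 : (5 * Nat.pair i (Nat.pair j k) + 2) % 5 = 2 := by omega
  have h2 : (5 * Nat.pair i (Nat.pair j k) + 2) / 5 = Nat.pair i (Nat.pair j k) := by omega
  rw [if_neg h0, if_pos h1, h2]
  simp

lemma dec_bot (x : ℕ) : dec (5 * x) = .bot := by
  unfold dec
  have h1 : ¬ (5 * x) % 5 = 1 := by omega
  have h2 : ¬ (5 * x) % 5 = 2 := by omega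
  have h3 : ¬ (5 * x) % 5 = 3 := by omega
  have h4 : ¬ (5 * x) % 5 = 4 := by omega
  rw [if_neg h1, if_neg h2, dif_neg h3, dif_neg h4]

lemma dec_imp (x y : ℕ) : dec (cImp x y) = .imp (dec x) (dec y) := by
  conv_lhs => unfold dec
  unfold cImp
  have h1 : ¬ (5 * Nat.pair x y + 3) % 5 = 1 := by omega
  have h2 : ¬ (5 * Nat.pair x y + 3) % 5 = 2 := by omega
  have h3 : (5 * Nat.pair x y + 3) % 5 = 3 := by omega
  have h5 : (5 * Nat.pair x y + 3) / 5 = Nat.pair x y := by omega
  rw [if_neg h1, if_neg h2, dif_pos h3, h5]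
  simp

lemma dec_all (x : ℕ) : dec (cAll x) = .all (dec x) := by
  conv_lhs => unfold dec
  unfold cAll
  have h1 : ¬ (5 * x + 4) % 5 = 1 := by omega
  have h2 : ¬ (5 * x + 4) % 5 = 2 := by omega
  have h3 : ¬ (5 * x + 4) % 5 = 3 := by omega
  have h4 : (5 * x + 4) % 5 = 4 := by omega
  have h5 : (5 * x + 4) / 5 = x := by omega
  rw [if_neg h1, if_neg h2, dif_neg h3, dif_pos h4, h5]

lemma lk_zero (i : ℕ) : lk 0 i = 0 := by
  unfold lk
  rw [Denumerable.list_ofNat_zero]
  simp

lemma lk_cns_zero (c e : ℕ) : lk (cns c e) 0 = c := by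
  unfold lk cns
  rw [← Nat.succ_eq_add_one, Denumerable.list_ofNat_succ]
  simp

lemma lk_cns_succ (c e i : ℕ) : lk (cns c e) (i + 1) = lk e i := by
  unfold lk cns
  rw [← Nat.succ_eq_add_one, Denumerable.list_ofNat_succ]
  simp

lemma lk_le (e : ℕ) : ∀ i, lk e i ≤ e := by
  induction e using Nat.strong_induction_on with
  | _ e ih =>
    intro i
    rcases Nat.eq_zero_or_pos e with h | h
    · subst h; rw [lk_zero]
    · obtain ⟨v, rfl⟩ : ∃ v, e = v + 1 := ⟨e - 1, by omega⟩
      have hv : v + 1 = cns v.unpair.1 v.unpair.2 := by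
        unfold cns; rw [Nat.pair_unpair]
      have h1 := Nat.unpair_left_le v
      have h2 := Nat.unpair_right_le v
      rw [hv]
      cases i with
      | zero => rw [lk_cns_zero]; omega
      | succ i =>
        rw [lk_cns_succ, ← hv]
        have := ih v.unpair.2 (by omega) i
        omega

lemma lk_lc (l : List ℕ) (i : ℕ) : lk (lc l) i = 5 * l.getD i 0 := by
  unfold lk lc
  rw [Denumerable.ofNat_encode]
  rw [List.getD_eq_getElem?_getD, List.getD_eq_getElem?_getD, List.getElem?_map]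
  cases l[i]? <;> simp

open Classical in
/-- the least counterexample, and zero if there is none -/
noncomputable def lce (P : ℕ → Prop) : ℕ := if h : ∃ y, ¬ P y then Nat.find h else 0

lemma lce_spec (P : ℕ → Prop) (h : ¬ ∀ y, P y) : ¬ P (lce P) := by
  classical
  have h' : ∃ y, ¬ P y := by push Not at h; exact h
  unfold lce
  rw [dif_pos h']
  exact Nat.find_spec h'

lemma lce_min (P : ℕ → Prop) (h : ¬ ∀ y, P y) (m : ℕ) (hm : m < lce P) : P m := by
  classical
  have h' : ∃ y, ¬ P y := by push Not at h; exact h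
  unfold lce at hm
  rw [dif_pos h'] at hm
  by_contra hc
  exact Nat.find_min h' hm hc

/-- values of the constants -/
noncomputable def sv (n : ℕ) : ℕ :=
  if n % 5 = 0 then n / 5
  else if h : n % 5 = 1 then sv (n / 5).unpair.1 + sv (n / 5).unpair.2
  else if h : n % 5 = 2 then sv (n / 5).unpair.1 * sv (n / 5).unpair.2
  else if h : n % 5 = 3 then sv (n / 5).unpair.1 - sv (n / 5).unpair.2
  else lce (fun y => (dec (n / 5).unpair.1).satN
    (scons y (fun i => if h' : lk (n / 5).unpair.2 i < n then sv (lk (n / 5).unpair.2 i) else 0)))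
termination_by n
decreasing_by
  · have h1 := Nat.unpair_left_le (n / 5); omega
  · have h1 := Nat.unpair_right_le (n / 5); omega
  · have h1 := Nat.unpair_left_le (n / 5); omega
  · have h1 := Nat.unpair_right_le (n / 5); omega
  · have h1 := Nat.unpair_left_le (n / 5); omega
  · have h1 := Nat.unpair_right_le (n / 5); omega
  · exact h'

lemma sv_num (k : ℕ) : sv (5 * k) = k := by
  unfold sv
  have h1 : (5 * k) % 5 = 0 := by omega
  rw [if_pos h1]
  omega

lemma sv_sum (a b : ℕ) : sv (5 * Nat.pair a b + 1) = sv a + sv b := by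
  conv_lhs => unfold sv
  have h0 : ¬ (5 * Nat.pair a b + 1) % 5 = 0 := by omega
  have h1 : (5 * Nat.pair a b + 1) % 5 = 1 := by omega
  have h5 : (5 * Nat.pair a b + 1) / 5 = Nat.pair a b := by omega
  rw [if_neg h0, dif_pos h1, h5]
  simp

lemma sv_prod (a b : ℕ) : sv (5 * Nat.pair a b + 2) = sv a * sv b := by
  conv_lhs => unfold sv
  have h0 : ¬ (5 * Nat.pair a b + 2) % 5 = 0 := by omega
  have h1 : ¬ (5 * Nat.pair a b + 2) % 5 = 1 := by omega
  have h2 : (5 * Nat.pair a b + 2) % 5 = 2 := by omega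
  have h5 : (5 * Nat.pair a b + 2) / 5 = Nat.pair a b := by omega
  rw [if_neg h0, dif_neg h1, dif_pos h2, h5]
  simp

lemma sv_diff (a b : ℕ) : sv (5 * Nat.pair a b + 3) = sv a - sv b := by
  conv_lhs => unfold sv
  have h0 : ¬ (5 * Nat.pair a b + 3) % 5 = 0 := by omega
  have h1 : ¬ (5 * Nat.pair a b + 3) % 5 = 1 := by omega
  have h2 : ¬ (5 * Nat.pair a b + 3) % 5 = 2 := by omega
  have h3 : (5 * Nat.pair a b + 3) % 5 = 3 := by omega
  have h5 : (5 * Nat.pair a b + 3) / 5 = Nat.pair a b := by omega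
  rw [if_neg h0, dif_neg h1, dif_neg h2, dif_pos h3, h5]
  simp

lemma sv_hn (x e : ℕ) : sv (hn x e) = lce (fun y => (dec x).satN
    (scons y (fun i => sv (lk e i)))) := by
  conv_lhs => unfold sv
  unfold hn
  have h0 : ¬ (5 * Nat.pair x e + 4) % 5 = 0 := by omega
  have h1 : ¬ (5 * Nat.pair x e + 4) % 5 = 1 := by omega
  have h2 : ¬ (5 * Nat.pair x e + 4) % 5 = 2 := by omega
  have h3 : ¬ (5 * Nat.pair x e + 4) % 5 = 3 := by omega
  have h5 : (5 * Nat.pair x e + 4) / 5 = Nat.pair x e := by omega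
  rw [if_neg h0, dif_neg h1, dif_neg h2, dif_neg h3, h5]
  have h6 : (Nat.pair x e).unpair.1 = x := by simp
  have h7 : (Nat.pair x e).unpair.2 = e := by simp
  rw [h6, h7]
  have h8 : ∀ i, lk e i < 5 * Nat.pair x e + 4 := by
    intro i
    have := lk_le e i
    have := Nat.right_le_pair x e
    omega
  have h9 : (fun i => if h' : lk e i < 5 * Nat.pair x e + 4 then sv (lk e i) else 0)
      = fun i => sv (lk e i) := by
    funext i
    rw [dif_pos (h8 i)]
  rw [h9]

/-- truth values -/
noncomputable def vv (p : ℕ) : Prop := (dec p.unpair.1).satN (fun i => sv (lk p.unpair.2 i))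

lemma vv_pair (x e : ℕ) : vv (Nat.pair x e) ↔ (dec x).satN (fun i => sv (lk e i)) := by
  unfold vv
  have h6 : (Nat.pair x e).unpair.1 = x := by simp
  have h7 : (Nat.pair x e).unpair.2 = e := by simp
  rw [h6, h7]

lemma scons_cns (c e : ℕ) : (fun i => sv (lk (cns c e) i)) = scons (sv c) (fun i => sv (lk e i)) := by
  funext i
  cases i with
  | zero => show sv (lk (cns c e) 0) = sv c; rw [lk_cns_zero]
  | succ i => show sv (lk (cns c e) (i + 1)) = sv (lk e i); rw [lk_cns_succ]

lemma vv_cns (x c e : ℕ) : vv (Nat.pair x (cns c e)) ↔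
    (dec x).satN (scons (sv c) (fun i => sv (lk e i))) := by
  rw [vv_pair, scons_cns]

lemma vv_all (x e : ℕ) : vv (Nat.pair (cAll x) e) ↔
    ∀ y, (dec x).satN (scons y (fun i => sv (lk e i))) := by
  rw [vv_pair, dec_all]
  exact Iff.rfl

lemma loc_all (N : ℕ) : Loc N sv vv where
  num k _ := sv_num k
  sum a b _ := sv_sum a b
  prod a b _ := sv_prod a b
  diff a b _ := sv_diff a b
  add i j k e _ := by rw [vv_pair, dec_add]; exact Iff.rfl
  mul i j k e _ := by rw [vv_pair, dec_mul]; exact Iff.rfl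
  bot x e _ := by rw [vv_pair, dec_bot]; exact id
  imp x y e _ _ _ := by rw [vv_pair, vv_pair, vv_pair, dec_imp]; exact Iff.rfl
  all1 x e c _ _ := by
    rw [vv_all, vv_cns]
    intro h
    exact h _
  all2 x e _ _ := by
    rw [vv_all, vv_cns, sv_hn]
    intro h
    exact lce_spec _ h
  all3 x e c _ _ := by
    rw [vv_all, vv_cns, sv_hn]
    intro h hc
    exact lce_min _ h _ hc

lemma beta_ex (f : ℕ → ℕ) (L : ℕ) : ∃ b, ∀ i, i < L → Nat.beta b i = f i := by
  refine ⟨Nat.unbeta ((List.range L).map f), fun i hi => ?_⟩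
  have h := Nat.beta_unbeta_coe ((List.range L).map f) ⟨i, by simpa using hi⟩
  simpa using h

lemma loc_congr (N : ℕ) (s s' : ℕ → ℕ) (v v' : ℕ → Prop) (h : Loc N s v)
    (hs : ∀ i, i < 5 * N + 10 → s' i = s i) (hv : ∀ p, p < N → (v' p ↔ v p)) : Loc N s' v' := by
  have hlk : ∀ x e i, Nat.pair x e < N → s' (lk e i) = s (lk e i) := by
    intro x e i hx
    apply hs
    have := lk_le e i
    have := Nat.right_le_pair x e
    omega
  refine ⟨?_, ?_, ?_, ?_, ?_, ?_, ?_, ?_, ?_, ?_, ?_⟩
  · intro k hk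
    rw [hs _ (by omega)]
    exact h.num k hk
  · intro a b hab
    have h1 := Nat.left_le_pair a b
    have h2 := Nat.right_le_pair a b
    rw [hs _ (by omega), hs a (by omega), hs b (by omega)]
    exact h.sum a b hab
  · intro a b hab
    have h1 := Nat.left_le_pair a b
    have h2 := Nat.right_le_pair a b
    rw [hs _ (by omega), hs a (by omega), hs b (by omega)]
    exact h.prod a b hab
  · intro a b hab
    have h1 := Nat.left_le_pair a b
    have h2 := Nat.right_le_pair a b
    rw [hs _ (by omega), hs a (by omega), hs b (by omega)]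
    exact h.diff a b hab
  · intro i j k e hN
    rw [hv _ hN, hlk _ e i hN, hlk _ e j hN, hlk _ e k hN]
    exact h.add i j k e hN
  · intro i j k e hN
    rw [hv _ hN, hlk _ e i hN, hlk _ e j hN, hlk _ e k hN]
    exact h.mul i j k e hN
  · intro x e hN
    rw [hv _ hN]
    exact h.bot x e hN
  · intro x y e h1 h2 h3
    rw [hv _ h1, hv _ h2, hv _ h3]
    exact h.imp x y e h1 h2 h3
  · intro x e c h1 h2
    rw [hv _ h1, hv _ h2]
    exact h.all1 x e c h1 h2
  · intro x e h1 h2
    rw [hv _ h1, hv _ h2]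
    exact h.all2 x e h1 h2
  · intro x e c h1 h2
    have hc : c < N := by
      have h3 := Nat.right_le_pair x (cns c e)
      have h4 := Nat.left_le_pair c e
      have h5 : cns c e = Nat.pair c e + 1 := rfl
      omega
    have hx : hn x e < 5 * N + 10 := by
      have h3 : Nat.pair x e < Nat.pair (cAll x) e := by
        apply Nat.pair_lt_pair_left
        unfold cAll
        omega
      have h5 : hn x e = 5 * Nat.pair x e + 4 := rfl
      omega
    rw [hv _ h1, hv _ h2, hs c (by omega), hs _ hx]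
    exact h.all3 x e c h1 h2

end FC

theorem prf_fc : FCStmt := by
  classical
  intro x l hx N
  obtain ⟨b, hb⟩ := FC.beta_ex FC.sv (5 * N + 10)
  obtain ⟨b', hb'⟩ := FC.beta_ex (fun p => if FC.vv p then 1 else 0) N
  have hv : ∀ p, p < N → (Nat.beta b' p = 1 ↔ FC.vv p) := by
    intro p hp
    rw [hb' p hp]
    by_cases h : FC.vv p
    · simp [h]
    · simp [h]
  refine ⟨b, b', FC.loc_congr N _ _ _ _ (FC.loc_all N) hb hv, ?_⟩
  intro h
  rw [hv _ h, FC.vv_pair]
  have : (fun i => FC.sv (lk (lc l) i)) = fun i => l.getD i 0 := by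
    funext i
    rw [FC.lk_lc, FC.sv_num]
  rw [this]
  exact hx

end Pool.Agent.TH738.SV
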