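import Pool.Agent.TH738.SV.FDefs
import Pool.Agent.Helper180.ArithDef
import Pool.Agent.Helper227.EN.Alg

/-!
The flexible formula: the relational formulas are in the classes `Cl`, and a Goedel / Rosser
argument.
-/

set_option autoImplicit false

open FirstOrder FirstOrder.Language
open Pool.Agent.Helper227.EN
open Pool.Agent.TH752.AR (scons prN)

namespace Pool.Agent.TH738.SV

namespace FDE

theorem real_num {M : Type} [LA.Structure M] (k : ℕ) (w : ℕ → M) :
    (num k : LA.Term ℕ).realize w = nu M k := by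
  induction k with
  | zero =>
    show (t0 : LA.Term ℕ).realize w = (t0 : LA.Term Empty).realize _
    rw [ea_t0, ea_t0]
  | succ k ih =>
    show (tadd (num k) t1 : LA.Term ℕ).realize w = (tadd (num k) t1 : LA.Term Empty).realize _
    rw [ea_tadd, ea_tadd, ea_t1, ea_t1, ih]
    rfl

theorem cl_congr {b : Bool} {n : ℕ} {R S : URel} (h : Cl b n R)
    (e : ∀ (M : Type) [LA.Structure M] (w : ℕ → M), R M w ↔ S M w) : Cl b n S := by
  obtain ⟨f, hf⟩ := h
  exact ⟨f, fun M _ hM w => (hf M hM w).trans (e M w)⟩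

theorem cl_atom (f : BF) : Cl true 0 (fun M _ w => f.sat M w) :=
  ⟨f, fun _ _ _ _ => Iff.rfl⟩

theorem up_le (hup : ClUp) {b : Bool} {n n' : ℕ} {R : URel} (h : n ≤ n') (hR : Cl b n R) :
    Cl b n' R := by
  rcases h.lt_or_eq with h | rfl
  · exact hup b b n n' R h hR
  · exact hR

/-! ### Relational formulas -/

/-- renaming of the variables -/
def ren : RF → (ℕ → ℕ) → RF
  | .add i j k, ρ => .add (ρ i) (ρ j) (ρ k)
  | .mul i j k, ρ => .mul (ρ i) (ρ j) (ρ k)
  | .bot, _ => .bot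
  | .imp f g, ρ => .imp (ren f ρ) (ren g ρ)
  | .all f, ρ => .all (ren f fun n => match n with | 0 => 0 | n + 1 => ρ n + 1)

theorem sat_ren (M : Type) [LA.Structure M] (f : RF) : ∀ (ρ : ℕ → ℕ) (w : ℕ → M),
    (ren f ρ).sat M w ↔ f.sat M (fun i => w (ρ i)) := by
  induction f with
  | add i j k => exact fun _ _ => Iff.rfl
  | mul i j k => exact fun _ _ => Iff.rfl
  | bot => exact fun _ _ => Iff.rfl
  | imp f g hf hg => exact fun ρ w => imp_congr (hf ρ w) (hg ρ w)
  | all f hf =>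
    intro ρ w
    refine forall_congr' fun x => ?_
    rw [hf]
    have : (fun i => scons x w (match i with | 0 => 0 | n + 1 => ρ n + 1)) =
        scons x fun i => w (ρ i) := by
      funext i
      cases i <;> rfl
    exact iff_of_eq (congrArg _ this)

theorem satN_ren (f : RF) : ∀ (ρ : ℕ → ℕ) (w : ℕ → ℕ),
    (ren f ρ).satN w ↔ f.satN (fun i => w (ρ i)) := by
  induction f with
  | add i j k => exact fun _ _ => Iff.rfl
  | mul i j k => exact fun _ _ => Iff.rfl
  | bot => exact fun _ _ => Iff.rfl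
  | imp f g hf hg => exact fun ρ w => imp_congr (hf ρ w) (hg ρ w)
  | all f hf =>
    intro ρ w
    refine forall_congr' fun x => ?_
    rw [hf]
    have : (fun i => scons x w (match i with | 0 => 0 | n + 1 => ρ n + 1)) =
        scons x fun i => w (ρ i) := by
      funext i
      cases i <;> rfl
    exact iff_of_eq (congrArg _ this)

theorem dec_add (i j k : ℕ) : dec (cAdd i j k) = .add i j k := by
  rw [dec]
  have h1 : cAdd i j k % 5 = 1 := by unfold cAdd; omega
  have h2 : cAdd i j k / 5 = Nat.pair i (Nat.pair j k) := by unfold cAdd; omega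
  rw [if_pos h1, h2]
  simp

theorem dec_mul (i j k : ℕ) : dec (cMul i j k) = .mul i j k := by
  rw [dec]
  have h1 : cMul i j k % 5 = 2 := by unfold cMul; omega
  have h2 : cMul i j k / 5 = Nat.pair i (Nat.pair j k) := by unfold cMul; omega
  rw [if_neg (by omega), if_pos h1, h2]
  simp

theorem dec_zero : dec 0 = .bot := by
  rw [dec]
  simp

theorem dec_imp (x y : ℕ) : dec (cImp x y) = .imp (dec x) (dec y) := by
  rw [dec]
  have h1 : cImp x y % 5 = 3 := by unfold cImp; omega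
  have h2 : cImp x y / 5 = Nat.pair x y := by unfold cImp; omega
  rw [if_neg (by omega), if_neg (by omega), dif_pos h1, h2]
  simp

theorem dec_all (x : ℕ) : dec (cAll x) = .all (dec x) := by
  rw [dec]
  have h1 : cAll x % 5 = 4 := by unfold cAll; omega
  have h2 : cAll x / 5 = x := by unfold cAll; omega
  rw [if_neg (by omega), if_neg (by omega), dif_neg (by omega), dif_pos h1, h2]

theorem dec_surj (f : RF) : ∃ x, dec x = f := by
  induction f with
  | add i j k => exact ⟨_, dec_add i j k⟩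
  | mul i j k => exact ⟨_, dec_mul i j k⟩
  | bot => exact ⟨0, dec_zero⟩
  | imp f g hf hg =>
    obtain ⟨x, rfl⟩ := hf
    obtain ⟨y, rfl⟩ := hg
    exact ⟨_, dec_imp x y⟩
  | all f hf =>
    obtain ⟨x, rfl⟩ := hf
    exact ⟨_, dec_all x⟩

/-- existential quantifier -/
def rex (f : RF) : RF := .imp (.all (.imp f .bot)) .bot

/-- conjunction -/
def rand (f g : RF) : RF := .imp (.imp f (.imp g .bot)) .bot

theorem sat_rex (M : Type) [LA.Structure M] (f : RF) (w : ℕ → M) :
    (rex f).sat M w ↔ ∃ x, f.sat M (scons x w) := by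
  show ((∀ x, f.sat M (scons x w) → False) → False) ↔ _
  constructor
  · intro h
    by_contra h1
    exact h fun x hx => h1 ⟨x, hx⟩
  · rintro ⟨x, hx⟩ h
    exact h x hx

theorem satN_rex (f : RF) (w : ℕ → ℕ) : (rex f).satN w ↔ ∃ x, f.satN (scons x w) := by
  show ((∀ x, f.satN (scons x w) → False) → False) ↔ _
  constructor
  · intro h
    by_contra h1
    exact h fun x hx => h1 ⟨x, hx⟩
  · rintro ⟨x, hx⟩ h
    exact h x hx

theorem sat_rand (M : Type) [LA.Structure M] (f g : RF) (w : ℕ → M) :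
    (rand f g).sat M w ↔ f.sat M w ∧ g.sat M w := by
  show ((f.sat M w → g.sat M w → False) → False) ↔ _
  tauto

theorem satN_rand (f g : RF) (w : ℕ → ℕ) : (rand f g).satN w ↔ f.satN w ∧ g.satN w := by
  show ((f.satN w → g.satN w → False) → False) ↔ _
  tauto

/-- the coding formula; variables: `0 = x, 1 = a, 2 = m, 3 = r, 4 = c` -/
def BB : RF := rex (rex (rex (rex (rand (.add 4 3 7) (rand (.imp (.add 3 3 3) .bot)
  (rand (.mul 4 6 2) (rand (.add 2 8 1) (.mul 1 0 5))))))))

theorem satN_BB (w : ℕ → ℕ) : BB.satN w ↔ w 0 < w 3 ∧ ∃ q, (w 0 * w 2 + w 4) * q = w 1 := by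
  unfold BB
  simp only [satN_rex, satN_rand]
  constructor
  · rintro ⟨z, t, u, q, h1, h2, h3, h4, h5⟩
    have h1' : w 0 + z = w 3 := h1
    have h2' : z + z = z → False := h2
    have h3' : w 0 * w 2 = t := h3
    have h4' : t + w 4 = u := h4
    have h5' : u * q = w 1 := h5
    refine ⟨?_, q, ?_⟩
    · have : z ≠ 0 := fun h => h2' (by omega)
      omega
    · rw [h3', h4', h5']
  · rintro ⟨h1, q, hq⟩
    refine ⟨w 3 - w 0, w 0 * w 2, w 0 * w 2 + w 4, q, ?_, ?_, rfl, rfl, hq⟩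
    · show w 0 + (w 3 - w 0) = w 3
      omega
    · show (w 3 - w 0) + (w 3 - w 0) = w 3 - w 0 → False
      omega

/-- the coding formula in models of `PA` -/
theorem sat_BB (M : Type) [LA.Structure M] (hM : M ⊨ PA) (a m r c : ℕ) (hc : 0 < c)
    (w : ℕ → M) (h1 : w 1 = nu M a) (h2 : w 2 = nu M m) (h3 : w 3 = nu M r) (h4 : w 4 = nu M c) :
    BB.sat M w ↔ ∃ k, (k < r ∧ (k * m + c) ∣ a) ∧ w 0 = nu M k := by
  have : Nonempty M := ⟨nu M 0⟩
  have hminus : M ⊨ PAminus := Theory.Model.mono hM Set.subset_union_left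
  obtain ⟨i1, i2, i3, i4, hco⟩ := exists_alg M hminus
  have : Pool.Agent.TH754.PK.PAm M := ⟨Pool.Agent.TH748.MU.ari_of_pa hco hM⟩
  have hnu : ∀ k : ℕ, nu M k = (k : M) := by
    intro k
    induction k with
    | zero =>
      show (t0 : LA.Term Empty).realize _ = _
      rw [ea_t0, hco.zero]
      simp
    | succ k ih =>
      show (tadd (num k) t1 : LA.Term Empty).realize _ = _
      rw [ea_tadd, ea_t1, hco.one, hco.add]
      change nu M k + 1 = _
      rw [ih]
      simp
  have hbel : ∀ (k : ℕ) (x : M), x ≤ (k : M) → ∃ j : ℕ, j ≤ k ∧ x = (j : M) := by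
    intro k
    induction k with
    | zero =>
      intro x hx
      refine ⟨0, le_rfl, le_antisymm hx ?_⟩
      rw [Nat.cast_zero]
      exact Pool.Agent.TH754.PK.z_le x
    | succ k ih =>
      intro x hx
      rcases hx.lt_or_eq with h | h
      · push_cast at h
        obtain ⟨j, hj, hj'⟩ := ih x (Pool.Agent.TH754.PK.lt_succ.1 h)
        exact ⟨j, by omega, hj'⟩
      · exact ⟨k + 1, le_rfl, h⟩
  have key : BB.sat M w ↔ ∃ z t u q : M, w 0 + z = (r : M) ∧ (z + z = z → False) ∧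
      w 0 * (m : M) = t ∧ t + (c : M) = u ∧ u * q = (a : M) := by
    unfold BB
    simp only [sat_rex, sat_rand]
    refine exists_congr fun z => exists_congr fun t => exists_congr fun u =>
      exists_congr fun q => ?_
    rw [← hnu r, ← hnu m, ← hnu c, ← hnu a, ← h1, ← h2, ← h3, ← h4]
    rw [← hco.add, ← hco.add, ← hco.add, ← hco.mul, ← hco.mul]
    exact Iff.rfl
  rw [key]
  constructor
  · rintro ⟨z, t, u, q, e1, e2, rfl, rfl, e5⟩
    have hz : z ≠ 0 := fun h => e2 (by rw [h, add_zero])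
    have hz' : 0 < z := lt_of_le_of_ne (Pool.Agent.TH754.PK.z_le z) hz.symm
    have hlt : w 0 < (r : M) := by
      rw [← e1]
      exact lt_add_of_pos_right _ hz'
    obtain ⟨k, _, hk⟩ := hbel r (w 0) hlt.le
    rw [hk] at hlt e5
    have hkr : k < r := by exact_mod_cast hlt
    have h5 : ((k * m + c : ℕ) : M) * q = (a : M) := by
      push_cast
      exact e5
    have hq : q ≤ (a : M) := by
      rw [← h5]
      have h6 : (1 : M) ≤ ((k * m + c : ℕ) : M) := by
        have : (1 : ℕ) ≤ k * m + c := by omega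
        exact_mod_cast this
      calc q = 1 * q := (one_mul q).symm
        _ ≤ _ := mul_le_mul_of_nonneg_right h6 (Pool.Agent.TH754.PK.z_le q)
    obtain ⟨j, _, hj⟩ := hbel a q hq
    rw [hj] at h5
    have h7 : (k * m + c) * j = a := by exact_mod_cast h5
    exact ⟨k, ⟨hkr, Dvd.intro _ h7⟩, by rw [hk, hnu]⟩
  · rintro ⟨k, ⟨hkr, j, hj⟩, hk⟩
    rw [hk, hnu]
    refine ⟨((r - k : ℕ) : M), _, _, (j : M), ?_, ?_, rfl, rfl, ?_⟩
    · have : k + (r - k) = r := by omega
      exact_mod_cast this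
    · intro h
      have : (r - k) + (r - k) = r - k := by exact_mod_cast h
      omega
    · rw [hj]
      push_cast
      rfl

theorem coprime_aux {m x k : ℕ} (hx : x < k) (hm : k - x ∣ m) :
    Nat.Coprime (x * m + (m + 1)) (k * m + (m + 1)) := by
  have h : k * m + (m + 1) = (x * m + (m + 1)) + (k - x) * m := by
    obtain ⟨d, rfl⟩ : ∃ d, k = x + d := ⟨k - x, by omega⟩
    rw [Nat.add_sub_cancel_left]
    ring
  rw [h, Nat.coprime_self_add_right]
  have h1 : Nat.Coprime (x * m + (m + 1)) m := by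
    have : x * m + (m + 1) = 1 + (x + 1) * m := by ring
    rw [this]
    simp
  exact Nat.Coprime.mul_right (h1.coprime_dvd_right hm) h1

/-- coding of finite sets -/
theorem coding (τ : Finset ℕ) : ∃ a m r c : ℕ, 0 < a ∧ 0 < c ∧
    ∀ k, (k < r ∧ (k * m + c) ∣ a) ↔ k ∈ τ := by
  classical
  set r := τ.sup id + 1 with hr
  set m := r.factorial with hm
  have hτ : ∀ k ∈ τ, k < r := fun k hk => Nat.lt_succ_of_le (Finset.le_sup (f := id) hk)
  have hmpos : 0 < m := Nat.factorial_pos r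
  refine ⟨∏ k ∈ τ, (k * m + (m + 1)), m, r, m + 1, ?_, by omega, fun k => ?_⟩
  · exact Finset.prod_pos fun k _ => by omega
  constructor
  · rintro ⟨hk, hd⟩
    by_contra hkτ
    have hcop : Nat.Coprime (k * m + (m + 1)) (∏ k ∈ τ, (k * m + (m + 1))) := by
      apply Nat.Coprime.prod_right
      intro l hl
      have hl' := hτ l hl
      have hne : k ≠ l := fun h => hkτ (h ▸ hl)
      rcases lt_or_gt_of_ne hne with h | h
      · exact coprime_aux h (Nat.dvd_factorial (by omega) (by omega))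
      · exact (coprime_aux h (Nat.dvd_factorial (by omega) (by omega))).symm
    have := Nat.Coprime.eq_one_of_dvd hcop hd
    have h2 : 0 ≤ k * m := Nat.zero_le _
    omega
  · intro hk
    exact ⟨hτ k hk, Finset.dvd_prod_of_mem (fun k => k * m + (m + 1)) hk⟩

/-- the code of `∀ x (φ_u ↔ B)` -/
def cd (bc u : ℕ) : ℕ := cAll (cImp (cImp (cImp u bc) (cImp (cImp bc u) 0)) 0)

theorem sat_cd (M : Type) [LA.Structure M] (bc u : ℕ) (w : ℕ → M) : (dec (cd bc u)).sat M w ↔
    ∀ x, ((dec u).sat M (scons x w) ↔ (dec bc).sat M (scons x w)) := by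
  unfold cd
  rw [dec_all, dec_imp, dec_imp, dec_imp, dec_imp, dec_imp, dec_zero]
  refine forall_congr' fun x => ?_
  show ((((dec u).sat M (scons x w) → (dec bc).sat M (scons x w)) →
    ((dec bc).sat M (scons x w) → (dec u).sat M (scons x w)) → False) → False) ↔ _
  tauto

theorem satN_cd (bc u : ℕ) (w : ℕ → ℕ) : (dec (cd bc u)).satN w ↔
    ∀ x, ((dec u).satN (scons x w) ↔ (dec bc).satN (scons x w)) := by
  unfold cd
  rw [dec_all, dec_imp, dec_imp, dec_imp, dec_imp, dec_imp, dec_zero]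
  refine forall_congr' fun x => ?_
  show ((((dec u).satN (scons x w) → (dec bc).satN (scons x w)) →
    ((dec bc).satN (scons x w) → (dec u).satN (scons x w)) → False) → False) ↔ _
  tauto

theorem lc5 (a m r c u : ℕ) : lc [a, m, r, c, u] = Nat.pair (5 * a) (Nat.pair (5 * m)
    (Nat.pair (5 * r) (Nat.pair (5 * c) (Nat.pair (5 * u) 0 + 1) + 1) + 1) + 1) + 1 := by
  unfold lc
  simp [Encodable.encode_list_cons, Encodable.encode_list_nil]

def pa (p : ℕ) : ℕ := p.unpair.1
def pm (p : ℕ) : ℕ := p.unpair.2.unpair.1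
def pr (p : ℕ) : ℕ := p.unpair.2.unpair.2.unpair.1
def pc (p : ℕ) : ℕ := p.unpair.2.unpair.2.unpair.2

/-- consistency of the formula with the code `cd bc u` -/
def KK (bc u p : ℕ) : Prop := Kp (cd bc u) (lc [pa p, pm p, pr p, pc p, u])

/-- the Rosser type relation -/
def RR (bc x u : ℕ) : Prop := ∃ p, ¬ KK bc u p ∧ (∀ p', p' < p → KK bc u p') ∧
  (x < pr p ∧ ∃ q, (x * pm p + pc p) * q = pa p)

section
open Pool.Agent.Helper180.ArithDef
variable {D : ((ℕ → ℕ) → Prop) → Prop} (h : DC D)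
include h

theorem tconst (k : ℕ) : DT D (fun _ => k) := by
  induction k with
  | zero => exact h.tzero
  | succ k ih => exact h.tadd ih h.tone

theorem tcImp {F G : (ℕ → ℕ) → ℕ} (hF : DT D F) (hG : DT D G) :
    DT D (fun w => cImp (F w) (G w)) :=
  h.tadd (h.tmul (tconst h 5) (h.tpair hF hG)) (tconst h 3)

theorem tcAll {F : (ℕ → ℕ) → ℕ} (hF : DT D F) : DT D (fun w => cAll (F w)) :=
  h.tadd (h.tmul (tconst h 5) hF) (tconst h 4)

theorem tcd (bc : ℕ) {U : (ℕ → ℕ) → ℕ} (hU : DT D U) : DT D (fun w => cd bc (U w)) :=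
  tcAll h (tcImp h (tcImp h (tcImp h hU (tconst h bc)) (tcImp h (tcImp h (tconst h bc) hU)
    (tconst h 0))) (tconst h 0))

theorem tpa {P : (ℕ → ℕ) → ℕ} (hP : DT D P) : DT D (fun w => pa (P w)) := h.tfst hP
theorem tpm {P : (ℕ → ℕ) → ℕ} (hP : DT D P) : DT D (fun w => pm (P w)) := h.tfst (h.tsnd hP)
theorem tpr {P : (ℕ → ℕ) → ℕ} (hP : DT D P) : DT D (fun w => pr (P w)) :=
  h.tfst (h.tsnd (h.tsnd hP))
theorem tpc {P : (ℕ → ℕ) → ℕ} (hP : DT D P) : DT D (fun w => pc (P w)) :=
  h.tsnd (h.tsnd (h.tsnd hP))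

theorem tcons {F G : (ℕ → ℕ) → ℕ} (hF : DT D F) (hG : DT D G) :
    DT D (fun w => Nat.pair (5 * F w) (G w) + 1) :=
  h.tadd (h.tpair (h.tmul (tconst h 5) hF) hG) h.tone

theorem dKK (hK : D (fun w => Kp (w 0) (w 1))) (bc : ℕ) {U P : (ℕ → ℕ) → ℕ} (hU : DT D U)
    (hP : DT D P) : D (fun w => KK bc (U w) (P w)) := by
  unfold KK
  simp only [lc5]
  exact h.app2 (R := Kp) hK (tcd h bc hU) (tcons h (tpa h hP) (tcons h (tpm h hP)
    (tcons h (tpr h hP) (tcons h (tpc h hP) (tcons h hU (tconst h 0))))))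

theorem dRR (hK : D (fun w => Kp (w 0) (w 1))) (bc : ℕ) : D (fun w => RR bc (w 0) (w 5)) := by
  unfold RR
  refine h.ex' (S := fun p w => ¬ KK bc (w 5) p ∧ (∀ p', p' < p → KK bc (w 5) p') ∧
    (w 0 < pr p ∧ ∃ q, (w 0 * pm p + pc p) * q = pa p)) ?_
  refine h.and (h.not (dKK h hK bc (h.tvar 6) (h.tvar 0))) (h.and ?_ (h.and ?_ ?_))
  · exact h.all' (S := fun p' w => p' < w 0 → KK bc (w 6) p')
      (h.imp (h.lt (h.tvar 0) (h.tvar 1)) (dKK h hK bc (h.tvar 7) (h.tvar 0)))
  · exact h.lt (h.tvar 1) (tpr h (h.tvar 0))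
  · exact h.ex' (S := fun q w => (w 1 * pm (w 0) + pc (w 0)) * q = pa (w 0))
      (h.eq (h.tmul (h.tadd (h.tmul (h.tvar 2) (tpm h (h.tvar 1))) (tpc h (h.tvar 1)))
        (h.tvar 0)) (tpa h (h.tvar 1)))

end

/-- the renaming -/
def rho : ℕ → ℕ
  | 0 => 0
  | _ + 1 => 5

end FDE

theorem prf_fd (hnot : ClNot) (hand : ClAnd) (hor : ClOr) (hup : ClUp) (hex : ClEx)
    (hall : ClAll) (hsub : ClSub) : FDStmt := by
  intro f
  induction f with
  | add i j k =>
    refine ⟨0, FDE.cl_congr (FDE.cl_atom (.eq (tadd (Term.var i) (Term.var j)) (Term.var k)))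
      fun M _ w => ?_⟩
    show (tadd (Term.var i) (Term.var j) : LA.Term ℕ).realize w = _ ↔ _
    rw [ea_tadd]
    exact Iff.rfl
  | mul i j k =>
    refine ⟨0, FDE.cl_congr (FDE.cl_atom (.eq (tmul (Term.var i) (Term.var j)) (Term.var k)))
      fun M _ w => ?_⟩
    show (tmul (Term.var i) (Term.var j) : LA.Term ℕ).realize w = _ ↔ _
    rw [ea_tmul]
    exact Iff.rfl
  | bot => exact ⟨0, FDE.cl_congr (FDE.cl_atom .bot) fun M _ w => Iff.rfl⟩
  | imp f g hf hg =>
    obtain ⟨n, hn⟩ := hf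
    obtain ⟨m, hm⟩ := hg
    refine ⟨n + m + 1, FDE.cl_congr (hor _ _ _ _ (hup false true n (n + m + 1) _ (by omega)
      (hnot true n _ hn)) (hup true true m (n + m + 1) _ (by omega) hm)) fun M _ w => ?_⟩
    show (¬ f.sat M w ∨ g.sat M w) ↔ (f.sat M w → g.sat M w)
    tauto
  | all f hf =>
    obtain ⟨n, hn⟩ := hf
    exact ⟨n + 2, FDE.cl_congr (hup false true (n + 1) (n + 2) _ (by omega)
      (hall n _ (hup true false n (n + 1) _ (by omega) hn))) fun M _ w => Iff.rfl⟩

open Pool.Agent.Helper180.ArithDef in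
theorem prf_flex (hdc : DC (fun R : (ℕ → ℕ) → Prop => ∃ κ : RF, ∀ w, κ.satN w ↔ R w))
    (hfa : FAStmt) (hfb : FBStmt) (hfc : FCStmt) (hfd : FDStmt) (hnot : ClNot) (hand : ClAnd)
    (hor : ClOr) (hup : ClUp) (hex : ClEx) (hall : ClAll) (hsub : ClSub) : FlexStmt := by
  classical
  obtain ⟨bc, hbc⟩ := FDE.dec_surj FDE.BB
  obtain ⟨Ψ, hΨ⟩ := FDE.dRR hdc hfa bc
  obtain ⟨u0, hu0⟩ := FDE.dec_surj (FDE.ren Ψ FDE.rho)
  obtain ⟨n, hn⟩ := hfd Ψ
  -- consistency
  have hK : ∀ p, FDE.KK bc u0 p := by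
    by_contra hcon
    push Not at hcon
    have hp1 := Nat.find_spec hcon
    have hp2 : ∀ p', p' < Nat.find hcon → FDE.KK bc u0 p' := fun p' hp' =>
      not_not.1 (Nat.find_min hcon hp')
    set p := Nat.find hcon with hp
    apply hp1
    apply hfc
    rw [FDE.satN_cd]
    intro x
    rw [hu0, hbc, FDE.satN_ren, hΨ, FDE.satN_BB]
    show FDE.RR bc x u0 ↔ x < FDE.pr p ∧ ∃ q, (x * FDE.pm p + FDE.pc p) * q = FDE.pa p
    constructor
    · rintro ⟨p', h1, h2, h3⟩
      have : p' = p := by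
        rcases lt_trichotomy p' p with h | h | h
        · exact absurd (hp2 p' h) h1
        · exact h
        · exact absurd (h2 p h) hp1
      rw [this] at h3
      exact h3
    · intro h3
      exact ⟨p, hp1, hp2, h3⟩
  refine ⟨n, fun M _ x => Ψ.sat M (fun i => match i with | 0 => x | _ + 1 => nu M u0), ?_, ?_⟩
  · refine FDE.cl_congr (hsub true n _ (fun i => match i with
      | 0 => Term.var 0 | _ + 1 => num u0) hn) fun M _ w => ?_
    have : (fun i => (match i with | 0 => Term.var 0 | _ + 1 => num u0 : LA.Term ℕ).realize w) =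
        fun i => match i with | 0 => w 0 | _ + 1 => nu M u0 := by
      funext i
      cases i with
      | zero => rfl
      | succ i => exact FDE.real_num u0 w
    exact iff_of_eq (congrArg _ this)
  · intro τ
    obtain ⟨a, m, r, c, _, hc, hτ⟩ := FDE.coding τ
    have hKp := hK (Nat.pair a (Nat.pair m (Nat.pair r c)))
    unfold FDE.KK at hKp
    have e1 : FDE.pa (Nat.pair a (Nat.pair m (Nat.pair r c))) = a := by
      unfold FDE.pa; simp
    have e2 : FDE.pm (Nat.pair a (Nat.pair m (Nat.pair r c))) = m := by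
      unfold FDE.pm; simp
    have e3 : FDE.pr (Nat.pair a (Nat.pair m (Nat.pair r c))) = r := by
      unfold FDE.pr; simp
    have e4 : FDE.pc (Nat.pair a (Nat.pair m (Nat.pair r c))) = c := by
      unfold FDE.pc; simp
    rw [e1, e2, e3, e4] at hKp
    obtain ⟨M, iM, hM, hsat⟩ := hfb _ _ hKp
    refine ⟨M, iM, hM, fun x => ?_⟩
    have h1 := (FDE.sat_cd M bc u0 _).1 hsat x
    rw [hu0, hbc, FDE.sat_ren, FDE.sat_BB M hM a m r c hc _ rfl rfl rfl rfl] at h1
    have h2 : (fun i => scons x (fun i => nu M ([a, m, r, c, u0].getD i 0)) (FDE.rho i)) =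
        fun i => match i with | 0 => x | _ + 1 => nu M u0 := by
      funext i
      cases i <;> rfl
    rw [h2] at h1
    refine h1.trans (exists_congr fun k => ?_)
    rw [hτ]
    exact Iff.rfl

end Pool.Agent.TH738.SV
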