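import Pool.Agent.TH738.SV.Stmts
import Pool.Agent.TH754.PK.Fr
import Pool.Agent.TH748.MU.Diag

/-!
`Σ₁` definitions of truth and falsity of bounded formulas in the models of `PA`.

The formulas are replaced by expressions with values in the model (type `Ex`). A fact is a number
`⟨c, ⟨e, x⟩⟩` (pairing `prN`): the expression with the code `c` has the value `x` for the stack
`e` of the values of the variables. A code of a finite set of facts is justified (`J`) if each of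
its members follows from other members by the rules of evaluation.
-/

set_option autoImplicit false
set_option linter.unusedSectionVars false
set_option linter.unusedVariables false

open FirstOrder FirstOrder.Language
open Pool.Agent.Helper227.EN
open Pool.Agent.TH752.AR (scons prN)
open Pool.Agent.TH754.PK (PAm Df Tm iBool iAnd iOr iImp iNot iEx iAll iVar iPar iEq iNe iLt iLe
  iAdd iMul iPr iMm mem mem_lt mem_bd exists_mem_code coll pr_inj lt_succ pr_ge1 pr_ge2 z_le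
  lt_self_succ eq_z_or)

namespace Pool.Agent.TH738.SV

namespace SAT

/-! ### Bounded formulas, by instance search -/

/-- functions on sequences, on all the structures -/
abbrev UFun := ∀ (M : Type) [LA.Structure M], (ℕ → M) → M

/-- functions given by terms -/
class BT (t : UFun) : Prop where
  out : ∃ s : LA.Term ℕ, ∀ (M : Type) [LA.Structure M] (w : ℕ → M), s.realize w = t M w

/-- relations given by bounded formulas -/
class BD (R : URel) : Prop where
  out : ∃ f : BF, ∀ (M : Type) [LA.Structure M] (w : ℕ → M), f.sat M w ↔ R M w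

section raw
variable (M : Type) [LA.Structure M]

/-- addition -/
def ad (x y : M) : M := Structure.funMap (L := LA) AF.add ![x, y]

/-- multiplication -/
def mu (x y : M) : M := Structure.funMap (L := LA) AF.mul ![x, y]

end raw

theorem realize_num {M : Type} [LA.Structure M] (w : ℕ → M) (n : ℕ) :
    (num n : LA.Term ℕ).realize w = nu M n := by
  induction n with
  | zero =>
    show (t0 : LA.Term ℕ).realize w = (t0 : LA.Term Empty).realize _
    rw [ea_t0, ea_t0]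
  | succ n ih =>
    show (tadd (num n) t1 : LA.Term ℕ).realize w = (tadd (num n) t1 : LA.Term Empty).realize _
    rw [ea_tadd, ea_tadd, ea_t1, ea_t1, ih]
    rfl

instance bVar (i : ℕ) : BT (fun _ _ w => w i) := ⟨Term.var i, fun _ _ _ => rfl⟩

instance bNu (n : ℕ) : BT (fun M _ _ => nu M n) := ⟨num n, fun _ _ w => realize_num w n⟩

instance bAd (s t : UFun) [hs : BT s] [ht : BT t] : BT (fun M _ w => ad M (s M w) (t M w)) := by
  obtain ⟨s', hs'⟩ := hs.out
  obtain ⟨t', ht'⟩ := ht.out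
  exact ⟨tadd s' t', fun M _ w => by rw [ea_tadd, hs', ht']; rfl⟩

instance bMu (s t : UFun) [hs : BT s] [ht : BT t] : BT (fun M _ w => mu M (s M w) (t M w)) := by
  obtain ⟨s', hs'⟩ := hs.out
  obtain ⟨t', ht'⟩ := ht.out
  exact ⟨tmul s' t', fun M _ w => by rw [ea_tmul, hs', ht']; rfl⟩

instance bPr (s t : UFun) [hs : BT s] [ht : BT t] : BT (fun M _ w => prM M (s M w) (t M w)) :=
  inferInstanceAs (BT (fun M _ w => ad M (mu M (ad M (s M w) (t M w)) (ad M (s M w) (t M w)))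
    (s M w)))

instance bEq (s t : UFun) [hs : BT s] [ht : BT t] : BD (fun M _ w => s M w = t M w) := by
  obtain ⟨s', hs'⟩ := hs.out
  obtain ⟨t', ht'⟩ := ht.out
  exact ⟨.eq s' t', fun M _ w => by show s'.realize w = t'.realize w ↔ _; rw [hs', ht']⟩

instance bLt (s t : UFun) [hs : BT s] [ht : BT t] : BD (fun M _ w => ltM M (s M w) (t M w)) := by
  obtain ⟨s', hs'⟩ := hs.out
  obtain ⟨t', ht'⟩ := ht.out
  exact ⟨.lt s' t', fun M _ w => by
    show ltM M (s'.realize w) (t'.realize w) ↔ _; rw [hs', ht']⟩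

instance bImp (R S : URel) [hR : BD R] [hS : BD S] : BD (fun M _ w => R M w → S M w) := by
  obtain ⟨f, hf⟩ := hR.out
  obtain ⟨g, hg⟩ := hS.out
  exact ⟨.imp f g, fun M _ w => by
    show (f.sat M w → g.sat M w) ↔ _; rw [hf, hg]⟩

instance bNot (R : URel) [hR : BD R] : BD (fun M _ w => ¬ R M w) := by
  obtain ⟨f, hf⟩ := hR.out
  exact ⟨.imp f .bot, fun M _ w => by
    show (f.sat M w → False) ↔ _; rw [hf]⟩

theorem BD.congr {R S : URel} (h : BD R)
    (e : ∀ (M : Type) [LA.Structure M] (w : ℕ → M), R M w ↔ S M w) : BD S := by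
  obtain ⟨f, hf⟩ := h.out
  exact ⟨f, fun M _ w => (hf M w).trans (e M w)⟩

instance bAnd (R S : URel) [hR : BD R] [hS : BD S] : BD (fun M _ w => R M w ∧ S M w) :=
  (bNot (fun M _ w => R M w → ¬ S M w)
    (hR := bImp R (fun M _ w => ¬ S M w) (hS := bNot S))).congr fun M _ w => by tauto

instance bOr (R S : URel) [hR : BD R] [hS : BD S] : BD (fun M _ w => R M w ∨ S M w) :=
  (bImp (fun M _ w => ¬ R M w) S (hR := bNot R)).congr fun M _ w => by tauto

instance bNe (s t : UFun) [hs : BT s] [ht : BT t] : BD (fun M _ w => s M w ≠ t M w) :=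
  inferInstanceAs (BD (fun M _ w => ¬ s M w = t M w))

theorem scons_eta {M : Type} (w : ℕ → M) : scons (w 0) (fun n => w (n + 1)) = w := by
  funext n
  cases n <;> rfl

instance bAll (t : UFun) (Q : ∀ (M : Type) [LA.Structure M], (ℕ → M) → M → Prop) [ht : BT t]
    [hQ : BD (fun M _ w => Q M (fun n => w (n + 1)) (w 0))] :
    BD (fun M _ w => ∀ x : M, ltM M x (t M w) → Q M w x) := by
  obtain ⟨t', ht'⟩ := ht.out
  obtain ⟨f, hf⟩ := hQ.out
  refine ⟨.ball t' f, fun M _ w => ?_⟩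
  show (∀ x : M, ltM M x (t'.realize w) → f.sat M (scons x w)) ↔ _
  rw [ht']
  refine forall_congr' fun x => ?_
  rw [hf]
  rfl

instance bEx (t : UFun) (Q : ∀ (M : Type) [LA.Structure M], (ℕ → M) → M → Prop) [ht : BT t]
    [hQ : BD (fun M _ w => Q M (fun n => w (n + 1)) (w 0))] :
    BD (fun M _ w => ∃ x : M, ltM M x (t M w) ∧ Q M w x) := by
  have h := bNot _ (hR := bAll t (fun M _ w x => ¬ Q M w x))
  refine h.congr fun M _ w => ?_
  push Not
  rfl

/-! substitution -/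

/-- lifting of a substitution under a quantifier -/
def lift (g : ℕ → LA.Term ℕ) : ℕ → LA.Term ℕ
  | 0 => Term.var 0
  | i + 1 => (g i).relabel Nat.succ

/-- substitution -/
def sb : BF → (ℕ → LA.Term ℕ) → BF
  | .eq s t, g => .eq (s.subst g) (t.subst g)
  | .lt s t, g => .lt (s.subst g) (t.subst g)
  | .bot, _ => .bot
  | .imp f h, g => .imp (sb f g) (sb h g)
  | .ball t f, g => .ball (t.subst g) (sb f (lift g))

theorem sat_sb (M : Type) [LA.Structure M] (f : BF) : ∀ (g : ℕ → LA.Term ℕ) (w : ℕ → M),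
    (sb f g).sat M w ↔ f.sat M (fun i => (g i).realize w) := by
  induction f with
  | eq s t => intro g w; simp only [sb, BF.sat, Term.realize_subst]
  | lt s t => intro g w; simp only [sb, BF.sat, Term.realize_subst]
  | bot => intro g w; rfl
  | imp f h ihf ihh => intro g w; simp only [sb, BF.sat, ihf, ihh]
  | ball t f ih =>
    intro g w
    simp only [sb, BF.sat, Term.realize_subst, ih]
    refine forall_congr' fun x => ?_
    have : (fun i => (lift g i).realize (scons x w)) = scons x (fun i => (g i).realize w) := by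
      funext i
      cases i with
      | zero => rfl
      | succ i =>
        show ((g i).relabel Nat.succ).realize (scons x w) = _
        rw [Term.realize_relabel]
        rfl
    rw [this]

theorem bd2 {R : ∀ (M : Type) [LA.Structure M], M → M → Prop}
    (h : BD (fun M _ w => R M (w 0) (w 1))) (s t : UFun) [hs : BT s] [ht : BT t] :
    BD (fun M _ w => R M (s M w) (t M w)) := by
  obtain ⟨f, hf⟩ := h.out
  obtain ⟨s', hs'⟩ := hs.out
  obtain ⟨t', ht'⟩ := ht.out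
  refine ⟨sb f (fun i => if i = 0 then s' else t'), fun M _ w => ?_⟩
  rw [sat_sb, hf]
  simp [hs', ht']

/-! ### Membership and justified sets -/

section raw
variable (M : Type) [LA.Structure M]

/-- `x` is a member of the set coded by `D` -/
def memR (x D : M) : Prop :=
  ∃ n, ltM M n (ad M D (nu M 1)) ∧ ∃ s, ltM M s (ad M D (nu M 1)) ∧ (D = prM M n s ∧ ltM M x n ∧
    ∃ a, ltM M a (ad M s (nu M 1)) ∧ ∃ b, ltM M b (ad M s (nu M 1)) ∧ (s = prM M a b ∧
      ∃ c, ltM M c (ad M a (nu M 1)) ∧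
        a = mu M (ad M (mu M (ad M x (nu M 1)) b) (nu M 1)) c))

end raw

instance bMemR (s t : UFun) [hs : BT s] [ht : BT t] : BD (fun M _ w => memR M (s M w) (t M w)) := by
  have h : BD (fun M _ w => memR M (w 0) (w 1)) := by
    unfold memR
    infer_instance
  exact bd2 (R := fun M _ x y => memR M x y) h s t

section raw
variable (M : Type) [LA.Structure M]

/-- `D` is justified -/
def J (D : M) : Prop :=
  ∀ z, ltM M z D → (memR M z D →
    ∃ k, ltM M k D ∧ ∃ r, ltM M r D ∧ ∃ e, ltM M e D ∧ ∃ x, ltM M x D ∧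
      (z = prM M (prM M k r) (prM M e x) ∧
      ((k = nu M 0 ∧ ((r = nu M 0 ∧ ∃ e', ltM M e' D ∧ e = prM M x e') ∨
          ∃ i, ltM M i D ∧ ∃ y, ltM M y D ∧ ∃ e', ltM M e' D ∧ (r = ad M i (nu M 1) ∧
            e = prM M y e' ∧ memR M (prM M (prM M (nu M 0) i) (prM M e' x)) D))) ∨
       ((k = nu M 1 ∧ x = r) ∨
       ∃ s, ltM M s D ∧ ∃ t, ltM M t D ∧ ∃ a, ltM M a D ∧ (r = prM M s t ∧
         memR M (prM M s (prM M e a)) D ∧
         ((∃ b, ltM M b D ∧ (memR M (prM M t (prM M e b)) D ∧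
            ((k = nu M 2 ∧ x = ad M a b) ∨ (k = nu M 3 ∧ x = mu M a b) ∨
             (k = nu M 4 ∧ ((x = nu M 1 ∧ ltM M a b) ∨ (x = nu M 0 ∧ ¬ ltM M a b)))))) ∨
          (k = nu M 5 ∧ ((x = nu M 1 ∧ ∀ u, ltM M u a → ∃ y, ltM M y D ∧ (y ≠ nu M 0 ∧
              memR M (prM M t (prM M (prM M u e) y)) D)) ∨
             (x = nu M 0 ∧ ∃ u, ltM M u a ∧
              memR M (prM M t (prM M (prM M u e) (nu M 0))) D)))))))))

end raw

set_option synthInstance.maxHeartbeats 400000 in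
set_option synthInstance.maxSize 100000 in
instance bJ : BD (fun M _ w => J M (w 0)) := by
  unfold J
  infer_instance

/-- relations given by bounded formulas are definable -/
theorem df_sat {M : Type} [LA.Structure M] (f : BF) : Df (fun v : ℕ → M => f.sat M v) := by
  induction f with
  | eq s t =>
    exact ⟨(Pool.Agent.TH752.AR.Dfn.fm (L := LA) (Term.equal s t)).congr fun v => by
      rw [Formula.realize_equal]; rfl⟩
  | lt s t =>
    exact ⟨(Pool.Agent.TH752.AR.Dfn.fm (L := LA) (Relations.formula₂ (L := LA) AR.lt s t)).congr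
      fun v => Formula.realize_rel₂ (L := LA) (R := AR.lt)⟩
  | bot => exact iBool False
  | imp f g hf hg => exact iImp _ _ (hP := hf) (hQ := hg)
  | ball t f ih =>
    have h1 : Df (fun v : ℕ → M => ltM M (v 0) (t.realize (fun n => v (n + 1)))) := by
      refine ⟨(Pool.Agent.TH752.AR.Dfn.fm (L := LA) (Relations.formula₂ (L := LA) AR.lt
        (Term.var 0) (t.relabel Nat.succ))).congr fun v => ?_⟩
      refine (Formula.realize_rel₂ (L := LA) (R := AR.lt)).trans ?_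
      rw [Term.realize_relabel]
      rfl
    exact ⟨(h1.out.imp ih.out).all⟩

theorem df_bd {M : Type} [LA.Structure M] (R : URel) [hR : BD R] :
    Df (fun v : ℕ → M => R M v) := by
  obtain ⟨f, hf⟩ := hR.out
  exact (df_sat f).congr fun v => hf M v

/-! ### The models of `PA` -/

section alg
variable {M : Type} [LA.Structure M] [CommSemiring M] [LinearOrder M] [IsStrictOrderedRing M]
    [CanonicallyOrderedAdd M] [hN : PAm M]

section
variable (hc : Compat M)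
include hc

omit [IsStrictOrderedRing M] [CanonicallyOrderedAdd M] hN in
theorem nu_eq (n : ℕ) : nu M n = (n : M) := by
  induction n with
  | zero =>
    show (t0 : LA.Term Empty).realize _ = _
    rw [ea_t0, hc.zero, Nat.cast_zero]
  | succ n ih =>
    show (tadd (num n) t1 : LA.Term Empty).realize _ = _
    rw [ea_tadd, ea_t1, hc.one, hc.add]
    have : (num n : LA.Term Empty).realize (default : Empty → M) = (n : M) := ih
    rw [this, Nat.cast_succ]

omit [IsStrictOrderedRing M] [CanonicallyOrderedAdd M] hN in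
theorem ad_eq (x y : M) : ad M x y = x + y := hc.add x y

omit [IsStrictOrderedRing M] [CanonicallyOrderedAdd M] hN in
theorem mu_eq (x y : M) : mu M x y = x * y := hc.mul x y

omit [IsStrictOrderedRing M] [CanonicallyOrderedAdd M] hN in
theorem pr_eq (x y : M) : prM M x y = prN x y := by
  show ad M (mu M (ad M x y) (ad M x y)) x = _
  rw [ad_eq hc, mu_eq hc, ad_eq hc]
  rfl

omit [IsStrictOrderedRing M] [CanonicallyOrderedAdd M] hN in
theorem lt_iff (x y : M) : ltM M x y ↔ x < y := hc.lt x y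

theorem mem_iff (x D : M) : memR M x D ↔ mem x D := by
  unfold memR mem Pool.Agent.TH752.AR.EN
  simp only [nu_eq hc, ad_eq hc, mu_eq hc, pr_eq hc, lt_iff hc, Nat.cast_one, lt_succ]
  constructor
  · rintro ⟨n, _, s, _, h1, h2, a, _, b, _, h3, c, _, h4⟩
    exact ⟨n, s, h1, h2, a, b, h3, ⟨c, h4⟩⟩
  · rintro ⟨n, s, h1, h2, a, b, h3, ⟨c, h4⟩⟩
    refine ⟨n, by rw [h1]; exact pr_ge1 _ _, s, by rw [h1]; exact pr_ge2 _ _, h1, h2, a,
      by rw [h3]; exact pr_ge1 _ _, b, by rw [h3]; exact pr_ge2 _ _, h3, ?_⟩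
    rcases eq_or_ne a 0 with h5 | h5
    · exact ⟨0, z_le _, by rw [h5, mul_zero]⟩
    · refine ⟨c, ?_, h4⟩
      rw [h4, add_mul, one_mul]
      exact le_add_self

end

/-- `z` is justified by the members of `S` -/
def Jst (S : M → Prop) (z : M) : Prop :=
  ∃ k r e x, z = prN (prN k r) (prN e x) ∧
    ((k = ((0 : ℕ) : M) ∧ ((r = ((0 : ℕ) : M) ∧ ∃ e', e = prN x e') ∨
        ∃ i y e', r = i + ((1 : ℕ) : M) ∧ e = prN y e' ∧
          S (prN (prN ((0 : ℕ) : M) i) (prN e' x)))) ∨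
     ((k = ((1 : ℕ) : M) ∧ x = r) ∨
     ∃ s t a, r = prN s t ∧ S (prN s (prN e a)) ∧
       ((∃ b, S (prN t (prN e b)) ∧
          ((k = ((2 : ℕ) : M) ∧ x = a + b) ∨ (k = ((3 : ℕ) : M) ∧ x = a * b) ∨
           (k = ((4 : ℕ) : M) ∧ ((x = ((1 : ℕ) : M) ∧ a < b) ∨ (x = ((0 : ℕ) : M) ∧ ¬ a < b))))) ∨
        (k = ((5 : ℕ) : M) ∧ ((x = ((1 : ℕ) : M) ∧ ∀ u, u < a → ∃ y, y ≠ ((0 : ℕ) : M) ∧
            S (prN t (prN (prN u e) y))) ∨
           (x = ((0 : ℕ) : M) ∧ ∃ u, u < a ∧ S (prN t (prN (prN u e) ((0 : ℕ) : M)))))))))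

/-- `D` is justified -/
def JJ (D : M) : Prop := ∀ z, mem z D → Jst (fun z => mem z D) z

theorem Jst.mono {S S' : M → Prop} (h : ∀ z, S z → S' z) {z : M} (hz : Jst S z) : Jst S' z := by
  obtain ⟨k, r, e, x, h0, h1⟩ := hz
  refine ⟨k, r, e, x, h0, ?_⟩
  rcases h1 with ⟨h1, h2 | ⟨i, y, e', h2, h3, h4⟩⟩ | h1 | ⟨s, t, a, h1, h2, h3⟩
  · exact Or.inl ⟨h1, Or.inl h2⟩
  · exact Or.inl ⟨h1, Or.inr ⟨i, y, e', h2, h3, h _ h4⟩⟩
  · exact Or.inr (Or.inl h1)
  · refine Or.inr (Or.inr ⟨s, t, a, h1, h _ h2, ?_⟩)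
    rcases h3 with ⟨b, h3, h4⟩ | ⟨h3, ⟨h4, h5⟩ | ⟨h4, u, h5, h6⟩⟩
    · exact Or.inl ⟨b, h _ h3, h4⟩
    · refine Or.inr ⟨h3, Or.inl ⟨h4, fun u hu => ?_⟩⟩
      obtain ⟨y, h6, h7⟩ := h5 u hu
      exact ⟨y, h6, h _ h7⟩
    · exact Or.inr ⟨h3, Or.inr ⟨h4, u, h5, h _ h6⟩⟩

theorem J_iff (hc : Compat M) (D : M) : J M D ↔ JJ D := by
  unfold J JJ Jst
  simp only [nu_eq hc, ad_eq hc, mu_eq hc, pr_eq hc, lt_iff hc, mem_iff hc]
  have e1 : ∀ {x y : M}, mem (prN x y) D → x < D := fun h => lt_of_le_of_lt (pr_ge1 _ _) (mem_lt h)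
  have e2 : ∀ {x y : M}, mem (prN x y) D → y < D := fun h => lt_of_le_of_lt (pr_ge2 _ _) (mem_lt h)
  have f1 : ∀ {x y : M}, prN x y < D → x < D := fun h => lt_of_le_of_lt (pr_ge1 _ _) h
  have f2 : ∀ {x y : M}, prN x y < D → y < D := fun h => lt_of_le_of_lt (pr_ge2 _ _) h
  constructor
  · intro h z hz
    obtain ⟨k, _, r, _, e, _, x, _, h0, h1⟩ := h z (mem_lt hz) hz
    refine ⟨k, r, e, x, h0, ?_⟩
    rcases h1 with ⟨h1, ⟨h2, e', _, h3⟩ | ⟨i, _, y, _, e', _, h2, h3, h4⟩⟩ | h1 |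
      ⟨s, _, t, _, a, _, h1, h2, h3⟩
    · exact Or.inl ⟨h1, Or.inl ⟨h2, e', h3⟩⟩
    · exact Or.inl ⟨h1, Or.inr ⟨i, y, e', h2, h3, h4⟩⟩
    · exact Or.inr (Or.inl h1)
    · refine Or.inr (Or.inr ⟨s, t, a, h1, h2, ?_⟩)
      rcases h3 with ⟨b, _, h3, h4⟩ | ⟨h3, ⟨h4, h5⟩ | ⟨h4, u, h5, h6⟩⟩
      · exact Or.inl ⟨b, h3, h4⟩
      · refine Or.inr ⟨h3, Or.inl ⟨h4, fun u hu => ?_⟩⟩
        obtain ⟨y, _, h6, h7⟩ := h5 u hu
        exact ⟨y, h6, h7⟩
      · exact Or.inr ⟨h3, Or.inr ⟨h4, u, h5, h6⟩⟩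
  · intro h z _ hz
    obtain ⟨k, r, e, x, h0, h1⟩ := h z hz
    have hz' : mem (prN (prN k r) (prN e x)) D := h0 ▸ hz
    have hk : k < D := f1 (e1 hz')
    have hr : r < D := f2 (e1 hz')
    have he : e < D := f1 (e2 hz')
    have hx : x < D := f2 (e2 hz')
    refine ⟨k, hk, r, hr, e, he, x, hx, h0, ?_⟩
    rcases h1 with ⟨h1, ⟨h2, e', h3⟩ | ⟨i, y, e', h2, h3, h4⟩⟩ | h1 | ⟨s, t, a, h1, h2, h3⟩
    · exact Or.inl ⟨h1, Or.inl ⟨h2, e', f2 (h3 ▸ he), h3⟩⟩
    · exact Or.inl ⟨h1, Or.inr ⟨i, f2 (e1 h4), y, f1 (h3 ▸ he), e', f2 (h3 ▸ he), h2, h3, h4⟩⟩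
    · exact Or.inr (Or.inl h1)
    · refine Or.inr (Or.inr ⟨s, f1 (h1 ▸ hr), t, f2 (h1 ▸ hr), a, f2 (e2 h2), h1, h2, ?_⟩)
      rcases h3 with ⟨b, h3, h4⟩ | ⟨h3, ⟨h4, h5⟩ | ⟨h4, u, h5, h6⟩⟩
      · exact Or.inl ⟨b, f2 (e2 h3), h3, h4⟩
      · refine Or.inr ⟨h3, Or.inl ⟨h4, fun u hu => ?_⟩⟩
        obtain ⟨y, h6, h7⟩ := h5 u hu
        exact ⟨y, f2 (e2 h7), h6, h7⟩
      · exact Or.inr ⟨h3, Or.inr ⟨h4, u, h5, h6⟩⟩

theorem dJJ (hc : Compat M) (t : (ℕ → M) → M) [ht : Tm t] : Df (fun v : ℕ → M => JJ (t v)) := by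
  have h : Df (fun v : ℕ → M => JJ (v 0)) :=
    (df_bd (fun M _ w => J M (w 0))).congr fun v => J_iff hc (v 0)
  exact ⟨Pool.Agent.TH752.AR.Dfn.rel1 (R := fun x => JJ x) h.out ht.out⟩

/-- union of justified sets, with a new fact -/
theorem merge (R : M → Prop) (hR : Df fun v => R (v 0)) (B : M) (hB : ∀ D, R D → D < B)
    (hJ : ∀ D, R D → JJ D) (z0 : M) (hz0 : Jst (fun z => ∃ D, R D ∧ mem z D) z0) :
    ∃ D, JJ D ∧ mem z0 D ∧ ∀ D', R D' → ∀ z, mem z D' → mem z D := by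
  have hR2 : Df fun v : ℕ → M => R (v 0) ∧ mem (v 1) (v 0) :=
    iAnd (fun v => R (v 0)) _ (hP := hR)
  have hS : Df fun v : ℕ → M => v 0 = z0 ∨ ∃ D, R D ∧ mem (v 0) D :=
    iOr _ _ (hQ := iEx (fun v D => R D ∧ mem (v 0) D) (hQ := hR2))
  obtain ⟨D, hD⟩ := exists_mem_code (fun z => z = z0 ∨ ∃ D, R D ∧ mem z D) (n := z0 + 1 + B) (by
    rintro z (rfl | ⟨D', h1, h2⟩)
    · exact lt_of_lt_of_le (lt_self_succ z) le_self_add
    · exact lt_of_lt_of_le (mem_lt h2) ((hB D' h1).le.trans le_add_self))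
  refine ⟨D, ?_, (hD z0).2 (Or.inl rfl), fun D' h1 z h2 => (hD z).2 (Or.inr ⟨D', h1, h2⟩)⟩
  intro z hz
  rcases (hD z).1 hz with rfl | ⟨D', h1, h2⟩
  · exact hz0.mono fun z h => (hD z).2 (Or.inr h)
  · exact (hJ D' h1 z h2).mono fun z' h => (hD z').2 (Or.inr ⟨D', h1, h⟩)

end alg

/-! ### Expressions -/

/-- expressions; the variables are de Bruijn indices -/
inductive Ex : Type
  | var (i : ℕ) : Ex
  | con (n : ℕ) : Ex
  | add (s t : Ex) : Ex
  | mul (s t : Ex) : Ex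
  | lt (s t : Ex) : Ex
  | ball (t f : Ex) : Ex

/-- the codes -/
def code : Ex → ℕ
  | .var i => prN 0 i
  | .con n => prN 1 n
  | .add s t => prN 2 (prN (code s) (code t))
  | .mul s t => prN 3 (prN (code s) (code t))
  | .lt s t => prN 4 (prN (code s) (code t))
  | .ball t f => prN 5 (prN (code t) (code f))

/-- a bound for the variables -/
def bd : Ex → ℕ
  | .var i => i + 1
  | .con _ => 0
  | .add s t => max (bd s) (bd t)
  | .mul s t => max (bd s) (bd t)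
  | .lt s t => max (bd s) (bd t)
  | .ball t f => max (bd t) (bd f)

open Classical in
/-- the value -/
noncomputable def val {M : Type} [CommSemiring M] [LinearOrder M] : Ex → (ℕ → M) → M
  | .var i, w => w i
  | .con n, _ => (n : M)
  | .add s t, w => val s w + val t w
  | .mul s t, w => val s w * val t w
  | .lt s t, w => if val s w < val t w then 1 else 0
  | .ball t f, w => if ∀ u, u < val t w → val f (scons u w) ≠ 0 then 1 else 0

theorem stk_mono {M : Type} [LA.Structure M] : ∀ {k k' : ℕ} (_ : k ≤ k') {e : M} {w : ℕ → M},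
    Stk M k' e w → Stk M k e w
  | 0, _, _, _, _, _ => trivial
  | k + 1, 0, h, _, _, _ => absurd h (by omega)
  | k + 1, k' + 1, h, e, w, hs => by
    obtain ⟨e', h1, h2⟩ := hs
    exact ⟨e', h1, stk_mono (by omega) h2⟩

theorem stk_push {M : Type} [LA.Structure M] {k : ℕ} {e : M} {w : ℕ → M} (h : Stk M k e w) (u : M) :
    Stk M k (prM M u e) (scons u w) :=
  stk_mono (Nat.le_succ k) (⟨e, rfl, h⟩ : Stk M (k + 1) (prM M u e) (scons u w))

section alg
variable {M : Type} [LA.Structure M] [CommSemiring M] [LinearOrder M] [IsStrictOrderedRing M]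
    [CanonicallyOrderedAdd M] [hN : PAm M]

omit [LA.Structure M] [LinearOrder M] [IsStrictOrderedRing M] [CanonicallyOrderedAdd M] hN in
theorem cast_pr (x y : ℕ) : ((prN x y : ℕ) : M) = prN (x : M) (y : M) := by
  unfold prN
  push_cast
  rfl

/-- inversion of a justified fact -/
theorem inv {D : M} (hD : JJ D) {k : ℕ} {r e x : M} (h : mem (prN (prN (k : M) r) (prN e x)) D) :
    (k = 0 ∧ ((r = 0 ∧ ∃ e', e = prN x e') ∨
        ∃ i y e', r = i + 1 ∧ e = prN y e' ∧ mem (prN (prN ((0 : ℕ) : M) i) (prN e' x)) D)) ∨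
     ((k = 1 ∧ x = r) ∨
     ∃ s t a, r = prN s t ∧ mem (prN s (prN e a)) D ∧
       ((∃ b, mem (prN t (prN e b)) D ∧
          ((k = 2 ∧ x = a + b) ∨ (k = 3 ∧ x = a * b) ∨
           (k = 4 ∧ ((x = 1 ∧ a < b) ∨ (x = 0 ∧ ¬ a < b))))) ∨
        (k = 5 ∧ ((x = 1 ∧ ∀ u, u < a → ∃ y, y ≠ 0 ∧ mem (prN t (prN (prN u e) y)) D) ∨
           (x = 0 ∧ ∃ u, u < a ∧ mem (prN t (prN (prN u e) 0)) D))))) := by
  obtain ⟨k', r', e', x', h0, h1⟩ := hD _ h
  obtain ⟨h2, h3⟩ := pr_inj h0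
  obtain ⟨rfl, rfl⟩ := pr_inj h2
  obtain ⟨rfl, rfl⟩ := pr_inj h3
  simpa only [Nat.cast_inj, Nat.cast_eq_zero, Nat.cast_eq_one, Nat.cast_zero, Nat.cast_one]
    using h1

theorem push (hc : Compat M) {k : ℕ} {e : M} {w : ℕ → M} (h : Stk M k e w) (u : M) :
    Stk M k (prN u e) (scons u w) := by
  rw [← pr_eq hc]
  exact stk_push h u

theorem sound_var (hc : Compat M) (i : ℕ) : ∀ {e : M} {w : ℕ → M} (_ : Stk M (i + 1) e w) {D : M}
    (_ : JJ D) {x : M}, mem (prN (prN ((0 : ℕ) : M) (i : M)) (prN e x)) D → x = w i := by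
  induction i with
  | zero =>
    intro e w hs D hD x h
    obtain ⟨e1, h1, -⟩ := hs
    rw [pr_eq hc] at h1
    rcases inv hD h with ⟨-, ⟨-, e', h2⟩ | ⟨i, y, e', h2, -, -⟩⟩ | ⟨h2, -⟩ |
      ⟨s, t, a, -, -, ⟨b, -, ⟨h2, -⟩ | ⟨h2, -⟩ | ⟨h2, -⟩⟩ | ⟨h2, -⟩⟩
    · rw [h1] at h2
      exact (pr_inj h2).1.symm
    · exfalso
      rw [Nat.cast_zero] at h2
      exact absurd (lt_of_lt_of_le (lt_self_succ i) h2.ge) (not_lt_of_ge (z_le i))
    all_goals omega
  | succ i ih =>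
    intro e w hs D hD x h
    obtain ⟨e1, h1, h1'⟩ := hs
    rw [pr_eq hc] at h1
    rcases inv hD h with ⟨-, ⟨h2, e', -⟩ | ⟨j, y, e', h2, h3, h4⟩⟩ | ⟨h2, -⟩ |
      ⟨s, t, a, -, -, ⟨b, -, ⟨h2, -⟩ | ⟨h2, -⟩ | ⟨h2, -⟩⟩ | ⟨h2, -⟩⟩
    · exfalso
      rw [Nat.cast_eq_zero] at h2
      omega
    · rw [h1] at h3
      obtain ⟨-, rfl⟩ := pr_inj h3
      rw [Nat.cast_succ] at h2
      have h5 : (i : M) = j := add_right_cancel h2
      rw [← h5] at h4
      exact ih h1' hD h4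
    all_goals omega

open Classical in
/-- values are correct -/
theorem sound (hc : Compat M) (E : Ex) : ∀ {k : ℕ} (_ : bd E ≤ k) {e : M} {w : ℕ → M}
    (_ : Stk M k e w) {D : M} (_ : JJ D) {x : M}, mem (prN (code E : M) (prN e x)) D →
    x = val E w := by
  induction E with
  | var i =>
    intro k hk e w hs D hD x h
    have h' : mem (prN (prN ((0 : ℕ) : M) (i : M)) (prN e x)) D := by
      rw [← cast_pr]
      exact h
    exact sound_var hc i (stk_mono hk hs) hD h'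
  | con n =>
    intro k hk e w hs D hD x h
    have h' : mem (prN (prN ((1 : ℕ) : M) (n : M)) (prN e x)) D := by
      rw [← cast_pr]
      exact h
    rcases inv hD h' with ⟨h2, -⟩ | ⟨-, h2⟩ |
      ⟨s, t, a, -, -, ⟨b, -, ⟨h2, -⟩ | ⟨h2, -⟩ | ⟨h2, -⟩⟩ | ⟨h2, -⟩⟩
    · omega
    · exact h2
    all_goals omega
  | add s t ihs iht =>
    intro k hk e w hs D hD x h
    have hk' : bd s ≤ k ∧ bd t ≤ k := max_le_iff.1 hk
    have h' : mem (prN (prN ((2 : ℕ) : M) (prN (code s : M) (code t : M))) (prN e x)) D := by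
      rw [← cast_pr, ← cast_pr]
      exact h
    rcases inv hD h' with ⟨h2, -⟩ | ⟨h2, -⟩ |
      ⟨s', t', a, h3, h4, ⟨b, h5, ⟨-, h2⟩ | ⟨h2, -⟩ | ⟨h2, -⟩⟩ | ⟨h2, -⟩⟩
    · omega
    · omega
    · obtain ⟨rfl, rfl⟩ := pr_inj h3
      rw [h2, ihs hk'.1 hs hD h4, iht hk'.2 hs hD h5]
      rfl
    all_goals omega
  | mul s t ihs iht =>
    intro k hk e w hs D hD x h
    have hk' : bd s ≤ k ∧ bd t ≤ k := max_le_iff.1 hk
    have h' : mem (prN (prN ((3 : ℕ) : M) (prN (code s : M) (code t : M))) (prN e x)) D := by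
      rw [← cast_pr, ← cast_pr]
      exact h
    rcases inv hD h' with ⟨h2, -⟩ | ⟨h2, -⟩ |
      ⟨s', t', a, h3, h4, ⟨b, h5, ⟨h2, -⟩ | ⟨-, h2⟩ | ⟨h2, -⟩⟩ | ⟨h2, -⟩⟩
    · omega
    · omega
    · omega
    · obtain ⟨rfl, rfl⟩ := pr_inj h3
      rw [h2, ihs hk'.1 hs hD h4, iht hk'.2 hs hD h5]
      rfl
    all_goals omega
  | lt s t ihs iht =>
    intro k hk e w hs D hD x h
    have hk' : bd s ≤ k ∧ bd t ≤ k := max_le_iff.1 hk
    have h' : mem (prN (prN ((4 : ℕ) : M) (prN (code s : M) (code t : M))) (prN e x)) D := by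
      rw [← cast_pr, ← cast_pr]
      exact h
    rcases inv hD h' with ⟨h2, -⟩ | ⟨h2, -⟩ |
      ⟨s', t', a, h3, h4, ⟨b, h5, ⟨h2, -⟩ | ⟨h2, -⟩ | ⟨-, h2⟩⟩ | ⟨h2, -⟩⟩
    · omega
    · omega
    · omega
    · omega
    · obtain ⟨rfl, rfl⟩ := pr_inj h3
      rw [ihs hk'.1 hs hD h4, iht hk'.2 hs hD h5] at h2
      show x = if val s w < val t w then 1 else 0
      rcases h2 with ⟨h6, h7⟩ | ⟨h6, h7⟩
      · rw [if_pos h7, h6]
      · rw [if_neg h7, h6]
    all_goals omega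
  | ball t f iht ihf =>
    intro k hk e w hs D hD x h
    have hk' : bd t ≤ k ∧ bd f ≤ k := max_le_iff.1 hk
    have h' : mem (prN (prN ((5 : ℕ) : M) (prN (code t : M) (code f : M))) (prN e x)) D := by
      rw [← cast_pr, ← cast_pr]
      exact h
    rcases inv hD h' with ⟨h2, -⟩ | ⟨h2, -⟩ |
      ⟨s', t', a, h3, h4, ⟨b, h5, ⟨h2, -⟩ | ⟨h2, -⟩ | ⟨h2, -⟩⟩ | ⟨-, h2⟩⟩
    · omega
    · omega
    · omega
    · omega
    · omega
    · obtain ⟨rfl, rfl⟩ := pr_inj h3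
      have ha := iht hk'.1 hs hD h4
      subst ha
      show x = if ∀ u, u < val t w → val f (scons u w) ≠ 0 then 1 else 0
      rcases h2 with ⟨h6, h7⟩ | ⟨h6, u, h7, h8⟩
      · rw [if_pos, h6]
        intro u hu
        obtain ⟨y, h8, h9⟩ := h7 u hu
        rw [← ihf hk'.2 (push hc hs u) hD h9]
        exact h8
      · rw [if_neg, h6]
        intro h9
        exact h9 u h7 (ihf hk'.2 (push hc hs u) hD h8).symm

theorem Jst.of {S : M → Prop} {k : ℕ} {r e x : M} (h : (k = 0 ∧ ((r = 0 ∧ ∃ e', e = prN x e') ∨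
        ∃ i y e', r = i + 1 ∧ e = prN y e' ∧ S (prN (prN ((0 : ℕ) : M) i) (prN e' x)))) ∨
     ((k = 1 ∧ x = r) ∨
     ∃ s t a, r = prN s t ∧ S (prN s (prN e a)) ∧
       ((∃ b, S (prN t (prN e b)) ∧
          ((k = 2 ∧ x = a + b) ∨ (k = 3 ∧ x = a * b) ∨
           (k = 4 ∧ ((x = 1 ∧ a < b) ∨ (x = 0 ∧ ¬ a < b))))) ∨
        (k = 5 ∧ ((x = 1 ∧ ∀ u, u < a → ∃ y, y ≠ 0 ∧ S (prN t (prN (prN u e) y))) ∨
           (x = 0 ∧ ∃ u, u < a ∧ S (prN t (prN (prN u e) 0)))))))) :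
    Jst S (prN (prN (k : M) r) (prN e x)) := by
  refine ⟨k, r, e, x, rfl, ?_⟩
  simpa only [Nat.cast_inj, Nat.cast_eq_zero, Nat.cast_eq_one, Nat.cast_zero, Nat.cast_one]
    using h

theorem dMem (s t : (ℕ → M) → M) [hs : Tm s] [ht : Tm t] : Df (fun v => mem (s v) (t v)) := iMm s t

/-- existence of tables, variables -/
theorem compl_var (hc : Compat M) (i : ℕ) : ∀ {e : M} {w : ℕ → M} (_ : Stk M (i + 1) e w),
    ∃ D x, JJ D ∧ mem (prN (prN ((0 : ℕ) : M) (i : M)) (prN e x)) D := by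
  induction i with
  | zero =>
    intro e w hs
    obtain ⟨e1, h1, -⟩ := hs
    rw [pr_eq hc] at h1
    obtain ⟨D, h2, h3, -⟩ := merge (fun _ : M => False) (iBool False) 0 (fun _ h => h.elim)
      (fun _ h => h.elim) (prN (prN ((0 : ℕ) : M) ((0 : ℕ) : M)) (prN e (w 0)))
      (Jst.of (k := 0) (Or.inl ⟨rfl, Or.inl ⟨Nat.cast_zero, e1, h1⟩⟩))
    exact ⟨D, w 0, h2, h3⟩
  | succ i ih =>
    intro e w hs
    obtain ⟨e1, h1, h1'⟩ := hs
    rw [pr_eq hc] at h1
    obtain ⟨D', x, h2, h3⟩ := ih h1'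
    have hd : Df (fun v : ℕ → M => v 0 = D') := inferInstance
    obtain ⟨D, h4, h5, -⟩ := merge (fun D => D = D') hd (D' + 1)
      (fun _ h => by rw [h]; exact lt_self_succ D') (fun _ h => by rw [h]; exact h2)
      (prN (prN ((0 : ℕ) : M) ((i + 1 : ℕ) : M)) (prN e x))
      (Jst.of (k := 0) (Or.inl ⟨rfl, Or.inr ⟨i, w 0, e1, by push_cast; rfl, h1, D', rfl, h3⟩⟩))
    exact ⟨D, x, h4, h5⟩

theorem compl_bin (hc : Compat M) {k cs ct : ℕ} {e : M} (op : M → M → M)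
    (hop : ∀ a b : M, (k = 2 ∧ op a b = a + b) ∨ (k = 3 ∧ op a b = a * b) ∨
           (k = 4 ∧ ((op a b = 1 ∧ a < b) ∨ (op a b = 0 ∧ ¬ a < b))))
    (hs : ∃ D x, JJ D ∧ mem (prN (cs : M) (prN e x)) D)
    (ht : ∃ D x, JJ D ∧ mem (prN (ct : M) (prN e x)) D) :
    ∃ D x, JJ D ∧ mem (prN ((prN k (prN cs ct) : ℕ) : M) (prN e x)) D := by
  obtain ⟨D1, a, h1, h2⟩ := hs
  obtain ⟨D2, b, h3, h4⟩ := ht
  have hd : Df (fun v : ℕ → M => v 0 = D1 ∨ v 0 = D2) := inferInstance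
  obtain ⟨D, h5, h6, -⟩ := merge (fun D => D = D1 ∨ D = D2) hd (D1 + D2 + 1)
      (by
        rintro _ (rfl | rfl)
        · exact lt_succ.2 le_self_add
        · exact lt_succ.2 le_add_self)
      (by
        rintro _ (rfl | rfl)
        · exact h1
        · exact h3)
      (prN (prN (k : M) (prN (cs : M) (ct : M))) (prN e (op a b)))
      (Jst.of (Or.inr (Or.inr ⟨cs, ct, a, rfl, ⟨D1, Or.inl rfl, h2⟩,
        Or.inl ⟨b, ⟨D2, Or.inr rfl, h4⟩, hop a b⟩⟩)))
  refine ⟨D, op a b, h5, ?_⟩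
  rw [cast_pr, cast_pr]
  exact h6

open Classical in
/-- existence of tables -/
theorem compl (hc : Compat M) (E : Ex) : ∀ {k : ℕ} (_ : bd E ≤ k) {e : M} {w : ℕ → M}
    (_ : Stk M k e w), ∃ D x, JJ D ∧ mem (prN (code E : M) (prN e x)) D := by
  induction E with
  | var i =>
    intro k hk e w hs
    show ∃ D x, JJ D ∧ mem (prN ((prN 0 i : ℕ) : M) (prN e x)) D
    rw [cast_pr]
    exact compl_var hc i (stk_mono hk hs)
  | con n =>
    intro k hk e w hs
    show ∃ D x, JJ D ∧ mem (prN ((prN 1 n : ℕ) : M) (prN e x)) D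
    rw [cast_pr]
    obtain ⟨D, h2, h3, -⟩ := merge (fun _ : M => False) (iBool False) 0 (fun _ h => h.elim)
      (fun _ h => h.elim) (prN (prN ((1 : ℕ) : M) (n : M)) (prN e (n : M)))
      (Jst.of (k := 1) (Or.inr (Or.inl ⟨rfl, rfl⟩)))
    exact ⟨D, _, h2, h3⟩
  | add s t ihs iht =>
    intro k hk e w hs
    have hk' : bd s ≤ k ∧ bd t ≤ k := max_le_iff.1 hk
    exact compl_bin hc (fun a b => a + b) (fun a b => Or.inl ⟨rfl, rfl⟩) (ihs hk'.1 hs)
      (iht hk'.2 hs)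
  | mul s t ihs iht =>
    intro k hk e w hs
    have hk' : bd s ≤ k ∧ bd t ≤ k := max_le_iff.1 hk
    exact compl_bin hc (fun a b => a * b) (fun a b => Or.inr (Or.inl ⟨rfl, rfl⟩)) (ihs hk'.1 hs)
      (iht hk'.2 hs)
  | lt s t ihs iht =>
    intro k hk e w hs
    have hk' : bd s ≤ k ∧ bd t ≤ k := max_le_iff.1 hk
    refine compl_bin hc (fun a b => if a < b then 1 else 0)
      (fun a b => Or.inr (Or.inr ⟨rfl, ?_⟩)) (ihs hk'.1 hs) (iht hk'.2 hs)
    by_cases h : a < b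
    · exact Or.inl ⟨if_pos h, h⟩
    · exact Or.inr ⟨if_neg h, h⟩
  | ball t f iht ihf =>
    intro k hk e w hs
    have hk' : bd t ≤ k ∧ bd f ≤ k := max_le_iff.1 hk
    obtain ⟨D1, a, h1, h2⟩ := iht hk'.1 hs
    have hR0 : Df (fun v : ℕ → M => JJ (v 1) ∧ ∃ x, mem (prN (code f : M) (prN (prN (v 0) e) x)) (v 1)) :=
      iAnd _ _ (hP := dJJ hc (fun v => v 1))
    obtain ⟨B, hB⟩ := coll (fun u D => JJ D ∧ ∃ x, mem (prN (code f : M) (prN (prN u e) x)) D)
      (hR := hR0) a (fun u _ => by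
        obtain ⟨D, x, h3, h4⟩ := ihf hk'.2 (push hc hs u)
        exact ⟨D, h3, x, h4⟩)
    have hR1 : Df (fun v : ℕ → M => (v 0 < B ∧ JJ (v 0)) ∨ v 0 = D1) :=
      iOr _ _ (hP := iAnd _ _ (hQ := dJJ hc (fun v => v 0)))
    let S : M → Prop := fun z => ∃ D, ((D < B ∧ JJ D) ∨ D = D1) ∧ mem z D
    have hS : ∀ u, u < a → ∃ x, S (prN (code f : M) (prN (prN u e) x)) := by
      intro u hu
      obtain ⟨D, h3, h4, x, h5⟩ := hB u hu
      exact ⟨x, D, Or.inl ⟨h3, h4⟩, h5⟩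
    obtain ⟨x, hx⟩ : ∃ x : M, (x = 1 ∧ ∀ u, u < a → ∃ y, y ≠ 0 ∧
        S (prN (code f : M) (prN (prN u e) y))) ∨
        (x = 0 ∧ ∃ u, u < a ∧ S (prN (code f : M) (prN (prN u e) 0))) := by
      by_cases h : ∀ u, u < a → ∃ y, y ≠ 0 ∧ S (prN (code f : M) (prN (prN u e) y))
      · exact ⟨1, Or.inl ⟨rfl, h⟩⟩
      · push Not at h
        obtain ⟨u, hu, h3⟩ := h
        obtain ⟨x, h4⟩ := hS u hu
        refine ⟨0, Or.inr ⟨rfl, u, hu, ?_⟩⟩
        by_cases h5 : x = 0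
        · rw [← h5]; exact h4
        · exact absurd h4 (h3 x h5)
    obtain ⟨D, h5, h6, -⟩ := merge (fun D => (D < B ∧ JJ D) ∨ D = D1) hR1 (B + D1 + 1)
      (by
        rintro _ (⟨h, -⟩ | rfl)
        · exact lt_succ.2 (h.le.trans le_self_add)
        · exact lt_succ.2 le_add_self)
      (by
        rintro _ (⟨-, h⟩ | rfl)
        · exact h
        · exact h1)
      (prN (prN ((5 : ℕ) : M) (prN (code t : M) (code f : M))) (prN e x))
      (Jst.of (Or.inr (Or.inr ⟨code t, code f, a, rfl, ⟨D1, Or.inr rfl, h2⟩,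
        Or.inr ⟨rfl, hx⟩⟩)))
    refine ⟨D, x, h5, ?_⟩
    show mem (prN ((prN 5 (prN (code t) (code f)) : ℕ) : M) (prN e x)) D
    rw [cast_pr, cast_pr]
    exact h6

end alg

/-! ### Formulas as expressions -/

theorem exT (t : LA.Term ℕ) : ∃ E : Ex, ∀ (M : Type) [LA.Structure M] [CommSemiring M]
    [LinearOrder M] (_ : Compat M) (w : ℕ → M), val E w = t.realize w := by
  induction t with
  | var i => exact ⟨.var i, fun M _ _ _ _ w => rfl⟩
  | @func l f ts ih =>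
    cases f with
    | zero =>
      refine ⟨.con 0, fun M _ _ _ hc w => ?_⟩
      show ((0 : ℕ) : M) = Structure.funMap (L := LA) AF.zero _
      rw [Nat.cast_zero, ← hc.zero]
      congr 1
      exact Subsingleton.elim _ _
    | one =>
      refine ⟨.con 1, fun M _ _ _ hc w => ?_⟩
      show ((1 : ℕ) : M) = Structure.funMap (L := LA) AF.one _
      rw [Nat.cast_one, ← hc.one]
      congr 1
      exact Subsingleton.elim _ _
    | add =>
      obtain ⟨E0, h0⟩ := ih 0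
      obtain ⟨E1, h1⟩ := ih 1
      refine ⟨.add E0 E1, fun M _ _ _ hc w => ?_⟩
      show val E0 w + val E1 w = Structure.funMap (L := LA) AF.add _
      rw [h0 M hc w, h1 M hc w, ← hc.add]
      congr 1
      funext i
      fin_cases i <;> rfl
    | mul =>
      obtain ⟨E0, h0⟩ := ih 0
      obtain ⟨E1, h1⟩ := ih 1
      refine ⟨.mul E0 E1, fun M _ _ _ hc w => ?_⟩
      show val E0 w * val E1 w = Structure.funMap (L := LA) AF.mul _
      rw [h0 M hc w, h1 M hc w, ← hc.mul]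
      congr 1
      funext i
      fin_cases i <;> rfl

theorem exF (f : BF) : ∃ E : Ex, ∀ (M : Type) [LA.Structure M] [CommSemiring M]
    [LinearOrder M] [IsStrictOrderedRing M] [CanonicallyOrderedAdd M] [PAm M] (_ : Compat M)
    (w : ℕ → M), (val E w = 1 ∧ f.sat M w) ∨ (val E w = 0 ∧ ¬ f.sat M w) := by
  induction f with
  | eq s t =>
    obtain ⟨E0, h0⟩ := exT s
    obtain ⟨E1, h1⟩ := exT t
    refine ⟨.lt (.add (.lt E0 E1) (.lt E1 E0)) (.con 1), ?_⟩
    intro M _ _ _ _ _ _ hc w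
    simp only [val, h0 M hc w, h1 M hc w, Nat.cast_one]
    show (_ ∧ s.realize w = t.realize w) ∨ (_ ∧ ¬ s.realize w = t.realize w)
    rcases lt_trichotomy (s.realize w) (t.realize w) with h | h | h
    · rw [if_pos h, if_neg (not_lt_of_gt h), add_zero, if_neg (lt_irrefl 1)]
      exact Or.inr ⟨rfl, h.ne⟩
    · rw [if_neg (not_lt_of_ge h.ge), if_neg (not_lt_of_ge h.le), add_zero,
        if_pos zero_lt_one]
      exact Or.inl ⟨rfl, h⟩
    · rw [if_neg (not_lt_of_gt h), if_pos h, zero_add, if_neg (lt_irrefl 1)]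
      exact Or.inr ⟨rfl, h.ne'⟩
  | lt s t =>
    obtain ⟨E0, h0⟩ := exT s
    obtain ⟨E1, h1⟩ := exT t
    refine ⟨.lt E0 E1, ?_⟩
    intro M _ _ _ _ _ _ hc w
    simp only [val, h0 M hc w, h1 M hc w]
    show (_ ∧ ltM M (s.realize w) (t.realize w)) ∨ (_ ∧ ¬ ltM M (s.realize w) (t.realize w))
    rw [lt_iff hc]
    by_cases h : s.realize w < t.realize w
    · exact Or.inl ⟨if_pos h, h⟩
    · exact Or.inr ⟨if_neg h, h⟩
  | bot =>
    refine ⟨.con 0, ?_⟩
    intro M _ _ _ _ _ _ hc w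
    exact Or.inr ⟨Nat.cast_zero, fun h => h⟩
  | imp f g ihf ihg =>
    obtain ⟨E0, h0⟩ := ihf
    obtain ⟨E1, h1⟩ := ihg
    refine ⟨.lt E0 (.add E1 (.con 1)), ?_⟩
    intro M _ _ _ _ _ _ hc w
    simp only [val, Nat.cast_one, lt_succ]
    show (_ ∧ (f.sat M w → g.sat M w)) ∨ (_ ∧ ¬ (f.sat M w → g.sat M w))
    rcases h0 M hc w with ⟨h2, h3⟩ | ⟨h2, h3⟩ <;> rcases h1 M hc w with ⟨h4, h5⟩ | ⟨h4, h5⟩ <;>
      rw [h2, h4]
    · exact Or.inl ⟨if_pos le_rfl, fun _ => h5⟩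
    · exact Or.inr ⟨if_neg (not_le_of_gt zero_lt_one), fun h => h5 (h h3)⟩
    · exact Or.inl ⟨if_pos zero_le_one, fun _ => h5⟩
    · exact Or.inl ⟨if_pos le_rfl, fun h => absurd h h3⟩
  | ball t f ih =>
    obtain ⟨E0, h0⟩ := exT t
    obtain ⟨E1, h1⟩ := ih
    refine ⟨.ball E0 E1, ?_⟩
    intro M _ _ _ _ _ _ hc w
    simp only [val, h0 M hc w]
    show (_ ∧ (∀ x : M, ltM M x (t.realize w) → f.sat M (scons x w))) ∨
      (_ ∧ ¬ (∀ x : M, ltM M x (t.realize w) → f.sat M (scons x w)))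
    simp only [lt_iff hc]
    by_cases h : ∀ u, u < t.realize w → f.sat M (scons u w)
    · refine Or.inl ⟨if_pos fun u hu => ?_, h⟩
      rcases h1 M hc (scons u w) with ⟨h2, h3⟩ | ⟨h2, h3⟩
      · rw [h2]; exact one_ne_zero
      · exact absurd (h u (lt_of_lt_of_eq hu (h0 M hc w))) h3
    · refine Or.inr ⟨if_neg fun h4 => h fun u hu => ?_, h⟩
      rcases h1 M hc (scons u w) with ⟨h2, h3⟩ | ⟨h2, h3⟩
      · exact h3
      · exact absurd h2 (h4 u (lt_of_lt_of_eq hu (h0 M hc w).symm))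

end SAT

open SAT in
theorem prf_sat0 : SatStmt := by
  refine ⟨fun M _ y e => ∃ D, J M D ∧ ∃ x, ltM M x D ∧ (x ≠ nu M 0 ∧
      memR M (prM M y (prM M e x)) D),
    fun M _ y e => ∃ D, J M D ∧ memR M (prM M y (prM M e (nu M 0))) D, ?_, ?_, ?_⟩
  · have h : BD (fun M _ w => J M (w 0) ∧ ∃ x, ltM M x (w 0) ∧ (x ≠ nu M 0 ∧
      memR M (prM M (w 1) (prM M (w 2) x)) (w 0))) := inferInstance
    obtain ⟨f, hf⟩ := h.out
    refine ⟨f, fun M _ _ w => ?_⟩
    show (∃ x, f.sat M (scons x w)) ↔ _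
    refine exists_congr fun x => ?_
    rw [hf]
    rfl
  · have h : BD (fun M _ w => J M (w 0) ∧
      memR M (prM M (w 1) (prM M (w 2) (nu M 0))) (w 0)) := inferInstance
    obtain ⟨f, hf⟩ := h.out
    refine ⟨f, fun M _ _ w => ?_⟩
    show (∃ x, f.sat M (scons x w)) ↔ _
    refine exists_congr fun x => ?_
    rw [hf]
    rfl
  · intro f
    obtain ⟨E, hE⟩ := exF f
    refine ⟨bd E, code E, ?_⟩
    intro M _ hPA w e hst
    have : Nonempty M := ⟨nu M 0⟩
    have hm : M ⊨ PAminus := hPA.mono Set.subset_union_left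
    obtain ⟨i1, i2, i3, i4, hc⟩ := exists_alg M hm
    have hA : PAm M := ⟨Pool.Agent.TH748.MU.ari_of_pa hc hPA⟩
    simp only [J_iff hc, nu_eq hc, pr_eq hc, mem_iff hc, lt_iff hc, Nat.cast_zero]
    have hv := hE M hc w
    obtain ⟨D, x, h1, h2⟩ := compl hc E le_rfl hst
    have h3 := sound hc E le_rfl hst h1 h2
    constructor
    · constructor
      · rintro ⟨D', h4, x', -, h5, h6⟩
        have h7 := sound hc E le_rfl hst h4 h6
        rcases hv with ⟨hv, hv'⟩ | ⟨hv, hv'⟩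
        · exact hv'
        · exact absurd (h7.trans hv) h5
      · intro h4
        have hv1 : val E w = 1 := by
          rcases hv with ⟨hv, hv'⟩ | ⟨hv, hv'⟩
          · exact hv
          · exact absurd h4 hv'
        rw [hv1] at h3
        refine ⟨D, h1, x, ?_, ?_, h2⟩
        · exact lt_of_le_of_lt ((pr_ge2 _ _).trans (pr_ge2 _ _)) (mem_lt h2)
        · rw [h3]
          exact one_ne_zero
    · constructor
      · rintro ⟨D', h4, h6⟩ h8
        have h7 := sound hc E le_rfl hst h4 h6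
        rcases hv with ⟨hv, hv'⟩ | ⟨hv, hv'⟩
        · rw [hv] at h7
          exact zero_ne_one h7
        · exact hv' h8
      · intro h4
        have hv1 : val E w = 0 := by
          rcases hv with ⟨hv, hv'⟩ | ⟨hv, hv'⟩
          · exact absurd hv' h4
          · exact hv
        rw [hv1] at h3
        refine ⟨D, h1, ?_⟩
        rw [← h3]
        exact h2

theorem prf_sat (hnot : ClNot) (hand : ClAnd) (hor : ClOr) (hup : ClUp) (hex : ClEx)
    (hall : ClAll) (hsub : ClSub) : SatStmt := prf_sat0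

namespace SAT

end SAT

end Pool.Agent.TH738.SV
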