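import Pool.Agent.TH738.SV.Stmts

/-!
Truth definitions for the formulas in `n` blocks, from the truth definition for bounded formulas.
-/

set_option autoImplicit false

open FirstOrder FirstOrder.Language
open Pool.Agent.Helper227.EN
open Pool.Agent.TH752.AR (scons prN)

namespace Pool.Agent.TH738.SV

namespace TRU

theorem cl_cong {b : Bool} {n : ℕ} {R S : URel} (h : Cl b n R)
    (hRS : ∀ (M : Type) [LA.Structure M] (w : ℕ → M), R M w ↔ S M w) : Cl b n S := by
  obtain ⟨f, hf⟩ := h
  exact ⟨f, fun M _ hM w => (hf M hM w).trans (hRS M w)⟩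

/-- the term for the pairing function -/
def prT (s t : LA.Term ℕ) : LA.Term ℕ := tadd (tmul (tadd s t) (tadd s t)) s

theorem prT_realize (M : Type) [LA.Structure M] (s t : LA.Term ℕ) (w : ℕ → M) :
    (prT s t).realize w = prM M (s.realize w) (t.realize w) := by
  unfold prT prM
  rw [ea_tadd, ea_tmul, ea_tadd]

/-- a binary relation on all the structures -/
abbrev URel2 := ∀ (M : Type) [LA.Structure M], M → M → Prop

/-- the substitution `0 ↦ 1`, `1 ↦ pr 0 2` -/
def gg : ℕ → LA.Term ℕ
  | 0 => Term.var 1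
  | 1 => prT (Term.var 0) (Term.var 2)
  | i + 2 => Term.var i

theorem cl_gg (hsub : ClSub) {b : Bool} {n : ℕ} {Q : URel2}
    (h : Cl b n (fun M _ w => Q M (w 0) (w 1))) :
    Cl b n (fun M _ w => Q M (w 1) (prM M (w 0) (w 2))) := by
  refine cl_cong (hsub b n _ gg h) ?_
  intro M _ w
  have h1 : (gg 1).realize w = prM M (w 0) (w 2) := prT_realize M _ _ w
  show Q M ((gg 0).realize w) ((gg 1).realize w) ↔ _
  rw [h1]
  rfl

/-- the truth definitions -/
def U (SP SN : URel2) : Bool → ℕ → URel2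
  | true, 0 => fun M _ y e => ∃ s : M, SP M y (prM M s e)
  | false, 0 => fun M _ y e => ∀ s : M, ¬ SN M y (prM M s e)
  | true, n + 1 => fun M _ y e => ∃ s : M, U SP SN false n M y (prM M s e)
  | false, n + 1 => fun M _ y e => ∀ s : M, U SP SN true n M y (prM M s e)

theorem cl_U (SP SN : URel2) (hSP : Cl true 1 (fun M _ w => SP M (w 0) (w 1)))
    (hSN : Cl true 1 (fun M _ w => SN M (w 0) (w 1)))
    (hnot : ClNot) (hup : ClUp) (hex : ClEx) (hall : ClAll) (hsub : ClSub) (b : Bool) (n : ℕ) :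
    Cl b (n + 1) (fun M _ w => U SP SN b n M (w 0) (w 1)) := by
  induction n generalizing b with
  | zero =>
    cases b
    · exact hall 0 _ (hnot true 1 _ (cl_gg hsub hSN))
    · exact hex 0 _ (cl_gg hsub hSP)
  | succ n ih =>
    cases b
    · exact hall (n + 1) _ (hup true false (n + 1) (n + 2) _ (Nat.lt_succ_self _)
        (cl_gg hsub (ih true)))
    · exact hex (n + 1) _ (hup false true (n + 1) (n + 2) _ (Nat.lt_succ_self _)
        (cl_gg hsub (ih false)))

theorem stk_pred (M : Type) [LA.Structure M] (k : ℕ) (e : M) (w : ℕ → M)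
    (h : Stk M (k + 1) e w) : Stk M k e w := by
  induction k generalizing e w with
  | zero => trivial
  | succ k ih =>
    obtain ⟨e', he', h'⟩ := h
    exact ⟨e', he', ih e' _ h'⟩

theorem stk_mono (M : Type) [LA.Structure M] {k k' : ℕ} (hk : k ≤ k') (e : M) (w : ℕ → M)
    (h : Stk M k' e w) : Stk M k e w := by
  induction k' with
  | zero =>
    obtain rfl : k = 0 := by omega
    exact h
  | succ k' ih =>
    rcases Nat.lt_or_ge k (k' + 1) with h1 | h1
    · exact ih (by omega) (stk_pred M k' e w h)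
    · obtain rfl : k = k' + 1 := by omega
      exact h

theorem stk_cons (M : Type) [LA.Structure M] (k : ℕ) (e s : M) (w : ℕ → M)
    (h : Stk M k e w) : Stk M (k + 1) (prM M s e) (scons s w) :=
  ⟨e, rfl, h⟩

theorem U_iff (SP SN : URel2) (f : BF) (k y : ℕ) (M : Type) [LA.Structure M]
    (hS : ∀ (w : ℕ → M) (e : M), Stk M k e w →
      (SP M (nu M y) e ↔ f.sat M w) ∧ (SN M (nu M y) e ↔ ¬ f.sat M w))
    (n : ℕ) (b : Bool) (k' : ℕ) (hk : k ≤ k') (w : ℕ → M) (e : M) (he : Stk M k' e w) :
    U SP SN b n M (nu M y) e ↔ PS M b (n + 1) f w := by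
  induction n generalizing b k' w e with
  | zero =>
    cases b
    · show (∀ s : M, ¬ SN M (nu M y) (prM M s e)) ↔ ∀ s : M, f.sat M (scons s w)
      refine forall_congr' fun s => ?_
      rw [(hS (scons s w) (prM M s e)
        (stk_mono M (by omega) _ _ (stk_cons M k' e s w he))).2, not_not]
    · show (∃ s : M, SP M (nu M y) (prM M s e)) ↔ ∃ s : M, f.sat M (scons s w)
      refine exists_congr fun s => ?_
      exact (hS (scons s w) (prM M s e)
        (stk_mono M (by omega) _ _ (stk_cons M k' e s w he))).1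
  | succ n ih =>
    cases b
    · show (∀ s : M, U SP SN true n M (nu M y) (prM M s e)) ↔
        ∀ s : M, PS M true (n + 1) f (scons s w)
      exact forall_congr' fun s => ih true (k' + 1) (by omega) _ _ (stk_cons M k' e s w he)
    · show (∃ s : M, U SP SN false n M (nu M y) (prM M s e)) ↔
        ∃ s : M, PS M false (n + 1) f (scons s w)
      exact exists_congr fun s => ih false (k' + 1) (by omega) _ _ (stk_cons M k' e s w he)

theorem prM_zero (M : Type) [LA.Structure M] (h : M ⊨ PA) :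
    prM M (nu M 0) (nu M 0) = nu M 0 := by
  have hne : Nonempty M := ⟨nu M 0⟩
  have hP : M ⊨ PAminus := Theory.Model.mono h Set.subset_union_left
  have H := ea_ax M hP
  have h0 : nu M 0 = Structure.funMap (L := LA) AF.zero ![] := ea_t0 _
  have h1 := H.az (nu M 0)
  have h2 := H.mz (nu M 0)
  simp only [← h0] at h1 h2
  unfold prM
  rw [h1, h2, h1]

theorem stk_zero (M : Type) [LA.Structure M] (h : M ⊨ PA) (k : ℕ) :
    Stk M k (nu M 0) (fun _ => nu M 0) := by
  induction k with
  | zero => trivial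
  | succ k ih => exact ⟨nu M 0, (prM_zero M h).symm, ih⟩

/-- the substitution `1 ↦ 0` -/
def g0 : ℕ → LA.Term ℕ
  | 0 => Term.var 0
  | _ + 1 => t0

theorem cl_g0 (hsub : ClSub) {b : Bool} {n : ℕ} {Q : URel2}
    (h : Cl b n (fun M _ w => Q M (w 0) (w 1))) :
    Cl b n (fun M _ w => Q M (w 0) (nu M 0)) := by
  refine cl_cong (hsub b n _ g0 h) ?_
  intro M _ w
  have h1 : (g0 1).realize w = nu M 0 := (ea_t0 w).trans (ea_t0 (default : Empty → M)).symm
  show Q M ((g0 0).realize w) ((g0 1).realize w) ↔ _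
  rw [h1]
  rfl

end TRU

theorem prf_tr (hsat : SatStmt) (hnot : ClNot) (hand : ClAnd) (hor : ClOr) (hup : ClUp)
    (hex : ClEx) (hall : ClAll) (hsub : ClSub) : TrStmt := by
  obtain ⟨SP, SN, hSP, hSN, hS⟩ := hsat
  intro n hn
  obtain ⟨n, rfl⟩ := Nat.exists_eq_add_of_le' hn
  refine ⟨fun M _ y => TRU.U SP SN true n M y (nu M 0),
    TRU.cl_g0 hsub (TRU.cl_U SP SN hSP hSN hnot hup hex hall hsub true n), ?_⟩
  intro f
  obtain ⟨k, y, hf⟩ := hS f
  refine ⟨y, fun M _ hM => ?_⟩
  exact TRU.U_iff SP SN f k y M (hf M hM) n true k le_rfl _ _ (TRU.stk_zero M hM k)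

end Pool.Agent.TH738.SV
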