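import Pool.Agent.TH738.SV.Stmts

/-!
TRa: the formulas `PS` as formulas of the language of arithmetic.
-/

set_option autoImplicit false

open FirstOrder FirstOrder.Language
open Pool.Agent.Helper227.EN
open Pool.Agent.TH752.AR (scons prN)
open Pool.Agent.TH754.PK (up Delta0 Hier)

namespace Pool.Agent.TH738.SV

namespace TRa

variable {α : Type}

/-- the term for the de Bruijn index `i` in a context with `k` bound variables -/
def vt (g : ℕ → LA.Term α) (k i : ℕ) : LA.Term (α ⊕ Fin k) :=
  if h : i < k then bv ⟨k - 1 - i, by omega⟩ else (g (i - k)).relabel Sum.inl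

/-- the values of the de Bruijn indices -/
def env {M : Type} [LA.Structure M] (g : ℕ → LA.Term α) (v : α → M) {k : ℕ} (xs : Fin k → M) :
    ℕ → M :=
  fun i => if h : i < k then xs ⟨k - 1 - i, by omega⟩ else (g (i - k)).realize v

/-- the translation of bounded formulas -/
def tr (g : ℕ → LA.Term α) : BF → (k : ℕ) → LA.BoundedFormula α k
  | .eq s t, k => (s.subst (vt g k)) =' (t.subst (vt g k))
  | .lt s t, k => flt (s.subst (vt g k)) (t.subst (vt g k))
  | .bot, _ => ⊥
  | .imp f h, k => (tr g f k) ⟹ (tr g h k)
  | .ball t f, k => ∀' (flt (bv (Fin.last k)) (up (t.subst (vt g k))) ⟹ (tr g f (k + 1)))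

/-- the translation of the formulas `PS` -/
def trp (g : ℕ → LA.Term α) : Bool → ℕ → BF → (k : ℕ) → LA.BoundedFormula α k
  | _, 0, f, k => tr g f k
  | true, n + 1, f, k => ∃' (trp g false n f (k + 1))
  | false, n + 1, f, k => ∀' (trp g true n f (k + 1))

lemma env_snoc {M : Type} [LA.Structure M] (g : ℕ → LA.Term α) (v : α → M) {k : ℕ}
    (xs : Fin k → M) (x : M) :
    env g v (Fin.snoc xs x : Fin (k + 1) → M) = scons x (env g v xs) := by
  funext i
  cases i with
  | zero =>
    show env g v (Fin.snoc xs x : Fin (k + 1) → M) 0 = x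
    unfold env
    rw [dif_pos (Nat.succ_pos k)]
    have : (⟨k + 1 - 1 - 0, by omega⟩ : Fin (k + 1)) = Fin.last k := by
      apply Fin.ext; simp
    rw [this, Fin.snoc_last]
  | succ i =>
    show env g v (Fin.snoc xs x : Fin (k + 1) → M) (i + 1) = env g v xs i
    unfold env
    by_cases h : i < k
    · rw [dif_pos (by omega), dif_pos h]
      have : (⟨k + 1 - 1 - (i + 1), by omega⟩ : Fin (k + 1))
          = Fin.castSucc (⟨k - 1 - i, by omega⟩ : Fin k) := by
        apply Fin.ext; simp; omega
      rw [this, Fin.snoc_castSucc]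
    · rw [dif_neg (by omega), dif_neg h]
      have : i + 1 - (k + 1) = i - k := by omega
      rw [this]

lemma realize_vt {M : Type} [LA.Structure M] (g : ℕ → LA.Term α) (v : α → M) {k : ℕ}
    (xs : Fin k → M) (i : ℕ) : (vt g k i).realize (Sum.elim v xs) = env g v xs i := by
  unfold vt env
  by_cases h : i < k
  · rw [dif_pos h, dif_pos h]
    rfl
  · rw [dif_neg h, dif_neg h, Term.realize_relabel]
    rfl

lemma realize_sub {M : Type} [LA.Structure M] (g : ℕ → LA.Term α) (v : α → M) {k : ℕ}
    (xs : Fin k → M) (t : LA.Term ℕ) :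
    (t.subst (vt g k)).realize (Sum.elim v xs) = t.realize (env g v xs) := by
  rw [Term.realize_subst]
  congr 1
  funext i
  exact realize_vt g v xs i

lemma realize_up {M : Type} [LA.Structure M] (v : α → M) {k : ℕ}
    (xs : Fin k → M) (x : M) (t : LA.Term (α ⊕ Fin k)) :
    (up t).realize (Sum.elim v (Fin.snoc xs x : Fin (k + 1) → M)) =
      t.realize (Sum.elim v xs) := by
  unfold up
  rw [Term.realize_relabel]
  congr 1
  funext i
  rcases i with i | i
  · rfl
  · show (Fin.snoc xs x : Fin (k + 1) → M) (Fin.castSucc i) = xs i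
    rw [Fin.snoc_castSucc]

lemma realize_flt {M : Type} [LA.Structure M] (v : α → M) {k : ℕ}
    (xs : Fin k → M) (s t : LA.Term (α ⊕ Fin k)) :
    (flt s t).Realize v xs ↔ ltM M (s.realize (Sum.elim v xs)) (t.realize (Sum.elim v xs)) := by
  unfold flt ltM
  exact BoundedFormula.realize_rel₂

lemma realize_tr {M : Type} [LA.Structure M] (g : ℕ → LA.Term α) (v : α → M) (f : BF) :
    ∀ {k : ℕ} (xs : Fin k → M), (tr g f k).Realize v xs ↔ f.sat M (env g v xs) := by
  induction f with
  | eq s t =>
    intro k xs
    show ((s.subst (vt g k)) =' (t.subst (vt g k))).Realize v xs ↔ _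
    rw [BoundedFormula.realize_bdEqual, realize_sub, realize_sub]
    exact Iff.rfl
  | lt s t =>
    intro k xs
    show (flt (s.subst (vt g k)) (t.subst (vt g k))).Realize v xs ↔ _
    rw [realize_flt, realize_sub, realize_sub]
    exact Iff.rfl
  | bot =>
    intro k xs
    show (⊥ : LA.BoundedFormula α k).Realize v xs ↔ _
    rw [BoundedFormula.realize_bot]
    exact Iff.rfl
  | imp f h ihf ihh =>
    intro k xs
    show ((tr g f k) ⟹ (tr g h k)).Realize v xs ↔ _
    rw [BoundedFormula.realize_imp, ihf, ihh]
    exact Iff.rfl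
  | ball t f ih =>
    intro k xs
    show (∀' (flt (bv (Fin.last k)) (up (t.subst (vt g k))) ⟹ (tr g f (k + 1)))).Realize v xs ↔ _
    rw [BoundedFormula.realize_all]
    refine forall_congr' fun x => ?_
    rw [BoundedFormula.realize_imp, ih, realize_flt, realize_up, realize_sub, env_snoc]
    have : (bv (Fin.last k) : LA.Term (α ⊕ Fin (k + 1))).realize
        (Sum.elim v (Fin.snoc xs x : Fin (k + 1) → M)) = x := by
      show (Fin.snoc xs x : Fin (k + 1) → M) (Fin.last k) = x
      rw [Fin.snoc_last]
    rw [this]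

lemma realize_trp {M : Type} [LA.Structure M] (g : ℕ → LA.Term α) (v : α → M) (f : BF) :
    ∀ (n : ℕ) (b : Bool) {k : ℕ} (xs : Fin k → M),
      (trp g b n f k).Realize v xs ↔ PS M b n f (env g v xs) := by
  intro n
  induction n with
  | zero =>
    intro b k xs
    cases b <;> exact realize_tr g v f xs
  | succ n ih =>
    intro b k xs
    cases b with
    | true =>
      show (∃' (trp g false n f (k + 1))).Realize v xs ↔ _
      rw [BoundedFormula.realize_ex]
      refine exists_congr fun x => ?_
      rw [ih, env_snoc]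
    | false =>
      show (∀' (trp g true n f (k + 1))).Realize v xs ↔ _
      rw [BoundedFormula.realize_all]
      refine forall_congr' fun x => ?_
      rw [ih, env_snoc]

lemma delta_tr (g : ℕ → LA.Term α) (f : BF) : ∀ k : ℕ, Delta0 (tr g f k) := by
  induction f with
  | eq s t => intro k; exact Delta0.equal _ _
  | lt s t => intro k; exact Delta0.lt _ _
  | bot => intro k; exact Delta0.falsum
  | imp f h ihf ihh => intro k; exact Delta0.imp (ihf k) (ihh k)
  | ball t f ih => intro k; exact Delta0.ball _ (ih (k + 1))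

lemma hier_trp (g : ℕ → LA.Term α) (f : BF) : ∀ (n : ℕ) (b : Bool) (k : ℕ),
    Hier b n (trp g b n f k) := by
  intro n
  induction n with
  | zero =>
    intro b k
    cases b <;> exact Hier.zero _ (delta_tr g f k)
  | succ n ih =>
    intro b k
    cases b with
    | true => exact Hier.ex (Hier.step false (ih false (k + 1)))
    | false => exact Hier.all (Hier.step true (ih true (k + 1)))

end TRa

theorem prf_toSent : ToSentStmt := by
  intro b n f
  refine ⟨TRa.trp (fun _ => t0) b n f 0, TRa.hier_trp _ f n b 0, ?_⟩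
  intro M _
  show (TRa.trp (fun _ => t0) b n f 0).Realize (default : Empty → M) (default : Fin 0 → M) ↔ _
  rw [TRa.realize_trp]
  have : TRa.env (fun _ => (t0 : LA.Term Empty)) (default : Empty → M) (default : Fin 0 → M)
      = fun _ => nu M 0 := by
    funext i
    unfold TRa.env
    rw [dif_neg (by omega)]
    rfl
  rw [this]

theorem prf_toForm : ToFormStmt := by
  intro b n f
  refine ⟨TRa.trp Term.var b n f 0, ?_⟩
  intro M _ w
  show (TRa.trp Term.var b n f 0).Realize w (default : Fin 0 → M) ↔ _
  rw [TRa.realize_trp]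
  have : TRa.env (Term.var : ℕ → LA.Term ℕ) w (default : Fin 0 → M) = w := by
    funext i
    unfold TRa.env
    rw [dif_neg (by omega)]
    rfl
  rw [this]

end Pool.Agent.TH738.SV
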