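import Pool.Agent.TH738.SV.Stmts

/-!
TRb: formulas of the language of arithmetic in the form `PS`, over `PA`.
-/

set_option autoImplicit false
set_option linter.unusedVariables false

open FirstOrder FirstOrder.Language
open Pool.Agent.Helper227.EN
open Pool.Agent.TH752.AR (scons prN)
open Pool.Agent.TH754.PK (up Delta0 Hier)

namespace Pool.Agent.TH738.SV

namespace TRb

/-- terms with bound variables as terms with de Bruijn indices -/
def tt {k : ℕ} (t : LA.Term (Empty ⊕ Fin k)) : LA.Term ℕ :=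
  t.relabel (Sum.elim (fun e : Empty => e.elim) (fun i : Fin k => k - 1 - (i : ℕ)))

lemma rv_snoc {M : Type} [LA.Structure M] {k : ℕ} (xs : Fin k → M) (x : M) :
    rv (Fin.snoc xs x : Fin (k + 1) → M) = scons x (rv xs) := by
  funext i
  cases i with
  | zero =>
    show rv (Fin.snoc xs x : Fin (k + 1) → M) 0 = x
    unfold rv
    rw [dif_pos (Nat.succ_pos k)]
    have : (⟨k + 1 - 1 - 0, by omega⟩ : Fin (k + 1)) = Fin.last k := by
      apply Fin.ext; simp
    rw [this, Fin.snoc_last]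
  | succ i =>
    show rv (Fin.snoc xs x : Fin (k + 1) → M) (i + 1) = rv xs i
    unfold rv
    by_cases h : i < k
    · rw [dif_pos (by omega), dif_pos h]
      have : (⟨k + 1 - 1 - (i + 1), by omega⟩ : Fin (k + 1))
          = Fin.castSucc (⟨k - 1 - i, by omega⟩ : Fin k) := by
        apply Fin.ext; simp; omega
      rw [this, Fin.snoc_castSucc]
    · rw [dif_neg (by omega), dif_neg h]

lemma realize_tt {M : Type} [LA.Structure M] {k : ℕ} (xs : Fin k → M)
    (t : LA.Term (Empty ⊕ Fin k)) :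
    (tt t).realize (rv xs) = t.realize (Sum.elim (default : Empty → M) xs) := by
  unfold tt
  rw [Term.realize_relabel]
  congr 1
  funext i
  rcases i with i | i
  · exact i.elim
  · show rv xs (k - 1 - i) = xs i
    unfold rv
    have hi := i.2
    rw [dif_pos (by omega)]
    congr 1
    apply Fin.ext
    show k - 1 - (k - 1 - (i : ℕ)) = i
    omega

lemma realize_up {M : Type} [LA.Structure M] {k : ℕ}
    (xs : Fin k → M) (x : M) (t : LA.Term (Empty ⊕ Fin k)) :
    (up t).realize (Sum.elim (default : Empty → M) (Fin.snoc xs x : Fin (k + 1) → M)) =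
      t.realize (Sum.elim (default : Empty → M) xs) := by
  unfold up
  rw [Term.realize_relabel]
  congr 1
  funext i
  rcases i with i | i
  · exact i.elim
  · show (Fin.snoc xs x : Fin (k + 1) → M) (Fin.castSucc i) = xs i
    rw [Fin.snoc_castSucc]

lemma realize_flt {M : Type} [LA.Structure M] {k : ℕ}
    (xs : Fin k → M) (s t : LA.Term (Empty ⊕ Fin k)) :
    (flt s t).Realize (default : Empty → M) xs ↔ ltM M (s.realize (Sum.elim default xs))
      (t.realize (Sum.elim default xs)) := by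
  unfold flt ltM
  exact BoundedFormula.realize_rel₂

lemma delta_bf {k : ℕ} {φ : LA.BoundedFormula Empty k} (h : Delta0 φ) :
    ∃ f : BF, ∀ (M : Type) [LA.Structure M] (xs : Fin k → M),
      f.sat M (rv xs) ↔ φ.Realize default xs := by
  induction h with
  | falsum =>
    refine ⟨.bot, fun M _ xs => ?_⟩
    rw [BoundedFormula.realize_bot]
    exact Iff.rfl
  | equal s t =>
    refine ⟨.eq (tt s) (tt t), fun M _ xs => ?_⟩
    rw [BoundedFormula.realize_bdEqual, ← realize_tt, ← realize_tt]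
    exact Iff.rfl
  | lt s t =>
    refine ⟨.lt (tt s) (tt t), fun M _ xs => ?_⟩
    rw [realize_flt, ← realize_tt, ← realize_tt]
    exact Iff.rfl
  | imp h1 h2 ih1 ih2 =>
    obtain ⟨f1, hf1⟩ := ih1
    obtain ⟨f2, hf2⟩ := ih2
    refine ⟨.imp f1 f2, fun M _ xs => ?_⟩
    rw [BoundedFormula.realize_imp, ← hf1, ← hf2]
    exact Iff.rfl
  | @ball n t φ h ih =>
    obtain ⟨f, hf⟩ := ih
    refine ⟨.ball (tt t) f, fun M _ xs => ?_⟩
    rw [BoundedFormula.realize_all]
    show (∀ x : M, ltM M x ((tt t).realize (rv xs)) → f.sat M (scons x (rv xs))) ↔ _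
    refine forall_congr' fun x => ?_
    rw [BoundedFormula.realize_imp, realize_flt, realize_up, ← hf, rv_snoc, realize_tt]
    have : (bv (Fin.last n) : LA.Term (Empty ⊕ Fin (n + 1))).realize
        (Sum.elim (default : Empty → M) (Fin.snoc xs x : Fin (n + 1) → M)) = x := by
      show (Fin.snoc xs x : Fin (n + 1) → M) (Fin.last n) = x
      rw [Fin.snoc_last]
    rw [this]

lemma cl_self (b : Bool) (n : ℕ) (f : BF) : Cl b n (fun M _ w => PS M b n f w) :=
  ⟨f, fun _ _ _ _ => Iff.rfl⟩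

/-- the formula `φ` has the form `PS b n` -/
def Rep (b : Bool) (n : ℕ) {k : ℕ} (φ : LA.BoundedFormula Empty k) : Prop :=
  ∃ R : URel, Cl b n R ∧ ∀ (M : Type) [LA.Structure M], M ⊨ PA →
    ∀ xs : Fin k → M, R M (rv xs) ↔ φ.Realize default xs

lemma Rep.ps {b : Bool} {n k : ℕ} {φ : LA.BoundedFormula Empty k} (h : Rep b n φ) :
    ∃ f : BF, ∀ (M : Type) [LA.Structure M], M ⊨ PA →
      ∀ xs : Fin k → M, PS M b n f (rv xs) ↔ φ.Realize default xs := by
  obtain ⟨R, ⟨f, hf⟩, hR⟩ := h
  exact ⟨f, fun M _ hM xs => (hf M hM _).trans (hR M hM xs)⟩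

lemma rep_delta {b : Bool} {k : ℕ} {φ : LA.BoundedFormula Empty k} (h : Delta0 φ) :
    Rep b 0 φ := by
  obtain ⟨f, hf⟩ := delta_bf h
  refine ⟨fun M _ w => PS M b 0 f w, cl_self b 0 f, fun M _ _ xs => ?_⟩
  cases b <;> exact hf M xs

lemma Rep.up' (hup : ClUp) {b b' : Bool} {n n' k : ℕ} {φ : LA.BoundedFormula Empty k}
    (h : Rep b n φ) (hn : n < n') : Rep b' n' φ := by
  obtain ⟨R, hR, h2⟩ := h
  exact ⟨R, hup b b' n n' R hn hR, h2⟩

lemma Rep.ex' (hex : ClEx) {n k : ℕ} {φ : LA.BoundedFormula Empty (k + 1)}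
    (h : Rep true (n + 1) φ) : Rep true (n + 1) (∃' φ) := by
  obtain ⟨R, hR, h2⟩ := h
  refine ⟨_, hex n R hR, fun M _ hM xs => ?_⟩
  rw [BoundedFormula.realize_ex]
  refine exists_congr fun x => ?_
  rw [← rv_snoc]
  exact h2 M hM _

lemma Rep.all' (hall : ClAll) {n k : ℕ} {φ : LA.BoundedFormula Empty (k + 1)}
    (h : Rep false (n + 1) φ) : Rep false (n + 1) (∀' φ) := by
  obtain ⟨R, hR, h2⟩ := h
  refine ⟨_, hall n R hR, fun M _ hM xs => ?_⟩
  rw [BoundedFormula.realize_all]
  refine forall_congr' fun x => ?_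
  rw [← rv_snoc]
  exact h2 M hM _

lemma Rep.imp' (hnot : ClNot) (hor : ClOr) (hup : ClUp) {n n' k : ℕ}
    {φ ψ : LA.BoundedFormula Empty k} (h : Rep true n φ) (h' : Rep true n' ψ) :
    Rep true (n + n' + 1) (φ ⟹ ψ) := by
  obtain ⟨R, hR, h2⟩ := h
  obtain ⟨R', hR', h2'⟩ := h'
  have h3 := hup false true n (n + n' + 1) _ (by omega) (hnot true n R hR)
  have h4 := hup true true n' (n + n' + 1) _ (by omega) hR'
  refine ⟨_, hor true _ _ _ h3 h4, fun M _ hM xs => ?_⟩
  rw [BoundedFormula.realize_imp, ← h2 M hM, ← h2' M hM]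
  exact imp_iff_not_or.symm

end TRb

theorem prf_nf (hnot : ClNot) (hand : ClAnd) (hor : ClOr) (hup : ClUp) (hex : ClEx)
    (hall : ClAll) (hsub : ClSub) : NfStmt := by
  intro b n k φ h
  apply TRb.Rep.ps
  induction h with
  | zero b h => exact TRb.rep_delta h
  | step b h ih => exact ih.up' hup (Nat.lt_succ_self _)
  | ex h ih => exact ih.ex' hex
  | all h ih => exact ih.all' hall

theorem prf_ofForm (hnot : ClNot) (hand : ClAnd) (hor : ClOr) (hup : ClUp) (hex : ClEx)
    (hall : ClAll) (hsub : ClSub) : OfFormStmt := by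
  intro k φ
  have key : ∃ n : ℕ, TRb.Rep true n φ := by
    induction φ with
    | falsum => exact ⟨0, TRb.rep_delta Delta0.falsum⟩
    | equal s t => exact ⟨0, TRb.rep_delta (Delta0.equal s t)⟩
    | @rel n l R ts =>
      refine ⟨0, ?_⟩
      match l, R, ts with
      | _, AR.lt, ts =>
        have h : (BoundedFormula.rel (L := LA) (AR.lt : LA.Relations 2) ts) = flt (ts 0) (ts 1) := by
          unfold flt Relations.boundedFormula₂ Relations.boundedFormula
          congr 1
          funext i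
          fin_cases i <;> rfl
        exact h ▸ TRb.rep_delta (Delta0.lt (ts 0) (ts 1))
    | imp φ ψ ih1 ih2 =>
      obtain ⟨n, hn⟩ := ih1
      obtain ⟨n', hn'⟩ := ih2
      exact ⟨_, hn.imp' hnot hor hup hn'⟩
    | all φ ih =>
      obtain ⟨n, hn⟩ := ih
      have h1 : TRb.Rep false (n + 1) φ := hn.up' hup (Nat.lt_succ_self _)
      have h2 := h1.all' hall
      exact ⟨n + 2, h2.up' hup (Nat.lt_succ_self _)⟩
  obtain ⟨n, hn⟩ := key
  obtain ⟨f, hf⟩ := hn.ps
  exact ⟨n, f, hf⟩

end Pool.Agent.TH738.SV
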