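import Pool.Agent.TH738.SV.Stmts

/-!
Compactness for `PS` formulas by ultraproducts.
-/

set_option autoImplicit false

open FirstOrder FirstOrder.Language
open Pool.Agent.Helper227.EN
open Pool.Agent.TH752.AR (scons prN)

namespace Pool.Agent.TH738.SV

namespace ULT

open Filter

/-- the ultraproduct along a nonprincipal ultrafilter -/
abbrev UP (M : ℕ → Type) : Type := ((hyperfilter ℕ : Ultrafilter ℕ) : Filter ℕ).Product M

/-- the class of a sequence -/
noncomputable def cls (M : ℕ → Type) (x : ∀ N, M N) : UP M := (x : ((hyperfilter ℕ : Ultrafilter ℕ) : Filter ℕ).Product M)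

section
variable (M : ℕ → Type) [∀ N, LA.Structure (M N)]

theorem los (htf : ToFormStmt) [∀ N, Nonempty (M N)] (b : Bool) (n : ℕ) (f : BF)
    (w : ℕ → ∀ N, M N) :
    PS (UP M) b n f (fun j => cls M (w j)) ↔
      ∀ᶠ N in ((hyperfilter ℕ : Ultrafilter ℕ) : Filter ℕ), PS (M N) b n f (fun j => w j N) := by
  obtain ⟨φ, hφ⟩ := htf b n f
  rw [← hφ (UP M) (fun j => cls M (w j))]
  refine (Ultraproduct.realize_formula_cast φ w).trans ?_
  simp only [hφ]

theorem up_pa [∀ N, Nonempty (M N)] (hPA : ∀ N, M N ⊨ PA) : UP M ⊨ PA := by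
  rw [Theory.model_iff]
  intro φ hφ
  rw [Ultraproduct.sentence_realize]
  exact Eventually.of_forall fun N => (Theory.model_iff _).mp (hPA N) φ hφ

theorem nu_up (n : ℕ) : nu (UP M) n = cls M (fun N => nu (M N) n) := by
  unfold nu cls
  have h := Ultraproduct.term_realize_cast (M := M) (u := (hyperfilter ℕ : Ultrafilter ℕ))
    (L := LA) (fun (e : Empty) => e.elim) (num n)
  have h1 : (default : Empty → UP M) = fun i : Empty => cls M (i.elim) := Subsingleton.elim _ _
  rw [h1]
  refine h.trans ?_
  congr 1
  funext N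
  congr 1
  exact Subsingleton.elim _ _

end

theorem ev_lt (i : ℕ) : ∀ᶠ N in ((hyperfilter ℕ : Ultrafilter ℕ) : Filter ℕ), i < N :=
  Nat.hyperfilter_le_atTop (eventually_gt_atTop i)

end ULT

open Filter in
theorem prf_compact (htf : ToFormStmt) : CompactStmt := by
  intro P h
  choose M inst w hPA hP using h
  let _ : ∀ N, LA.Structure (M N) := inst
  have _hne : ∀ N, Nonempty (M N) := fun N => ⟨w N 0⟩
  refine ⟨ULT.UP M, inferInstance, fun j => ULT.cls M (fun N => w N j), ULT.up_pa M hPA, ?_⟩
  intro i
  refine (ULT.los M htf _ _ _ (fun j N => w N j)).2 ?_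
  exact (ULT.ev_lt i).mono fun N hN => hP N i hN

open Filter in
theorem prf_compactExt (htf : ToFormStmt) : CompactExtStmt := by
  intro P M instM a m hPA h
  choose w hw hP using h
  have _hne : Nonempty M := ⟨a 0⟩
  refine ⟨ULT.UP (fun _ => M), inferInstance, fun j => ULT.cls (fun _ => M) (fun N => w N j),
    ULT.up_pa (fun _ => M) (fun _ => hPA), ?_, ?_⟩
  · intro i
    refine (ULT.los (fun _ => M) htf _ _ _ (fun j N => w N j)).2 ?_
    exact (ULT.ev_lt i).mono fun N hN => hP N i hN
  · intro b n f
    have h1 : (cut m fun j => ULT.cls (fun _ => M) (fun N => w N j)) =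
        fun j => ULT.cls (fun _ => M) (fun _ => cut m a j) := by
      funext j
      unfold cut
      by_cases hj : j < m
      · simp only [hj, if_true]
        congr 1
        funext N
        exact hw N j hj
      · simp only [hj, if_false]
        exact ULT.nu_up (fun _ => M) 0
    rw [h1]
    refine (ULT.los (fun _ => M) htf b n f (fun j _ => cut m a j)).trans ?_
    exact eventually_const

end Pool.Agent.TH738.SV
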