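import Pool.Agent.TH738.SV.Stmts

/-!
USE: the use principle for oracle codes.
-/

set_option autoImplicit false

open FirstOrder FirstOrder.Language
open Pool.Agent.Helper227.EN
open Pool.Agent.TH752.AR (scons prN)

namespace Pool.Agent.TH738.SV

namespace USE

/-- open predicates on sets -/
def Opn (Q : Set ℕ → Prop) : Prop :=
  ∃ U : Set (List ℕ × List ℕ), ∀ X : Set ℕ, Q X ↔ ∃ i ∈ U, Ok X i

lemma Opn.congr {Q R : Set ℕ → Prop} (h : Opn Q) (hR : ∀ X, R X ↔ Q X) : Opn R := by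
  obtain ⟨U, hU⟩ := h
  exact ⟨U, fun X => (hR X).trans (hU X)⟩

lemma opn_const (p : Prop) : Opn (fun _ => p) := by
  by_cases hp : p
  · refine ⟨{([], [])}, fun X => ⟨fun _ => ⟨([], []), rfl, ?_, ?_⟩, fun _ => hp⟩⟩
    · intro x hx; simp at hx
    · intro x hx; simp at hx
  · refine ⟨∅, fun X => ⟨fun h => (hp h).elim, ?_⟩⟩
    rintro ⟨i, hi, _⟩
    exact (Set.notMem_empty i hi).elim

lemma opn_and {Q R : Set ℕ → Prop} (hQ : Opn Q) (hR : Opn R) : Opn (fun X => Q X ∧ R X) := by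
  obtain ⟨U, hU⟩ := hQ
  obtain ⟨V, hV⟩ := hR
  refine ⟨{c | ∃ a ∈ U, ∃ b ∈ V, c = (a.1 ++ b.1, a.2 ++ b.2)}, fun X => ?_⟩
  show (Q X ∧ R X) ↔ _
  rw [hU, hV]
  constructor
  · rintro ⟨⟨a, ha, ha1, ha2⟩, ⟨b, hb, hb1, hb2⟩⟩
    refine ⟨_, ⟨a, ha, b, hb, rfl⟩, ?_, ?_⟩
    · intro x hx
      rcases List.mem_append.mp hx with h | h
      · exact ha1 x h
      · exact hb1 x h
    · intro x hx
      rcases List.mem_append.mp hx with h | h
      · exact ha2 x h
      · exact hb2 x h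
  · rintro ⟨_, ⟨a, ha, b, hb, rfl⟩, h1, h2⟩
    refine ⟨⟨a, ha, ?_, ?_⟩, ⟨b, hb, ?_, ?_⟩⟩
    · intro x hx; exact h1 x (List.mem_append.mpr (Or.inl hx))
    · intro x hx; exact h2 x (List.mem_append.mpr (Or.inl hx))
    · intro x hx; exact h1 x (List.mem_append.mpr (Or.inr hx))
    · intro x hx; exact h2 x (List.mem_append.mpr (Or.inr hx))

lemma opn_ex {ι : Type} {Q : ι → Set ℕ → Prop} (h : ∀ i, Opn (Q i)) :
    Opn (fun X => ∃ i, Q i X) := by
  choose U hU using h
  refine ⟨⋃ i, U i, fun X => ?_⟩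
  constructor
  · rintro ⟨i, hi⟩
    obtain ⟨c, hc, hok⟩ := (hU i X).mp hi
    exact ⟨c, Set.mem_iUnion.mpr ⟨i, hc⟩, hok⟩
  · rintro ⟨c, hc, hok⟩
    obtain ⟨i, hi⟩ := Set.mem_iUnion.mp hc
    exact ⟨i, (hU i X).mpr ⟨c, hi, hok⟩⟩

lemma opn_or {Q R : Set ℕ → Prop} (hQ : Opn Q) (hR : Opn R) : Opn (fun X => Q X ∨ R X) := by
  have h : Opn (fun X => ∃ b : Bool, (cond b Q R) X) :=
    opn_ex (fun b => by cases b; exacts [hR, hQ])
  refine h.congr (fun X => ?_)
  constructor
  · rintro (h | h)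
    · exact ⟨true, h⟩
    · exact ⟨false, h⟩
  · rintro ⟨b, hb⟩
    cases b
    · exact Or.inr hb
    · exact Or.inl hb

lemma opn_mem (n : ℕ) : Opn (fun X => n ∈ X) := by
  refine ⟨{([n], [])}, fun X => ⟨fun h => ⟨([n], []), rfl, ?_, ?_⟩, ?_⟩⟩
  · intro x hx
    rw [List.mem_singleton.mp hx]
    exact h
  · intro x hx; simp at hx
  · rintro ⟨i, hi, h1, _⟩
    rw [Set.mem_singleton_iff.mp hi] at h1
    exact h1 n (List.mem_singleton.mpr rfl)

lemma opn_notMem (n : ℕ) : Opn (fun X => n ∉ X) := by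
  refine ⟨{([], [n])}, fun X => ⟨fun h => ⟨([], [n]), rfl, ?_, ?_⟩, ?_⟩⟩
  · intro x hx; simp at hx
  · intro x hx
    rw [List.mem_singleton.mp hx]
    exact h
  · rintro ⟨i, hi, _, h2⟩
    rw [Set.mem_singleton_iff.mp hi] at h2
    exact h2 n (List.mem_singleton.mpr rfl)

lemma opn_lt {Q : ℕ → Set ℕ → Prop} (h : ∀ i, Opn (Q i)) (m : ℕ) :
    Opn (fun X => ∀ j < m, Q j X) := by
  induction m with
  | zero => exact (opn_const True).congr (fun X => by simp)
  | succ m ih =>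
    refine (opn_and ih (h m)).congr (fun X => ?_)
    constructor
    · intro h
      exact ⟨fun j hj => h j (by omega), h m (by omega)⟩
    · rintro ⟨h1, h2⟩ j hj
      rcases Nat.lt_succ_iff_lt_or_eq.mp hj with h | h
      · exact h1 j h
      · rw [h]; exact h2

/-- partial values which are open -/
def OpV (F : Set ℕ → Part ℕ) : Prop := ∀ v, Opn (fun X => v ∈ F X)

lemma opv_some (k : ℕ) : OpV (fun _ => Part.some k) :=
  fun v => (opn_const (v = k)).congr (fun X => by rw [Part.mem_some_iff])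

lemma opv_bind {F : Set ℕ → Part ℕ} {G : ℕ → Set ℕ → Part ℕ} (hF : OpV F) (hG : ∀ x, OpV (G x)) :
    OpV (fun X => (F X).bind fun x => G x X) := by
  intro v
  refine (opn_ex (fun x => opn_and (hF x) (hG x v))).congr (fun X => ?_)
  rw [Part.mem_bind_iff]

lemma opv_eval (c : OCode) : ∀ n, OpV (fun X => c.eval X n) := by
  induction c with
  | zero => intro n; exact opv_some 0
  | succ => intro n; exact opv_some (n + 1)
  | left => intro n; exact opv_some n.unpair.1
  | right => intro n; exact opv_some n.unpair.2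
  | oracle =>
    intro n v
    refine (opn_or (opn_and (opn_mem n) (opn_const (v = 1)))
      (opn_and (opn_notMem n) (opn_const (v = 0)))).congr (fun X => ?_)
    show v ∈ Part.some (chi X n) ↔ _
    rw [Part.mem_some_iff]
    unfold chi
    by_cases h : n ∈ X
    · simp [h]
    · simp [h]
  | pair a b iha ihb =>
    intro n
    exact opv_bind (iha n) (fun x => opv_bind (ihb n) (fun y => opv_some (Nat.pair x y)))
  | comp a b iha ihb =>
    intro n
    exact opv_bind (ihb n) (fun x => iha x)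
  | prec a b iha ihb =>
    intro p
    have key : ∀ k : ℕ, OpV (fun X => (Nat.rec (a.eval X p.unpair.1)
      (fun k ih => ih.bind fun i => b.eval X (Nat.pair p.unpair.1 (Nat.pair k i))) k : Part ℕ)) := by
      intro k
      induction k with
      | zero => exact iha _
      | succ k ih => exact opv_bind ih (fun i => ihb _)
    exact key _
  | rfind' a iha =>
    intro p v
    have h : Opn (fun X => ∃ m : ℕ, (m + p.unpair.2 = v ∧
        (0 : ℕ) ∈ a.eval X (Nat.pair p.unpair.1 (m + p.unpair.2))) ∧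
        ∀ j < m, ∃ z : ℕ, z ≠ 0 ∧ z ∈ a.eval X (Nat.pair p.unpair.1 (j + p.unpair.2))) := by
      refine opn_ex (fun m => opn_and (opn_and (opn_const _) (iha _ 0)) (opn_lt (fun j => ?_) m))
      exact opn_ex (fun z => opn_and (opn_const _) (iha _ z))
    refine h.congr (fun X => ?_)
    show v ∈ (Nat.rfind fun n => (a.eval X (Nat.pair p.unpair.1 (n + p.unpair.2))).map
      fun m => decide (m = 0)).map (· + p.unpair.2) ↔ _
    rw [Part.mem_map_iff]
    constructor
    · rintro ⟨m, hm', hv⟩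
      have hm := Nat.mem_rfind.mp hm'
      refine ⟨m, ⟨hv, ?_⟩, ?_⟩
      · obtain ⟨z, hz, hz'⟩ := (Part.mem_map_iff _).mp hm.1
        have : z = 0 := by simpa using hz'
        rw [← this]; exact hz
      · intro j hj
        obtain ⟨z, hz, hz'⟩ := (Part.mem_map_iff _).mp (hm.2 hj)
        exact ⟨z, by simpa using hz', hz⟩
    · rintro ⟨m, ⟨hv, h0⟩, h1⟩
      refine ⟨m, Nat.mem_rfind.mpr ?_, hv⟩
      refine ⟨(Part.mem_map_iff _).mpr ⟨0, h0, by simp⟩, ?_⟩
      intro j hj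
      obtain ⟨z, hz, hz'⟩ := h1 j hj
      exact (Part.mem_map_iff _).mpr ⟨z, hz', by simpa using hz⟩

end USE

theorem prf_use : UseStmt := fun c n v => USE.opv_eval c n v

theorem use_phi (e n v : ℕ) : ∃ U : Set (List ℕ × List ℕ), ∀ X : Set ℕ,
    Phi X e n = Part.some v ↔ ∃ i ∈ U, Ok X i := by
  refine (USE.opv_eval (OCode.ofNat e) n v).congr (fun X => ?_)
  rw [Part.eq_some_iff]
  exact Iff.rfl

theorem use_jump (e : ℕ) : ∃ U : Set (List ℕ × List ℕ), ∀ X : Set ℕ,
    e ∈ jump X ↔ ∃ i ∈ U, Ok X i := by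
  refine (USE.opn_ex (fun v => USE.opv_eval (OCode.ofNat e) e v)).congr (fun X => ?_)
  show (Phi X e e).Dom ↔ _
  rw [Part.dom_iff_mem]
  exact Iff.rfl

end Pool.Agent.TH738.SV
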