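import Pool.Agent.TH738.SV.P_CLa
import Pool.Agent.TH738.SV.P_CLb
import Pool.Agent.TH738.SV.P_TRa
import Pool.Agent.TH738.SV.P_TRb
import Pool.Agent.TH738.SV.P_SAT
import Pool.Agent.TH738.SV.P_TRU
import Pool.Agent.TH738.SV.P_USE
import Pool.Agent.TH738.SV.P_ULT
import Pool.Agent.TH738.SV.P_FA
import Pool.Agent.TH738.SV.P_FB
import Pool.Agent.TH738.SV.P_FC
import Pool.Agent.TH738.SV.P_FDE
import Pool.Agent.TH738.SV.P_CHAIN
import Pool.Agent.TH738.SV.Fin

/-!
All the parts together.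
-/

set_option autoImplicit false

open FirstOrder FirstOrder.Language
open Pool.Agent.Helper227.EN

namespace Pool.Agent.TH738.SV

theorem cls_all : CLs where
  not := prf_clNot
  and := prf_clAnd
  or := prf_clOr
  up := prf_clUp
  ex := prf_clEx
  all := prf_clAll
  sub := prf_clSub

theorem hyp_all : Hyp where
  cl := cls_all
  ce := prf_compactExt prf_toForm
  nf := prf_nf prf_clNot prf_clAnd prf_clOr prf_clUp prf_clEx prf_clAll prf_clSub
  ts := prf_toSent
  fo := prf_ofForm prf_clNot prf_clAnd prf_clOr prf_clUp prf_clEx prf_clAll prf_clSub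
  us := prf_use

theorem sat_all : SatStmt :=
  prf_sat prf_clNot prf_clAnd prf_clOr prf_clUp prf_clEx prf_clAll prf_clSub

theorem tr_all : TrStmt :=
  prf_tr sat_all prf_clNot prf_clAnd prf_clOr prf_clUp prf_clEx prf_clAll prf_clSub

theorem flex_all : FlexStmt :=
  prf_flex rf_dc prf_fa prf_fb prf_fc
    (prf_fd prf_clNot prf_clAnd prf_clOr prf_clUp prf_clEx prf_clAll prf_clSub)
    prf_clNot prf_clAnd prf_clOr prf_clUp prf_clEx prf_clAll prf_clSub

theorem chain_all : ChainStmt :=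
  prf_chain flex_all tr_all (prf_compact prf_toForm) prf_clNot prf_clAnd prf_clOr prf_clUp prf_clEx
    prf_clAll prf_clSub

/-- The main theorem. -/
theorem main (h : ℕ → ℕ → ℕ) :
    ∃ A : LA.Structure ℕ, @FirstOrder.Language.Theory.Model LA ℕ A PA ∧ Nonstandard A ∧
      ∀ t : ℕ → ℕ → ℕ, IsSolovay (diagram A) (thSig A) t →
        ∀ i N : ℕ, ∃ n, N ≤ n ∧ 1 ≤ n ∧ ¬ ChangesAtMost (h i n) (t n) :=
  final_of hyp_all chain_all h

end Pool.Agent.TH738.SV
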