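import Pool.Agent.TH738.SV.Gen
import Mathlib.Tactic.DeriveCountable

/-!
Amalgamation: a `Σ_k` extension of `p` can be imitated by an elementary extension of `p`.
-/

set_option autoImplicit false

open FirstOrder FirstOrder.Language
open Pool.Agent.Helper227.EN
open Pool.Agent.TH752.AR (scons prN)

namespace Pool.Agent.TH738.SV

instance countable_fun : Countable (Σ l, LA.Functions l) := by
  have h1 : Countable (Σ l, AF l) := by
    refine Function.Injective.countable (f := fun x : (Σ l, AF l) => match x with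
      | ⟨_, .zero⟩ => (0 : ℕ)
      | ⟨_, .one⟩ => 1
      | ⟨_, .add⟩ => 2
      | ⟨_, .mul⟩ => 3) ?_
    rintro ⟨_, a⟩ ⟨_, b⟩ h
    cases a <;> cases b <;> first | rfl | exact absurd h (by decide)
  exact h1

instance countable_term : Countable (LA.Term ℕ) := Term.instCountableOfSigmaNatFunctions

deriving instance Countable for BF

section
variable (C : CLs)
include C

theorem cl_zero (b : Bool) (n : ℕ) {R : URel} (f : BF)
    (hf : ∀ (M : Type) [LA.Structure M], M ⊨ PA → ∀ w : ℕ → M, f.sat M w ↔ R M w) : Cl b n R := by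
  rcases Nat.eq_zero_or_pos n with rfl | hn
  · exact ⟨f, fun M _ hM w => by
      cases b <;> exact hf M hM w⟩
  · exact C.up b b 0 n _ hn ⟨f, fun M _ hM w => by
      cases b <;> exact hf M hM w⟩

theorem cl_true (b : Bool) (n : ℕ) : Cl b n (fun _ _ _ => True) :=
  cl_zero C b n (.imp .bot .bot) fun _ _ _ _ => ⟨fun _ => trivial, fun _ h => h⟩

theorem cl_ne (b : Bool) (n i j : ℕ) : Cl b n (fun _ _ w => w i ≠ w j) :=
  cl_zero C b n (.imp (.eq (Term.var i) (Term.var j)) .bot) fun _ _ _ _ => Iff.rfl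

theorem cl_forall_lt {b : Bool} {n : ℕ} (R : ℕ → URel) (h : ∀ i, Cl b n (R i)) (N : ℕ) :
    Cl b n (fun M _ w => ∀ i < N, R i M w) := by
  induction N with
  | zero =>
    exact cl_congr' (cl_true C b n) fun M _ _ w => ⟨fun _ i hi => absurd hi (by omega), fun _ => trivial⟩
  | succ N ih =>
    refine cl_congr' (C.and b n _ _ ih (h N)) fun M _ _ w => ⟨fun h1 i hi => ?_, fun h1 => ⟨fun i hi =>
      h1 i (by omega), h1 N (by omega)⟩⟩
    rcases Nat.lt_succ_iff_lt_or_eq.1 hi with h2 | rfl
    · exact h1.1 i h2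
    · exact h1.2

/-- the terms for inserting a value -/
noncomputable def insT (m i : ℕ) : LA.Term ℕ :=
  if i < m then Term.var (i + 1) else if i = m then Term.var 0 else num 0

omit C in
theorem realize_insT {M : Type} [LA.Structure M] (m : ℕ) (w : ℕ → M) (x : M) :
    (fun i => (insT m i).realize (scons x (cut m w))) =
      cut (m + 1) (fun i => if i = m then x else w i) := by
  funext i
  unfold insT
  by_cases h1 : i < m
  · rw [if_pos h1]
    show scons x (cut m w) (i + 1) = _
    show cut m w i = _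
    unfold cut
    rw [if_pos h1, if_pos (by omega)]
    exact (if_neg (by omega)).symm
  · rw [if_neg h1]
    by_cases h2 : i = m
    · rw [if_pos h2]
      show x = _
      unfold cut
      rw [if_pos (by omega)]
      exact (if_pos h2).symm
    · rw [if_neg h2]
      refine (realize_num _ 0).trans ?_
      unfold cut
      rw [if_neg (by omega)]

theorem exB {k : ℕ} (m d : ℕ) : ∀ R : URel, Cl true (k + 1) R →
    Cl true (k + 1) (fun M _ w => ∃ w' : ℕ → M, (∀ i < m, w' i = w i) ∧ R M (cut (m + d) w')) := by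
  induction d with
  | zero =>
    intro R hR
    refine cl_congr' (C.cut hR m) fun M _ _ w => ⟨fun h => ⟨w, fun _ _ => rfl, h⟩, ?_⟩
    rintro ⟨w', h1, h2⟩
    have : cut (m + 0) w' = cut m w := by
      funext i
      unfold cut
      by_cases h3 : i < m
      · rw [if_pos h3, if_pos (by omega), h1 i h3]
      · rw [if_neg h3, if_neg (by omega)]
    rwa [this] at h2
  | succ d ih =>
    intro R hR
    have h1 : Cl true (k + 1) (fun M _ w => ∃ x : M,
        R M (fun i => (insT (m + d) i).realize (scons x w))) :=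
      C.ex k _ (C.sub true (k + 1) R (insT (m + d)) hR)
    refine cl_congr' (ih _ h1) fun M _ _ w => ⟨?_, ?_⟩
    · rintro ⟨w', h2, x, h3⟩
      rw [realize_insT] at h3
      refine ⟨fun i => if i = m + d then x else w' i, fun i hi => ?_, h3⟩
      exact (if_neg (by omega)).trans (h2 i hi)
    · rintro ⟨w', h2, h3⟩
      refine ⟨w', h2, w' (m + d), ?_⟩
      rw [realize_insT]
      have : (fun i => if i = m + d then w' (m + d) else w' i) = w' := by
        funext i
        by_cases h4 : i = m + d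
        · rw [if_pos h4, h4]
        · rw [if_neg h4]
      rw [this]
      exact h3

/-- the amalgamation lemma -/
theorem amal (hc : CompactExtStmt) {k : ℕ} {p q : PM} (hpq : Ext (k + 1) p q) :
    ∃ p' : PM, Elem p p' ∧ Le (k + 1) q p' := by
  classical
  obtain ⟨d, hd⟩ := Nat.exists_eq_add_of_le hpq.1
  let S := {f : BF // PS q.M true (k + 1) f (cut q.m q.a)}
  obtain ⟨f0, hf0⟩ := cl_true C true (k + 1)
  have : Nonempty S := ⟨⟨f0, (hf0 q.M q.pa _).2 trivial⟩⟩
  have : Countable S := inferInstance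
  obtain ⟨g, hg⟩ := exists_surjective_nat S
  have hF : ∀ f : BF, ∃ f' : BF, ∀ (M : Type) [LA.Structure M], M ⊨ PA → ∀ w : ℕ → M,
      PS M true (k + 1) f' w ↔ PS M true (k + 1) f (cut q.m w) := fun f =>
    C.cutE (cl_self true (k + 1) f) q.m
  choose F hF using hF
  have key : ∀ N : ℕ, ∃ w : ℕ → p.M, (∀ i < p.m, w i = p.a i) ∧
      ∀ i < N, PS p.M true (k + 1) (F (g i).1) w := by
    intro N
    have hR : Cl true (k + 1) (fun M _ w => ∃ w' : ℕ → M, (∀ i < p.m, w' i = w i) ∧
        ∀ i < N, PS M true (k + 1) (g i).1 (cut (p.m + d) w')) :=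
      exB C p.m d (fun M _ w => ∀ i < N, PS M true (k + 1) (g i).1 w)
        (cl_forall_lt C _ (fun i => cl_self true (k + 1) (g i).1) N)
    obtain ⟨w', h1, h2⟩ := (C.ext hpq hR le_rfl).2 ⟨q.a, fun i hi => by
      unfold SV.cut
      rw [if_pos hi], fun i _ => by rw [← hd]; exact (g i).2⟩
    refine ⟨w', fun i hi => ?_, fun i hi => ?_⟩
    · rw [h1 i hi]
      unfold SV.cut
      rw [if_pos hi]
    · have h4 := h2 i hi
      have e : SV.cut q.m w' = SV.cut (p.m + d) w' := by rw [hd]
      rw [hF _ p.M p.pa, e]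
      exact h4
  obtain ⟨M', str', w, hpa, h1, h2⟩ := hc (fun i => (true, k + 1, F (g i).1)) p.M p.a p.m p.pa key
  have h3 : ∀ f : BF, PS q.M true (k + 1) f (cut q.m q.a) → PS M' true (k + 1) f (cut q.m w) := by
    intro f hf
    obtain ⟨i, hi⟩ := hg ⟨f, hf⟩
    have := h1 i
    rw [hi] at this
    exact (hF f M' hpa w).1 this
  have hne : ∀ i j, i < q.m → j < q.m → i ≠ j → w i ≠ w j := by
    intro i j hi hj hij
    obtain ⟨f, hf⟩ := cl_ne C true (k + 1) i j
    have hc1 : ∀ (M : Type) [LA.Structure M] (v : ℕ → M) (l : ℕ), l < q.m → SV.cut q.m v l = v l :=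
      fun M _ v l hl => if_pos hl
    have h4 := (hf q.M q.pa (cut q.m q.a)).2 (by
      show SV.cut q.m q.a i ≠ SV.cut q.m q.a j
      rw [hc1 _ _ i hi, hc1 _ _ j hj]
      exact fun h => hij (q.inj i j hi hj h))
    have h5 : SV.cut q.m w i ≠ SV.cut q.m w j := (hf M' hpa _).1 (h3 f h4)
    rwa [hc1 _ _ i hi, hc1 _ _ j hj] at h5
  refine ⟨⟨M', str', hpa, w, q.m, fun i j hi hj h => ?_⟩, ⟨hpq.1, fun b n f => ?_⟩, le_rfl, h3⟩
  · by_contra hij
    exact hne i j hi hj hij h
  · exact (h2 b n f).symm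

/-- what can be forced by a `Σ_k` extension, can be forced by an elementary extension -/
theorem claim1 (hc : CompactExtStmt) {k : ℕ} {φ : BC (k + 1)} {p q : PM} (hpq : Ext (k + 1) p q)
    (hq : Frc (k + 1) φ q) : ∃ p' : PM, Elem p p' ∧ Frc (k + 1) φ p' := by
  obtain ⟨p', h1, h2⟩ := amal C hc hpq
  exact ⟨p', h1, Frc.mono C _ φ q p' hq h2⟩

end

end Pool.Agent.TH738.SV
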