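import Pool.Agent.TH738.SV.Stmts

/-!
Pointed models and their `Σ_k` types.
-/

set_option autoImplicit false

open FirstOrder FirstOrder.Language
open Pool.Agent.Helper227.EN
open Pool.Agent.TH752.AR (scons prN)

namespace Pool.Agent.TH738.SV

/-- the closure properties of the classes `Cl b n` -/
structure CLs : Prop where
  not : ClNot
  and : ClAnd
  or : ClOr
  up : ClUp
  ex : ClEx
  all : ClAll
  sub : ClSub

/-- a model of `PA` with a sequence of elements that is injective below `m` -/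
structure PM where
  M : Type
  str : LA.Structure M
  pa : M ⊨ PA
  a : ℕ → M
  m : ℕ
  inj : ∀ i j, i < m → j < m → a i = a j → i = j

attribute [instance] PM.str

/-- the `Σ_k` type of `p` is contained in the `Σ_k` type of `q` -/
def Le (k : ℕ) (p q : PM) : Prop :=
  p.m ≤ q.m ∧ ∀ f, PS p.M true k f (cut p.m p.a) → PS q.M true k f (cut p.m q.a)

/-- the `Σ_k` types of `p` and `q` (for the entries below `p.m`) are the same -/
def Ext (k : ℕ) (p q : PM) : Prop :=
  p.m ≤ q.m ∧ ∀ f, PS p.M true k f (cut p.m p.a) ↔ PS q.M true k f (cut p.m q.a)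

/-- all the types are the same -/
def Elem (p q : PM) : Prop :=
  p.m ≤ q.m ∧ ∀ b k f, PS p.M b k f (cut p.m p.a) ↔ PS q.M b k f (cut p.m q.a)

theorem Elem.ext {p q : PM} (h : Elem p q) (k : ℕ) : Ext k p q := ⟨h.1, fun f => h.2 true k f⟩

theorem Ext.le {k : ℕ} {p q : PM} (h : Ext k p q) : Le k p q := ⟨h.1, fun f hf => (h.2 f).1 hf⟩

theorem Ext.refl (k : ℕ) (p : PM) : Ext k p p := ⟨le_rfl, fun _ => Iff.rfl⟩

theorem Elem.refl (p : PM) : Elem p p := ⟨le_rfl, fun _ _ _ => Iff.rfl⟩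

theorem cut_cut {M : Type} [LA.Structure M] {m m' : ℕ} (h : m' ≤ m) (w : ℕ → M) :
    cut m' (cut m w) = cut m' w := by
  funext i
  unfold cut
  by_cases h1 : i < m'
  · rw [if_pos h1, if_pos h1, if_pos (by omega)]
  · rw [if_neg h1, if_neg h1]

/-- the terms which cut a sequence -/
noncomputable def cutT (m : ℕ) (i : ℕ) : LA.Term ℕ := if i < m then Term.var i else num 0

theorem realize_num {M : Type} [LA.Structure M] {α : Type} (v : α → M) (k : ℕ) :
    (num k : LA.Term α).realize v = nu M k := by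
  induction k with
  | zero =>
    show (t0 : LA.Term α).realize v = (t0 : LA.Term Empty).realize default
    rw [ea_t0, ea_t0]
  | succ k ih =>
    show (tadd (num k) t1 : LA.Term α).realize v = (tadd (num k) t1 : LA.Term Empty).realize default
    rw [ea_tadd, ea_tadd, ea_t1, ea_t1, ih]
    rfl

theorem realize_cutT {M : Type} [LA.Structure M] (m : ℕ) (w : ℕ → M) :
    (fun i => (cutT m i).realize w) = cut m w := by
  funext i
  unfold cutT cut
  by_cases h1 : i < m
  · rw [if_pos h1, if_pos h1]; rfl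
  · rw [if_neg h1, if_neg h1]; exact realize_num w 0

theorem cl_self (b : Bool) (n : ℕ) (f : BF) : Cl b n (fun M _ w => PS M b n f w) :=
  ⟨f, fun _ _ _ _ => Iff.rfl⟩

theorem cl_congr' {b : Bool} {n : ℕ} {R S : URel} (h : Cl b n R)
    (hRS : ∀ (M : Type) [LA.Structure M], M ⊨ PA → ∀ w : ℕ → M, R M w ↔ S M w) : Cl b n S := by
  obtain ⟨f, hf⟩ := h
  exact ⟨f, fun M _ hM w => (hf M hM w).trans (hRS M hM w)⟩

section
variable (C : CLs)
include C

theorem CLs.cut {b : Bool} {n : ℕ} {R : URel} (h : Cl b n R) (m : ℕ) :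
    Cl b n (fun M _ w => R M (cut m w)) :=
  cl_congr' (C.sub b n R (cutT m) h) fun M _ _ w => by rw [realize_cutT]

theorem CLs.cutE {b : Bool} {n : ℕ} {R : URel} (h : Cl b n R) (m : ℕ) :
    ∃ f : BF, ∀ (M : Type) [LA.Structure M], M ⊨ PA → ∀ w : ℕ → M,
      PS M b n f w ↔ R M (SV.cut m w) := C.cut h m

theorem CLs.le {k : ℕ} {p q : PM} (h : Le k p q) {R : URel} (hR : Cl true k R) {m : ℕ}
    (hm : m ≤ p.m) (hp : R p.M (SV.cut m p.a)) : R q.M (SV.cut m q.a) := by
  obtain ⟨f, hf⟩ := C.cutE hR m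
  have h1 := (hf p.M p.pa (SV.cut p.m p.a)).2 (by rw [cut_cut hm]; exact hp)
  have h2 := (hf q.M q.pa _).1 (h.2 f h1)
  rwa [cut_cut hm] at h2

theorem CLs.ext {k : ℕ} {p q : PM} (h : Ext k p q) {R : URel} (hR : Cl true k R) {m : ℕ}
    (hm : m ≤ p.m) : R p.M (SV.cut m p.a) ↔ R q.M (SV.cut m q.a) := by
  obtain ⟨f, hf⟩ := C.cutE hR m
  have h1 := hf p.M p.pa (SV.cut p.m p.a)
  have h2 := hf q.M q.pa (SV.cut p.m q.a)
  rw [cut_cut hm] at h1 h2
  rw [← h1, ← h2]
  exact h.2 f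

theorem CLs.elem {p q : PM} (h : Elem p q) {b : Bool} {k : ℕ} {R : URel} (hR : Cl b k R) {m : ℕ}
    (hm : m ≤ p.m) : R p.M (SV.cut m p.a) ↔ R q.M (SV.cut m q.a) := by
  obtain ⟨f, hf⟩ := C.cutE hR m
  have h1 := hf p.M p.pa (SV.cut p.m p.a)
  have h2 := hf q.M q.pa (SV.cut p.m q.a)
  rw [cut_cut hm] at h1 h2
  rw [← h1, ← h2]
  exact h.2 b k f

theorem CLs.ext_trans {k : ℕ} {p q r : PM} (h : Ext k p q) (h' : Ext k q r) : Ext k p r :=
  ⟨h.1.trans h'.1, fun f => (h.2 f).trans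
    (C.ext h' (R := fun M _ w => PS M true k f w) (cl_self true k f) h.1)⟩

theorem CLs.le_trans {k : ℕ} {p q r : PM} (h : Le k p q) (h' : Le k q r) : Le k p r :=
  ⟨h.1.trans h'.1, fun f hf => C.le h' (R := fun M _ w => PS M true k f w) (cl_self true k f) h.1
    (h.2 f hf)⟩

theorem CLs.elem_trans {p q r : PM} (h : Elem p q) (h' : Elem q r) : Elem p r :=
  ⟨h.1.trans h'.1, fun b k f => (h.2 b k f).trans
    (C.elem h' (R := fun M _ w => PS M b k f w) (cl_self b k f) h.1)⟩

/-- smaller levels -/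
theorem CLs.le_down {k k' : ℕ} (hk : k' < k) {p q : PM} (h : Le k p q) : Ext k' p q := by
  refine ⟨h.1, fun f => ⟨fun hf => ?_, fun hf => ?_⟩⟩
  · exact C.le h (C.up true true k' k (fun M _ w => PS M true k' f w) hk (cl_self true k' f)) le_rfl hf
  · by_contra hn
    exact C.le h (C.up false true k' k (fun M _ w => ¬ PS M true k' f w) hk
      (C.not true k' _ (cl_self true k' f))) le_rfl hn hf

theorem CLs.ext_down {k k' : ℕ} (hk : k' ≤ k) {p q : PM} (h : Ext k p q) : Ext k' p q := by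
  rcases hk.lt_or_eq with hk | rfl
  · exact C.le_down hk h.le
  · exact h

end

end Pool.Agent.TH738.SV
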