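import Pool.Agent.Helper227.EN.Lang
import Pool.Agent.TH748.MU.Defs
import Pool.Agent.TH754.PK.Statement

/-!
Solovay families: the definitions used in the final statement.

The language of arithmetic `LA = {0, 1, +, ·, <}`, the numerals `num n`, the theory `PA` and the
codes of the atomic facts (`Dg`) are those of `Pool.Agent.Helper227.EN.Lang`; the Goedel numbering
`gf` is that of `Pool.Agent.TH748.MU.Defs`; the arithmetical hierarchy `Hier` (blocks of quantifiers
in front of a formula with bounded quantifiers) is that of `Pool.Agent.TH754.PK.Statement`.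
-/

set_option autoImplicit false

open FirstOrder FirstOrder.Language
open Pool.Agent.Helper227.EN Pool.Agent.TH748.MU

namespace Pool.Agent.TH738.SV

/-! ### Computability relative to an oracle -/

/-- Codes of oracle machines: Kleene's schemes together with a call of the oracle. -/
inductive OCode : Type
  | zero : OCode
  | succ : OCode
  | left : OCode
  | right : OCode
  | oracle : OCode
  | pair (a b : OCode) : OCode
  | comp (a b : OCode) : OCode
  | prec (a b : OCode) : OCode
  | rfind' (a : OCode) : OCode

open Classical in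
/-- The characteristic function of a set. -/
noncomputable def chi (X : Set ℕ) (n : ℕ) : ℕ := if n ∈ X then 1 else 0

/-- The partial function computed by a code with the oracle `X`. -/
noncomputable def OCode.eval (X : Set ℕ) : OCode → ℕ →. ℕ
  | .zero => fun _ => Part.some 0
  | .succ => fun n => Part.some (n + 1)
  | .left => fun n => Part.some n.unpair.1
  | .right => fun n => Part.some n.unpair.2
  | .oracle => fun n => Part.some (chi X n)
  | .pair a b => fun n => (a.eval X n).bind fun x => (b.eval X n).bind fun y =>
      Part.some (Nat.pair x y)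
  | .comp a b => fun n => (b.eval X n).bind fun x => a.eval X x
  | .prec a b => fun p => Nat.rec (a.eval X p.unpair.1)
      (fun k ih => ih.bind fun i => b.eval X (Nat.pair p.unpair.1 (Nat.pair k i))) p.unpair.2
  | .rfind' a => fun p => (Nat.rfind fun n => (a.eval X (Nat.pair p.unpair.1 (n + p.unpair.2))).map
      fun m => decide (m = 0)).map (· + p.unpair.2)

/-- The numbering of the codes. -/
def OCode.ofNat : ℕ → OCode
  | 0 => .zero
  | 1 => .succ
  | 2 => .left
  | 3 => .right
  | 4 => .oracle
  | n + 5 =>
    if n % 4 = 0 then .pair (ofNat (n / 4).unpair.1) (ofNat (n / 4).unpair.2)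
    else if n % 4 = 1 then .comp (ofNat (n / 4).unpair.1) (ofNat (n / 4).unpair.2)
    else if n % 4 = 2 then .prec (ofNat (n / 4).unpair.1) (ofNat (n / 4).unpair.2)
    else .rfind' (ofNat (n / 4))
termination_by n => n
decreasing_by
  all_goals
    have h1 := Nat.unpair_left_le (n / 4)
    have h2 := Nat.unpair_right_le (n / 4)
    omega

/-- The `e`-th partial function computable in `X`. -/
noncomputable def Phi (X : Set ℕ) (e : ℕ) : ℕ →. ℕ := (OCode.ofNat e).eval X

/-- The Turing jump. -/
def jump (X : Set ℕ) : Set ℕ := {e | (Phi X e e).Dom}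

/-- `e` is an index for the set `Y` as a set computable in `X`. -/
def IsIndex (X : Set ℕ) (e : ℕ) (Y : Set ℕ) : Prop := ∀ n, Phi X e n = Part.some (chi Y n)

/-! ### Models and Solovay families -/

/-- The atomic diagram `D(A)` of a structure with universe `ℕ` (as the set of the codes of the
atomic facts `i + j = l`, `i · j = l`, `i < j`, `0 = i`, `1 = i`). -/
def diagram (A : LA.Structure ℕ) : Set ℕ := {z | @Dg ℕ A id z = true}

/-- The set of the Goedel numbers of the `Σ_n` sentences that are true in `A`, i.e. of
`Th(A) ∩ Σ_n`. -/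
def thSig (A : LA.Structure ℕ) (n : ℕ) : Set ℕ :=
  {x | ∃ φ : LA.Sentence, Pool.Agent.TH754.PK.Hier true n φ ∧
    @FirstOrder.Language.Sentence.Realize LA ℕ A φ ∧ gf φ = x}

/-- `(t_n)`, `n ≥ 1`, is a Solovay family, relative to `X`, for the theory whose sets of Goedel
numbers of `Σ_n` sentences are the sets `T n`: `t_n` is computable in `X^(n-1)` uniformly in `n`;
`t_n` has a limit which is an index for `T n` as a set computable in `X`; all the values of `t_n`
are indices for subsets of `T n`. -/
structure IsSolovay (X : Set ℕ) (T : ℕ → Set ℕ) (t : ℕ → ℕ → ℕ) : Prop where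
  uniform : ∃ e : ℕ, ∀ n s, Phi (jump^[n] X) e (Nat.pair n s) = Part.some (t (n + 1) s)
  limit : ∀ n, 1 ≤ n → ∃ s₀, (∀ s, s₀ ≤ s → t n s = t n s₀) ∧ IsIndex X (t n s₀) (T n)
  below : ∀ n, 1 ≤ n → ∀ s, ∃ Y ⊆ T n, IsIndex X (t n s) Y

/-- The function `f` changes its value at most `k` times. -/
def ChangesAtMost (k : ℕ) (f : ℕ → ℕ) : Prop :=
  ∀ F : Finset ℕ, (∀ s ∈ F, f (s + 1) ≠ f s) → F.card ≤ k

/-- The structure `A` is nonstandard: some element is not the value of a numeral. -/
def Nonstandard (A : LA.Structure ℕ) : Prop :=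
  ∃ a : ℕ, ∀ n : ℕ, @FirstOrder.Language.Term.realize LA ℕ A Empty default (num n) ≠ a

/-- The final statement. -/
def Final : Prop := ∃ A : LA.Structure ℕ, @FirstOrder.Language.Theory.Model LA ℕ A PA ∧
  Nonstandard A ∧ ∀ k : ℕ, ¬ ∃ t : ℕ → ℕ → ℕ, IsSolovay (diagram A) (thSig A) t ∧
    ∀ n, 1 ≤ n → ChangesAtMost k (t n)

end Pool.Agent.TH738.SV
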