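import Pool.Agent.TH738.SV.Stmts

/-!
The flexible formula: definitions and statements. The idea: `Kp x e` (`consistency`) is an
arithmetical property which holds if the formula with the code `x` is true in `ℕ` for the values
(coded by) `e`, and which implies that the formula is satisfied in some model of `PA`.
-/

set_option autoImplicit false

open FirstOrder FirstOrder.Language
open Pool.Agent.Helper227.EN
open Pool.Agent.TH752.AR (scons prN)

namespace Pool.Agent.TH738.SV

/-- Formulas of arithmetic in relational form, with de Bruijn indices. -/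
inductive RF : Type
  | add (i j k : ℕ) : RF
  | mul (i j k : ℕ) : RF
  | bot : RF
  | imp (f g : RF) : RF
  | all (f : RF) : RF

/-- Truth in an `LA`-structure. -/
def RF.sat (M : Type) [LA.Structure M] : RF → (ℕ → M) → Prop
  | .add i j k, w => Structure.funMap (L := LA) AF.add ![w i, w j] = w k
  | .mul i j k, w => Structure.funMap (L := LA) AF.mul ![w i, w j] = w k
  | .bot, _ => False
  | .imp f g, w => f.sat M w → g.sat M w
  | .all f, w => ∀ x : M, f.sat M (scons x w)

/-- Truth in `ℕ`. -/
def RF.satN : RF → (ℕ → ℕ) → Prop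
  | .add i j k, w => w i + w j = w k
  | .mul i j k, w => w i * w j = w k
  | .bot, _ => False
  | .imp f g, w => f.satN w → g.satN w
  | .all f, w => ∀ x : ℕ, f.satN (scons x w)

/-! Codes of formulas. All the numbers are codes. -/

def cAdd (i j k : ℕ) : ℕ := 5 * Nat.pair i (Nat.pair j k) + 1
def cMul (i j k : ℕ) : ℕ := 5 * Nat.pair i (Nat.pair j k) + 2
def cImp (x y : ℕ) : ℕ := 5 * Nat.pair x y + 3
def cAll (x : ℕ) : ℕ := 5 * x + 4

/-- the formula with the code `x` -/
def dec (x : ℕ) : RF :=
  if x % 5 = 1 then .add (x / 5).unpair.1 (x / 5).unpair.2.unpair.1 (x / 5).unpair.2.unpair.2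
  else if x % 5 = 2 then
    .mul (x / 5).unpair.1 (x / 5).unpair.2.unpair.1 (x / 5).unpair.2.unpair.2
  else if h : x % 5 = 3 then .imp (dec (x / 5).unpair.1) (dec (x / 5).unpair.2)
  else if h : x % 5 = 4 then .all (dec (x / 5))
  else .bot
termination_by x
decreasing_by
  · have h1 := Nat.unpair_left_le (x / 5)
    omega
  · have h1 := Nat.unpair_right_le (x / 5)
    omega
  · omega

/-- the `i`-th entry of the list with the code `e` -/
def lk (e i : ℕ) : ℕ := (Denumerable.ofNat (List ℕ) e).getD i 0

/-- the code of the list with the first entry `c`, followed by the list with the code `e` -/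
def cns (c e : ℕ) : ℕ := Nat.pair c e + 1

/-- The constant which names the least counterexample to `∀ y, φ(y, e)`, `x` the code of `φ`.
The other constants: `5 k` names the number `k`, `5 ⟨a, b⟩ + 1`, `5 ⟨a, b⟩ + 2` and `5 ⟨a, b⟩ + 3`
name the sum, the product and the truncated difference of the values of `a` and `b`. -/
def hn (x e : ℕ) : ℕ := 5 * Nat.pair x e + 4

/-- `s` (values of the constants) and `v` (truth values; `v ⟨x, e⟩`: the formula with the code `x`
is true for the values of the constants in the list with the code `e`) are correct below `N`. -/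
structure Loc (N : ℕ) (s : ℕ → ℕ) (v : ℕ → Prop) : Prop where
  num : ∀ k, k < N → s (5 * k) = k
  sum : ∀ a b, Nat.pair a b < N → s (5 * Nat.pair a b + 1) = s a + s b
  prod : ∀ a b, Nat.pair a b < N → s (5 * Nat.pair a b + 2) = s a * s b
  diff : ∀ a b, Nat.pair a b < N → s (5 * Nat.pair a b + 3) = s a - s b
  add : ∀ i j k e, Nat.pair (cAdd i j k) e < N →
    (v (Nat.pair (cAdd i j k) e) ↔ s (lk e i) + s (lk e j) = s (lk e k))
  mul : ∀ i j k e, Nat.pair (cMul i j k) e < N →
    (v (Nat.pair (cMul i j k) e) ↔ s (lk e i) * s (lk e j) = s (lk e k))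
  bot : ∀ x e, Nat.pair (5 * x) e < N → ¬ v (Nat.pair (5 * x) e)
  imp : ∀ x y e, Nat.pair (cImp x y) e < N → Nat.pair x e < N → Nat.pair y e < N →
    (v (Nat.pair (cImp x y) e) ↔ (v (Nat.pair x e) → v (Nat.pair y e)))
  all1 : ∀ x e c, Nat.pair (cAll x) e < N → Nat.pair x (cns c e) < N →
    v (Nat.pair (cAll x) e) → v (Nat.pair x (cns c e))
  all2 : ∀ x e, Nat.pair (cAll x) e < N → Nat.pair x (cns (hn x e) e) < N →
    ¬ v (Nat.pair (cAll x) e) → ¬ v (Nat.pair x (cns (hn x e) e))
  all3 : ∀ x e c, Nat.pair (cAll x) e < N → Nat.pair x (cns c e) < N →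
    ¬ v (Nat.pair (cAll x) e) → s c < s (hn x e) → v (Nat.pair x (cns c e))

/-- The formula with the code `x` is consistent for (the constants of the list with the code) `e`.
(`Nat.beta` is Goedel's beta function; any finite sequence of numbers is a sequence of its values.)
-/
def Kp (x e : ℕ) : Prop := ∀ N : ℕ, ∃ b b' : ℕ, Loc N (Nat.beta b) (fun p => Nat.beta b' p = 1) ∧
  (Nat.pair x e < N → Nat.beta b' (Nat.pair x e) = 1)

/-- code of the list of the constants naming the numbers of the list `l` -/
def lc (l : List ℕ) : ℕ := Encodable.encode (l.map fun k => 5 * k)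

/-- FA: `Kp` is definable. -/
def FAStmt : Prop := ∃ κ : RF, ∀ w : ℕ → ℕ, κ.satN w ↔ Kp (w 0) (w 1)

/-- FB: `Kp` implies satisfiability in a model of `PA`. -/
def FBStmt : Prop := ∀ (x : ℕ) (l : List ℕ), Kp x (lc l) →
  ∃ (M : Type) (_ : LA.Structure M), M ⊨ PA ∧ (dec x).sat M (fun i => nu M (l.getD i 0))

/-- FC: truth in `ℕ` implies `Kp`. -/
def FCStmt : Prop := ∀ (x : ℕ) (l : List ℕ), (dec x).satN (fun i => l.getD i 0) → Kp x (lc l)

/-- FD: the relational formulas define relations in the classes `Cl`. -/
def FDStmt : Prop := ∀ f : RF, ∃ n : ℕ, Cl true n (fun M _ w => f.sat M w)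

end Pool.Agent.TH738.SV
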