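import Pool.Agent.TH738.SV.Cond

/-!
Codes of Borel sets of finite rank, and forcing.
-/

set_option autoImplicit false

open FirstOrder FirstOrder.Language
open Pool.Agent.Helper227.EN
open Pool.Agent.TH752.AR (scons prN)

namespace Pool.Agent.TH738.SV

/-- the indices mentioned in the atomic fact with the code `z` are below `bd z` -/
def bd (z : ℕ) : ℕ := max ((Nat.unpair (Nat.unpair z).2).1 + 1)
  (max ((Nat.unpair (Nat.unpair (Nat.unpair z).2).2).1 + 1)
    ((Nat.unpair (Nat.unpair (Nat.unpair z).2).2).2 + 1))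

/-- Codes of `Σ_k` sets: a code of level `0` is a number `z` (it stands for `z ∈ D`), a code of level
`k + 1` is a set of lists of signed codes of level `k` (it stands for the disjunction of the
conjunctions of the lists). -/
def BC : ℕ → Type
  | 0 => ℕ
  | k + 1 => Set (List (BC k × Bool))

/-- the meaning of a code -/
def ev : (k : ℕ) → BC k → Set ℕ → Prop
  | 0, z, D => (show ℕ from z) ∈ D
  | k + 1, S, D => ∃ L ∈ (show Set (List (BC k × Bool)) from S), ∀ x ∈ L, (ev k x.1 D ↔ x.2 = true)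

/-- `p` forces a code -/
def Frc : (k : ℕ) → BC k → PM → Prop
  | 0, z, p => bd z ≤ p.m ∧ Dg p.a z = true
  | k + 1, S, p => ∃ L ∈ (show Set (List (BC k × Bool)) from S), ∀ x ∈ L,
      (x.2 = true → Frc k x.1 p) ∧ (x.2 = false → ∀ q, Ext k p q → ¬ Frc k x.1 q)

/-- `p` forces the negation of a code -/
def NFrc (k : ℕ) (φ : BC k) (p : PM) : Prop := ∀ q, Ext k p q → ¬ Frc k φ q

/-- `p` decides a code -/
def Dec (k : ℕ) (φ : BC k) (p : PM) : Prop := Frc k φ p ∨ NFrc k φ p

theorem cl_dg (C : CLs) (b : Bool) (n : ℕ) (z : ℕ) : Cl b n (fun M _ w => Dg w z = true) := by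
  have key : Cl b 0 (fun M _ w => Dg w z = true) := by
    by_cases h0 : (Nat.unpair z).1 = 0
    · refine ⟨.eq (tadd (Term.var (Nat.unpair (Nat.unpair z).2).1)
        (Term.var (Nat.unpair (Nat.unpair (Nat.unpair z).2).2).1))
        (Term.var (Nat.unpair (Nat.unpair (Nat.unpair z).2).2).2), fun M _ _ w => ?_⟩
      have : PS M b 0 (.eq (tadd (Term.var (Nat.unpair (Nat.unpair z).2).1)
        (Term.var (Nat.unpair (Nat.unpair (Nat.unpair z).2).2).1))
        (Term.var (Nat.unpair (Nat.unpair (Nat.unpair z).2).2).2)) w ↔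
          Structure.funMap (L := LA) AF.add ![w (Nat.unpair (Nat.unpair z).2).1,
            w (Nat.unpair (Nat.unpair (Nat.unpair z).2).2).1] =
            w (Nat.unpair (Nat.unpair (Nat.unpair z).2).2).2 := by
        show (tadd _ _ : LA.Term ℕ).realize w = _ ↔ _
        rw [ea_tadd]
        rfl
      refine this.trans ?_
      simp [Dg, h0]
    by_cases h1 : (Nat.unpair z).1 = 1
    · refine ⟨.eq (tmul (Term.var (Nat.unpair (Nat.unpair z).2).1)
        (Term.var (Nat.unpair (Nat.unpair (Nat.unpair z).2).2).1))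
        (Term.var (Nat.unpair (Nat.unpair (Nat.unpair z).2).2).2), fun M _ _ w => ?_⟩
      have : PS M b 0 (.eq (tmul (Term.var (Nat.unpair (Nat.unpair z).2).1)
        (Term.var (Nat.unpair (Nat.unpair (Nat.unpair z).2).2).1))
        (Term.var (Nat.unpair (Nat.unpair (Nat.unpair z).2).2).2)) w ↔
          Structure.funMap (L := LA) AF.mul ![w (Nat.unpair (Nat.unpair z).2).1,
            w (Nat.unpair (Nat.unpair (Nat.unpair z).2).2).1] =
            w (Nat.unpair (Nat.unpair (Nat.unpair z).2).2).2 := by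
        show (tmul _ _ : LA.Term ℕ).realize w = _ ↔ _
        rw [ea_tmul]
        rfl
      refine this.trans ?_
      simp [Dg, h1]
    by_cases h2 : (Nat.unpair z).1 = 2
    · refine ⟨.lt (Term.var (Nat.unpair (Nat.unpair z).2).1)
        (Term.var (Nat.unpair (Nat.unpair (Nat.unpair z).2).2).1), fun M _ _ w => ?_⟩
      refine Iff.trans (b := Structure.RelMap (L := LA) AR.lt ![w (Nat.unpair (Nat.unpair z).2).1,
            w (Nat.unpair (Nat.unpair (Nat.unpair z).2).2).1]) Iff.rfl ?_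
      simp [Dg, h2]
    by_cases h3 : (Nat.unpair z).1 = 3
    · refine ⟨.eq t0 (Term.var (Nat.unpair (Nat.unpair z).2).1), fun M _ _ w => ?_⟩
      refine Iff.trans (b := Structure.funMap (L := LA) AF.zero ![] =
        w (Nat.unpair (Nat.unpair z).2).1) ?_ ?_
      · show (t0 : LA.Term ℕ).realize w = _ ↔ _
        rw [ea_t0]; rfl
      · simp [Dg, h3]
    by_cases h4 : (Nat.unpair z).1 = 4
    · refine ⟨.eq t1 (Term.var (Nat.unpair (Nat.unpair z).2).1), fun M _ _ w => ?_⟩
      refine Iff.trans (b := Structure.funMap (L := LA) AF.one ![] =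
        w (Nat.unpair (Nat.unpair z).2).1) ?_ ?_
      · show (t1 : LA.Term ℕ).realize w = _ ↔ _
        rw [ea_t1]; rfl
      · simp [Dg, h4]
    · refine ⟨.bot, fun M _ _ w => ?_⟩
      refine Iff.trans (b := False) ?_ ?_
      · cases b <;> exact Iff.rfl
      · simp [Dg, h0, h1, h2, h3, h4]
  rcases Nat.eq_zero_or_pos n with rfl | hn
  · exact key
  · exact C.up b b 0 n _ hn key

open Classical in
theorem dg_cut {M : Type} [LA.Structure M] {m z : ℕ} (hz : bd z ≤ m) (w : ℕ → M) :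
    Dg (cut m w) z = Dg w z := by
  unfold bd at hz
  have h1 : cut m w (Nat.unpair (Nat.unpair z).2).1 = w (Nat.unpair (Nat.unpair z).2).1 :=
    if_pos (by omega)
  have h2 : cut m w (Nat.unpair (Nat.unpair (Nat.unpair z).2).2).1 =
      w (Nat.unpair (Nat.unpair (Nat.unpair z).2).2).1 := if_pos (by omega)
  have h3 : cut m w (Nat.unpair (Nat.unpair (Nat.unpair z).2).2).2 =
      w (Nat.unpair (Nat.unpair (Nat.unpair z).2).2).2 := if_pos (by omega)
  show (if (Nat.unpair z).1 = 0 then decide (Structure.funMap (L := LA) AF.add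
      ![cut m w (Nat.unpair (Nat.unpair z).2).1,
        cut m w (Nat.unpair (Nat.unpair (Nat.unpair z).2).2).1] =
        cut m w (Nat.unpair (Nat.unpair (Nat.unpair z).2).2).2)
    else if (Nat.unpair z).1 = 1 then decide (Structure.funMap (L := LA) AF.mul
      ![cut m w (Nat.unpair (Nat.unpair z).2).1,
        cut m w (Nat.unpair (Nat.unpair (Nat.unpair z).2).2).1] =
        cut m w (Nat.unpair (Nat.unpair (Nat.unpair z).2).2).2)
    else if (Nat.unpair z).1 = 2 then decide (Structure.RelMap (L := LA) AR.lt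
      ![cut m w (Nat.unpair (Nat.unpair z).2).1,
        cut m w (Nat.unpair (Nat.unpair (Nat.unpair z).2).2).1])
    else if (Nat.unpair z).1 = 3 then decide (Structure.funMap (L := LA) AF.zero ![] =
        cut m w (Nat.unpair (Nat.unpair z).2).1)
    else if (Nat.unpair z).1 = 4 then decide (Structure.funMap (L := LA) AF.one ![] =
        cut m w (Nat.unpair (Nat.unpair z).2).1)
    else false) = _
  rw [h1, h2, h3]
  rfl

section
variable (C : CLs)
include C

theorem Frc.succ_ext {k : ℕ} (ih : ∀ (φ : BC k) (p q : PM), Frc k φ p → Le k p q → Frc k φ q)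
    (φ : BC (k + 1)) {p q : PM} (h : Frc (k + 1) φ p) (hpq : Ext k p q) : Frc (k + 1) φ q := by
  obtain ⟨L, hL, h⟩ := h
  refine ⟨L, hL, fun x hx => ⟨fun h1 => ih _ _ _ ((h x hx).1 h1) hpq.le, fun h1 r hr => ?_⟩⟩
  exact (h x hx).2 h1 r (C.ext_trans hpq hr)

theorem Frc.mono : ∀ (k : ℕ) (φ : BC k) (p q : PM), Frc k φ p → Le k p q → Frc k φ q
  | 0, z, p, q, h, hpq => by
    refine ⟨h.1.trans hpq.1, ?_⟩
    have h1 := C.le hpq (cl_dg C true 0 z) (m := p.m) le_rfl
      (by show Dg (cut p.m p.a) z = true; rw [dg_cut h.1]; exact h.2)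
    have h2 : Dg (cut p.m q.a) z = true := h1
    rw [dg_cut h.1] at h2
    exact h2
  | k + 1, φ, p, q, h, hpq =>
    Frc.succ_ext C (Frc.mono k) φ h (C.le_down (Nat.lt_succ_self k) hpq)

theorem Frc.ext' {k : ℕ} {φ : BC k} {p q : PM} (h : Frc k φ p) (hpq : Ext k p q) : Frc k φ q :=
  Frc.mono C k φ p q h hpq.le

theorem Frc.ext_succ {k : ℕ} {φ : BC (k + 1)} {p q : PM} (h : Frc (k + 1) φ p) (hpq : Ext k p q) :
    Frc (k + 1) φ q := Frc.succ_ext C (Frc.mono C k) φ h hpq

theorem NFrc.ext {k : ℕ} {φ : BC k} {p q : PM} (h : NFrc k φ p) (hpq : Ext k p q) : NFrc k φ q :=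
  fun r hr => h r (C.ext_trans hpq hr)

theorem Dec.ext {k : ℕ} {φ : BC k} {p q : PM} (h : Dec k φ p) (hpq : Ext k p q) : Dec k φ q :=
  h.elim (fun h => Or.inl (h.ext' C hpq)) fun h => Or.inr (h.ext C hpq)

end

/-! ### Codes for computations -/

/-- the code (of level `k + 1`) saying that some information in `U` is correct for the set given by
the codes `c x` of level `k` -/
def oc (k : ℕ) (c : ℕ → BC k) (U : Set (List ℕ × List ℕ)) : BC (k + 1) :=
  (show Set (List (BC k × Bool)) from {L | ∃ i ∈ U, L = i.1.map (fun x => (c x, true)) ++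
    i.2.map (fun x => (c x, false))})

theorem ev_oc (k : ℕ) (c : ℕ → BC k) (U : Set (List ℕ × List ℕ)) (D X : Set ℕ)
    (h : ∀ x, ev k (c x) D ↔ x ∈ X) : ev (k + 1) (oc k c U) D ↔ ∃ i ∈ U, Ok X i := by
  constructor
  · rintro ⟨L, ⟨i, hi, rfl⟩, hL⟩
    refine ⟨i, hi, fun x hx => ?_, fun x hx => ?_⟩
    · have := hL (c x, true) (List.mem_append_left _ (List.mem_map.2 ⟨x, hx, rfl⟩))
      rw [← h]
      exact this.2 rfl
    · have := hL (c x, false) (List.mem_append_right _ (List.mem_map.2 ⟨x, hx, rfl⟩))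
      rw [← h]
      intro h1
      have h2 := this.1 h1
      exact absurd h2 (by simp)
  · rintro ⟨i, hi, h1, h2⟩
    refine ⟨_, ⟨i, hi, rfl⟩, fun y hy => ?_⟩
    rcases List.mem_append.1 hy with hy | hy
    · obtain ⟨x, hx, rfl⟩ := List.mem_map.1 hy
      exact ⟨fun _ => rfl, fun _ => (h x).2 (h1 x hx)⟩
    · obtain ⟨x, hx, rfl⟩ := List.mem_map.1 hy
      refine ⟨fun h3 => absurd ((h x).1 h3) (h2 x hx), fun h3 => ?_⟩
      exact absurd h3 (by simp)

section
variable (hu : UseStmt)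

theorem use_phi' (hu : UseStmt) (e n v : ℕ) : ∃ U : Set (List ℕ × List ℕ), ∀ X : Set ℕ,
    Phi X e n = Part.some v ↔ ∃ i ∈ U, Ok X i := by
  obtain ⟨U, hU⟩ := hu (OCode.ofNat e) n v
  exact ⟨U, fun X => Part.eq_some_iff.trans (hU X)⟩

theorem use_jump' (hu : UseStmt) (e : ℕ) : ∃ U : Set (List ℕ × List ℕ), ∀ X : Set ℕ,
    e ∈ jump X ↔ ∃ i ∈ U, Ok X i := by
  have h : ∀ v, ∃ U : Set (List ℕ × List ℕ), ∀ X : Set ℕ,
      v ∈ (OCode.ofNat e).eval X e ↔ ∃ i ∈ U, Ok X i := fun v => hu _ _ _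
  choose U hU using h
  refine ⟨⋃ v, U v, fun X => ?_⟩
  show ((OCode.ofNat e).eval X e).Dom ↔ _
  rw [Part.dom_iff_mem]
  constructor
  · rintro ⟨v, hv⟩
    obtain ⟨i, hi, hi'⟩ := (hU v X).1 hv
    exact ⟨i, Set.mem_iUnion.2 ⟨v, hi⟩, hi'⟩
  · rintro ⟨i, hi, hi'⟩
    obtain ⟨v, hv⟩ := Set.mem_iUnion.1 hi
    exact ⟨v, (hU v X).2 ⟨i, hv, hi'⟩⟩

/-- the code of `x ∈ D^(k)` -/
noncomputable def jc : (k : ℕ) → ℕ → BC k
  | 0, x => (show ℕ from x)
  | k + 1, e => oc k (jc k) (use_jump' hu e).choose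

theorem ev_jc (k x : ℕ) (D : Set ℕ) : ev k (jc hu k x) D ↔ x ∈ jump^[k] D := by
  induction k generalizing x with
  | zero => exact Iff.rfl
  | succ k ih =>
    rw [Function.iterate_succ_apply']
    rw [(use_jump' hu x).choose_spec (jump^[k] D)]
    exact ev_oc k (jc hu k) _ D _ ih

/-- the code of `Φ_e(D^(k), s) = v` -/
noncomputable def pc (k e s v : ℕ) : BC (k + 1) := oc k (jc hu k) (use_phi' hu e s v).choose

theorem ev_pc (k e s v : ℕ) (D : Set ℕ) :
    ev (k + 1) (pc hu k e s v) D ↔ Phi (jump^[k] D) e s = Part.some v := by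
  rw [(use_phi' hu e s v).choose_spec]
  exact ev_oc k (jc hu k) _ D _ fun x => ev_jc hu k x D

/-- the code of: `i` is not an index (in `D`) of `Y` -/
noncomputable def nq (i : ℕ) (Y : Set ℕ) : BC 2 :=
  (show Set (List (BC 1 × Bool)) from {L | ∃ x, L = [(pc hu 0 i x (chi Y x), false)]})

theorem ev_nq (i : ℕ) (Y D : Set ℕ) : ev 2 (nq hu i Y) D ↔ ¬ IsIndex D i Y := by
  unfold IsIndex
  push Not
  constructor
  · rintro ⟨L, ⟨x, rfl⟩, hL⟩
    have h1 := hL _ (List.mem_singleton.2 rfl)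
    refine ⟨x, fun h2 => ?_⟩
    exact absurd (h1.1 ((ev_pc hu 0 i x _ D).2 h2)) (by simp)
  · rintro ⟨x, hx⟩
    refine ⟨_, ⟨x, rfl⟩, fun y hy => ?_⟩
    rw [List.mem_singleton] at hy
    subst hy
    exact ⟨fun h1 => absurd ((ev_pc hu 0 i x _ D).1 h1) hx, fun h1 => absurd h1 (by simp)⟩

end

end Pool.Agent.TH738.SV
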