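import Pool.Agent.TH738.SV.Frc

/-!
The truth lemma for a sequence of conditions.
-/

set_option autoImplicit false

open FirstOrder FirstOrder.Language
open Pool.Agent.Helper227.EN
open Pool.Agent.TH752.AR (scons prN)

namespace Pool.Agent.TH738.SV

/-- the diagram given by a sequence of conditions -/
def DD (p : ℕ → PM) : Set ℕ := {z | ∃ j, Frc 0 (show ℕ from z) (p j)}

section
variable (C : CLs) {B : ℕ} {p : ℕ → PM} (hp : ∀ j, Ext (B + j) (p j) (p (j + 1)))
include C hp

theorem ext_seq {k i j : ℕ} (hij : i ≤ j) (hk : k ≤ B + i) : Ext k (p i) (p j) := by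
  obtain ⟨d, rfl⟩ := Nat.exists_eq_add_of_le hij
  induction d with
  | zero => exact Ext.refl k _
  | succ d ih =>
    exact C.ext_trans (ih (by omega)) (C.ext_down (k := B + (i + d)) (by omega) (hp (i + d)))

/-- the truth lemma for one code -/
structure Sound (B : ℕ) (p : ℕ → PM) (k : ℕ) (φ : BC k) : Prop where
  a : ∀ j, k ≤ B + j + 1 → Frc k φ (p j) → ev k φ (DD p)
  b : ev k φ (DD p) → ∃ j, k ≤ B + j ∧ Frc k φ (p j)

omit C hp in
theorem sound_zero (z : BC 0) : Sound B p 0 z where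
  a := fun j _ h => ⟨j, h⟩
  b := fun h => by
    obtain ⟨j, hj⟩ := h
    exact ⟨j, Nat.zero_le _, hj⟩

theorem Sound.n {k : ℕ} {φ : BC k} (h : Sound B p k φ) {j : ℕ} (hj : k ≤ B + j)
    (hn : NFrc k φ (p j)) : ¬ ev k φ (DD p) := by
  intro he
  obtain ⟨i, hi, hi'⟩ := h.b he
  rcases le_total i j with hij | hij
  · exact hn _ (Ext.refl k _) (hi'.ext' C (ext_seq C hp hij hi))
  · exact hn _ (ext_seq C hp hij hj) hi'

theorem sound_succ {k : ℕ} (φ : BC (k + 1))
    (hs : ∀ L ∈ (show Set (List (BC k × Bool)) from φ), ∀ x ∈ L, Sound B p k x.1)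
    (hd : ∀ L ∈ (show Set (List (BC k × Bool)) from φ), ∀ x ∈ L, ∃ j, k ≤ B + j ∧ Dec k x.1 (p j)) :
    Sound B p (k + 1) φ where
  a := fun j hj h => by
    obtain ⟨L, hL, h⟩ := h
    refine ⟨L, hL, fun x hx => ⟨fun h1 => ?_, fun h1 => ?_⟩⟩
    · by_contra h2
      have h2 : x.2 = false := by simpa using h2
      exact (hs L hL x hx).n C hp (by omega) ((h x hx).2 h2) h1
    · exact (hs L hL x hx).a j (by omega) ((h x hx).1 h1)
  b := fun h => by
    obtain ⟨L, hL, h⟩ := h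
    have h1 : ∀ x ∈ L, ∃ j, k ≤ B + j ∧ ∀ i, j ≤ i →
        (x.2 = true → Frc k x.1 (p i)) ∧ (x.2 = false → NFrc k x.1 (p i)) := by
      intro x hx
      cases hx2 : x.2 with
      | true =>
        obtain ⟨j, hj, hj'⟩ := (hs L hL x hx).b ((h x hx).2 hx2)
        exact ⟨j, hj, fun i hi => ⟨fun _ => hj'.ext' C (ext_seq C hp hi hj), by simp⟩⟩
      | false =>
        obtain ⟨j, hj, hj'⟩ := hd L hL x hx
        have h3 : NFrc k x.1 (p j) := by
          rcases hj' with h4 | h4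
          · exact absurd ((h x hx).1 ((hs L hL x hx).a j (by omega) h4)) (by simp [hx2])
          · exact h4
        exact ⟨j, hj, fun i hi => ⟨by simp, fun _ => h3.ext C (ext_seq C hp hi hj)⟩⟩
    have h2 : ∀ L' : List (BC k × Bool), (∀ x ∈ L', x ∈ L) → ∃ j, k + 1 ≤ B + j ∧ ∀ x ∈ L',
        ∀ i, j ≤ i → (x.2 = true → Frc k x.1 (p i)) ∧ (x.2 = false → NFrc k x.1 (p i)) := by
      intro L'
      induction L' with
      | nil => exact fun _ => ⟨k + 1, by omega, fun x hx => absurd hx (by simp)⟩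
      | cons y L' ih =>
        intro hL'
        obtain ⟨j, hj, hj'⟩ := ih fun x hx => hL' x (List.mem_cons_of_mem _ hx)
        obtain ⟨i, hi, hi'⟩ := h1 y (hL' y List.mem_cons_self)
        refine ⟨max i j, by omega, fun x hx l hl => ?_⟩
        rcases List.mem_cons.1 hx with rfl | hx
        · exact hi' l ((le_max_left _ _).trans hl)
        · exact hj' x hx l ((le_max_right _ _).trans hl)
    obtain ⟨j, hj, hj'⟩ := h2 L fun x hx => hx
    exact ⟨j, hj, L, hL, fun x hx => hj' x hx j le_rfl⟩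

variable (hu : UseStmt)
  (hdj : ∀ k x, ∃ j, k ≤ B + j ∧ Dec k (jc hu k x) (p j))
  (hdp : ∀ i x v, ∃ j, 1 ≤ B + j ∧ Dec 1 (pc hu 0 i x v) (p j))
include hdj

theorem sound_oc (k : ℕ) (U : Set (List ℕ × List ℕ)) (h : ∀ x, Sound B p k (jc hu k x)) :
    Sound B p (k + 1) (oc k (jc hu k) U) := by
  have h0 : ∀ L ∈ (show Set (List (BC k × Bool)) from oc k (jc hu k) U), ∀ x ∈ L,
      ∃ y, x.1 = jc hu k y := by
    rintro L ⟨i, hi, rfl⟩ x hx
    rcases List.mem_append.1 hx with hx | hx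
    · obtain ⟨y, _, rfl⟩ := List.mem_map.1 hx
      exact ⟨y, rfl⟩
    · obtain ⟨y, _, rfl⟩ := List.mem_map.1 hx
      exact ⟨y, rfl⟩
  refine sound_succ C hp _ (fun L hL x hx => ?_) (fun L hL x hx => ?_)
  · obtain ⟨y, hy⟩ := h0 L hL x hx
    rw [hy]; exact h y
  · obtain ⟨y, hy⟩ := h0 L hL x hx
    rw [hy]; exact hdj k y

theorem sound_jc (k x : ℕ) : Sound B p k (jc hu k x) := by
  induction k generalizing x with
  | zero => exact sound_zero _
  | succ k ih => exact sound_oc C hp hu hdj k _ ih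

theorem sound_pc (k e s v : ℕ) : Sound B p (k + 1) (pc hu k e s v) :=
  sound_oc C hp hu hdj k _ (sound_jc C hp hu hdj k)

include hdp in
theorem sound_nq (i : ℕ) (Y : Set ℕ) : Sound B p 2 (nq hu i Y) := by
  refine sound_succ C hp _ (fun L hL x hx => ?_) (fun L hL x hx => ?_)
  · obtain ⟨y, rfl⟩ := hL
    rw [List.mem_singleton] at hx
    subst hx
    exact sound_pc C hp hu hdj 0 i y _
  · obtain ⟨y, rfl⟩ := hL
    rw [List.mem_singleton] at hx
    subst hx
    exact hdp i y _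

end

end Pool.Agent.TH738.SV
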