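import Pool.Agent.TH738.SV.Seq

/-!
The limit structure.
-/

set_option autoImplicit false

open FirstOrder FirstOrder.Language Filter
open Pool.Agent.Helper227.EN Pool.Agent.TH748.MU
open Pool.Agent.TH752.AR (scons prN)

namespace Pool.Agent.TH738.SV

section
variable {H : Hyp} {h : ℕ → ℕ → ℕ} {B : ℕ} {p : ℕ → PM} (S : IsSeq H h B p)
include S

theorem ev_grow (m : ℕ) : ∀ᶠ j in atTop, m ≤ (p j).m := by
  obtain ⟨j, hj⟩ := S.task (.grow m)
  exact eventually_atTop.2 ⟨j, fun i hi => hj i hi⟩

omit S in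
theorem ev_ge (B n : ℕ) : ∀ᶠ j in atTop, n ≤ B + j := by
  exact eventually_atTop.2 ⟨n, fun i hi => by omega⟩

theorem const_cl {n : ℕ} {R : URel} (hR : Cl true n R) {m j j' : ℕ} (hj : j ≤ j') (hn : n ≤ B + j)
    (hm : m ≤ (p j).m) : R (p j).M (cut m (p j).a) ↔ R (p j').M (cut m (p j').a) :=
  H.cl.ext (ext_seq H.cl S.ext hj hn) hR hm

omit S in
/-- formulas, uniformly -/
theorem cl_form (H : Hyp) {k : ℕ} (φ : LA.BoundedFormula Empty k) : ∃ n, ∀ xs : Fin k → ℕ,
    Cl true n (fun M _ w => φ.Realize default (fun i => w (xs i))) := by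
  obtain ⟨n, f, hf⟩ := H.fo k φ
  refine ⟨n, fun xs => ?_⟩
  refine cl_congr' (H.cl.sub true n (fun M _ w => PS M true n f w)
    (fun i => if h : i < k then Term.var (xs ⟨k - 1 - i, by omega⟩) else num 0)
    (cl_self true n f)) fun M _ hM w => ?_
  rw [← hf M hM]
  refine iff_of_eq (congrArg _ ?_)
  funext i
  unfold rv
  by_cases h : i < k
  · simp only [h, dif_pos]
    rfl
  · simp only [h, dif_neg, not_false_iff]
    exact realize_num w 0

theorem const_form {k : ℕ} (φ : LA.BoundedFormula Empty k) : ∃ n, ∀ (xs : Fin k → ℕ) (j j' : ℕ),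
    j ≤ j' → n ≤ B + j → (∀ i, xs i < (p j).m) →
    (φ.Realize default (fun i => (p j).a (xs i)) ↔ φ.Realize default (fun i => (p j').a (xs i))) := by
  obtain ⟨n, hn⟩ := cl_form H φ
  refine ⟨n, fun xs j j' hj hnj hxs => ?_⟩
  have h1 := const_cl S (hn xs) hj hnj (m := (p j).m) le_rfl
  have h2 : ∀ (M : Type) [LA.Structure M] (v : ℕ → M),
      (fun i => cut (p j).m v (xs i)) = fun i => v (xs i) := fun M _ v => by
    funext i
    exact if_pos (hxs i)
  rw [h2, h2] at h1
  exact h1

theorem ev_lt {k : ℕ} (xs : Fin k → ℕ) : ∀ᶠ j in atTop, ∀ i, xs i < (p j).m :=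
  eventually_all.2 fun i => (ev_grow S (xs i + 1)).mono fun _ h => h

theorem perm_form {k : ℕ} (φ : LA.BoundedFormula Empty k) (xs : Fin k → ℕ) :
    (∀ᶠ j in atTop, φ.Realize default (fun i => (p j).a (xs i))) ∨
    ∀ᶠ j in atTop, ¬ φ.Realize default (fun i => (p j).a (xs i)) := by
  obtain ⟨n, hn⟩ := const_form S φ
  obtain ⟨j, h1, h2⟩ := ((ev_ge B n).and (ev_lt S xs)).exists
  by_cases h : φ.Realize default (fun i => (p j).a (xs i))
  · exact Or.inl (eventually_atTop.2 ⟨j, fun j' hj' => (hn xs j j' hj' h1 h2).1 h⟩)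
  · exact Or.inr (eventually_atTop.2 ⟨j, fun j' hj' h3 => h ((hn xs j j' hj' h1 h2).2 h3)⟩)

theorem fun_ex {l : ℕ} (F : LA.Functions l) (v : Fin l → ℕ) :
    ∃ x : ℕ, ∀ᶠ j in atTop, Structure.funMap F (fun i => (p j).a (v i)) = (p j).a x := by
  obtain ⟨m, hm⟩ : ∃ m, ∀ i, v i < m := by
    obtain ⟨j, hj⟩ := (ev_lt S v).exists
    exact ⟨_, hj⟩
  let f : BF := .eq (Term.var 0) (Term.func F (fun i => Term.var (v i + 1)))
  obtain ⟨j, hj⟩ := S.task (.hk 0 f m)
  obtain ⟨h1, h2⟩ := hj j le_rfl
  have h3 : ∀ (M : Type) [LA.Structure M] (x : M) (w : ℕ → M), PS M true 0 f (scons x (cut m w)) ↔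
      x = Structure.funMap F (fun i => w (v i)) := by
    intro M _ x w
    have : (fun i => cut m w (v i)) = fun i => w (v i) := by
      funext i
      exact if_pos (hm i)
    rw [← this]
    exact Iff.rfl
  obtain ⟨x, hx, h4⟩ := h2 ⟨_, (h3 _ _ _).2 rfl⟩
  rw [h3] at h4
  have h5 : Cl true 0 (fun M _ w => w x = Structure.funMap F (fun i => w (v i))) :=
    ⟨.eq (Term.var x) (Term.func F (fun i => Term.var (v i))), fun M _ _ w => Iff.rfl⟩
  refine ⟨x, eventually_atTop.2 ⟨j, fun j' hj' => ?_⟩⟩
  have h6 := const_cl S h5 hj' (Nat.zero_le _) (m := (p j).m) le_rfl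
  have h7 : ∀ (M : Type) [LA.Structure M] (w : ℕ → M),
      (fun i => cut (p j).m w (v i)) = fun i => w (v i) := fun M _ w => by
    funext i
    exact if_pos ((hm i).trans_le h1)
  have h8 : ∀ (M : Type) [LA.Structure M] (w : ℕ → M), cut (p j).m w x = w x :=
    fun M _ w => if_pos hx
  rw [h7, h7, h8, h8] at h6
  exact (h6.1 h4).symm

end

/-- the limit structure -/
@[instance_reducible] noncomputable def AA {H : Hyp} {h : ℕ → ℕ → ℕ} {B : ℕ} {p : ℕ → PM}
    (S : IsSeq H h B p) : LA.Structure ℕ where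
  funMap := fun F v => (fun_ex S F v).choose
  RelMap := fun R v => ∀ᶠ j in atTop, Structure.RelMap R (fun i => (p j).a (v i))

section
variable {H : Hyp} {h : ℕ → ℕ → ℕ} {B : ℕ} {p : ℕ → PM} (S : IsSeq H h B p)

theorem fun_spec {l : ℕ} (F : LA.Functions l) (v : Fin l → ℕ) : ∀ᶠ j in atTop,
    Structure.funMap F (fun i => (p j).a (v i)) = (p j).a ((AA S).funMap F v) :=
  (fun_ex S F v).choose_spec

include S in
theorem ev_inj (x y : ℕ) : (∀ᶠ j in atTop, (p j).a x = (p j).a y) ↔ x = y := by
  constructor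
  · intro h
    obtain ⟨j, h1, h2, h3⟩ := (h.and ((ev_grow S (x + 1)).and (ev_grow S (y + 1)))).exists
    exact (p j).inj x y h2 h3 h1
  · rintro rfl
    exact Eventually.of_forall fun _ => rfl

theorem term_lim {α : Type} (t : LA.Term α) (v : α → ℕ) : ∀ᶠ j in atTop,
    t.realize (fun i => (p j).a (v i)) = (p j).a (@Term.realize LA ℕ (AA S) α v t) := by
  induction t with
  | var i => exact Eventually.of_forall fun _ => rfl
  | func F ts ih =>
    have h1 := eventually_all.2 ih
    have h2 := fun_spec S F (fun i => @Term.realize LA ℕ (AA S) α v (ts i))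
    filter_upwards [h1, h2] with j h3 h4
    show Structure.funMap F (fun i => (ts i).realize (fun i => (p j).a (v i))) = _
    rw [show (fun i => (ts i).realize (fun i => (p j).a (v i))) =
      fun i => (p j).a (@Term.realize LA ℕ (AA S) α v (ts i)) from funext h3]
    exact h4

theorem term_lim' {k : ℕ} (t : LA.Term (Empty ⊕ Fin k)) (xs : Fin k → ℕ) : ∀ᶠ j in atTop,
    t.realize (Sum.elim default (fun i => (p j).a (xs i))) =
      (p j).a (@Term.realize LA ℕ (AA S) _ (Sum.elim default xs) t) := by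
  filter_upwards [term_lim S t (Sum.elim default xs)] with j hj
  rw [← hj]
  congr 1
  funext i
  rcases i with i | i
  · exact i.elim
  · rfl

theorem snoc_lim {M : Type} {k : ℕ} (a : ℕ → M) (xs : Fin k → ℕ) (x : ℕ) :
    (Fin.snoc (fun i => a (xs i)) (a x) : Fin (k + 1) → M) =
      fun i => a ((Fin.snoc xs x : Fin (k + 1) → ℕ) i) := by
  funext i
  refine Fin.lastCases ?_ (fun i => ?_) i
  · rw [Fin.snoc_last, Fin.snoc_last]
  · rw [Fin.snoc_castSucc, Fin.snoc_castSucc]

theorem form_lim {k : ℕ} (φ : LA.BoundedFormula Empty k) (xs : Fin k → ℕ) :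
    @BoundedFormula.Realize LA ℕ (AA S) Empty k φ default xs ↔
      ∀ᶠ j in atTop, φ.Realize default (fun i => (p j).a (xs i)) := by
  induction φ with
  | falsum =>
    refine ⟨fun h => h.elim, fun h => ?_⟩
    obtain ⟨j, hj⟩ := h.exists
    exact hj.elim
  | equal t₁ t₂ =>
    show @Term.realize LA ℕ (AA S) _ (Sum.elim default xs) t₁ =
      @Term.realize LA ℕ (AA S) _ (Sum.elim default xs) t₂ ↔ ∀ᶠ j in atTop,
        t₁.realize (Sum.elim default (fun i => (p j).a (xs i))) =
          t₂.realize (Sum.elim default (fun i => (p j).a (xs i)))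
    rw [← ev_inj S]
    refine eventually_congr ?_
    filter_upwards [term_lim' S t₁ xs, term_lim' S t₂ xs] with j h1 h2
    rw [h1, h2]
  | rel R ts =>
    show (∀ᶠ j in atTop, Structure.RelMap R
        (fun i => (p j).a (@Term.realize LA ℕ (AA S) _ (Sum.elim default xs) (ts i)))) ↔
      ∀ᶠ j in atTop, Structure.RelMap R
        (fun i => (ts i).realize (Sum.elim default (fun i => (p j).a (xs i))))
    refine eventually_congr ?_
    filter_upwards [eventually_all.2 fun i => term_lim' S (ts i) xs] with j h1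
    rw [funext h1]
  | imp f g ihf ihg =>
    show (@BoundedFormula.Realize LA ℕ (AA S) Empty _ f default xs →
      @BoundedFormula.Realize LA ℕ (AA S) Empty _ g default xs) ↔ ∀ᶠ j in atTop,
        (f.Realize default (fun i => (p j).a (xs i)) → g.Realize default (fun i => (p j).a (xs i)))
    rw [ihf, ihg]
    rcases perm_form S f xs with h | h
    · constructor
      · intro h1
        exact (h1 h).mono fun _ h2 _ => h2
      · intro h1 _
        filter_upwards [h, h1] with j h2 h3 using h3 h2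
    · constructor
      · intro _
        exact h.mono fun _ h2 h3 => absurd h3 h2
      · intro _ h2
        obtain ⟨j, h3, h4⟩ := (h.and h2).exists
        exact absurd h4 h3
  | @all k f ih =>
    show (∀ x : ℕ, @BoundedFormula.Realize LA ℕ (AA S) Empty _ f default (Fin.snoc xs x)) ↔
      ∀ᶠ j in atTop, ∀ y : (p j).M, f.Realize default (Fin.snoc (fun i => (p j).a (xs i)) y)
    constructor
    · intro h
      rcases perm_form S f.all xs with h1 | h1
      · exact h1
      · exfalso
        obtain ⟨m, hm⟩ : ∃ m, ∀ i, xs i < m := by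
          obtain ⟨j, hj⟩ := (ev_lt S xs).exists
          exact ⟨_, hj⟩
        obtain ⟨n, g, hg⟩ := H.fo (k + 1) f.not
        obtain ⟨g', hg'⟩ := H.cl.sub true n (fun M _ w => PS M true n g w)
          (fun i => match i with
            | 0 => Term.var 0
            | i + 1 => if h : i < k then Term.var (xs ⟨k - 1 - i, by omega⟩ + 1) else num 0)
          (cl_self true n g)
        have h2 : ∀ (M : Type) [LA.Structure M], M ⊨ PA → ∀ (x : M) (w : ℕ → M),
            PS M true n g' (scons x (cut m w)) ↔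
              ¬ f.Realize default (Fin.snoc (fun i => w (xs i)) x) := by
          intro M _ hM x w
          rw [hg' M hM]
          refine Iff.trans ?_ (hg M hM (Fin.snoc (fun i => w (xs i)) x))
          refine iff_of_eq (congrArg _ ?_)
          funext i
          cases i with
          | zero =>
            show x = _
            unfold rv
            rw [dif_pos (Nat.succ_pos k)]
            have : (⟨k + 1 - 1 - 0, by omega⟩ : Fin (k + 1)) = Fin.last k := Fin.ext (by simp)
            rw [this, Fin.snoc_last]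
          | succ i =>
            show Term.realize _ (if h : i < k then Term.var (xs ⟨k - 1 - i, by omega⟩ + 1) else num 0) = _
            unfold rv
            by_cases h3 : i < k
            · rw [dif_pos h3, dif_pos (Nat.succ_lt_succ h3)]
              have h4 : (⟨k + 1 - 1 - (i + 1), by omega⟩ : Fin (k + 1)) =
                  Fin.castSucc ⟨k - 1 - i, by omega⟩ := Fin.ext (by simp; omega)
              rw [h4, Fin.snoc_castSucc]
              exact if_pos (hm _)
            · rw [dif_neg h3, dif_neg (by omega)]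
              exact realize_num _ 0
        obtain ⟨n', hn'⟩ := const_form S f
        obtain ⟨j0, hj0⟩ := S.task (.hk n g' m)
        obtain ⟨j, h3, h4, h5, h6⟩ := (h1.and ((ev_ge B n').and ((ev_lt S xs).and
          (eventually_atTop.2 ⟨j0, hj0⟩)))).exists
        have h7 : ∃ y : (p j).M, ¬ f.Realize default (Fin.snoc (fun i => (p j).a (xs i)) y) := by
          by_contra h8
          push Not at h8
          exact h3 h8
        obtain ⟨y, hy⟩ := h7
        obtain ⟨l, hl, h8⟩ := h6.2 ⟨y, (h2 _ (p j).pa _ _).2 hy⟩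
        rw [h2 _ (p j).pa, snoc_lim] at h8
        obtain ⟨j', h9, h10⟩ := (((ih (Fin.snoc xs l)).1 (h l)).and (eventually_ge_atTop j)).exists
        refine h8 ((hn' (Fin.snoc xs l) j j' h10 h4 ?_).2 h9)
        intro i
        refine Fin.lastCases ?_ (fun i => ?_) i
        · rw [Fin.snoc_last]; exact hl
        · rw [Fin.snoc_castSucc]; exact h5 i
    · intro h x
      rw [ih]
      filter_upwards [h] with j hj
      rw [← snoc_lim]
      exact hj _

theorem sent_lim (φ : LA.Sentence) : @Sentence.Realize LA ℕ (AA S) φ ↔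
    ∀ᶠ j in atTop, (p j).M ⊨ φ := by
  have h := form_lim S φ (default : Fin 0 → ℕ)
  have h' : @Sentence.Realize LA ℕ (AA S) φ ↔
      @BoundedFormula.Realize LA ℕ (AA S) Empty 0 φ default default := by
    unfold Sentence.Realize Formula.Realize
    exact iff_of_eq (congrArg₂ _ (Subsingleton.elim _ _) (Subsingleton.elim _ _))
  refine h'.trans (h.trans ?_)
  refine eventually_congr (Eventually.of_forall fun j => ?_)
  rw [show (fun i => (p j).a ((default : Fin 0 → ℕ) i)) = default from Subsingleton.elim _ _]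
  exact Iff.rfl

theorem pa_lim : @FirstOrder.Language.Theory.Model LA ℕ (AA S) PA := by
  refine @FirstOrder.Language.Theory.Model.mk LA ℕ (AA S) PA (fun φ hφ => ?_)
  refine (sent_lim S φ).2 (Eventually.of_forall fun j => ?_)
  exact (p j).pa.realize_of_mem φ hφ

theorem thSig_lim {n j : ℕ} (hn : n ≤ B + j) : thSig (AA S) n = TS n (p j).M := by
  have h1 : ∀ φ : LA.Sentence, Pool.Agent.TH754.PK.Hier true n φ →
      (@Sentence.Realize LA ℕ (AA S) φ ↔ (p j).M ⊨ φ) := by
    intro φ hφ
    rw [sent_lim]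
    have h2 : ∀ j', j ≤ j' → ((p j).M ⊨ φ ↔ (p j').M ⊨ φ) := by
      intro j' hj'
      obtain ⟨f, hf⟩ := H.nf true n 0 φ hφ
      have h3 := hf (p j).M (p j).pa default
      have h4 := hf (p j').M (p j').pa default
      have h5 := const_cl S (cl_self true n f) hj' hn (Nat.zero_le _)
      rw [cut_zero, cut_zero] at h5
      rw [rv_zero] at h3 h4
      exact h3.symm.trans (h5.trans h4)
    constructor
    · intro h
      obtain ⟨j', h3, h4⟩ := (h.and (eventually_ge_atTop j)).exists
      exact (h2 j' h4).2 h3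
    · intro h
      exact eventually_atTop.2 ⟨j, fun j' hj' => (h2 j' hj').1 h⟩
  ext x
  constructor
  · rintro ⟨φ, h2, h3, h4⟩
    exact ⟨φ, h2, (h1 φ h2).1 h3, h4⟩
  · rintro ⟨φ, h2, h3, h4⟩
    exact ⟨φ, h2, (h1 φ h2).2 h3, h4⟩

theorem nonstd_lim : Nonstandard (AA S) := by
  refine ⟨0, fun n h => ?_⟩
  have h1 := term_lim S (num n : LA.Term Empty) (default : Empty → ℕ)
  rw [h] at h1
  obtain ⟨j, hj⟩ := h1.exists
  have h2 : (num n : LA.Term Empty).realize (fun i => (p j).a ((default : Empty → ℕ) i)) =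
      nu (p j).M n := realize_num _ n
  rw [h2] at hj
  have h3 : Cl true 0 (fun M _ w => ltM M (nu M n) (w 0)) :=
    ⟨.lt (num n) (Term.var 0), fun M _ _ w => by
      show ltM M ((num n : LA.Term ℕ).realize w) (w 0) ↔ _
      rw [realize_num]⟩
  have h4 := (const_cl S h3 (Nat.zero_le j) (Nat.zero_le _) (m := 1) S.m0).1 (S.na n)
  have h5 : ltM (p j).M (nu (p j).M n) ((p j).a 0) := h4
  rw [hj] at h5
  exact (nu_facts (p j).M (p j).pa).2 _ h5

theorem fun_iff {l : ℕ} (F : LA.Functions l) (v : Fin l → ℕ) (x : ℕ) :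
    (AA S).funMap F v = x ↔
      ∀ᶠ j in atTop, Structure.funMap F (fun i => (p j).a (v i)) = (p j).a x := by
  rw [← ev_inj S]
  refine eventually_congr ?_
  filter_upwards [fun_spec S F v] with j hj
  rw [hj]

theorem dg_lim (z : ℕ) : @Dg ℕ (AA S) id z = true ↔ ∀ᶠ j in atTop, Dg (p j).a z = true := by
  have e2 : ∀ (j x y : ℕ), (fun i : Fin 2 => (p j).a ((![x, y] : Fin 2 → ℕ) i)) =
      ![(p j).a x, (p j).a y] := by
    intro j x y
    funext i
    fin_cases i <;> rfl
  have e0 : ∀ j : ℕ, (fun i : Fin 0 => (p j).a ((![] : Fin 0 → ℕ) i)) = ![] := by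
    intro j
    exact Subsingleton.elim _ _
  by_cases h0 : (Nat.unpair z).1 = 0
  · have h1 : @Dg ℕ (AA S) id z = true ↔ (AA S).funMap AF.add
        ![(Nat.unpair (Nat.unpair z).2).1, (Nat.unpair (Nat.unpair (Nat.unpair z).2).2).1] =
        (Nat.unpair (Nat.unpair (Nat.unpair z).2).2).2 := by simp [Dg, h0]
    refine (h1.trans (fun_iff S (l := 2) AF.add _ _)).trans ?_
    refine eventually_congr (Eventually.of_forall fun j => ?_)
    rw [e2]
    simp [Dg, h0]
  by_cases h1 : (Nat.unpair z).1 = 1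
  · have h2 : @Dg ℕ (AA S) id z = true ↔ (AA S).funMap AF.mul
        ![(Nat.unpair (Nat.unpair z).2).1, (Nat.unpair (Nat.unpair (Nat.unpair z).2).2).1] =
        (Nat.unpair (Nat.unpair (Nat.unpair z).2).2).2 := by simp [Dg, h1]
    refine (h2.trans (fun_iff S (l := 2) AF.mul _ _)).trans ?_
    refine eventually_congr (Eventually.of_forall fun j => ?_)
    rw [e2]
    simp [Dg, h1]
  by_cases h2 : (Nat.unpair z).1 = 2
  · have h3 : @Dg ℕ (AA S) id z = true ↔ (AA S).RelMap AR.lt
        ![(Nat.unpair (Nat.unpair z).2).1, (Nat.unpair (Nat.unpair (Nat.unpair z).2).2).1] := by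
      simp [Dg, h2]
    refine h3.trans ?_
    show (∀ᶠ j in atTop, Structure.RelMap (L := LA) AR.lt (fun i => (p j).a
      ((![(Nat.unpair (Nat.unpair z).2).1, (Nat.unpair (Nat.unpair (Nat.unpair z).2).2).1] :
        Fin 2 → ℕ) i))) ↔ _
    refine eventually_congr (Eventually.of_forall fun j => ?_)
    rw [e2]
    simp [Dg, h2]
  by_cases h3 : (Nat.unpair z).1 = 3
  · have h4 : @Dg ℕ (AA S) id z = true ↔ (AA S).funMap AF.zero ![] =
        (Nat.unpair (Nat.unpair z).2).1 := by simp [Dg, h3]
    refine (h4.trans (fun_iff S (l := 0) AF.zero _ _)).trans ?_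
    refine eventually_congr (Eventually.of_forall fun j => ?_)
    rw [e0]
    simp [Dg, h3]
  by_cases h4 : (Nat.unpair z).1 = 4
  · have h5 : @Dg ℕ (AA S) id z = true ↔ (AA S).funMap AF.one ![] =
        (Nat.unpair (Nat.unpair z).2).1 := by simp [Dg, h4]
    refine (h5.trans (fun_iff S (l := 0) AF.one _ _)).trans ?_
    refine eventually_congr (Eventually.of_forall fun j => ?_)
    rw [e0]
    simp [Dg, h4]
  · have h5 : ∀ (M : Type) [LA.Structure M] (w : ℕ → M), Dg w z = false := by
      intro M _ w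
      simp [Dg, h0, h1, h2, h3, h4]
    have h6 : @Dg ℕ (AA S) id z = false := @h5 ℕ (AA S) id
    rw [h6]
    refine ⟨fun h => absurd h (by decide), fun h => ?_⟩
    obtain ⟨j, hj⟩ := h.exists
    rw [h5] at hj
    exact absurd hj (by decide)

theorem diagram_lim : diagram (AA S) = DD p := by
  ext z
  show @Dg ℕ (AA S) id z = true ↔ ∃ j, bd z ≤ (p j).m ∧ Dg (p j).a z = true
  rw [dg_lim]
  constructor
  · intro h
    obtain ⟨j, h1, h2⟩ := (h.and (ev_grow S (bd z))).exists
    exact ⟨j, h2, h1⟩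
  · rintro ⟨j, h1, h2⟩
    refine eventually_atTop.2 ⟨j, fun j' hj' => ?_⟩
    have h3 := const_cl S (cl_dg H.cl true 0 z) hj' (Nat.zero_le _) (m := (p j).m) le_rfl
    rw [dg_cut h1, dg_cut h1] at h3
    exact h3.1 h2

end

end Pool.Agent.TH738.SV
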