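import Pool.Agent.TH738.SV.Stmts

/-!
Closure of the classes `Cl` under negation, substitution, going up.
-/

set_option autoImplicit false

open FirstOrder FirstOrder.Language
open Pool.Agent.Helper227.EN
open Pool.Agent.TH752.AR (scons prN)

namespace Pool.Agent.TH738.SV

namespace CLa

/-- lift of a substitution under a quantifier -/
def up (g : ℕ → LA.Term ℕ) : ℕ → LA.Term ℕ
  | 0 => Term.var 0
  | i + 1 => (g i).relabel Nat.succ

theorem up_realize (M : Type) [LA.Structure M] (g : ℕ → LA.Term ℕ) (x : M) (w : ℕ → M) :
    (fun i => (up g i).realize (scons x w)) = scons x (fun i => (g i).realize w) := by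
  funext i
  cases i with
  | zero => rfl
  | succ i =>
    show ((g i).relabel Nat.succ).realize (scons x w) = (g i).realize w
    rw [Term.realize_relabel]
    rfl

/-- substitution in a bounded formula -/
def sb : BF → (ℕ → LA.Term ℕ) → BF
  | .eq s t, g => .eq (s.subst g) (t.subst g)
  | .lt s t, g => .lt (s.subst g) (t.subst g)
  | .bot, _ => .bot
  | .imp f f', g => .imp (sb f g) (sb f' g)
  | .ball t f, g => .ball (t.subst g) (sb f (up g))

theorem sat_sb (M : Type) [LA.Structure M] (f : BF) (g : ℕ → LA.Term ℕ) (w : ℕ → M) :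
    (sb f g).sat M w ↔ f.sat M (fun i => (g i).realize w) := by
  induction f generalizing g w with
  | eq s t => simp only [sb, BF.sat, Term.realize_subst]
  | lt s t => simp only [sb, BF.sat, Term.realize_subst]
  | bot => rfl
  | imp f f' h1 h2 => simp only [sb, BF.sat, h1, h2]
  | ball t f h => simp only [sb, BF.sat, Term.realize_subst, h, up_realize]

theorem ps_sb (M : Type) [LA.Structure M] (b : Bool) (n : ℕ) (f : BF) (g : ℕ → LA.Term ℕ)
    (w : ℕ → M) :
    PS M b n (sb f (up^[n] g)) w ↔ PS M b n f (fun i => (g i).realize w) := by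
  induction n generalizing b g w with
  | zero => cases b <;> exact sat_sb M f g w
  | succ n ih =>
    cases b
    · simp only [PS, Function.iterate_succ, Function.comp_apply, ih, up_realize]
    · simp only [PS, Function.iterate_succ, Function.comp_apply, ih, up_realize]

theorem ps_not (M : Type) [LA.Structure M] (b : Bool) (n : ℕ) (f : BF) (w : ℕ → M) :
    PS M (!b) n (.imp f .bot) w ↔ ¬ PS M b n f w := by
  induction n generalizing b w with
  | zero => cases b <;> rfl
  | succ n ih =>
    cases b
    · have h := ih true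
      simp only [Bool.not_true] at h
      simp only [PS, Bool.not_false, h, not_forall]
    · have h := ih false
      simp only [Bool.not_false] at h
      simp only [PS, Bool.not_true, h, not_exists]

/-- the shift of the variables -/
def sh : ℕ → LA.Term ℕ := fun i => Term.var (i + 1)

theorem sh_realize (M : Type) [LA.Structure M] (x : M) (w : ℕ → M) :
    (fun i => (sh i).realize (scons x w)) = w := by
  funext i
  rfl

theorem ps_outer (M : Type) [LA.Structure M] (b : Bool) (n : ℕ) (f : BF) (w : ℕ → M) :
    PS M (!b) (n + 1) (sb f (up^[n] sh)) w ↔ PS M b n f w := by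
  have hne : Nonempty M := ⟨nu M 0⟩
  cases b
  · simp only [Bool.not_false, PS, ps_sb, sh_realize, exists_const]
  · simp only [Bool.not_true, PS, ps_sb, sh_realize, forall_const]

theorem ps_inner (M : Type) [LA.Structure M] (b : Bool) (n : ℕ) (f : BF) (w : ℕ → M) :
    PS M b (n + 1) (sb f sh) w ↔ PS M b n f w := by
  have hne : Nonempty M := ⟨nu M 0⟩
  induction n generalizing b w with
  | zero =>
    cases b
    · show (∀ x : M, (sb f sh).sat M (scons x w)) ↔ f.sat M w
      simp only [sat_sb, sh_realize, forall_const]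
    · show (∃ x : M, (sb f sh).sat M (scons x w)) ↔ f.sat M w
      simp only [sat_sb, sh_realize, exists_const]
  | succ n ih =>
    cases b
    · show (∀ x : M, PS M true (n + 1) (sb f sh) (scons x w)) ↔
        ∀ x : M, PS M true n f (scons x w)
      simp only [ih]
    · show (∃ x : M, PS M false (n + 1) (sb f sh) (scons x w)) ↔
        ∃ x : M, PS M false n f (scons x w)
      simp only [ih]

theorem cl_step {b : Bool} {n : ℕ} {R : URel} (h : Cl b n R) (b' : Bool) : Cl b' (n + 1) R := by
  obtain ⟨f, hf⟩ := h
  by_cases hb : b' = b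
  · subst hb
    exact ⟨sb f sh, fun M _ hM w => (ps_inner M b' n f w).trans (hf M hM w)⟩
  · have hb' : b' = !b := by cases b <;> cases b' <;> simp_all
    subst hb'
    exact ⟨sb f (up^[n] sh), fun M _ hM w => (ps_outer M b n f w).trans (hf M hM w)⟩

end CLa

theorem prf_clNot : ClNot := by
  intro b n R h
  obtain ⟨f, hf⟩ := h
  exact ⟨.imp f .bot, fun M _ hM w => (CLa.ps_not M b n f w).trans (not_congr (hf M hM w))⟩

theorem prf_clUp : ClUp := by
  intro b b' n n' R hn h
  obtain ⟨k, rfl⟩ := Nat.exists_eq_add_of_lt hn
  clear hn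
  induction k generalizing b' with
  | zero => exact CLa.cl_step h b'
  | succ k ih => exact CLa.cl_step (ih b) b'

theorem prf_clSub : ClSub := by
  intro b n R g h
  obtain ⟨f, hf⟩ := h
  exact ⟨CLa.sb f (CLa.up^[n] g), fun M _ hM w => (CLa.ps_sb M b n f g w).trans (hf M hM _)⟩

theorem cl_congr {b : Bool} {n : ℕ} {R S : URel} (h : Cl b n R)
    (hRS : ∀ (M : Type) [LA.Structure M], M ⊨ PA → ∀ w : ℕ → M, R M w ↔ S M w) : Cl b n S := by
  obtain ⟨f, hf⟩ := h
  exact ⟨f, fun M _ hM w => (hf M hM w).trans (hRS M hM w)⟩

end Pool.Agent.TH738.SV
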