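import Pool.Agent.TH738.SV.Defs
import Pool.Agent.TH748.MU.Diag
import Pool.Agent.TH754.PK.Fr

/-!
Bounded formulas with de Bruijn indices, blocks of single quantifiers, and the classes of uniformly
definable relations on the models of `PA`.
-/

set_option autoImplicit false

open FirstOrder FirstOrder.Language
open Pool.Agent.Helper227.EN
open Pool.Agent.TH752.AR (scons prN)

namespace Pool.Agent.TH738.SV

/-- Bounded formulas; the variables are de Bruijn indices. -/
inductive BF : Type
  | eq (s t : LA.Term ℕ) : BF
  | lt (s t : LA.Term ℕ) : BF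
  | bot : BF
  | imp (f g : BF) : BF
  | ball (t : LA.Term ℕ) (f : BF) : BF

/-- the order relation of an `LA`-structure -/
def ltM (M : Type) [LA.Structure M] (x y : M) : Prop := Structure.RelMap (L := LA) AR.lt ![x, y]

/-- the value of the numeral `n` -/
def nu (M : Type) [LA.Structure M] (n : ℕ) : M :=
  (num n : LA.Term Empty).realize (default : Empty → M)

/-- Truth of bounded formulas; `ball t f` means: for all `x < t`, `f` holds for `x, w 0, w 1, …`. -/
def BF.sat (M : Type) [LA.Structure M] : BF → (ℕ → M) → Prop
  | .eq s t, w => s.realize w = t.realize w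
  | .lt s t, w => ltM M (s.realize w) (t.realize w)
  | .bot, _ => False
  | .imp f g, w => f.sat M w → g.sat M w
  | .ball t f, w => ∀ x : M, ltM M x (t.realize w) → f.sat M (scons x w)

/-- `PS M true n f w`: `∃ x₁ ∀ x₂ ∃ x₃ … (n quantifiers) f(xₙ, …, x₁, w)`;
`PS M false n f w`: the same, beginning with `∀`. -/
def PS (M : Type) [LA.Structure M] : Bool → ℕ → BF → (ℕ → M) → Prop
  | _, 0, f, w => f.sat M w
  | true, n + 1, f, w => ∃ x : M, PS M false n f (scons x w)
  | false, n + 1, f, w => ∀ x : M, PS M true n f (scons x w)

/-- relations on all the structures -/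
abbrev URel := ∀ (M : Type) [LA.Structure M], (ℕ → M) → Prop

/-- `Cl true n R`: the relation `R` is `Σ_n` definable, uniformly in all the models of `PA`;
`Cl false n R`: it is `Π_n` definable. -/
def Cl (b : Bool) (n : ℕ) (R : URel) : Prop :=
  ∃ f : BF, ∀ (M : Type) [LA.Structure M], M ⊨ PA → ∀ w : ℕ → M, PS M b n f w ↔ R M w

/-- the sequence `xs` in reversed order, followed by the value of the numeral `0` -/
def rv {M : Type} [LA.Structure M] {k : ℕ} (xs : Fin k → M) : ℕ → M :=
  fun i => if h : i < k then xs ⟨k - 1 - i, by omega⟩ else nu M 0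

end Pool.Agent.TH738.SV
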