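import Pool.Agent.TH738.SV.Stage
import Pool.Agent.Helper227.EN.Alg

/-!
The tasks and the sequence of conditions.
-/

set_option autoImplicit false

open FirstOrder FirstOrder.Language
open Pool.Agent.Helper227.EN Pool.Agent.TH748.MU
open Pool.Agent.TH752.AR (scons prN)

namespace Pool.Agent.TH738.SV

/-! ### Models of `PA` are infinite -/

theorem nu_facts (M : Type) [LA.Structure M] (h : M ⊨ PA) :
    (∀ i j, nu M i = nu M j → i = j) ∧ ∀ x : M, ¬ ltM M x x := by
  have : Nonempty M := ⟨nu M 0⟩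
  have hm : M ⊨ PAminus := Theory.Model.mono h Set.subset_union_left
  obtain ⟨i1, i2, i3, i4, hc⟩ := exists_alg M hm
  have h1 : ∀ k : ℕ, nu M k = (k : M) := by
    intro k
    induction k with
    | zero =>
      show (t0 : LA.Term Empty).realize default = _
      rw [ea_t0, hc.zero, Nat.cast_zero]
    | succ k ih =>
      show (tadd (num k) t1 : LA.Term Empty).realize default = _
      rw [ea_tadd, ea_t1, hc.add, hc.one, Nat.cast_succ, ← ih]
      rfl
  refine ⟨fun i j hij => ?_, fun x hx => ?_⟩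
  · rw [h1, h1] at hij
    exact Nat.cast_injective hij
  · exact lt_irrefl x ((hc.lt x x).1 hx)

theorem exists_new (p : PM) : ∃ x : p.M, ∀ i < p.m, p.a i ≠ x := by
  by_contra hn
  push Not at hn
  have h1 : ∀ k : Fin (p.m + 1), ∃ i : Fin p.m, p.a i = nu p.M k := fun k => by
    obtain ⟨i, hi, h⟩ := hn (nu p.M k)
    exact ⟨⟨i, hi⟩, h⟩
  choose f hf using h1
  obtain ⟨i, j, hij, hfij⟩ := Fintype.exists_ne_map_eq_of_card_lt f (by simp)
  apply hij
  apply Fin.ext
  apply (nu_facts p.M p.pa).1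
  rw [← hf, ← hf, hfij]

/-- adding one element -/
theorem add_one (p : PM) (x : p.M) (hx : ∀ i < p.m, p.a i ≠ x) :
    Elem p ⟨p.M, p.str, p.pa, fun i => if i = p.m then x else p.a i, p.m + 1, by
      intro i j hi hj h
      split_ifs at h with h1 h2 h2
      · omega
      · exact absurd h.symm (hx j (by omega))
      · exact absurd h (hx i (by omega))
      · exact p.inj i j (by omega) (by omega) h⟩ := by
  refine ⟨Nat.le_succ _, fun b k f => ?_⟩
  have : cut p.m (fun i => if i = p.m then x else p.a i) = cut p.m p.a := by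
    funext i
    unfold cut
    by_cases h : i < p.m
    · rw [if_pos h, if_pos h]
      exact if_neg (by omega)
    · rw [if_neg h, if_neg h]
  show PS p.M b k f (cut p.m p.a) ↔ PS p.M b k f (cut p.m (fun i => if i = p.m then x else p.a i))
  rw [this]

/-! ### Tasks -/

/-- tasks -/
structure Task (T : PM → Prop) : Prop where
  ex : ∀ p, ∃ p', Elem p p' ∧ T p'
  mono : ∀ p q, T p → Elem p q → T q

theorem task_grow (C : CLs) (m : ℕ) : Task (fun p => m ≤ p.m) where
  ex := by
    intro p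
    have : ∀ d, ∃ p', Elem p p' ∧ d ≤ p'.m := by
      intro d
      induction d with
      | zero => exact ⟨p, Elem.refl p, Nat.zero_le _⟩
      | succ d ih =>
        obtain ⟨q, h1, h2⟩ := ih
        obtain ⟨x, hx⟩ := exists_new q
        exact ⟨_, C.elem_trans h1 (add_one q x hx), Nat.succ_le_succ h2⟩
    exact this m
  mono := fun _ _ h hpq => h.trans hpq.1

theorem task_dec (C : CLs) (ce : CompactExtStmt) (k : ℕ) (φ : BC k) : Task (Dec k φ) where
  ex := by
    intro p
    cases k with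
    | zero =>
      obtain ⟨q, h1, h2⟩ := (task_grow C (bd (show ℕ from φ))).ex p
      refine ⟨q, h1, ?_⟩
      by_cases h3 : Dg q.a (show ℕ from φ) = true
      · exact Or.inl ⟨h2, h3⟩
      · refine Or.inr fun r hr h4 => h3 ?_
        have h5 := C.ext hr (cl_dg C true 0 (show ℕ from φ)) (m := q.m) le_rfl
        dsimp only at h5
        rw [dg_cut h2, dg_cut h2] at h5
        exact h5.2 h4.2
    | succ k =>
      by_cases h : NFrc (k + 1) φ p
      · exact ⟨p, Elem.refl p, Or.inr h⟩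
      · unfold NFrc at h
        push Not at h
        obtain ⟨q, h1, h2⟩ := h
        obtain ⟨p', h3, h4⟩ := claim1 C ce h1 h2
        exact ⟨p', h3, Or.inl h4⟩
  mono := fun _ _ h hpq => h.ext C (hpq.ext k)

/-- the Henkin property for the formula `f` and the elements with index below `m` -/
def Hk (n : ℕ) (f : BF) (m : ℕ) (p : PM) : Prop := m ≤ p.m ∧
  ((∃ x, PS p.M true n f (scons x (cut m p.a))) → ∃ l < p.m, PS p.M true n f (scons (p.a l) (cut m p.a)))

theorem cl_scons (C : CLs) (b : Bool) (n : ℕ) (f : BF) (m l : ℕ) :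
    Cl b n (fun M _ w => PS M b n f (scons (w l) (cut m w))) := by
  refine cl_congr' (C.sub b n (fun M _ w => PS M b n f w)
    (fun i => match i with | 0 => Term.var l | i + 1 => cutT m i) (cl_self b n f)) fun M _ _ w => ?_
  have : (fun i => Term.realize w ((fun i => match i with
      | 0 => Term.var l
      | i + 1 => cutT m i : ℕ → LA.Term ℕ) i)) = scons (w l) (cut m w) := by
    funext i
    cases i with
    | zero => rfl
    | succ i =>
      show (cutT m i).realize w = cut m w i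
      rw [← realize_cutT]
  exact iff_of_eq (congrArg _ this)

theorem cl_exscons (C : CLs) (n : ℕ) (f : BF) (m : ℕ) :
    Cl true (n + 1) (fun M _ w => ∃ x, PS M true n f (scons x (cut m w))) := by
  have h1 : Cl true (n + 1) (fun M _ w => ∃ x, PS M true n f (scons x w)) :=
    C.ex n (fun M _ w => PS M true n f w)
      (C.up true true n (n + 1) _ (Nat.lt_succ_self n) (cl_self true n f))
  exact C.cut h1 m

theorem task_hk (C : CLs) (n : ℕ) (f : BF) (m : ℕ) : Task (Hk n f m) where
  ex := by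
    intro p
    obtain ⟨q, h1, h2⟩ := (task_grow C m).ex p
    by_cases h3 : ∃ x, PS q.M true n f (scons x (cut m q.a))
    · obtain ⟨x, hx⟩ := h3
      by_cases h4 : ∃ l < q.m, q.a l = x
      · obtain ⟨l, hl, rfl⟩ := h4
        exact ⟨q, h1, h2, fun _ => ⟨l, hl, hx⟩⟩
      · push Not at h4
        refine ⟨_, C.elem_trans h1 (add_one q x h4), h2.trans (Nat.le_succ _), fun _ =>
          ⟨q.m, Nat.lt_succ_self _, ?_⟩⟩
        have h5 : cut m (fun i => if i = q.m then x else q.a i) = cut m q.a := by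
          funext i
          unfold cut
          by_cases h : i < m
          · rw [if_pos h, if_pos h]
            exact if_neg (by omega)
          · rw [if_neg h, if_neg h]
        show PS q.M true n f (scons ((fun i => if i = q.m then x else q.a i) q.m)
          (cut m (fun i => if i = q.m then x else q.a i)))
        rw [h5]
        have h6 : (fun i => if i = q.m then x else q.a i) q.m = x := if_pos rfl
        rw [h6]
        exact hx
    · exact ⟨q, h1, h2, fun h => absurd h h3⟩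
  mono := by
    rintro p q ⟨h1, h2⟩ hpq
    refine ⟨h1.trans hpq.1, fun h3 => ?_⟩
    have h4 := (C.elem hpq (cl_exscons C n f m) (m := p.m) le_rfl)
    rw [cut_cut h1, cut_cut h1] at h4
    obtain ⟨l, hl, h5⟩ := h2 (h4.2 h3)
    have h6 := (C.elem hpq (cl_scons C true n f m l) (m := p.m) le_rfl)
    rw [cut_cut h1, cut_cut h1] at h6
    have h7 : ∀ (M : Type) [LA.Structure M] (v : ℕ → M), SV.cut p.m v l = v l := fun M _ v => if_pos hl
    rw [h7, h7] at h6
    exact ⟨l, hl.trans_le hpq.1, h6.1 h5⟩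

theorem tasks (C : CLs) (T : ℕ → PM → Prop) (hT : ∀ i, Task (T i)) (N : ℕ) (p : PM) :
    ∃ p', Elem p p' ∧ ∀ i < N, T i p' := by
  induction N with
  | zero => exact ⟨p, Elem.refl p, fun i hi => absurd hi (by omega)⟩
  | succ N ih =>
    obtain ⟨q, h1, h2⟩ := ih
    obtain ⟨r, h3, h4⟩ := (hT N).ex q
    refine ⟨r, C.elem_trans h1 h3, fun i hi => ?_⟩
    rcases Nat.lt_succ_iff_lt_or_eq.1 hi with h | rfl
    · exact (hT i).mono q r (h2 i h) h3
    · exact h4

/-! ### The sequence -/

/-- all the tasks -/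
inductive TI : Type
  | grow (m : ℕ) : TI
  | jc (k x : ℕ) : TI
  | pc (i x v : ℕ) : TI
  | hk (n : ℕ) (f : BF) (m : ℕ) : TI

deriving instance Countable for TI

/-- the meaning of the tasks -/
def TI.mean (H : Hyp) : TI → PM → Prop
  | .grow m => fun p => m ≤ p.m
  | .jc k x => Dec k (SV.jc H.us k x)
  | .pc i x v => Dec 1 (SV.pc H.us 0 i x v)
  | .hk n f m => Hk n f m

theorem TI.task (H : Hyp) : ∀ t : TI, Task (t.mean H)
  | .grow m => task_grow H.cl m
  | .jc k _ => task_dec H.cl H.ce k _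
  | .pc _ _ _ => task_dec H.cl H.ce 1 _
  | .hk n f m => task_hk H.cl n f m

/-- the properties of the sequence -/
structure IsSeq (H : Hyp) (h : ℕ → ℕ → ℕ) (B : ℕ) (p : ℕ → PM) : Prop where
  hB : 2 ≤ B
  na : ∀ k, ltM (p 0).M (nu (p 0).M k) ((p 0).a 0)
  m0 : 0 < (p 0).m
  ext : ∀ j, Ext (B + j) (p j) (p (j + 1))
  task : ∀ t : TI, ∃ j, ∀ i, j ≤ i → t.mean H (p i)
  out : ∀ j, Outcome H (B + j) (Nat.unpair (Nat.unpair j).1).1
    (h (Nat.unpair (Nat.unpair j).1).2 (B + j + 1)) (p (j + 1))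

theorem exists_seq (H : Hyp) (hc : ChainStmt) (h : ℕ → ℕ → ℕ) :
    ∃ (B : ℕ) (p : ℕ → PM), IsSeq H h B p := by
  obtain ⟨N0, J, b1, b2, b3, b4⟩ := hc
  have hJ : IsChain N0 J := ⟨b1, b2, b3, b4⟩
  have : Nonempty TI := ⟨.grow 0⟩
  obtain ⟨g, hg⟩ := exists_surjective_nat TI
  have step : ∀ (j : ℕ) (p : {p : PM // J (N0 + 3 + j + 1) 0 p.M}),
      ∃ q : {p : PM // J (N0 + 3 + (j + 1) + 1) 0 p.M}, Ext (N0 + 3 + j) p.1 q.1 ∧
        (∀ i < j, (g i).mean H q.1) ∧
        Outcome H (N0 + 3 + j) (Nat.unpair (Nat.unpair j).1).1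
          (h (Nat.unpair (Nat.unpair j).1).2 (N0 + 3 + j + 1)) q.1 := by
    rintro j ⟨p, hp⟩
    obtain ⟨q, j', h1, h2, h3⟩ := stage H hJ (Nat.unpair (Nat.unpair j).1).1
      (h (Nat.unpair (Nat.unpair j).1).2 (N0 + 3 + j + 1))
      (r := N0 + 3 + j) (by omega) (by omega) hp
    obtain ⟨r, h4, h5⟩ := tasks H.cl (fun i => (g i).mean H) (fun i => (g i).task H) j q
    have h6 : J (N0 + 3 + (j + 1) + 1) 0 r.M := IsChain.elem H hJ (b3 _ _ q.M q.pa h2) h4
    refine ⟨⟨r, h6⟩, ?_, h5, h3.ext H (by omega) (h4.ext _)⟩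
    exact H.cl.ext_trans (H.cl.le_down (Nat.lt_succ_self _) h1) (h4.ext _)
  obtain ⟨M, str, hpa, ⟨a, ha⟩, h0⟩ := b1
  have h1 : ∀ d, J (N0 + d) 0 M := by
    intro d
    induction d with
    | zero => exact h0
    | succ d ih => exact b3 _ _ M hpa ih
  let p0 : {p : PM // J (N0 + 3 + 0 + 1) 0 p.M} := ⟨⟨M, str, hpa, fun _ => a, 1, by
    intro i j hi hj _; omega⟩, h1 4⟩
  choose nx hx1 hx2 hx3 using step
  let s : (j : ℕ) → {p : PM // J (N0 + 3 + j + 1) 0 p.M} := fun j => Nat.rec p0 (fun j p => nx j p) j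
  refine ⟨N0 + 3, fun j => (s j).1, by omega, ha, Nat.one_pos, fun j => hx1 j (s j), fun t => ?_,
    fun j => hx3 j (s j)⟩
  obtain ⟨i, rfl⟩ := hg t
  refine ⟨i + 2, fun j hj => ?_⟩
  obtain ⟨j, rfl⟩ := Nat.exists_eq_add_of_le' (show 1 ≤ j by omega)
  exact hx2 j (s j) i (by omega)

end Pool.Agent.TH738.SV
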