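import Pool.Agent.TH738.SV.Amal
import Pool.Agent.TH748.MU.Inj

/-!
One stage of the construction: the diagonalization against one family.
-/

set_option autoImplicit false

open FirstOrder FirstOrder.Language
open Pool.Agent.Helper227.EN Pool.Agent.TH748.MU
open Pool.Agent.TH752.AR (scons prN)

namespace Pool.Agent.TH738.SV

/-- the Goedel numbers of the true `Σ_n` sentences -/
def TS (n : ℕ) (M : Type) [LA.Structure M] : Set ℕ :=
  {x | ∃ φ : LA.Sentence, Pool.Agent.TH754.PK.Hier true n φ ∧ M ⊨ φ ∧ gf φ = x}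

theorem cut_zero {M : Type} [LA.Structure M] (w : ℕ → M) : cut 0 w = fun _ => nu M 0 := by
  funext i
  exact if_neg (Nat.not_lt_zero i)

theorem rv_zero {M : Type} [LA.Structure M] (xs : Fin 0 → M) : rv xs = fun _ => nu M 0 := by
  funext i
  exact dif_neg (Nat.not_lt_zero i)

theorem ts_eq (nf : NfStmt) {n : ℕ} {M M' : Type} [LA.Structure M] [LA.Structure M'] (hM : M ⊨ PA)
    (hM' : M' ⊨ PA)
    (h : ∀ f, PS M true n f (fun _ => nu M 0) ↔ PS M' true n f (fun _ => nu M' 0)) :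
    TS n M = TS n M' := by
  ext x
  have h1 : ∀ φ : LA.Sentence, Pool.Agent.TH754.PK.Hier true n φ → (M ⊨ φ ↔ M' ⊨ φ) := by
    intro φ hφ
    obtain ⟨f, hf⟩ := nf true n 0 φ hφ
    have h2 := hf M hM default
    have h3 := hf M' hM' default
    rw [rv_zero] at h2 h3
    show BoundedFormula.Realize φ default default ↔ BoundedFormula.Realize φ default default
    rw [← h2, ← h3]
    exact h f
  constructor
  · rintro ⟨φ, h2, h3, h4⟩
    exact ⟨φ, h2, (h1 φ h2).1 h3, h4⟩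
  · rintro ⟨φ, h2, h3, h4⟩
    exact ⟨φ, h2, (h1 φ h2).2 h3, h4⟩

theorem ts_ext (C : CLs) (nf : NfStmt) {n : ℕ} {p q : PM} (h : Ext n p q) :
    TS n p.M = TS n q.M := by
  refine ts_eq nf p.pa q.pa fun f => ?_
  have := C.ext h (R := fun M _ w => PS M true n f w) (cl_self true n f) (Nat.zero_le p.m)
  rwa [cut_zero, cut_zero] at this

theorem ts_ne (ts : ToSentStmt) {n : ℕ} {M M' : Type} [LA.Structure M] [LA.Structure M']
    {f : BF} (h : PS M' true n f (fun _ => nu M' 0)) (h' : ¬ PS M true n f (fun _ => nu M 0)) :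
    TS n M ≠ TS n M' := by
  obtain ⟨φ, h1, h2⟩ := ts true n f
  intro he
  have h3 : gf φ ∈ TS n M' := ⟨φ, h1, (h2 M').2 h, rfl⟩
  rw [← he] at h3
  obtain ⟨ψ, _, h5, h6⟩ := h3
  rw [gf_inj _ _ h6] at h5
  exact h' ((h2 M).1 h5)

theorem Elem.eqv (C : CLs) {p q : PM} (h : Elem p q) : Eqv p.M q.M := by
  intro b n f
  have := C.elem h (R := fun M _ w => PS M b n f w) (cl_self b n f) (Nat.zero_le p.m)
  rwa [cut_zero, cut_zero] at this

/-- the hypotheses about the chains of theories -/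
structure IsChain (N0 : ℕ) (J : ℕ → ℕ → ∀ (M : Type) [LA.Structure M], Prop) : Prop where
  base : ∃ (M : Type) (_ : LA.Structure M), M ⊨ PA ∧ (∃ a : M, ∀ k : ℕ, ltM M (nu M k) a) ∧ J N0 0 M
  inv : ∀ (n j : ℕ) (M : Type) [LA.Structure M] (M' : Type) [LA.Structure M'], M ⊨ PA → M' ⊨ PA →
    Eqv M M' → J n j M → J n j M'
  up : ∀ (n j : ℕ) (M : Type) [LA.Structure M], M ⊨ PA → J n j M → J (n + 1) 0 M
  inc : ∀ (n j : ℕ) (M : Type) [LA.Structure M], N0 ≤ n → M ⊨ PA → J n j M → ∀ a : ℕ → M,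
    ∃ (M' : Type) (_ : LA.Structure M') (a' : ℕ → M'), M' ⊨ PA ∧ J n (j + 1) M' ∧
      (∀ f : BF, PS M true n f a → PS M' true n f a') ∧
      ∃ f : BF, PS M' true n f (fun _ => nu M' 0) ∧ ¬ PS M true n f (fun _ => nu M 0)

/-- the hypotheses -/
structure Hyp : Prop where
  cl : CLs
  ce : CompactExtStmt
  nf : NfStmt
  ts : ToSentStmt
  fo : OfFormStmt
  us : UseStmt

section
variable (H : Hyp)

/-- `v` is forced to be a wrong index -/
def Bad (n v : ℕ) (p : PM) : Prop := ∃ Y : Set ℕ, (Frc 2 (nq H.us v Y) p ∧ Y = TS n p.M) ∨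
  (NFrc 2 (nq H.us v Y) p ∧ Y ≠ TS n p.M)

theorem Bad.ext {n v : ℕ} {p q : PM} (hn : 2 ≤ n) (h : Bad H n v p) (hpq : Ext n p q) :
    Bad H n v q := by
  have h2 : Ext 2 p q := H.cl.ext_down hn hpq
  obtain ⟨Y, h1 | h1⟩ := h
  · exact ⟨Y, Or.inl ⟨h1.1.ext' H.cl h2, h1.2.trans (ts_ext H.cl H.nf hpq)⟩⟩
  · exact ⟨Y, Or.inr ⟨h1.1.ext H.cl h2, fun h3 => h1.2 (h3.trans (ts_ext H.cl H.nf hpq).symm)⟩⟩

variable {N0 : ℕ} {J : ℕ → ℕ → ∀ (M : Type) [LA.Structure M], Prop} (hJ : IsChain N0 J)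

include H hJ in
theorem IsChain.elem {n j : ℕ} {p q : PM} (h : J n j p.M) (hpq : Elem p q) : J n j q.M :=
  hJ.inv n j p.M q.M p.pa q.pa (hpq.eqv H.cl) h

include hJ in
theorem claim2 {n j : ℕ} {p : PM} (hn0 : N0 ≤ n) (hn : 3 ≤ n) (h : J n j p.M) (v : ℕ) :
    ∃ (p' : PM) (j' : ℕ), Le n p p' ∧ J n j' p'.M ∧ Bad H n v p' := by
  by_cases hq : NFrc 2 (nq H.us v (TS n p.M)) p
  · obtain ⟨M', str', a', hpa, h1, h2, f, hf, hf'⟩ := hJ.inc n j p.M hn0 p.pa h p.a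
    have hinj : ∀ i j, i < p.m → j < p.m → a' i = a' j → i = j := by
      intro i j hi hj he
      by_contra hij
      obtain ⟨g, hg⟩ := cl_ne H.cl true n i j
      exact (hg M' hpa a').1 (h2 g ((hg p.M p.pa p.a).2 fun h3 => hij (p.inj i j hi hj h3))) he
    let p' : PM := ⟨M', str', hpa, a', p.m, hinj⟩
    have hle : Le n p p' := by
      refine ⟨le_rfl, fun g hg => ?_⟩
      obtain ⟨g', hg'⟩ := H.cl.cutE (cl_self true n g) p.m
      exact (hg' M' hpa a').1 (h2 g' ((hg' p.M p.pa p.a).2 hg))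
    refine ⟨p', j + 1, hle, h1, TS n p.M, Or.inr ⟨?_, ts_ne H.ts hf hf'⟩⟩
    exact hq.ext H.cl (H.cl.le_down (by omega) hle)
  · unfold NFrc at hq
    push Not at hq
    obtain ⟨q, hq, hq'⟩ := hq
    obtain ⟨p', h1, h2⟩ := claim1 H.cl H.ce hq hq'
    exact ⟨p', j, (h1.ext n).le, IsChain.elem H hJ h h1, TS n p.M,
      Or.inl ⟨h2, ts_ext H.cl H.nf (h1.ext n)⟩⟩

/-- `t(s) = v` is forced, and at least `c` changes before `s` -/
def Chg (r e : ℕ) : ℕ → ℕ → ℕ → PM → Prop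
  | 0, s, v, p => Frc (r + 1) (pc H.us r e (Nat.pair r s) v) p
  | c + 1, s, v, p => Frc (r + 1) (pc H.us r e (Nat.pair r s) v) p ∧
      ∃ s' < s, ∃ v', v' ≠ v ∧ Chg r e c s' v' p

theorem Chg.le {r e : ℕ} {p q : PM} (hpq : Le (r + 1) p q) : ∀ {c s v : ℕ}, Chg H r e c s v p →
    Chg H r e c s v q
  | 0, _, _, h => Frc.mono H.cl _ _ p q h hpq
  | _ + 1, _, _, ⟨h, s', hs', v', hv', h'⟩ =>
    ⟨Frc.mono H.cl _ _ p q h hpq, s', hs', v', hv', Chg.le hpq h'⟩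

/-- the possible outcomes of the diagonalization -/
def Outcome (r e K : ℕ) (p : PM) : Prop :=
  (∃ s v, Bad H (r + 1) v p ∧ ∀ q, Ext (r + 1) p q → ∀ s', s < s' → ∀ v', v' ≠ v →
    ¬ Frc (r + 1) (pc H.us r e (Nat.pair r s') v') q) ∨
  (∃ s v, Chg H r e (K + 1) s v p) ∨
  ∀ v, NFrc (r + 1) (pc H.us r e (Nat.pair r 0) v) p

theorem Outcome.ext {r e K : ℕ} {p q : PM} (hr : 2 ≤ r + 1) (h : Outcome H r e K p)
    (hpq : Ext (r + 1) p q) : Outcome H r e K q := by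
  rcases h with ⟨s, v, h1, h2⟩ | ⟨s, v, h1⟩ | h1
  · exact Or.inl ⟨s, v, h1.ext H hr hpq, fun q' hq' => h2 q' (H.cl.ext_trans hpq hq')⟩
  · exact Or.inr (Or.inl ⟨s, v, h1.le H hpq.le⟩)
  · exact Or.inr (Or.inr fun v => (h1 v).ext H.cl hpq)

include hJ in
theorem stage_aux {r e K : ℕ} (hn0 : N0 ≤ r + 1) (hn : 3 ≤ r + 1) : ∀ (d c : ℕ), c + d = K + 1 →
    ∀ (p : PM) (j s v : ℕ), J (r + 1) j p.M → Chg H r e c s v p →
    ∃ (p' : PM) (j' : ℕ), Le (r + 1) p p' ∧ J (r + 1) j' p'.M ∧ Outcome H r e K p' := by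
  intro d
  induction d with
  | zero =>
    intro c hc p j s v h1 h2
    have : c = K + 1 := by omega
    subst this
    exact ⟨p, j, (Ext.refl _ p).le, h1, Or.inr (Or.inl ⟨s, v, h2⟩)⟩
  | succ d ih =>
    intro c hc p j s v h1 h2
    obtain ⟨p1, j1, h3, h4, h5⟩ := claim2 H hJ hn0 hn h1 v
    have h6 : Chg H r e c s v p1 := h2.le H h3
    by_cases hq : ∀ q, Ext (r + 1) p1 q → ∀ s', s < s' → ∀ v', v' ≠ v →
        ¬ Frc (r + 1) (pc H.us r e (Nat.pair r s') v') q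
    · exact ⟨p1, j1, h3, h4, Or.inl ⟨s, v, h5, hq⟩⟩
    · push Not at hq
      obtain ⟨q, hq1, s', hs', v', hv', hq2⟩ := hq
      obtain ⟨p2, h7, h8⟩ := claim1 H.cl H.ce hq1 hq2
      obtain ⟨p', j', h9, h10, h11⟩ := ih (c + 1) (by omega) p2 j1 s' v' (IsChain.elem H hJ h4 h7)
        ⟨h8, s, hs', v, hv'.symm, h6.le H (h7.ext _).le⟩
      exact ⟨p', j', H.cl.le_trans h3 (H.cl.le_trans (h7.ext _).le h9), h10, h11⟩

include hJ in
theorem stage {r j : ℕ} (e K : ℕ) (hn0 : N0 ≤ r + 1) (hn : 3 ≤ r + 1) {p : PM}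
    (h : J (r + 1) j p.M) :
    ∃ (p' : PM) (j' : ℕ), Le (r + 1) p p' ∧ J (r + 1) j' p'.M ∧ Outcome H r e K p' := by
  by_cases hv : ∀ v, NFrc (r + 1) (pc H.us r e (Nat.pair r 0) v) p
  · exact ⟨p, j, (Ext.refl _ p).le, h, Or.inr (Or.inr hv)⟩
  · unfold NFrc at hv
    push Not at hv
    obtain ⟨v, q, h1, h2⟩ := hv
    obtain ⟨p1, h3, h4⟩ := claim1 H.cl H.ce h1 h2
    obtain ⟨p', j', h5, h6, h7⟩ := stage_aux H hJ (e := e) (K := K) hn0 hn (K + 1) 0 (by omega) p1 j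
      0 v (IsChain.elem H hJ h h3) h4
    exact ⟨p', j', H.cl.le_trans (h3.ext _).le h5, h6, h7⟩

end

end Pool.Agent.TH738.SV
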