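import Pool.Agent.TH738.SV.Sem

/-!
Statements of the parts of the proof.
-/

set_option autoImplicit false

open FirstOrder FirstOrder.Language
open Pool.Agent.Helper227.EN
open Pool.Agent.TH752.AR (scons prN)

namespace Pool.Agent.TH738.SV

/-! ### CL: closure properties of the classes `Cl b n` -/

def ClNot : Prop := ∀ (b : Bool) (n : ℕ) (R : URel), Cl b n R → Cl (!b) n (fun M _ w => ¬ R M w)

def ClAnd : Prop := ∀ (b : Bool) (n : ℕ) (R S : URel), Cl b n R → Cl b n S →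
  Cl b n (fun M _ w => R M w ∧ S M w)

def ClOr : Prop := ∀ (b : Bool) (n : ℕ) (R S : URel), Cl b n R → Cl b n S →
  Cl b n (fun M _ w => R M w ∨ S M w)

def ClUp : Prop := ∀ (b b' : Bool) (n n' : ℕ) (R : URel), n < n' → Cl b n R → Cl b' n' R

def ClEx : Prop := ∀ (n : ℕ) (R : URel), Cl true (n + 1) R →
  Cl true (n + 1) (fun M _ w => ∃ x : M, R M (scons x w))

def ClAll : Prop := ∀ (n : ℕ) (R : URel), Cl false (n + 1) R →
  Cl false (n + 1) (fun M _ w => ∀ x : M, R M (scons x w))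

def ClSub : Prop := ∀ (b : Bool) (n : ℕ) (R : URel) (g : ℕ → LA.Term ℕ), Cl b n R →
  Cl b n (fun M _ w => R M (fun i => (g i).realize w))

/-! ### TR: translation from and to formulas of the language of arithmetic -/

/-- formulas of the arithmetical hierarchy have the form `PS` over `PA` -/
def NfStmt : Prop := ∀ (b : Bool) (n k : ℕ) (φ : LA.BoundedFormula Empty k),
  Pool.Agent.TH754.PK.Hier b n φ → ∃ f : BF, ∀ (M : Type) [LA.Structure M], M ⊨ PA →
    ∀ xs : Fin k → M, PS M b n f (rv xs) ↔ φ.Realize default xs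

def ToSentStmt : Prop := ∀ (b : Bool) (n : ℕ) (f : BF), ∃ φ : LA.Sentence,
  Pool.Agent.TH754.PK.Hier b n φ ∧ ∀ (M : Type) [LA.Structure M],
    M ⊨ φ ↔ PS M b n f (fun _ => nu M 0)

def ToFormStmt : Prop := ∀ (b : Bool) (n : ℕ) (f : BF), ∃ φ : LA.Formula ℕ,
  ∀ (M : Type) [LA.Structure M] (w : ℕ → M), φ.Realize w ↔ PS M b n f w

/-- all the formulas have the form `PS` over `PA` -/
def OfFormStmt : Prop := ∀ (k : ℕ) (φ : LA.BoundedFormula Empty k), ∃ (n : ℕ) (f : BF),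
  ∀ (M : Type) [LA.Structure M], M ⊨ PA →
    ∀ xs : Fin k → M, PS M true n f (rv xs) ↔ φ.Realize default xs

/-! ### SAT: truth of bounded formulas -/

/-- the pairing function `(x + y)² + x` of a structure -/
def prM (M : Type) [LA.Structure M] (x y : M) : M :=
  Structure.funMap (L := LA) AF.add ![Structure.funMap (L := LA) AF.mul
    ![Structure.funMap (L := LA) AF.add ![x, y], Structure.funMap (L := LA) AF.add ![x, y] ], x]

/-- `e` is a stack whose first `k` entries are `w 0, …, w (k - 1)` -/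
def Stk (M : Type) [LA.Structure M] : ℕ → M → (ℕ → M) → Prop
  | 0, _, _ => True
  | k + 1, e, w => ∃ e' : M, e = prM M (w 0) e' ∧ Stk M k e' (fun i => w (i + 1))

/-- There are `Σ₁` definitions of truth and of falsity of bounded formulas. -/
def SatStmt : Prop := ∃ SP SN : ∀ (M : Type) [LA.Structure M], M → M → Prop,
  Cl true 1 (fun M _ w => SP M (w 0) (w 1)) ∧ Cl true 1 (fun M _ w => SN M (w 0) (w 1)) ∧
  ∀ f : BF, ∃ k y : ℕ, ∀ (M : Type) [LA.Structure M], M ⊨ PA → ∀ (w : ℕ → M) (e : M), Stk M k e w →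
    (SP M (nu M y) e ↔ f.sat M w) ∧ (SN M (nu M y) e ↔ ¬ f.sat M w)

/-- There are `Σ_n` truth definitions for `Σ_n` sentences. -/
def TrStmt : Prop := ∀ n : ℕ, 1 ≤ n → ∃ Tr : ∀ (M : Type) [LA.Structure M], M → Prop,
  Cl true n (fun M _ w => Tr M (w 0)) ∧
  ∀ f : BF, ∃ y : ℕ, ∀ (M : Type) [LA.Structure M], M ⊨ PA →
    (Tr M (nu M y) ↔ PS M true n f (fun _ => nu M 0))

/-! ### ORA: the use principle -/

/-- the finite information `c` (positive part, negative part) is correct for `X` -/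
def Ok (X : Set ℕ) (c : List ℕ × List ℕ) : Prop := (∀ x ∈ c.1, x ∈ X) ∧ ∀ x ∈ c.2, x ∉ X

def UseStmt : Prop := ∀ (c : OCode) (n v : ℕ), ∃ U : Set (List ℕ × List ℕ), ∀ X : Set ℕ,
  v ∈ c.eval X n ↔ ∃ i ∈ U, Ok X i

/-! ### ULT: compactness, with ultraproducts -/

/-- the sequence `w`, with the entries from `m` on replaced by the value of the numeral `0` -/
def cut {M : Type} [LA.Structure M] (m : ℕ) (w : ℕ → M) : ℕ → M :=
  fun i => if i < m then w i else nu M 0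

def CompactStmt : Prop := ∀ P : ℕ → Bool × ℕ × BF,
  (∀ N : ℕ, ∃ (M : Type) (_ : LA.Structure M) (w : ℕ → M), M ⊨ PA ∧
    ∀ i < N, PS M (P i).1 (P i).2.1 (P i).2.2 w) →
  ∃ (M : Type) (_ : LA.Structure M) (w : ℕ → M), M ⊨ PA ∧
    ∀ i, PS M (P i).1 (P i).2.1 (P i).2.2 w

/-- the same for extensions of a sequence of elements of one model; the new model is an elementary
extension of the old one -/
def CompactExtStmt : Prop := ∀ (P : ℕ → Bool × ℕ × BF) (M : Type) [LA.Structure M] (a : ℕ → M)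
  (m : ℕ), M ⊨ PA →
  (∀ N : ℕ, ∃ w : ℕ → M, (∀ i < m, w i = a i) ∧ ∀ i < N, PS M (P i).1 (P i).2.1 (P i).2.2 w) →
  ∃ (M' : Type) (_ : LA.Structure M') (w : ℕ → M'), M' ⊨ PA ∧
    (∀ i, PS M' (P i).1 (P i).2.1 (P i).2.2 w) ∧
    ∀ (b : Bool) (n : ℕ) (f : BF), PS M' b n f (cut m w) ↔ PS M b n f (cut m a)

/-! ### FLEX: a flexible formula -/

def FlexStmt : Prop := ∃ (N : ℕ) (F : ∀ (M : Type) [LA.Structure M], M → Prop),
  Cl true N (fun M _ w => F M (w 0)) ∧
  ∀ τ : Finset ℕ, ∃ (M : Type) (_ : LA.Structure M), M ⊨ PA ∧ ∀ x : M, F M x ↔ ∃ k ∈ τ, x = nu M k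

/-! ### CHAIN: increasing chains of `Σ_n` theories -/

/-- the models `M` and `M'` satisfy the same sentences -/
def Eqv (M : Type) [LA.Structure M] (M' : Type) [LA.Structure M'] : Prop :=
  ∀ (b : Bool) (n : ℕ) (f : BF), PS M b n f (fun _ => nu M 0) ↔ PS M' b n f (fun _ => nu M' 0)

def ChainStmt : Prop := ∃ (N0 : ℕ) (J : ℕ → ℕ → ∀ (M : Type) [LA.Structure M], Prop),
  (∃ (M : Type) (_ : LA.Structure M), M ⊨ PA ∧ (∃ a : M, ∀ k : ℕ, ltM M (nu M k) a) ∧ J N0 0 M) ∧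
  (∀ (n j : ℕ) (M : Type) [LA.Structure M] (M' : Type) [LA.Structure M'], M ⊨ PA → M' ⊨ PA →
    Eqv M M' → J n j M → J n j M') ∧
  (∀ (n j : ℕ) (M : Type) [LA.Structure M], M ⊨ PA → J n j M → J (n + 1) 0 M) ∧
  (∀ (n j : ℕ) (M : Type) [LA.Structure M], N0 ≤ n → M ⊨ PA → J n j M → ∀ a : ℕ → M,
    ∃ (M' : Type) (_ : LA.Structure M') (a' : ℕ → M'), M' ⊨ PA ∧ J n (j + 1) M' ∧
      (∀ f : BF, PS M true n f a → PS M' true n f a') ∧
      ∃ f : BF, PS M' true n f (fun _ => nu M' 0) ∧ ¬ PS M true n f (fun _ => nu M 0))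

end Pool.Agent.TH738.SV
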